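import Pool.Agent.Lib_helper8.QAATree

/-!
# Decision trees of bounded expected depth
-/

set_option autoImplicit false
set_option linter.unusedSectionVars false

open Finset

namespace Pool.Agent.Lib_helper8.QAA

variable {I : Type} [Fintype I] [DecidableEq I]

/-- `CompE K g`: the function `g` is computed by a decision tree of expected depth at most `K`. -/
inductive CompE : ℝ → ((I → Bool) → ℝ) → Prop
  | leaf (K c : ℝ) (g : (I → Bool) → ℝ) (hK : 0 ≤ K) (h : ∀ x, g x = c) : CompE K g
  | node (K K0 K1 : ℝ) (i : I) (g g0 g1 : (I → Bool) → ℝ) (hK : 1 + (K0 + K1) / 2 ≤ K)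
      (h0 : CompE K0 g0) (h1 : CompE K1 g1) (e0 : ∀ x, g0 (flip i x) = g0 x)
      (e1 : ∀ x, g1 (flip i x) = g1 x) (e : ∀ x, g x = if x i then g1 x else g0 x) : CompE K g

lemma compE_mono {K K' : ℝ} {g : (I → Bool) → ℝ} (h : CompE K g) (hK : K ≤ K') : CompE K' g := by
  cases h with
  | leaf _ c _ h0 h => exact CompE.leaf K' c g (h0.trans hK) h
  | node _ K0 K1 i _ g0 g1 h1 h2 h3 e0 e1 e =>
    exact CompE.node K' K0 K1 i g g0 g1 (h1.trans hK) h2 h3 e0 e1 e

/-- The two-function OSSS inequality, for trees of bounded expected depth. -/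
lemma osssE {τ : ℝ} (hτ : 0 ≤ τ) {K : ℝ} {g : (I → Bool) → ℝ} (h : CompE K g) :
    ∀ (f : (I → Bool) → ℝ), (∀ x, |g x| ≤ 1) → (∀ i, ex (fun x => |f x - f (flip i x)|) ≤ τ) →
    |ex (fun x => f x * g x) - ex f * ex g| ≤ K * τ / 2 := by
  induction h with
  | leaf K c g hK hc =>
    intro f hg1 hf
    have h1 : ex (fun x => f x * g x) = c * ex f := by
      rw [← ex_const_mul]
      congr 1
      funext x
      rw [hc x, mul_comm]
    have h2 : ex g = c := by
      have : g = fun _ => c := funext hc
      rw [this, ex_const]
    rw [h1, h2, mul_comm (ex f) c, sub_self, abs_zero]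
    positivity
  | node K K0 K1 i g g0 g1 hK h0 h1 e0 e1 e ih0 ih1 =>
    intro f hg1 hf
    set fb : (I → Bool) → ℝ := fun x => (f x + f (flip i x)) / 2 with hfb
    have hfbflip : ∀ x, fb (flip i x) = fb x := by
      intro x
      simp only [hfb, flip_flip]
      ring
    have hexfb : ex fb = ex f := by
      have : fb = fun x => (1 / 2) * f x + (1 / 2) * f (flip i x) := by
        funext x; simp only [hfb]; ring
      rw [this, ex_add, ex_const_mul, ex_const_mul, ex_flip]
      ring
    have hfbinf : ∀ j, ex (fun x => |fb x - fb (flip j x)|) ≤ τ := by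
      intro j
      have h2 : ex (fun x => |fb x - fb (flip j x)|) ≤
          ex (fun x => (1 / 2) * |f x - f (flip j x)| +
            (1 / 2) * |f (flip i x) - f (flip j (flip i x))|) := by
        apply ex_mono
        intro x
        simp only [hfb]
        rw [flip_comm i j x]
        have h3 : (f x + f (flip i x)) / 2 - (f (flip j x) + f (flip j (flip i x))) / 2 =
            (1 / 2) * (f x - f (flip j x)) + (1 / 2) * (f (flip i x) - f (flip j (flip i x))) := by
          ring
        rw [h3]
        refine (abs_add_le _ _).trans ?_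
        rw [abs_mul, abs_mul]
        norm_num
      refine h2.trans ?_
      rw [ex_add, ex_const_mul, ex_const_mul, ex_flip (fun x => |f x - f (flip j x)|) i]
      have := hf j
      linarith
    have hg0 : ∀ x, |g0 x| ≤ 1 := by
      intro x
      cases hx : x i with
      | false =>
        have := hg1 x
        rw [e x, hx] at this
        simpa using this
      | true =>
        have := hg1 (flip i x)
        rw [e (flip i x), show flip i x i = false by simp [flip, hx], e0] at this
        simpa using this
    have hg1' : ∀ x, |g1 x| ≤ 1 := by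
      intro x
      cases hx : x i with
      | true =>
        have := hg1 x
        rw [e x, hx] at this
        simpa using this
      | false =>
        have := hg1 (flip i x)
        rw [e (flip i x), show flip i x i = true by simp [flip, hx], e1] at this
        simpa using this
    have c0 := ih0 fb hg0 hfbinf
    have c1 := ih1 fb hg1' hfbinf
    have hEg : ex g = (ex g0 + ex g1) / 2 := by
      have : g = fun x => if x i then g1 x else g0 x := funext e
      rw [this, ex_ite e0 e1]
    have hEfg : ex (fun x => fb x * g x) =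
        (ex (fun x => fb x * g0 x) + ex (fun x => fb x * g1 x)) / 2 := by
      rw [← ex_ite (F := fun x => fb x * g0 x) (G := fun x => fb x * g1 x) (i := i)
        (fun x => by rw [hfbflip, e0]) (fun x => by rw [hfbflip, e1])]
      congr 1
      funext x
      rw [e x]
      split_ifs <;> rfl
    have hdiff : ex (fun x => f x * g x) - ex f * ex g =
        ex (fun x => (f x - fb x) * g x) + ((ex (fun x => fb x * g0 x) - ex fb * ex g0) +
          (ex (fun x => fb x * g1 x) - ex fb * ex g1)) / 2 := by
      have h3 : ex (fun x => (f x - fb x) * g x) =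
          ex (fun x => f x * g x) - ex (fun x => fb x * g x) := by
        rw [← ex_sub]
        congr 1
        funext x
        ring
      rw [h3, hEfg, hEg, hexfb]
      ring
    have h4 : |ex (fun x => (f x - fb x) * g x)| ≤ τ / 2 := by
      refine (abs_ex_le _).trans ?_
      have h5 : ex (fun x => |(f x - fb x) * g x|) ≤
          ex (fun x => (1 / 2) * |f x - f (flip i x)|) := by
        apply ex_mono
        intro x
        rw [abs_mul]
        have h6 : f x - fb x = (1 / 2) * (f x - f (flip i x)) := by
          simp only [hfb]; ring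
        rw [h6, abs_mul]
        calc |(1 / 2 : ℝ)| * |f x - f (flip i x)| * |g x|
            ≤ |(1 / 2 : ℝ)| * |f x - f (flip i x)| * 1 := by
              gcongr
              exact hg1 x
          _ = (1 / 2) * |f x - f (flip i x)| := by norm_num
      refine h5.trans ?_
      rw [ex_const_mul]
      have := hf i
      linarith
    rw [hdiff]
    have hKτ : (1 + (K0 + K1) / 2) * τ ≤ K * τ := mul_le_mul_of_nonneg_right hK hτ
    rw [abs_le] at c0 c1 h4 ⊢
    constructor <;> nlinarith [c0.1, c0.2, c1.1, c1.2, h4.1, h4.2]

/-- If `f` is well approximated by a tree of small expected depth then it has an influential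
variable. -/
lemma influence_of_compE {K : ℝ} {f g : (I → Bool) → ℝ} {v : ℝ} (hv : 0 < v)
    (hvar : ex (fun x => f x ^ 2) - ex f ^ 2 = v) (h1 : CompE K g) (h2 : ∀ x, |g x| ≤ 1)
    (h3 : ex (fun x => (f x - g x) ^ 2) ≤ v / 4) {B : ℝ} (hB0 : 0 ≤ B) (hB : B * K < v) :
    ∃ i, B ^ 2 / 4 ≤ ex (fun x => ((f x - f (flip i x)) / 2) ^ 2) := by
  by_contra hcon
  push Not at hcon
  have hτ : ∀ i, ex (fun x => |f x - f (flip i x)|) ≤ B := by
    intro i
    have h4 := ex_cauchy (fun x => |f x - f (flip i x)|) (fun _ => (1 : ℝ))
    simp only [mul_one, sq_abs, one_pow, ex_const] at h4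
    have h5 : ex (fun x => ((f x - f (flip i x)) / 2) ^ 2) =
        (1 / 4) * ex (fun x => (f x - f (flip i x)) ^ 2) := by
      rw [← ex_const_mul]
      congr 1
      funext x
      ring
    have h6 := hcon i
    rw [h5] at h6
    have h7 : ex (fun x => |f x - f (flip i x)|) ^ 2 ≤ B ^ 2 := by linarith
    exact abs_le_of_sq_le_sq' h7 hB0 |>.2
  have h4 := osssE hB0 h1 f h2 hτ
  -- covariance of f and f - g
  set c := ex f with hc
  have h5 : ex (fun x => (f x - c) ^ 2) = v := by
    have h2 : (fun x => (f x - c) ^ 2) = fun x => (f x ^ 2 - (2 * c) * f x) + c ^ 2 := by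
      funext x; ring
    rw [h2, ex_add, ex_sub, ex_const_mul, ex_const, ← hc]
    linarith
  have h6 := ex_cauchy (fun x => f x - c) (fun x => f x - g x)
  rw [h5] at h6
  have h7 : ex (fun x => (f x - c) * (f x - g x)) = v - (ex (fun x => f x * g x) - c * ex g) := by
    have h8 : (fun x => (f x - c) * (f x - g x)) =
        fun x => (f x ^ 2 - c * f x) - (f x * g x - c * g x) := by
      funext x; ring
    rw [h8, ex_sub, ex_sub, ex_sub, ex_const_mul, ex_const_mul, ← hc]
    linarith
  rw [h7] at h6
  have h8 : (v - (ex (fun x => f x * g x) - c * ex g)) ^ 2 ≤ (v / 2) ^ 2 := by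
    calc _ ≤ v * ex (fun x => (f x - g x) ^ 2) := h6
      _ ≤ v * (v / 4) := by gcongr
      _ = (v / 2) ^ 2 := by ring
  have h9 := abs_le_of_sq_le_sq' h8 (by linarith) |>.2
  have h10 := (abs_le.1 h4).2
  linarith [mul_comm K B]

end Pool.Agent.Lib_helper8.QAA
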