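import Pool.Agent.Lib_helper8.CubeTwoPoint

/-!
# A Bernstein–Walsh inequality for the lens
-/

open Complex

namespace Pool.Agent.Lib_helper8.Cube

/-- `Tf s = (s ^ 3 - 1) / (s ^ 3 + 1)`. -/
noncomputable def Tf (s : ℂ) : ℂ := (s ^ 3 - 1) / (s ^ 3 + 1)

/-- `Rf s = Tf s * (i (s ^ 4 + 1) / (√3 (s ^ 4 - 1)))`, simplified. -/
noncomputable def Rf (s : ℂ) : ℂ :=
  I * ((s ^ 4 + 1) * (s ^ 2 + s + 1)) / (Real.sqrt 3 * ((s + 1) * (s ^ 2 + 1) * (s ^ 3 + 1)))

/-- The point of the arc corresponding to `s`. -/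
noncomputable def Zf (s : ℂ) : ℂ := I * (s ^ 4 + 1) / (Real.sqrt 3 * (s ^ 4 - 1))

theorem sqrt3_ne : ((Real.sqrt 3 : ℝ) : ℂ) ≠ 0 := by
  rw [Ne, Complex.ofReal_eq_zero]
  positivity

theorem Rf_eq {s : ℂ} (h1 : s ^ 4 ≠ 1) (h4 : s ^ 3 + 1 ≠ 0) : Rf s = Zf s * Tf s := by
  unfold Rf Zf Tf
  have e : s ^ 4 - 1 = (s - 1) * ((s + 1) * (s ^ 2 + 1)) := by ring
  have e' : s ^ 3 - 1 = (s - 1) * (s ^ 2 + s + 1) := by ring
  have h5 : s ^ 4 - 1 ≠ 0 := sub_ne_zero.2 h1
  rw [e] at h5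
  have h6 : s - 1 ≠ 0 := left_ne_zero_of_mul h5
  have h7 : (s + 1) * (s ^ 2 + 1) ≠ 0 := right_ne_zero_of_mul h5
  have h8 : s + 1 ≠ 0 := left_ne_zero_of_mul h7
  have h9 : s ^ 2 + 1 ≠ 0 := right_ne_zero_of_mul h7
  have h10 := sqrt3_ne
  rw [e, e']
  field_simp

/-- `1 + |u| ≤ 2 |1 + u|` in the right half-plane. -/
theorem norm_one_add {u : ℂ} (hu : 0 ≤ u.re) : 1 + ‖u‖ ≤ 2 * ‖u + 1‖ := by
  have h1 : 1 ≤ ‖u + 1‖ := by
    have := Complex.abs_re_le_norm (u + 1)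
    simp only [Complex.add_re, Complex.one_re] at this
    rw [abs_of_nonneg (by linarith)] at this
    linarith
  have h2 : ‖u‖ ≤ ‖u + 1‖ := by
    rw [← pow_le_pow_iff_left₀ (norm_nonneg _) (norm_nonneg _) two_ne_zero, Complex.sq_norm,
      Complex.sq_norm]
    simp only [Complex.normSq_apply, Complex.add_re, Complex.one_re, Complex.add_im, Complex.one_im]
    nlinarith
  linarith

theorem add_one_ne_zero {u : ℂ} (hu : 0 ≤ u.re) : u + 1 ≠ 0 := by
  intro h
  have := congrArg Complex.re h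
  simp at this
  linarith

/-- `|Tf s| ≤ 1` if `s ^ 3` is in the right half-plane. -/
theorem norm_Tf_le {s : ℂ} (h3 : 0 ≤ (s ^ 3).re) : ‖Tf s‖ ≤ 1 := by
  unfold Tf
  have h := add_one_ne_zero h3
  rw [norm_div, div_le_one (norm_pos_iff.2 h),
    ← pow_le_pow_iff_left₀ (norm_nonneg _) (norm_nonneg _) two_ne_zero, Complex.sq_norm,
      Complex.sq_norm]
  simp only [Complex.normSq_apply, Complex.add_re, Complex.sub_re, Complex.one_re, Complex.add_im,
    Complex.sub_im, Complex.one_im]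
  nlinarith

/-- `|Tf s| = 1` if `s ^ 3` is imaginary. -/
theorem norm_Tf_eq {s : ℂ} (h3 : (s ^ 3).re = 0) : ‖Tf s‖ = 1 := by
  unfold Tf
  have h := add_one_ne_zero h3.ge
  rw [norm_div, div_eq_one_iff_eq (norm_pos_iff.2 h).ne',
    ← pow_left_inj₀ (norm_nonneg _) (norm_nonneg _) two_ne_zero, Complex.sq_norm,
      Complex.sq_norm]
  simp only [Complex.normSq_apply, Complex.add_re, Complex.sub_re, Complex.one_re, Complex.add_im,
    Complex.sub_im, Complex.one_im]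
  rw [h3]
  ring

/-- `|Rf s|` is bounded on the sector. -/
theorem norm_Rf_le {s : ℂ} (h1 : 0 ≤ s.re) (h2 : 0 ≤ (s ^ 2).re) (h3 : 0 ≤ (s ^ 3).re) :
    ‖Rf s‖ ≤ 8 := by
  unfold Rf
  have k1 := norm_one_add h1
  have k2 := norm_one_add h2
  have k3 := norm_one_add h3
  have n1 := norm_pos_iff.2 (add_one_ne_zero h1)
  have n2 := norm_pos_iff.2 (add_one_ne_zero h2)
  have n3 := norm_pos_iff.2 (add_one_ne_zero h3)
  have hs3 : (1 : ℝ) ≤ Real.sqrt 3 := by
    rw [show (1 : ℝ) = Real.sqrt 1 by simp]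
    exact Real.sqrt_le_sqrt (by norm_num)
  rw [norm_div, norm_mul, norm_mul, norm_mul, norm_mul, norm_mul, Complex.norm_I, one_mul,
    Complex.norm_real, Real.norm_of_nonneg (Real.sqrt_nonneg _), div_le_iff₀ (by positivity)]
  have a1 : ‖s ^ 4 + 1‖ ≤ ‖s‖ ^ 4 + 1 := by
    refine (norm_add_le _ _).trans ?_
    simp
  have a2 : ‖s ^ 2 + s + 1‖ ≤ ‖s‖ ^ 2 + ‖s‖ + 1 := by
    refine (norm_add_le _ _).trans ?_
    have := norm_add_le (s ^ 2) s
    rw [norm_pow] at this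
    simp
    linarith
  rw [norm_pow] at k2 k3
  set ρ := ‖s‖ with hρ
  have hρ0 : 0 ≤ ρ := norm_nonneg _
  calc ‖s ^ 4 + 1‖ * ‖s ^ 2 + s + 1‖ ≤ (ρ ^ 4 + 1) * (ρ ^ 2 + ρ + 1) := by gcongr
    _ ≤ (1 + ρ) * (1 + ρ ^ 2) * (1 + ρ ^ 3) := by nlinarith [pow_nonneg hρ0 3]
    _ ≤ (2 * ‖s + 1‖) * (2 * ‖s ^ 2 + 1‖) * (2 * ‖s ^ 3 + 1‖) := by gcongr
    _ = 8 * (1 * (‖s + 1‖ * ‖s ^ 2 + 1‖ * ‖s ^ 3 + 1‖)) := by ring
    _ ≤ 8 * (Real.sqrt 3 * (‖s + 1‖ * ‖s ^ 2 + 1‖ * ‖s ^ 3 + 1‖)) := by gcongr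

/-- On the boundary of the sector, `Zf s` is on an arc of the lens. -/
theorem onArc_Zf {s : ℂ} {t : ℝ} (ht : 0 < t) (h4 : (s ^ 4).re = -t / 2)
    (h4' : (s ^ 4).im ^ 2 = 3 * t ^ 2 / 4) : OnArc (Zf s) := by
  have hne : s ^ 4 - 1 ≠ 0 := by
    intro h
    have := congrArg Complex.re h
    simp only [Complex.sub_re, Complex.one_re, Complex.zero_re] at this
    linarith
  unfold Zf
  set w := s ^ 4 with hw
  have hden : 0 < t ^ 2 + t + 1 := by positivity
  have hns : Complex.normSq (w - 1) = t ^ 2 + t + 1 := by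
    simp only [Complex.normSq_apply, Complex.sub_re, Complex.sub_im, Complex.one_re,
      Complex.one_im, sub_zero]
    rw [h4, ← sq w.im, h4']
    ring
  have hs3 : Real.sqrt 3 ^ 2 = 3 := Real.sq_sqrt (by norm_num)
  have hs3' : Real.sqrt 3 ≠ 0 := by positivity
  have e : I * (w + 1) / (Real.sqrt 3 * (w - 1)) =
      ((2 * w.im / (Real.sqrt 3 * (t ^ 2 + t + 1)) : ℝ) : ℂ) +
      (((t ^ 2 - 1) / (Real.sqrt 3 * (t ^ 2 + t + 1)) : ℝ) : ℂ) * I := by
    have h5 : (w + 1) * (starRingEnd ℂ) (w - 1) = ((t ^ 2 - 1 : ℝ) : ℂ) - (2 * w.im : ℝ) * I := by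
      obtain ⟨p, hp⟩ : ∃ p, p = t ^ 2 - 1 := ⟨_, rfl⟩
      rw [← hp]
      apply Complex.ext
      · simp only [Complex.mul_re, Complex.add_re, Complex.sub_re, Complex.one_re,
          Complex.conj_re, Complex.conj_im, Complex.add_im, Complex.sub_im, Complex.one_im,
          Complex.ofReal_re, Complex.ofReal_im, Complex.I_re, Complex.I_im]
        rw [h4, hp]
        nlinarith
      · simp only [Complex.mul_im, Complex.add_re, Complex.sub_re, Complex.one_re,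
          Complex.conj_re, Complex.conj_im, Complex.add_im, Complex.sub_im, Complex.one_im,
          Complex.ofReal_re, Complex.ofReal_im, Complex.I_re, Complex.I_im]
        ring
    have h6 : (w - 1) * (starRingEnd ℂ) (w - 1) = ((t ^ 2 + t + 1 : ℝ) : ℂ) := by
      rw [Complex.mul_conj, hns]
    have h7 : (starRingEnd ℂ) (w - 1) ≠ 0 := by
      rw [Ne, map_eq_zero]; exact hne
    have h8 : ((t ^ 2 + t + 1 : ℝ) : ℂ) ≠ 0 := by exact_mod_cast hden.ne'
    have h9 := sqrt3_ne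
    have h10 : I * (w + 1) / (Real.sqrt 3 * (w - 1)) =
        I * ((w + 1) * (starRingEnd ℂ) (w - 1)) /
          (Real.sqrt 3 * ((w - 1) * (starRingEnd ℂ) (w - 1))) := by
      field_simp
    rw [h10, h5, h6]
    push_cast at h8 ⊢
    field_simp
    ring_nf
    rw [Complex.I_sq]
    ring
  rw [e]
  have hre : (((2 * w.im / (Real.sqrt 3 * (t ^ 2 + t + 1)) : ℝ) : ℂ) +
      (((t ^ 2 - 1) / (Real.sqrt 3 * (t ^ 2 + t + 1)) : ℝ) : ℂ) * I).re =
      2 * w.im / (Real.sqrt 3 * (t ^ 2 + t + 1)) := by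
    rw [Complex.add_re, Complex.re_ofReal_mul, Complex.ofReal_re, Complex.I_re]; ring
  have him : (((2 * w.im / (Real.sqrt 3 * (t ^ 2 + t + 1)) : ℝ) : ℂ) +
      (((t ^ 2 - 1) / (Real.sqrt 3 * (t ^ 2 + t + 1)) : ℝ) : ℂ) * I).im =
      (t ^ 2 - 1) / (Real.sqrt 3 * (t ^ 2 + t + 1)) := by
    rw [Complex.add_im, Complex.im_ofReal_mul, Complex.ofReal_im, Complex.I_im]; ring
  have habs : |2 * w.im / (Real.sqrt 3 * (t ^ 2 + t + 1))| = t / (t ^ 2 + t + 1) := by
    rw [← abs_of_pos (div_pos ht hden), ← sq_eq_sq_iff_abs_eq_abs, div_pow, mul_pow, mul_pow, h4',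
      hs3]
    field_simp
    ring
  unfold OnArc
  rw [hre, him, habs]
  constructor
  · rw [div_le_div_iff₀ hden (by norm_num)]
    nlinarith [sq_nonneg (t - 1)]
  · rw [div_pow, mul_pow, hs3]
    field_simp
    ring

/-- The auxiliary function for the Phragmén–Lindelöf principle. -/
noncomputable def aux (d : ℕ) (c : ℕ → ℂ) (w : ℂ) : ℂ :=
  ∑ j ∈ Finset.range (d + 1), c j * (Rf (exp w) ^ j * Tf (exp w) ^ (d - j))

theorem aux_eq (d : ℕ) (c : ℕ → ℂ) (w : ℂ) (h1 : exp w ^ 4 ≠ 1) (h4 : exp w ^ 3 + 1 ≠ 0) :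
    aux d c w = Tf (exp w) ^ d * ∑ j ∈ Finset.range (d + 1), c j * Zf (exp w) ^ j := by
  unfold aux
  rw [Finset.mul_sum]
  refine Finset.sum_congr rfl fun j hj => ?_
  have hj' : j ≤ d := by
    have := Finset.mem_range.1 hj
    omega
  rw [Rf_eq h1 h4, mul_pow]
  have : Tf (exp w) ^ d = Tf (exp w) ^ j * Tf (exp w) ^ (d - j) := by
    rw [← pow_add]; congr 1; omega
  rw [this]
  ring

theorem re_exp_pow (w : ℂ) (k : ℕ) :
    (exp w ^ k).re = Real.exp (k * w.re) * Real.cos (k * w.im) := by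
  rw [← Complex.exp_nat_mul, Complex.exp_re]
  simp

theorem im_exp_pow (w : ℂ) (k : ℕ) :
    (exp w ^ k).im = Real.exp (k * w.re) * Real.sin (k * w.im) := by
  rw [← Complex.exp_nat_mul, Complex.exp_im]
  simp

theorem re_exp_pow_nonneg {w : ℂ} (h1 : -(Real.pi / 6) ≤ w.im) (h2 : w.im ≤ Real.pi / 6) {k : ℕ}
    (hk : k ≤ 3) : 0 ≤ (exp w ^ k).re := by
  rw [re_exp_pow]
  apply mul_nonneg (Real.exp_pos _).le
  have hk' : (k : ℝ) ≤ 3 := by exact_mod_cast hk
  have hk0 : (0 : ℝ) ≤ k := Nat.cast_nonneg k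
  have hpi := Real.pi_pos
  apply Real.cos_nonneg_of_neg_pi_div_two_le_of_le
  · nlinarith
  · nlinarith

theorem lens_bound (d : ℕ) (c : ℕ → ℂ) (M : ℝ)
    (h : ∀ z, OnArc z → ‖∑ j ∈ Finset.range (d + 1), c j * z ^ j‖ ≤ M) :
    ‖∑ j ∈ Finset.range (d + 1), c j‖ ≤ (1 + Real.sqrt 2) ^ d * M := by
  have hpi := Real.pi_pos
  set f := aux d c with hf
  -- nonvanishing of the denominators
  have hre : ∀ w : ℂ, -(Real.pi / 6) ≤ w.im → w.im ≤ Real.pi / 6 →
      0 ≤ (exp w).re ∧ 0 ≤ (exp w ^ 2).re ∧ 0 ≤ (exp w ^ 3).re := by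
    intro w h1 h2
    refine ⟨?_, re_exp_pow_nonneg h1 h2 (by norm_num), re_exp_pow_nonneg h1 h2 le_rfl⟩
    have := re_exp_pow_nonneg h1 h2 (k := 1) (by norm_num)
    rwa [pow_one] at this
  -- differentiability
  have hdiff : DiffContOnCl ℂ f (im ⁻¹' Set.Ioo (-(Real.pi / 6)) (Real.pi / 6)) := by
    apply DifferentiableOn.diffContOnCl
    have hsub : closure (im ⁻¹' Set.Ioo (-(Real.pi / 6)) (Real.pi / 6)) ⊆
        im ⁻¹' Set.Icc (-(Real.pi / 6)) (Real.pi / 6) :=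
      closure_minimal (Set.preimage_mono Set.Ioo_subset_Icc_self)
        (isClosed_Icc.preimage Complex.continuous_im)
    intro w hw
    obtain ⟨hw1, hw2⟩ := hsub hw
    obtain ⟨h1, h2, h3⟩ := hre w hw1 hw2
    have n1 := add_one_ne_zero h1
    have n2 := add_one_ne_zero h2
    have n3 := add_one_ne_zero h3
    have n4 := sqrt3_ne
    apply DifferentiableAt.differentiableWithinAt
    rw [hf]
    unfold aux Rf Tf
    apply DifferentiableAt.fun_sum
    intro j _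
    apply DifferentiableAt.const_mul
    apply DifferentiableAt.mul
    · apply DifferentiableAt.pow
      apply DifferentiableAt.div (by fun_prop) (by fun_prop)
      exact mul_ne_zero n4 (mul_ne_zero (mul_ne_zero n1 n2) n3)
    · apply DifferentiableAt.pow
      exact DifferentiableAt.div (by fun_prop) (by fun_prop) n3
  -- boundedness
  have hbdd : ∀ w : ℂ, -(Real.pi / 6) ≤ w.im → w.im ≤ Real.pi / 6 →
      ‖f w‖ ≤ ∑ j ∈ Finset.range (d + 1), ‖c j‖ * (8 ^ j * 1 ^ (d - j)) := by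
    intro w hw1 hw2
    obtain ⟨h1, h2, h3⟩ := hre w hw1 hw2
    rw [hf]
    unfold aux
    refine (norm_sum_le _ _).trans (Finset.sum_le_sum fun j _ => ?_)
    rw [norm_mul, norm_mul, norm_pow, norm_pow]
    gcongr
    · exact norm_Rf_le h1 h2 h3
    · exact norm_Tf_le h3
  -- the boundary
  have hcos : Real.cos (4 * (Real.pi / 6)) = -(1 / 2) := by
    rw [show 4 * (Real.pi / 6) = Real.pi - Real.pi / 3 by ring, Real.cos_pi_sub,
      Real.cos_pi_div_three]
  have hsin : Real.sin (4 * (Real.pi / 6)) = Real.sqrt 3 / 2 := by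
    rw [show 4 * (Real.pi / 6) = Real.pi - Real.pi / 3 by ring, Real.sin_pi_sub,
      Real.sin_pi_div_three]
  have hbd : ∀ w : ℂ, (w.im = -(Real.pi / 6) ∨ w.im = Real.pi / 6) → ‖f w‖ ≤ M := by
    intro w hw
    have hre3 : (exp w ^ 3).re = 0 := by
      rw [re_exp_pow]
      rcases hw with hw | hw
      · rw [hw, show ((3 : ℕ) : ℝ) * -(Real.pi / 6) = -(Real.pi / 2) by push_cast; ring,
          Real.cos_neg, Real.cos_pi_div_two, mul_zero]
      · rw [hw, show ((3 : ℕ) : ℝ) * (Real.pi / 6) = Real.pi / 2 by push_cast; ring,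
          Real.cos_pi_div_two, mul_zero]
    have hre4 : (exp w ^ 4).re = -Real.exp (4 * w.re) / 2 := by
      rw [re_exp_pow]
      rcases hw with hw | hw
      · rw [hw, show ((4 : ℕ) : ℝ) * -(Real.pi / 6) = -(4 * (Real.pi / 6)) by push_cast; ring,
          Real.cos_neg, hcos]
        push_cast; ring
      · rw [hw, show ((4 : ℕ) : ℝ) * (Real.pi / 6) = 4 * (Real.pi / 6) by push_cast; ring, hcos]
        push_cast; ring
    have him4 : (exp w ^ 4).im ^ 2 = 3 * Real.exp (4 * w.re) ^ 2 / 4 := by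
      have hs3 : Real.sqrt 3 ^ 2 = 3 := Real.sq_sqrt (by norm_num)
      rw [im_exp_pow]
      rcases hw with hw | hw
      · rw [hw, show ((4 : ℕ) : ℝ) * -(Real.pi / 6) = -(4 * (Real.pi / 6)) by push_cast; ring,
          Real.sin_neg, hsin]
        push_cast
        rw [mul_pow, neg_sq, div_pow, hs3]
        ring
      · rw [hw, show ((4 : ℕ) : ℝ) * (Real.pi / 6) = 4 * (Real.pi / 6) by push_cast; ring, hsin]
        push_cast
        rw [mul_pow, div_pow, hs3]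
        ring
    have hpos := Real.exp_pos (4 * w.re)
    have hz := onArc_Zf hpos hre4 him4
    have hne : exp w ^ 4 ≠ 1 := by
      intro h5
      rw [h5] at hre4
      simp only [Complex.one_re] at hre4
      linarith
    rw [hf, aux_eq d c w hne (add_one_ne_zero hre3.ge), norm_mul, norm_pow, norm_Tf_eq hre3,
      one_pow, one_mul]
    exact h _ hz
  -- Phragmén–Lindelöf
  have hPL : ∀ w : ℂ, -(Real.pi / 6) ≤ w.im → w.im ≤ Real.pi / 6 → ‖f w‖ ≤ M := by
    intro w hw1 hw2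
    refine PhragmenLindelof.horizontal_strip hdiff ⟨0, by
      apply div_pos hpi; linarith, 0, ?_⟩ (fun z hz => hbd z (Or.inl hz))
      (fun z hz => hbd z (Or.inr hz)) hw1 hw2
    refine Asymptotics.IsBigO.of_bound
      (∑ j ∈ Finset.range (d + 1), ‖c j‖ * (8 ^ j * 1 ^ (d - j))) ?_
    rw [Filter.eventually_inf_principal]
    refine Filter.Eventually.of_forall fun z hz => ?_
    have := hbdd z hz.1.le hz.2.le
    simpa using this
  -- evaluation at the point corresponding to `z = 1`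
  obtain ⟨w0, hw0⟩ : ∃ w0 : ℂ, w0 = ((Real.pi / 12 : ℝ) : ℂ) * I := ⟨_, rfl⟩
  have hw0re : w0.re = 0 := by rw [hw0]; simp
  have hw0im : w0.im = Real.pi / 12 := by rw [hw0, Complex.im_ofReal_mul, Complex.I_im, mul_one]
  have h4re : (exp w0 ^ 4).re = 1 / 2 := by
    rw [re_exp_pow, hw0re, hw0im, mul_zero, Real.exp_zero, one_mul,
      show ((4 : ℕ) : ℝ) * (Real.pi / 12) = Real.pi / 3 by push_cast; ring,
      Real.cos_pi_div_three]
  have h4im : (exp w0 ^ 4).im = Real.sqrt 3 / 2 := by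
    rw [im_exp_pow, hw0re, hw0im, mul_zero, Real.exp_zero, one_mul,
      show ((4 : ℕ) : ℝ) * (Real.pi / 12) = Real.pi / 3 by push_cast; ring,
      Real.sin_pi_div_three]
  have h3re : (exp w0 ^ 3).re = Real.sqrt 2 / 2 := by
    rw [re_exp_pow, hw0re, hw0im, mul_zero, Real.exp_zero, one_mul,
      show ((3 : ℕ) : ℝ) * (Real.pi / 12) = Real.pi / 4 by push_cast; ring,
      Real.cos_pi_div_four]
  have h3im : (exp w0 ^ 3).im = Real.sqrt 2 / 2 := by
    rw [im_exp_pow, hw0re, hw0im, mul_zero, Real.exp_zero, one_mul,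
      show ((3 : ℕ) : ℝ) * (Real.pi / 12) = Real.pi / 4 by push_cast; ring,
      Real.sin_pi_div_four]
  have h4ne : exp w0 ^ 4 ≠ 1 := by
    intro h5
    rw [h5] at h4re
    norm_num at h4re
  have h3ne : exp w0 ^ 3 + 1 ≠ 0 := add_one_ne_zero (by rw [h3re]; positivity)
  have hZ : Zf (exp w0) = 1 := by
    unfold Zf
    have h5 : (Real.sqrt 3 : ℂ) * (exp w0 ^ 4 - 1) ≠ 0 :=
      mul_ne_zero sqrt3_ne (sub_ne_zero.2 h4ne)
    rw [div_eq_one_iff_eq h5]
    have hs3 : Real.sqrt 3 * Real.sqrt 3 = 3 := Real.mul_self_sqrt (by norm_num)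
    apply Complex.ext
    · rw [Complex.mul_re, Complex.mul_re, Complex.I_re, Complex.I_im, Complex.add_im,
        Complex.add_re, Complex.sub_re, Complex.sub_im, h4re, h4im, Complex.ofReal_re,
        Complex.ofReal_im, Complex.one_re, Complex.one_im]
      ring
    · rw [Complex.mul_im, Complex.mul_im, Complex.I_re, Complex.I_im, Complex.add_im,
        Complex.add_re, Complex.sub_re, Complex.sub_im, h4re, h4im, Complex.ofReal_re,
        Complex.ofReal_im, Complex.one_re, Complex.one_im]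
      nlinarith
  have hs2 : Real.sqrt 2 ^ 2 = 2 := Real.sq_sqrt (by norm_num)
  have hs2' : 1 ≤ Real.sqrt 2 := by
    rw [show (1 : ℝ) = Real.sqrt 1 by simp]
    exact Real.sqrt_le_sqrt (by norm_num)
  have hT : ‖Tf (exp w0)‖ = Real.sqrt 2 - 1 := by
    unfold Tf
    rw [norm_div, div_eq_iff (norm_pos_iff.2 h3ne).ne',
      ← pow_left_inj₀ (norm_nonneg _) (mul_nonneg (by linarith) (norm_nonneg _)) two_ne_zero,
      mul_pow, Complex.sq_norm, Complex.sq_norm]
    simp only [Complex.normSq_apply, Complex.add_re, Complex.sub_re, Complex.one_re,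
      Complex.add_im, Complex.sub_im, Complex.one_im]
    rw [h3re, h3im]
    nlinarith
  have hfin := hPL w0 (by rw [hw0im]; linarith) (by rw [hw0im]; linarith)
  rw [hf, aux_eq d c w0 h4ne h3ne, hZ, norm_mul, norm_pow, hT] at hfin
  simp only [one_pow, mul_one] at hfin
  have hprod : (1 + Real.sqrt 2) ^ d * (Real.sqrt 2 - 1) ^ d = 1 := by
    rw [← mul_pow]
    have : (1 + Real.sqrt 2) * (Real.sqrt 2 - 1) = 1 := by nlinarith
    rw [this, one_pow]
  calc ‖∑ j ∈ Finset.range (d + 1), c j‖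
      = (1 + Real.sqrt 2) ^ d * ((Real.sqrt 2 - 1) ^ d * ‖∑ j ∈ Finset.range (d + 1), c j‖) := by
        rw [← mul_assoc, hprod, one_mul]
    _ ≤ (1 + Real.sqrt 2) ^ d * M := by gcongr

end Pool.Agent.Lib_helper8.Cube
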