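import Pool.Agent.Lib_helper8.CubeTensor
import Pool.Agent.Lib_helper8.CubePoly

/-!
# The upper bound `1 + √2`
-/

open scoped Classical

namespace Pool.Agent.Lib_helper8.Cube

variable {n : ℕ}

theorem T_one (f : Cube n → ℂ) (x : Cube n) : T 1 f x = f x := by
  unfold T
  rw [Finset.sum_eq_single x]
  · have : ∏ i, (1 + (1 : ℂ) * (((x i : ℤ) : ℂ) * ((x i : ℤ) : ℂ))) = 2 ^ n := by
      have h : ∀ i : Fin n, (1 + (1 : ℂ) * (((x i : ℤ) : ℂ) * ((x i : ℤ) : ℂ))) = 2 := by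
        intro i
        rcases Int.units_eq_one_or (x i) with h | h <;> rw [h] <;> norm_num
      simp_rw [h]
      simp
    rw [this]
    field_simp
  · intro y _ hy
    obtain ⟨i, hi⟩ : ∃ i, x i ≠ y i := by
      by_contra hcon
      push Not at hcon
      exact hy (funext fun i => (hcon i).symm)
    rw [Finset.prod_eq_zero (Finset.mem_univ i), zero_mul]
    rcases Int.units_eq_one_or (x i) with h | h <;>
      rcases Int.units_eq_one_or (y i) with h' | h' <;> rw [h, h'] at hi ⊢ <;>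
      first
        | exact absurd rfl hi
        | norm_num
  · intro h
    exact absurd (Finset.mem_univ x) h

theorem T_expand (z : ℂ) (f : Cube n → ℝ) (x : Cube n) :
    T z (fun y => (f y : ℂ)) x = ∑ S : Finset (Fin n), z ^ S.card * (coeff f S * chi S x : ℝ) := by
  unfold T coeff mean
  have h1 : ∀ y : Cube n, ∏ i, (1 + z * (((x i : ℤ) : ℂ) * ((y i : ℤ) : ℂ))) =
      ∑ S : Finset (Fin n), z ^ S.card * (chi S x * chi S y : ℝ) := by
    intro y
    rw [Finset.prod_one_add, Finset.powerset_univ]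
    refine Finset.sum_congr rfl fun S _ => ?_
    rw [Finset.prod_mul_distrib, Finset.prod_const]
    congr 1
    unfold chi
    push_cast
    rw [Finset.prod_mul_distrib]
  simp_rw [h1, Finset.sum_mul]
  rw [Finset.sum_comm, Finset.sum_div]
  refine Finset.sum_congr rfl fun S _ => ?_
  push_cast
  rw [Finset.sum_div, Finset.sum_div, Finset.sum_mul, Finset.mul_sum]
  refine Finset.sum_congr rfl fun y _ => ?_
  ring

/-- The polynomial `z ↦ E[(T_z f) g]`. -/
theorem pairing (z : ℂ) (f g : Cube n → ℝ) :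
    (∑ x, T z (fun y => (f y : ℂ)) x * (g x : ℂ)) / 2 ^ n =
      ∑ S : Finset (Fin n), z ^ S.card * (coeff f S * coeff g S : ℝ) := by
  simp_rw [T_expand, Finset.sum_mul]
  rw [Finset.sum_comm, Finset.sum_div]
  refine Finset.sum_congr rfl fun S _ => ?_
  have : coeff g S = (∑ x, g x * chi S x) / 2 ^ n := rfl
  rw [this]
  push_cast
  rw [Finset.sum_div, Finset.sum_div, Finset.mul_sum, Finset.mul_sum]
  refine Finset.sum_congr rfl fun y _ => ?_
  ring

theorem coeff_eq_zero {f : Cube n → ℝ} {S : Finset (Fin n)} (h : deg f < S.card) :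
    coeff f S = 0 := by
  by_contra hne
  have : S.card ≤ deg f := by
    unfold deg
    exact Finset.le_sup (f := Finset.card) (Finset.mem_filter.2 ⟨Finset.mem_univ _, hne⟩)
  omega

/-- The coefficients of the polynomial. -/
noncomputable def pc (f g : Cube n → ℝ) (j : ℕ) : ℂ :=
  ∑ S ∈ Finset.univ.filter (fun S : Finset (Fin n) => S.card = j), ((coeff f S * coeff g S : ℝ) : ℂ)

theorem pairing_eq (z : ℂ) (f g : Cube n → ℝ) :
    ∑ S : Finset (Fin n), z ^ S.card * (coeff f S * coeff g S : ℝ) =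
      ∑ j ∈ Finset.range (deg f + 1), pc f g j * z ^ j := by
  have h1 : ∑ S : Finset (Fin n), z ^ S.card * (coeff f S * coeff g S : ℝ) =
      ∑ S ∈ Finset.univ.filter (fun S : Finset (Fin n) => S.card ∈ Finset.range (deg f + 1)),
        z ^ S.card * ((coeff f S * coeff g S : ℝ) : ℂ) := by
    rw [Finset.sum_filter_of_ne]
    intro S _ hS
    rw [Finset.mem_range]
    by_contra hcon
    apply hS
    rw [coeff_eq_zero (by omega)]
    simp
  rw [h1, ← Finset.sum_fiberwise_of_maps_to (s := Finset.univ.filter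
    (fun S : Finset (Fin n) => S.card ∈ Finset.range (deg f + 1)))
    (t := Finset.range (deg f + 1)) (g := Finset.card) (fun S hS => (Finset.mem_filter.1 hS).2)]
  refine Finset.sum_congr rfl fun j hj => ?_
  unfold pc
  rw [Finset.sum_mul, Finset.filter_filter]
  refine Finset.sum_congr ?_ fun S hS => ?_
  · ext S
    simp only [Finset.mem_filter, Finset.mem_univ, true_and]
    constructor
    · exact fun h => h.2
    · exact fun h => ⟨h ▸ hj, h⟩
  · rw [(Finset.mem_filter.1 hS).2]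
    ring

/-- The moments of order `k / 6`. -/
noncomputable def mom (f : Cube n → ℝ) (k : ℕ) : ℝ :=
  mean fun x => Real.sqrt (cr (f x : ℂ)) ^ k

theorem mom_nonneg (f : Cube n → ℝ) (k : ℕ) : 0 ≤ mom f k :=
  mean_nonneg fun x => pow_nonneg (Real.sqrt_nonneg _) k

theorem mom_cauchy (f : Cube n → ℝ) (i j : ℕ) : mom f (i + j) ^ 2 ≤ mom f (2 * i) * mom f (2 * j) := by
  have := mean_cauchy (fun x => Real.sqrt (cr (f x : ℂ)) ^ i) (fun x => Real.sqrt (cr (f x : ℂ)) ^ j)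
  unfold mom
  simp only [← pow_mul, ← pow_add] at this
  rwa [mul_comm i 2, mul_comm j 2] at this

theorem sqrt_cr_pow_six (f : Cube n → ℝ) (x : Cube n) :
    Real.sqrt (cr (f x : ℂ)) ^ 6 = |f x| := by
  rw [show (6 : ℕ) = 2 * 3 by norm_num, pow_mul, Real.sq_sqrt (cr_nonneg _), cr_cube,
    Complex.norm_real, Real.norm_eq_abs]

theorem mom_six (f : Cube n → ℝ) : mom f 6 = norm1 f := by
  unfold mom norm1
  simp_rw [sqrt_cr_pow_six]

theorem mom_twelve (f : Cube n → ℝ) : mom f 12 = mean fun x => f x ^ 2 := by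
  unfold mom
  congr 1
  funext x
  rw [show (12 : ℕ) = 6 * 2 by norm_num, pow_mul, sqrt_cr_pow_six, sq_abs]

theorem mom_twentyfour (f : Cube n → ℝ) : mom f 24 = mean fun x => f x ^ 4 := by
  unfold mom
  congr 1
  funext x
  rw [show (24 : ℕ) = 6 * 4 by norm_num, pow_mul, sqrt_cr_pow_six]
  exact (Even.pow_abs (by decide) _)

theorem mom_eight (f : Cube n → ℝ) : mom f 8 = (∑ x, cr (f x : ℂ) ^ 4) / 2 ^ n := by
  unfold mom mean
  congr 1
  refine Finset.sum_congr rfl fun x _ => ?_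
  show Real.sqrt (cr (f x : ℂ)) ^ 8 = _
  rw [show (8 : ℕ) = 2 * 4 by norm_num, pow_mul, Real.sq_sqrt (cr_nonneg _)]

/-- `‖f‖_{4/3}⁴ ≤ ‖f‖_1² ‖f‖_2²`. -/
theorem interp_one (f : Cube n → ℝ) : mom f 8 ^ 3 ≤ mom f 6 ^ 2 * mom f 12 := by
  have h1 := mom_cauchy f 3 5
  have h2 := mom_cauchy f 4 6
  norm_num at h1 h2
  have p6 := mom_nonneg f 6
  have p8 := mom_nonneg f 8
  have p10 := mom_nonneg f 10
  have p12 := mom_nonneg f 12
  rcases p8.eq_or_lt with h0 | h0
  · rw [← h0, zero_pow (by norm_num)]; positivity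
  · have h3 : mom f 8 * mom f 8 ^ 3 ≤ mom f 8 * (mom f 6 ^ 2 * mom f 12) := by
      calc mom f 8 * mom f 8 ^ 3 = (mom f 8 ^ 2) ^ 2 := by ring
        _ ≤ (mom f 6 * mom f 10) ^ 2 := by gcongr
        _ = mom f 6 ^ 2 * mom f 10 ^ 2 := by ring
        _ ≤ mom f 6 ^ 2 * (mom f 8 * mom f 12) := by gcongr
        _ = mom f 8 * (mom f 6 ^ 2 * mom f 12) := by ring
    exact le_of_mul_le_mul_left h3 h0

/-- `‖f‖_2² ≤ ‖f‖_{4/3} ‖f‖_4`, fourth power. -/
theorem interp_two (f : Cube n → ℝ) : mom f 12 ^ 4 ≤ mom f 8 ^ 3 * mom f 24 := by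
  have h1 := mom_cauchy f 4 8
  have h2 := mom_cauchy f 4 12
  norm_num at h1 h2
  have p8 := mom_nonneg f 8
  have p12 := mom_nonneg f 12
  have p16 := mom_nonneg f 16
  have p24 := mom_nonneg f 24
  calc mom f 12 ^ 4 = (mom f 12 ^ 2) ^ 2 := by ring
    _ ≤ (mom f 8 * mom f 16) ^ 2 := by gcongr
    _ = mom f 8 ^ 2 * mom f 16 ^ 2 := by ring
    _ ≤ mom f 8 ^ 2 * (mom f 8 * mom f 24) := by gcongr
    _ = mom f 8 ^ 3 * mom f 24 := by ring

/-- Bound on the arcs. -/
theorem arc_bound (f : Cube n → ℝ) (z : ℂ) (hz : OnArc z) :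
    ‖∑ j ∈ Finset.range (deg f + 1), pc f (fun x => f x ^ 3) j * z ^ j‖ ^ 4 ≤
      mom f 8 ^ 3 * mom f 24 ^ 3 := by
  rw [← pairing_eq, ← pairing]
  set F : Cube n → ℝ := fun x => ‖T z (fun y => (f y : ℂ)) x‖ with hF
  have h2n : (0 : ℝ) < 2 ^ n := by positivity
  have h1 : ‖(∑ x, T z (fun y => (f y : ℂ)) x * ((f x ^ 3 : ℝ) : ℂ)) / 2 ^ n‖ ≤
      mean fun x => (F x * |f x|) * (f x ^ 2) := by
    unfold mean
    rw [norm_div]
    have e : ‖(2 : ℂ) ^ n‖ = 2 ^ n := by simp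
    rw [e]
    gcongr
    refine (norm_sum_le _ _).trans (Finset.sum_le_sum fun x _ => ?_)
    rw [norm_mul, Complex.norm_real, Real.norm_eq_abs, abs_pow, hF]
    apply le_of_eq
    rw [← sq_abs (f x)]
    ring
  have h2 := mean_cauchy (fun x => F x * |f x|) (fun x => f x ^ 2)
  have h3 := mean_cauchy (fun x => F x ^ 2) (fun x => f x ^ 2)
  have e1 : (mean fun x => (F x * |f x|) ^ 2) = mean fun x => F x ^ 2 * f x ^ 2 := by
    congr 1
    funext x
    rw [mul_pow, sq_abs]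
  have e2 : (mean fun x : Cube n => (f x ^ 2) ^ 2) = mom f 24 := by
    rw [mom_twentyfour]
    congr 1
    funext x
    ring
  have e3 : (mean fun x : Cube n => (F x ^ 2) ^ 2) = (∑ x, F x ^ 4) / 2 ^ n := by
    unfold mean
    congr 1
    refine Finset.sum_congr rfl fun x _ => ?_
    ring
  have h4 := hyper z hz n (fun y => (f y : ℂ))
  have h5 : (∑ x, F x ^ 4) / 2 ^ n ≤ mom f 8 ^ 3 := by
    rw [div_le_iff₀ h2n, mom_eight, mul_comm]
    exact h4
  rw [e1, e2] at h2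
  rw [e2, e3] at h3
  have p24 := mom_nonneg f 24
  set G := mean fun x => F x * |f x| * f x ^ 2
  set L := mean fun x => F x ^ 2 * f x ^ 2
  have hG : 0 ≤ G := mean_nonneg fun x => by
    have : 0 ≤ F x := norm_nonneg _
    positivity
  have hL : 0 ≤ L := mean_nonneg fun x => by positivity
  calc _ ≤ G ^ 4 := by gcongr
    _ = (G ^ 2) ^ 2 := by ring
    _ ≤ (L * mom f 24) ^ 2 := by gcongr
    _ = L ^ 2 * mom f 24 ^ 2 := by ring
    _ ≤ ((∑ x, F x ^ 4) / 2 ^ n * mom f 24) * mom f 24 ^ 2 := by gcongr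
    _ ≤ (mom f 8 ^ 3 * mom f 24) * mom f 24 ^ 2 := by gcongr
    _ = mom f 8 ^ 3 * mom f 24 ^ 3 := by ring

theorem sum_pc (f : Cube n → ℝ) :
    ∑ j ∈ Finset.range (deg f + 1), pc f (fun x => f x ^ 3) j = (mom f 24 : ℂ) := by
  have h1 := pairing_eq 1 f (fun x => f x ^ 3)
  have h2 := pairing 1 f (fun x => f x ^ 3)
  simp only [one_pow, mul_one] at h1
  rw [← h1]
  simp only [one_pow] at h2
  rw [← h2, mom_twentyfour]
  unfold mean
  push_cast
  congr 1
  refine Finset.sum_congr rfl fun x _ => ?_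
  rw [T_one]
  ring

/-- `‖f‖_4⁴ ≤ (1 + √2)^{4 d} ‖f‖_{4/3}⁴`. -/
theorem four_le (f : Cube n → ℝ) :
    mom f 24 ≤ (1 + Real.sqrt 2) ^ (4 * deg f) * mom f 8 ^ 3 := by
  have p8 := mom_nonneg f 8
  have p24 := mom_nonneg f 24
  set M := Real.sqrt (Real.sqrt (mom f 8 ^ 3 * mom f 24 ^ 3)) with hM
  have hM0 : 0 ≤ M := Real.sqrt_nonneg _
  have hM4 : M ^ 4 = mom f 8 ^ 3 * mom f 24 ^ 3 := by
    rw [hM, show (4 : ℕ) = 2 * 2 by norm_num, pow_mul, Real.sq_sqrt (Real.sqrt_nonneg _),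
      Real.sq_sqrt (by positivity)]
  have h1 := lens_bound (deg f) (pc f (fun x => f x ^ 3)) M (fun z hz => by
    rw [← pow_le_pow_iff_left₀ (norm_nonneg _) hM0 (show (4 : ℕ) ≠ 0 by norm_num), hM4]
    exact arc_bound f z hz)
  rw [sum_pc, Complex.norm_real, Real.norm_of_nonneg p24] at h1
  rcases p24.eq_or_lt with h0 | h0
  · rw [← h0]; positivity
  · have h2 : mom f 24 ^ 4 ≤ ((1 + Real.sqrt 2) ^ deg f * M) ^ 4 := by gcongr
    have h3 : mom f 24 ^ 3 * mom f 24 ≤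
        mom f 24 ^ 3 * ((1 + Real.sqrt 2) ^ (4 * deg f) * mom f 8 ^ 3) := by
      calc mom f 24 ^ 3 * mom f 24 = mom f 24 ^ 4 := by ring
        _ ≤ ((1 + Real.sqrt 2) ^ deg f * M) ^ 4 := h2
        _ = ((1 + Real.sqrt 2) ^ deg f) ^ 4 * M ^ 4 := by ring
        _ = _ := by rw [hM4, ← pow_mul, mul_comm (deg f) 4]; ring
    exact le_of_mul_le_mul_left h3 (by positivity)

/-- The upper bound. -/
theorem norm2_le (f : Cube n → ℝ) : norm2 f ≤ (1 + Real.sqrt 2) ^ deg f * norm1 f := by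
  set K := 1 + Real.sqrt 2 with hK
  have hK0 : 0 ≤ K := by positivity
  have h1 := interp_one f
  have h2 := interp_two f
  have h3 := four_le f
  rw [← hK] at h3
  have p6 := mom_nonneg f 6
  have p8 := mom_nonneg f 8
  have p12 := mom_nonneg f 12
  have p24 := mom_nonneg f 24
  have h4 : mom f 12 ≤ (K ^ deg f * mom f 6) ^ 2 := by
    rcases p12.eq_or_lt with h0 | h0
    · rw [← h0]; positivity
    · have h5 : mom f 12 ^ 2 * mom f 12 ^ 2 ≤ mom f 12 ^ 2 * ((K ^ deg f * mom f 6) ^ 2) ^ 2 := by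
        calc mom f 12 ^ 2 * mom f 12 ^ 2 = mom f 12 ^ 4 := by ring
          _ ≤ mom f 8 ^ 3 * mom f 24 := h2
          _ ≤ mom f 8 ^ 3 * (K ^ (4 * deg f) * mom f 8 ^ 3) := by gcongr
          _ = K ^ (4 * deg f) * (mom f 8 ^ 3) ^ 2 := by ring
          _ ≤ K ^ (4 * deg f) * (mom f 6 ^ 2 * mom f 12) ^ 2 := by gcongr
          _ = _ := by rw [mul_comm 4 (deg f), pow_mul]; ring
      have h6 := le_of_mul_le_mul_left h5 (by positivity)
      exact (pow_le_pow_iff_left₀ p12 (by positivity) two_ne_zero).1 h6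
  unfold norm2
  rw [← mom_twelve, ← mom_six]
  rw [Real.sqrt_le_left (by positivity)]
  exact h4

end Pool.Agent.Lib_helper8.Cube
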