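import Pool.Agent.Lib_helper8.CubeBasic

open scoped Classical

namespace Pool.Agent.Lib_helper8.Cube

variable {n : ℕ}

/-- the elementary symmetric polynomial of degree `m` -/
noncomputable def esym (n m : ℕ) (x : Cube n) : ℝ :=
  ∑ A ∈ Finset.powersetCard m (Finset.univ : Finset (Fin n)), chi A x

theorem mean_esym_sq (m : ℕ) : mean (fun x : Cube n => esym n m x ^ 2) = (n.choose m : ℝ) := by
  have e : (fun x : Cube n => esym n m x ^ 2) = fun x =>
      ∑ A ∈ Finset.powersetCard m (Finset.univ : Finset (Fin n)),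
        ∑ B ∈ Finset.powersetCard m (Finset.univ : Finset (Fin n)), chi A x * chi B x := by
    funext x
    unfold esym
    rw [sq, Finset.sum_mul_sum]
  rw [e, mean_sum]
  simp_rw [mean_sum, mean_chi_mul]
  rw [Finset.sum_congr rfl (fun A hA => Finset.sum_ite_eq _ A _)]
  rw [Finset.sum_congr rfl (fun A hA => if_pos hA)]
  simp

/-- the test function: the square of an elementary symmetric polynomial -/
noncomputable def tst (n m : ℕ) (x : Cube n) : ℝ := esym n m x ^ 2

theorem tst_eq (m : ℕ) (x : Cube n) : tst n m x =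
      ∑ A ∈ Finset.powersetCard m (Finset.univ : Finset (Fin n)),
        ∑ B ∈ Finset.powersetCard m (Finset.univ : Finset (Fin n)), chi (symmDiff A B) x := by
  unfold tst esym
  rw [sq, Finset.sum_mul_sum]
  simp_rw [chi_mul]

theorem mean_tst_mul_chi (m : ℕ) (S : Finset (Fin n)) :
    mean (fun x => tst n m x * chi S x) =
      ∑ A ∈ Finset.powersetCard m (Finset.univ : Finset (Fin n)),
        ∑ B ∈ Finset.powersetCard m (Finset.univ : Finset (Fin n)),
          if symmDiff A B = S then (1 : ℝ) else 0 := by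
  have e : (fun x : Cube n => tst n m x * chi S x) = fun x =>
      ∑ A ∈ Finset.powersetCard m (Finset.univ : Finset (Fin n)),
        ∑ B ∈ Finset.powersetCard m (Finset.univ : Finset (Fin n)),
          chi (symmDiff A B) x * chi S x := by
    funext x
    rw [tst_eq, Finset.sum_mul]
    apply Finset.sum_congr rfl
    intro A _
    rw [Finset.sum_mul]
  rw [e, mean_sum]
  simp_rw [mean_sum, mean_chi_mul]

theorem deg_tst (m : ℕ) : deg (tst n m) ≤ 2 * m := by
  unfold deg
  apply Finset.sup_le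
  intro S hS
  rw [Finset.mem_filter] at hS
  by_contra hcon
  push Not at hcon
  apply hS.2
  unfold coeff
  rw [mean_tst_mul_chi]
  apply Finset.sum_eq_zero
  intro A hA
  apply Finset.sum_eq_zero
  intro B hB
  rw [if_neg]
  rintro rfl
  have h1 : (symmDiff A B).card ≤ A.card + B.card := by
    rw [symmDiff_def]
    refine (Finset.card_union_le _ _).trans ?_
    exact Nat.add_le_add (Finset.card_le_card Finset.sdiff_subset)
      (Finset.card_le_card Finset.sdiff_subset)
  rw [Finset.mem_powersetCard_univ] at hA hB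
  omega

theorem norm1_tst (m : ℕ) : norm1 (tst n m) = (n.choose m : ℝ) := by
  unfold norm1
  rw [← mean_esym_sq]
  congr 1
  funext x
  unfold tst
  exact abs_of_nonneg (sq_nonneg _)

/-- for fixed `A` of size `3k`, the number of `B` of size `3k` with `|A ∆ B| = 4k` -/
theorem count_B (k : ℕ) (A : Finset (Fin n)) (hA : A.card = 3 * k) :
    (3 * k).choose k * (n - 3 * k).choose (2 * k) ≤
      ((Finset.powersetCard (3 * k) (Finset.univ : Finset (Fin n))).filter
        fun B => (symmDiff A B).card = 4 * k).card := by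
  have h1 : (3 * k).choose k * (n - 3 * k).choose (2 * k) =
      (Finset.powersetCard k A ×ˢ Finset.powersetCard (2 * k) Aᶜ).card := by
    rw [Finset.card_product, Finset.card_powersetCard, Finset.card_powersetCard, hA,
      Finset.card_compl, Fintype.card_fin, hA]
  rw [h1]
  apply Finset.card_le_card_of_injOn (fun TU => TU.1 ∪ TU.2)
  · rintro ⟨T, U⟩ hTU
    simp only [Finset.coe_product, Set.mem_prod, Finset.mem_coe, Finset.mem_powersetCard] at hTU
    obtain ⟨⟨hT, hTc⟩, hU, hUc⟩ := hTU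
    have hdisj : Disjoint T U := by
      rw [Finset.disjoint_left]
      intro i hi hi'
      exact (Finset.mem_compl.1 (hU hi')) (hT hi)
    simp only [Finset.coe_filter, Set.mem_ofPred_eq, Finset.mem_powersetCard_univ]
    constructor
    · rw [Finset.card_union_of_disjoint hdisj]; omega
    · have e : symmDiff A (T ∪ U) = (A \ T) ∪ U := by
        ext i
        simp only [Finset.mem_symmDiff, Finset.mem_union, Finset.mem_sdiff]
        have a1 : i ∈ T → i ∈ A := fun h => hT h
        have a2 : i ∈ U → i ∉ A := fun h => Finset.mem_compl.1 (hU h)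
        tauto
      rw [e, Finset.card_union_of_disjoint, Finset.card_sdiff_of_subset hT]
      · omega
      · rw [Finset.disjoint_left]
        intro i hi hi'
        exact (Finset.mem_compl.1 (hU hi')) (Finset.mem_sdiff.1 hi).1
  · rintro ⟨T, U⟩ hTU ⟨T', U'⟩ hTU' heq
    simp only [Finset.coe_product, Set.mem_prod, Finset.mem_coe, Finset.mem_powersetCard] at hTU hTU'
    obtain ⟨⟨hT, -⟩, hU, -⟩ := hTU
    obtain ⟨⟨hT', -⟩, hU', -⟩ := hTU'
    simp only at heq
    have aux : ∀ T U : Finset (Fin n), T ⊆ A → U ⊆ Aᶜ → (T ∪ U) ∩ A = T ∧ (T ∪ U) \ A = U := by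
      intro T U hT hU
      have a1 : ∀ i, i ∈ T → i ∈ A := fun i h => hT h
      have a2 : ∀ i, i ∈ U → i ∉ A := fun i h => Finset.mem_compl.1 (hU h)
      constructor
      · ext i
        simp only [Finset.mem_inter, Finset.mem_union]
        have := a1 i; have := a2 i
        tauto
      · ext i
        simp only [Finset.mem_sdiff, Finset.mem_union]
        have := a1 i; have := a2 i
        tauto
    obtain ⟨b1, b2⟩ := aux T U hT hU
    obtain ⟨c1, c2⟩ := aux T' U' hT' hU'
    rw [Prod.mk.injEq]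
    constructor
    · rw [← b1, ← c1, heq]
    · rw [← b2, ← c2, heq]

theorem mean_tst_esym (k : ℕ) :
    (n.choose (3 * k) : ℝ) * ((3 * k).choose k * (n - 3 * k).choose (2 * k)) ≤
      mean (fun x => tst n (3 * k) x * esym n (4 * k) x) := by
  have e : (fun x : Cube n => tst n (3 * k) x * esym n (4 * k) x) = fun x =>
      ∑ S ∈ Finset.powersetCard (4 * k) (Finset.univ : Finset (Fin n)),
        tst n (3 * k) x * chi S x := by
    funext x
    unfold esym
    rw [Finset.mul_sum]
  rw [e, mean_sum]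
  simp_rw [mean_tst_mul_chi]
  rw [Finset.sum_comm]
  have h1 : ∀ A ∈ Finset.powersetCard (3 * k) (Finset.univ : Finset (Fin n)),
      (((3 * k).choose k * (n - 3 * k).choose (2 * k) : ℕ) : ℝ) ≤
      ∑ S ∈ Finset.powersetCard (4 * k) (Finset.univ : Finset (Fin n)),
        ∑ B ∈ Finset.powersetCard (3 * k) (Finset.univ : Finset (Fin n)),
          if symmDiff A B = S then (1 : ℝ) else 0 := by
    intro A hA
    rw [Finset.mem_powersetCard_univ] at hA
    rw [Finset.sum_comm]
    have h2 : ∀ B ∈ Finset.powersetCard (3 * k) (Finset.univ : Finset (Fin n)),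
        ∑ S ∈ Finset.powersetCard (4 * k) (Finset.univ : Finset (Fin n)),
          (if symmDiff A B = S then (1 : ℝ) else 0) =
        if (symmDiff A B).card = 4 * k then (1 : ℝ) else 0 := by
      intro B _
      rw [Finset.sum_ite_eq]
      simp only [Finset.mem_powersetCard_univ]
    rw [Finset.sum_congr rfl h2, ← Finset.sum_filter, Finset.sum_const, nsmul_eq_mul, mul_one]
    exact_mod_cast count_B k A hA
  calc (n.choose (3 * k) : ℝ) * ((3 * k).choose k * (n - 3 * k).choose (2 * k))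
      = ∑ A ∈ Finset.powersetCard (3 * k) (Finset.univ : Finset (Fin n)),
        (((3 * k).choose k * (n - 3 * k).choose (2 * k) : ℕ) : ℝ) := by
        rw [Finset.sum_const, Finset.card_powersetCard, Finset.card_univ, Fintype.card_fin,
          nsmul_eq_mul]
        push_cast; ring
    _ ≤ _ := Finset.sum_le_sum h1

/-- lower bound for the fourth moment -/
theorem norm2_tst (k : ℕ) :
    ((n.choose (3 * k) : ℝ) * ((3 * k).choose k * (n - 3 * k).choose (2 * k))) ^ 2 ≤
      norm2 (tst n (3 * k)) ^ 2 * (n.choose (4 * k) : ℝ) := by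
  unfold norm2
  rw [Real.sq_sqrt (mean_nonneg fun x => sq_nonneg _), ← mean_esym_sq (4 * k)]
  refine le_trans ?_ (mean_cauchy _ _)
  gcongr
  exact mean_tst_esym k

theorem choose_three (k : ℕ) : 27 ^ k ≤ (3 * k).choose k * (4 ^ k * (3 * k + 1)) := by
  induction k with
  | zero => simp
  | succ k ih =>
    have key : (3 * (k + 1)).choose (k + 1) * (2 * (k + 1) * (2 * k + 1)) =
        3 * ((3 * k + 2) * (3 * k + 1)) * (3 * k).choose k := by
      have h1 : (3 * k).choose k * k.factorial * (2 * k).factorial = (3 * k).factorial := by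
        have := Nat.choose_mul_factorial_mul_factorial (show k ≤ 3 * k by omega)
        rwa [show 3 * k - k = 2 * k by omega] at this
      have h2 : (3 * (k + 1)).choose (k + 1) * (k + 1).factorial * (2 * (k + 1)).factorial =
          (3 * (k + 1)).factorial := by
        have := Nat.choose_mul_factorial_mul_factorial (show k + 1 ≤ 3 * (k + 1) by omega)
        rwa [show 3 * (k + 1) - (k + 1) = 2 * (k + 1) by omega] at this
      have h3 : (k + 1).factorial = (k + 1) * k.factorial := Nat.factorial_succ k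
      have h4 : (2 * (k + 1)).factorial = (2 * k + 2) * ((2 * k + 1) * (2 * k).factorial) := by
        rw [show 2 * (k + 1) = (2 * k + 1) + 1 by ring, Nat.factorial_succ, Nat.factorial_succ]
      have h5 : (3 * (k + 1)).factorial =
          (3 * k + 3) * ((3 * k + 2) * ((3 * k + 1) * (3 * k).factorial)) := by
        rw [show 3 * (k + 1) = ((3 * k + 1) + 1) + 1 by ring, Nat.factorial_succ,
          Nat.factorial_succ, Nat.factorial_succ]
      have hpos : 0 < (k + 1) * k.factorial * (2 * k).factorial := by positivity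
      apply Nat.eq_of_mul_eq_mul_right hpos
      rw [h3, h4, h5, ← h1] at h2
      linear_combination h2
    have h6 : 27 * 27 ^ k * (2 * (k + 1) * (2 * k + 1)) ≤
        (3 * (k + 1)).choose (k + 1) * (4 ^ (k + 1) * (3 * (k + 1) + 1)) *
          (2 * (k + 1) * (2 * k + 1)) := by
      calc 27 * 27 ^ k * (2 * (k + 1) * (2 * k + 1))
          ≤ 27 * ((3 * k).choose k * (4 ^ k * (3 * k + 1))) * (2 * (k + 1) * (2 * k + 1)) := by
            gcongr
        _ = (3 * k).choose k * 4 ^ k * (3 * k + 1) * 3 * (9 * (2 * (k + 1) * (2 * k + 1))) := by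
            ring
        _ ≤ (3 * k).choose k * 4 ^ k * (3 * k + 1) * 3 * (4 * ((3 * k + 2) * (3 * k + 4))) :=
            Nat.mul_le_mul_left _ (by nlinarith)
        _ = (3 * ((3 * k + 2) * (3 * k + 1)) * (3 * k).choose k) *
              (4 ^ (k + 1) * (3 * (k + 1) + 1)) := by
            rw [pow_succ]; ring
        _ = (3 * (k + 1)).choose (k + 1) * (4 ^ (k + 1) * (3 * (k + 1) + 1)) *
          (2 * (k + 1) * (2 * k + 1)) := by
            rw [← key]; ring
    rw [pow_succ, mul_comm]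
    exact Nat.le_of_mul_le_mul_right h6 (by positivity)

/-- an admissible constant is at least one -/
theorem one_le_of_admissible {C : ℝ} (hC : Admissible C) : 1 ≤ C := by
  have h := hC 1 le_rfl (chi Finset.univ)
  have hsq : ∀ x : Cube 1, chi Finset.univ x ^ 2 = 1 := by
    intro x
    rw [sq, chi_mul, symmDiff_self, Finset.bot_eq_empty, chi_empty]
  have habs : ∀ x : Cube 1, |chi Finset.univ x| = 1 := by
    intro x
    have := hsq x
    rw [← sq_abs] at this
    have h0 := abs_nonneg (chi Finset.univ x)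
    nlinarith
  have h1 : norm2 (chi (n := 1) Finset.univ) = 1 := by
    unfold norm2
    simp_rw [hsq]
    rw [mean_one, Real.sqrt_one]
  have h2 : norm1 (chi (n := 1) Finset.univ) = 1 := by
    unfold norm1
    simp_rw [habs]
    rw [mean_one]
  have h3 : deg (chi (n := 1) Finset.univ) = 1 := by
    apply le_antisymm
    · unfold deg
      apply Finset.sup_le
      intro S _
      exact (Finset.card_le_univ S).trans (by simp)
    · unfold deg
      have : (Finset.univ : Finset (Fin 1)) ∈ (Finset.univ.filter fun S : Finset (Fin 1) =>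
          coeff (chi Finset.univ) S ≠ 0) := by
        rw [Finset.mem_filter]
        refine ⟨Finset.mem_univ _, ?_⟩
        unfold coeff
        rw [mean_chi_mul]
        simp
      have h4 := Finset.le_sup (f := Finset.card) this
      simpa using h4
  rw [h1, h2, h3] at h
  linarith

theorem key_bound {C : ℝ} (hC : Admissible C) (k : ℕ) (hk : 1 ≤ k) :
    (((3 * k).choose k : ℝ)) ^ 2 * ((4 * k).choose (2 * k) : ℝ) ≤ 2 * C ^ (12 * k) := by
  have hC1 := one_le_of_admissible hC
  set n := 40 * k ^ 2 + 5 * k with hn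
  have h := hC n (by nlinarith) (tst n (3 * k))
  have hd : C ^ deg (tst n (3 * k)) ≤ C ^ (6 * k) := by
    apply pow_le_pow_right₀ hC1
    have := deg_tst (n := n) (3 * k)
    omega
  have h1 : norm2 (tst n (3 * k)) ≤ C ^ (6 * k) * (n.choose (3 * k) : ℝ) := by
    refine h.trans ?_
    rw [norm1_tst]
    gcongr
  have hn0 : 0 ≤ norm2 (tst n (3 * k)) := Real.sqrt_nonneg _
  have h2 := norm2_tst (n := n) k
  have h3 : ((n.choose (3 * k) : ℝ) * ((3 * k).choose k * (n - 3 * k).choose (2 * k))) ^ 2 ≤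
      (C ^ (6 * k) * (n.choose (3 * k) : ℝ)) ^ 2 * (n.choose (4 * k) : ℝ) :=
    h2.trans (by gcongr)
  have hpos : (0 : ℝ) < (n.choose (3 * k) : ℝ) := by
    have : 0 < n.choose (3 * k) := Nat.choose_pos (by nlinarith)
    exact_mod_cast this
  -- cancel
  have h4 : (((3 * k).choose k : ℝ) * (n - 3 * k).choose (2 * k)) ^ 2 ≤
      C ^ (12 * k) * (n.choose (4 * k) : ℝ) := by
    have e1 : ((n.choose (3 * k) : ℝ) * ((3 * k).choose k * (n - 3 * k).choose (2 * k))) ^ 2 =
        (((3 * k).choose k : ℝ) * (n - 3 * k).choose (2 * k)) ^ 2 * (n.choose (3 * k) : ℝ) ^ 2 := by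
      ring
    have e2 : (C ^ (6 * k) * (n.choose (3 * k) : ℝ)) ^ 2 * (n.choose (4 * k) : ℝ) =
        (C ^ (12 * k) * (n.choose (4 * k) : ℝ)) * (n.choose (3 * k) : ℝ) ^ 2 := by
      rw [show 12 * k = 6 * k * 2 by ring, pow_mul]; ring
    rw [e1, e2] at h3
    exact le_of_mul_le_mul_right h3 (by positivity)
  -- estimates for the binomial coefficients
  have hb1 : ((40 * k ^ 2 : ℕ) : ℝ) ^ (2 * k) ≤
      ((2 * k).factorial : ℝ) * ((n - 3 * k).choose (2 * k) : ℝ) := by
    have h5 := Nat.pow_le_choose (α := ℝ) (2 * k) (n - 3 * k)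
    rw [div_le_iff₀ (by positivity)] at h5
    refine le_trans ?_ (h5.trans_eq (mul_comm _ _))
    gcongr
    rw [hn]; omega
  have hb2 : (n.choose (4 * k) : ℝ) * ((4 * k).factorial : ℝ) ≤ (n : ℝ) ^ (4 * k) := by
    have h5 := Nat.choose_le_pow_div (α := ℝ) (4 * k) n
    rwa [le_div_iff₀ (by positivity)] at h5
  have hb3 : ((4 * k).choose (2 * k) : ℝ) * (2 * k).factorial * (2 * k).factorial =
      (4 * k).factorial := by
    have := Nat.choose_mul_factorial_mul_factorial (show 2 * k ≤ 4 * k by omega)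
    rw [show 4 * k - 2 * k = 2 * k by omega] at this
    exact_mod_cast this
  have hb4 : (n : ℝ) ^ (4 * k) ≤ 2 * (((40 * k ^ 2 : ℕ) : ℝ) ^ (2 * k)) ^ 2 := by
    have e3 : (((40 * k ^ 2 : ℕ) : ℝ) ^ (2 * k)) ^ 2 = ((40 * k ^ 2 : ℕ) : ℝ) ^ (4 * k) := by
      rw [← pow_mul]; congr 1; ring
    rw [e3]
    have hnpos : (0 : ℝ) < n := by
      have : 0 < n := by rw [hn]; positivity
      exact_mod_cast this
    have h6 : (1 : ℝ) / 2 ≤ (1 + (-(5 * k : ℝ) / n)) ^ (4 * k) := by
      have h7 : (-2 : ℝ) ≤ -(5 * k : ℝ) / n := by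
        rw [le_div_iff₀ hnpos]
        have : (n : ℝ) = 40 * (k : ℝ) ^ 2 + 5 * k := by rw [hn]; push_cast; ring
        rw [this]
        have hk' : (1 : ℝ) ≤ k := by exact_mod_cast hk
        nlinarith
      have h8 := one_add_mul_le_pow h7 (4 * k)
      refine le_trans ?_ h8
      have h9 : ((4 * k : ℕ) : ℝ) * (-(5 * k : ℝ) / n) = -((20 * (k : ℝ) ^ 2) / n) := by
        push_cast; ring
      rw [h9]
      have h10 : (20 * (k : ℝ) ^ 2) / n ≤ 1 / 2 := by
        rw [div_le_iff₀ hnpos]
        have : (n : ℝ) = 40 * (k : ℝ) ^ 2 + 5 * k := by rw [hn]; push_cast; ring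
        rw [this]
        have hk' : (1 : ℝ) ≤ k := by exact_mod_cast hk
        nlinarith
      linarith
    have h11 : ((40 * k ^ 2 : ℕ) : ℝ) = n * (1 + (-(5 * k : ℝ) / n)) := by
      have : (n : ℝ) = 40 * (k : ℝ) ^ 2 + 5 * k := by rw [hn]; push_cast; ring
      field_simp
      rw [this]; push_cast; ring
    rw [h11, mul_pow]
    have h12 : (0 : ℝ) ≤ (n : ℝ) ^ (4 * k) := by positivity
    nlinarith
  -- combine
  set a : ℝ := ((3 * k).choose k : ℝ) with ha
  set b : ℝ := ((n - 3 * k).choose (2 * k) : ℝ) with hb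
  set F2 : ℝ := ((2 * k).factorial : ℝ) with hF2
  set F4 : ℝ := ((4 * k).factorial : ℝ) with hF4
  set w : ℝ := ((40 * k ^ 2 : ℕ) : ℝ) ^ (2 * k) with hw
  have hwpos : 0 < w := by rw [hw]; positivity
  have hF2pos : 0 < F2 := by rw [hF2]; positivity
  have hF4pos : 0 < F4 := by rw [hF4]; positivity
  have hbnn : 0 ≤ b := by rw [hb]; positivity
  have hCpos : 0 < C ^ (12 * k) := by positivity
  have c1 : w ^ 2 ≤ (F2 * b) ^ 2 := by gcongr
  -- a^2 w^2 ≤ a^2 F2^2 b^2 ≤ C^{12k} N4 F2^2
  have c2 : a ^ 2 * w ^ 2 * F4 ≤ C ^ (12 * k) * (2 * w ^ 2) * F2 ^ 2 := by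
    calc a ^ 2 * w ^ 2 * F4 ≤ a ^ 2 * (F2 * b) ^ 2 * F4 := by gcongr
      _ = (a * b) ^ 2 * (F2 ^ 2 * F4) := by ring
      _ ≤ (C ^ (12 * k) * (n.choose (4 * k) : ℝ)) * (F2 ^ 2 * F4) := by gcongr
      _ = C ^ (12 * k) * ((n.choose (4 * k) : ℝ) * F4) * F2 ^ 2 := by ring
      _ ≤ C ^ (12 * k) * ((n : ℝ) ^ (4 * k)) * F2 ^ 2 := by gcongr
      _ ≤ C ^ (12 * k) * (2 * w ^ 2) * F2 ^ 2 := by gcongr
  rw [← hb3] at c2
  have c3 : (a ^ 2 * ((4 * k).choose (2 * k) : ℝ)) * (w ^ 2 * F2 ^ 2) ≤
      (2 * C ^ (12 * k)) * (w ^ 2 * F2 ^ 2) := by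
    calc _ = a ^ 2 * w ^ 2 * (((4 * k).choose (2 * k) : ℝ) * F2 * F2) := by ring
      _ ≤ C ^ (12 * k) * (2 * w ^ 2) * F2 ^ 2 := c2
      _ = _ := by ring
  exact le_of_mul_le_mul_right c3 (by positivity)

theorem pow_bound {C : ℝ} (hC : Admissible C) (k : ℕ) (hk : 1 ≤ k) :
    (729 : ℝ) ^ k ≤ 128 * (k : ℝ) ^ 3 * C ^ (12 * k) := by
  have h1 := key_bound hC k hk
  have hC1 := one_le_of_admissible hC
  have h2 : (27 : ℝ) ^ k ≤ ((3 * k).choose k : ℝ) * (4 ^ k * (3 * k + 1)) := by
    exact_mod_cast choose_three k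
  have h3 : (16 : ℝ) ^ k ≤ 4 * k * ((4 * k).choose (2 * k) : ℝ) := by
    have h4 := Nat.four_pow_le_two_mul_self_mul_centralBinom (2 * k) (by omega)
    rw [Nat.centralBinom, show 2 * (2 * k) = 4 * k by ring, pow_mul,
      show (4 : ℕ) ^ 2 = 16 by norm_num] at h4
    exact_mod_cast h4
  have hk' : (1 : ℝ) ≤ k := by exact_mod_cast hk
  have hX : (0 : ℝ) < 4 ^ k := by positivity
  have h5 : (27 : ℝ) ^ k * 27 ^ k * 16 ^ k ≤
      (((3 * k).choose k : ℝ) * (4 ^ k * (3 * k + 1))) *
      (((3 * k).choose k : ℝ) * (4 ^ k * (3 * k + 1))) *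
      (4 * k * ((4 * k).choose (2 * k) : ℝ)) := by
    gcongr
  have h6 : (27 : ℝ) ^ k * 27 ^ k * 16 ^ k = 729 ^ k * (4 ^ k * 4 ^ k) := by
    rw [← mul_pow, ← mul_pow, ← mul_pow, ← mul_pow]; norm_num
  have h7 : (((3 * k).choose k : ℝ) * (4 ^ k * (3 * k + 1))) *
      (((3 * k).choose k : ℝ) * (4 ^ k * (3 * k + 1))) *
      (4 * k * ((4 * k).choose (2 * k) : ℝ)) =
      (((3 * k).choose k : ℝ) ^ 2 * ((4 * k).choose (2 * k) : ℝ)) *
        ((3 * k + 1) ^ 2 * (4 * k)) * (4 ^ k * 4 ^ k) := by ring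
  rw [h6, h7] at h5
  have h8 : (729 : ℝ) ^ k ≤ (((3 * k).choose k : ℝ) ^ 2 * ((4 * k).choose (2 * k) : ℝ)) *
        ((3 * k + 1) ^ 2 * (4 * k)) := le_of_mul_le_mul_right h5 (by positivity)
  calc (729 : ℝ) ^ k ≤ (((3 * k).choose k : ℝ) ^ 2 * ((4 * k).choose (2 * k) : ℝ)) *
        ((3 * k + 1) ^ 2 * (4 * k)) := h8
    _ ≤ (2 * C ^ (12 * k)) * ((3 * k + 1) ^ 2 * (4 * k)) := by gcongr
    _ ≤ (2 * C ^ (12 * k)) * ((4 * k) ^ 2 * (4 * k)) := by gcongr; linarith
    _ = 128 * (k : ℝ) ^ 3 * C ^ (12 * k) := by ring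

/-- every admissible constant is at least `√3` -/
theorem sqrt_three_le {C : ℝ} (hC : Admissible C) : Real.sqrt 3 ≤ C := by
  have hC1 := one_le_of_admissible hC
  have h12 : (729 : ℝ) ≤ C ^ 12 := by
    by_contra hcon
    push Not at hcon
    set r : ℝ := C ^ 12 / 729 with hr
    have hr1 : r < 1 := by rw [hr, div_lt_one (by norm_num)]; exact hcon
    have hr0 : 0 ≤ r := by positivity
    have ht := tendsto_pow_const_mul_const_pow_of_lt_one 3 hr0 hr1
    have hev := (ht.eventually (gt_mem_nhds (show (0 : ℝ) < 1 / 128 by norm_num))).and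
      (Filter.eventually_ge_atTop 1)
    obtain ⟨k, hk1, hk2⟩ := hev.exists
    have h := pow_bound hC k hk2
    rw [pow_mul] at h
    have h3 : (C ^ 12) ^ k = r ^ k * 729 ^ k := by
      rw [← mul_pow, hr]; congr 1; field_simp
    rw [h3] at h
    have h4 : (0 : ℝ) < 729 ^ k := by positivity
    nlinarith
  have h3 : Real.sqrt 3 ^ 12 = 729 := by
    rw [show (12 : ℕ) = 2 * 6 by norm_num, pow_mul, Real.sq_sqrt (by norm_num)]; norm_num
  rw [← h3] at h12
  exact le_of_pow_le_pow_left₀ (by norm_num) (by linarith) h12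

end Pool.Agent.Lib_helper8.Cube
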