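import Pool.Agent.Lib_helper8.CubeDefs

open scoped Classical

namespace Pool.Agent.Lib_helper8.Cube

variable {n : ℕ}

theorem mean_add (f g : Cube n → ℝ) : mean (fun x => f x + g x) = mean f + mean g := by
  unfold mean; rw [Finset.sum_add_distrib, add_div]

theorem mean_const_mul (c : ℝ) (f : Cube n → ℝ) : mean (fun x => c * f x) = c * mean f := by
  unfold mean; rw [← Finset.mul_sum, mul_div_assoc]

theorem mean_sum {ι : Type*} (s : Finset ι) (f : ι → Cube n → ℝ) :
    mean (fun x => ∑ i ∈ s, f i x) = ∑ i ∈ s, mean (f i) := by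
  unfold mean
  rw [Finset.sum_comm, Finset.sum_div]

theorem mean_mono {f g : Cube n → ℝ} (h : ∀ x, f x ≤ g x) : mean f ≤ mean g := by
  unfold mean
  gcongr with x _
  exact h x

theorem mean_nonneg {f : Cube n → ℝ} (h : ∀ x, 0 ≤ f x) : 0 ≤ mean f := by
  unfold mean
  have : 0 ≤ ∑ x, f x := Finset.sum_nonneg fun x _ => h x
  positivity

theorem card_cube : Fintype.card (Cube n) = 2 ^ n := by
  simp [Cube]

theorem mean_one : mean (fun _ : Cube n => (1 : ℝ)) = 1 := by
  unfold mean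
  rw [Finset.sum_const, Finset.card_univ, card_cube]
  simp

theorem unit_sq (u : ℤˣ) : ((u : ℤ) : ℝ) * ((u : ℤ) : ℝ) = 1 := by
  rcases Int.units_eq_one_or u with rfl | rfl <;> simp

theorem chi_empty (x : Cube n) : chi ∅ x = 1 := by simp [chi]

theorem chi_mul (S T : Finset (Fin n)) (x : Cube n) :
    chi S x * chi T x = chi (symmDiff S T) x := by
  unfold chi
  have hS : ∏ i ∈ S, ((x i : ℤ) : ℝ) =
      (∏ i ∈ S \ T, ((x i : ℤ) : ℝ)) * ∏ i ∈ S ∩ T, ((x i : ℤ) : ℝ) := by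
    rw [← Finset.prod_union (Finset.disjoint_sdiff_inter S T), Finset.sdiff_union_inter]
  have hT : ∏ i ∈ T, ((x i : ℤ) : ℝ) =
      (∏ i ∈ T \ S, ((x i : ℤ) : ℝ)) * ∏ i ∈ S ∩ T, ((x i : ℤ) : ℝ) := by
    rw [Finset.inter_comm, ← Finset.prod_union (Finset.disjoint_sdiff_inter T S),
      Finset.sdiff_union_inter]
  have hI : (∏ i ∈ S ∩ T, ((x i : ℤ) : ℝ)) * ∏ i ∈ S ∩ T, ((x i : ℤ) : ℝ) = 1 := by
    rw [← Finset.prod_mul_distrib]
    exact Finset.prod_eq_one fun i _ => unit_sq (x i)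
  have hD : ∏ i ∈ symmDiff S T, ((x i : ℤ) : ℝ) =
      (∏ i ∈ S \ T, ((x i : ℤ) : ℝ)) * ∏ i ∈ T \ S, ((x i : ℤ) : ℝ) := by
    rw [symmDiff_def, Finset.sup_eq_union, Finset.prod_union]
    exact disjoint_sdiff_sdiff
  rw [hS, hT, hD]
  linear_combination (∏ i ∈ S \ T, ((x i : ℤ) : ℝ)) * (∏ i ∈ T \ S, ((x i : ℤ) : ℝ)) * hI

theorem mean_chi (S : Finset (Fin n)) : mean (chi S) = if S = ∅ then 1 else 0 := by
  split_ifs with h
  · subst h
    have : chi (∅ : Finset (Fin n)) = fun _ => (1 : ℝ) := by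
      funext x; exact chi_empty x
    rw [this, mean_one]
  · obtain ⟨i, hi⟩ := Finset.nonempty_iff_ne_empty.2 h
    unfold mean chi
    have e : ∀ x : Cube n, ∏ i ∈ S, ((x i : ℤ) : ℝ) =
        ∏ i, (if i ∈ S then ((x i : ℤ) : ℝ) else 1) := by
      intro x
      rw [Finset.prod_ite_mem]
      simp
    simp_rw [e]
    have := (Finset.prod_univ_sum (fun _ : Fin n => (Finset.univ : Finset ℤˣ))
      (fun i u => (if i ∈ S then ((u : ℤ) : ℝ) else 1)))
    rw [Fintype.piFinset_univ] at this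
    rw [← this, Finset.prod_eq_zero (Finset.mem_univ i), zero_div]
    simp [hi]

theorem mean_chi_mul (S T : Finset (Fin n)) :
    mean (fun x => chi S x * chi T x) = if S = T then 1 else 0 := by
  have : (fun x => chi S x * chi T x) = chi (symmDiff S T) := by
    funext x; exact chi_mul S T x
  rw [this, mean_chi]
  simp only [Finset.symmDiff_eq_empty]

theorem mean_cauchy (f g : Cube n → ℝ) :
    (mean fun x => f x * g x) ^ 2 ≤ (mean fun x => f x ^ 2) * (mean fun x => g x ^ 2) := by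
  unfold mean
  rw [div_pow, div_mul_div_comm, ← sq]
  gcongr
  exact Finset.sum_mul_sq_le_sq_mul_sq _ _ _

end Pool.Agent.Lib_helper8.Cube
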