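import Mathlib

/-!
# Functions on the hypercube: norms and degree (definitions)
-/

open scoped Classical

namespace Pool.Agent.Lib_helper8.Cube

/-- The hypercube `{-1,1}^n`. -/
abbrev Cube (n : ℕ) : Type := Fin n → ℤˣ

variable {n : ℕ}

/-- The expectation under the uniform probability measure. -/
noncomputable def mean (f : Cube n → ℝ) : ℝ := (∑ x, f x) / 2 ^ n

/-- `‖f‖₁ = E |f|`. -/
noncomputable def norm1 (f : Cube n → ℝ) : ℝ := mean fun x => |f x|

/-- `‖f‖₂ = (E f²)^{1/2}`. -/
noncomputable def norm2 (f : Cube n → ℝ) : ℝ := Real.sqrt (mean fun x => f x ^ 2)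

/-- The Walsh function `x ↦ ∏_{i ∈ S} x_i`. -/
noncomputable def chi (S : Finset (Fin n)) (x : Cube n) : ℝ := ∏ i ∈ S, ((x i : ℤ) : ℝ)

/-- The Fourier-Walsh coefficient of `f` at `S`. -/
noncomputable def coeff (f : Cube n → ℝ) (S : Finset (Fin n)) : ℝ := mean fun x => f x * chi S x

/-- The degree of `f`: the largest `|S|` for which the coefficient at `S` is nonzero
(and `0` if there is none). -/
noncomputable def deg (f : Cube n → ℝ) : ℕ :=
  (Finset.univ.filter fun S : Finset (Fin n) => coeff f S ≠ 0).sup Finset.card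

/-- `C` is admissible if `‖f‖₂ ≤ C^{deg f} ‖f‖₁` for all `n ≥ 1` and all `f : {-1,1}^n → ℝ`.
The constant `C^*` of the problem is the infimum of the positive admissible `C`. -/
def Admissible (C : ℝ) : Prop :=
  ∀ n : ℕ, 1 ≤ n → ∀ f : Cube n → ℝ, norm2 f ≤ C ^ deg f * norm1 f

end Pool.Agent.Lib_helper8.Cube
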