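import Mathlib

/-!
# A complex two-point inequality `L^{4/3} → L^4`
-/

namespace Pool.Agent.Lib_helper8.Cube

/-- Completing squares. -/
theorem square_identity (r m H N U δ w y Λ N2 U2 : ℝ)
    (hN : N ^ 2 = N2) (hU : U ^ 2 = U2) (hδ : δ ^ 2 + w ^ 2 = m ^ 3)
    (hy : y ^ 2 = (1 - 3 * r) * (1 + r) / 3) :
    (Λ - (1 + r) ^ 2 * m) * (Λ - 3 * (1 - 3 * r) * (1 + r) * m) * m *
        (9 * H ^ 3 - (((2 - r) * N + (1 + r) * δ) ^ 2 + 9 * (r * U + y * w) ^ 2)) =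
      (Λ - 3 * (1 - 3 * r) * (1 + r) * m) *
        ((Λ - (1 + r) ^ 2 * m) * δ - (2 - r) * (1 + r) * N * m) ^ 2 +
      (Λ - (1 + r) ^ 2 * m) *
        ((Λ - 3 * (1 - 3 * r) * (1 + r) * m) * w - 9 * r * y * U * m) ^ 2 +
      m * ((Λ - (1 + r) ^ 2 * m) * (Λ - 3 * (1 - 3 * r) * (1 + r) * m) *
        (9 * H ^ 3 - Λ * m ^ 2) - Λ * ((2 - r) ^ 2 * N2 * (Λ - 3 * (1 - 3 * r) * (1 + r) * m) +
          9 * r ^ 2 * U2 * (Λ - (1 + r) ^ 2 * m))) := by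
  linear_combination
    (-(2 - r) ^ 2 * m * (Λ - 3 * (1 - 3 * r) * (1 + r) * m) * Λ) * hN -
      (9 * r ^ 2 * m * (Λ - (1 + r) ^ 2 * m) * Λ) * hU -
      (Λ * (Λ - (1 + r) ^ 2 * m) * (Λ - 3 * (1 - 3 * r) * (1 + r) * m)) * hδ -
      (81 * r ^ 2 * U ^ 2 * m ^ 2 * (Λ - (1 + r) ^ 2 * m) +
        9 * m * (Λ - (1 + r) ^ 2 * m) * (Λ - 3 * (1 - 3 * r) * (1 + r) * m) * w ^ 2) * hy

/-- The remainder is divisible by `e ^ 2`. -/
theorem remainder_identity (r m e Λ : ℝ) (hΛ : Λ = 3 * ((1 + r) * m + (2 - r) * e)) :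
    (Λ - (1 + r) ^ 2 * m) * (Λ - 3 * (1 - 3 * r) * (1 + r) * m) *
        (9 * (e + m) ^ 3 - Λ * m ^ 2) -
      Λ * ((2 - r) ^ 2 * ((e + m + m) * (2 * (e + m) - m) ^ 2 / 2) *
          (Λ - 3 * (1 - 3 * r) * (1 + r) * m) +
        9 * r ^ 2 * (e * (2 * (e + m) + m) ^ 2 / 2) * (Λ - (1 + r) ^ 2 * m)) =
      e ^ 2 * (81 * r * (1 + r) * (2 - r) * (1 - 2 * r) * m ^ 3 +
          81 * r * (12 - 32 * r + 17 * r ^ 2 - 2 * r ^ 3) * e * m ^ 2 +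
          9 * (8 + 98 * r - 339 * r ^ 2 + 248 * r ^ 3 - 52 * r ^ 4) * e ^ 2 * m +
          9 * (4 + 28 * r - 111 * r ^ 2 + 88 * r ^ 3 - 20 * r ^ 4) * e ^ 3) := by
  subst hΛ
  ring

theorem coef_two {r : ℝ} (hr0 : 0 ≤ r) (hr1 : r ≤ 1 / 3) :
    0 ≤ 12 - 32 * r + 17 * r ^ 2 - 2 * r ^ 3 := by
  have h1 : 0 ≤ r ^ 2 * (17 - 2 * r) := mul_nonneg (by positivity) (by linarith)
  nlinarith

theorem coef_three {r : ℝ} (hr0 : 0 ≤ r) (hr1 : r ≤ 1 / 3) :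
    0 ≤ 8 + 98 * r - 339 * r ^ 2 + 248 * r ^ 3 - 52 * r ^ 4 := by
  have h1 : 0 ≤ r ^ 3 * (248 - 52 * r) := mul_nonneg (by positivity) (by linarith)
  have h2 : 0 ≤ r * (339 * (1 / 3 - r)) := mul_nonneg hr0 (by linarith)
  nlinarith

theorem coef_four {r : ℝ} (hr0 : 0 ≤ r) (hr1 : r ≤ 1 / 3) :
    0 ≤ 4 + 28 * r - 111 * r ^ 2 + 88 * r ^ 3 - 20 * r ^ 4 := by
  have h1 : 0 ≤ r ^ 3 * (88 - 20 * r) := mul_nonneg (by positivity) (by linarith)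
  have h2 : 0 ≤ r * (111 * (1 / 3 - r)) := mul_nonneg hr0 (by linarith)
  nlinarith

/-- The real inequality behind the two-point inequality. -/
theorem core_ineq (r m H N U δ w y : ℝ) (hr0 : 0 ≤ r) (hr1 : r ≤ 1 / 3) (hm : 0 ≤ m)
    (hH : m ≤ H) (hN : N ^ 2 = (H + m) * (2 * H - m) ^ 2 / 2)
    (hU : U ^ 2 = (H - m) * (2 * H + m) ^ 2 / 2) (hδ : δ ^ 2 + w ^ 2 = m ^ 3)
    (hy : y ^ 2 = (1 - 3 * r) * (1 + r) / 3) :
    ((2 - r) * N + (1 + r) * δ) ^ 2 + 9 * (r * U + y * w) ^ 2 ≤ 9 * H ^ 3 := by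
  have hH0 : 0 ≤ H := hm.trans hH
  rcases hm.eq_or_lt with hm0 | hm0
  · subst hm0
    have hw : w = 0 := by nlinarith [sq_nonneg w, sq_nonneg δ]
    have hd : δ = 0 := by nlinarith [sq_nonneg w, sq_nonneg δ]
    subst hw; subst hd
    have h1 : ((2 - r) * N + (1 + r) * 0) ^ 2 + 9 * (r * U + y * 0) ^ 2 =
        (2 - r) ^ 2 * N ^ 2 + 9 * r ^ 2 * U ^ 2 := by ring
    rw [h1, hN, hU]
    have h2 : (2 - r) ^ 2 * ((H + 0) * (2 * H - 0) ^ 2 / 2) +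
        9 * r ^ 2 * ((H - 0) * (2 * H + 0) ^ 2 / 2) = H ^ 3 * (2 * ((2 - r) ^ 2 + 9 * r ^ 2)) := by
      ring
    rw [h2, mul_comm (9 : ℝ) (H ^ 3)]
    apply mul_le_mul_of_nonneg_left _ (by positivity)
    nlinarith
  · obtain ⟨e, he⟩ : ∃ e, e = H - m := ⟨_, rfl⟩
    have he0 : 0 ≤ e := by linarith
    have hHe : H = e + m := by linarith
    obtain ⟨Λ, hΛ⟩ : ∃ Λ, Λ = 3 * ((1 + r) * m + (2 - r) * e) := ⟨_, rfl⟩
    obtain ⟨E1, hE1⟩ : ∃ E1, E1 = Λ - (1 + r) ^ 2 * m := ⟨_, rfl⟩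
    obtain ⟨E2, hE2⟩ : ∃ E2, E2 = Λ - 3 * (1 - 3 * r) * (1 + r) * m := ⟨_, rfl⟩
    have hE1' : E1 = (1 + r) * (2 - r) * m + 3 * (2 - r) * e := by
      rw [hE1, hΛ]; ring
    have hE2' : E2 = 9 * r * (1 + r) * m + 3 * (2 - r) * e := by
      rw [hE2, hΛ]; ring
    have hr2 : 0 < 2 - r := by linarith
    have hE1pos : 0 < E1 := by
      rw [hE1']
      positivity
    have hE2nn : 0 ≤ E2 := by
      rw [hE2']
      positivity
    rcases hE2nn.eq_or_lt with hz | hE2pos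
    · -- `r = 0` and `e = 0`
      have h1 : 0 ≤ 9 * r * (1 + r) * m := by positivity
      have h2 : 0 ≤ 3 * (2 - r) * e := by positivity
      have h3 : 3 * (2 - r) * e = 0 := by linarith
      have h4 : 9 * r * (1 + r) * m = 0 := by linarith
      have he1 : e = 0 := by
        rcases mul_eq_zero.1 h3 with h | h
        · linarith
        · exact h
      have hr : r = 0 := by
        rcases mul_eq_zero.1 h4 with h | h
        · rcases mul_eq_zero.1 h with h | h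
          · linarith
          · linarith
        · linarith
      rw [he1] at hHe
      subst hr
      have hHm : H = m := by linarith
      subst hHm
      have hN' : N ^ 2 = H ^ 3 := by rw [hN]; ring
      have hU' : U ^ 2 = 0 := by rw [hU]; ring
      have hy' : y ^ 2 = 1 / 3 := by rw [hy]; ring
      have : ((2 - 0) * N + (1 + 0) * δ) ^ 2 + 9 * (0 * U + y * w) ^ 2 =
          4 * N ^ 2 + 4 * N * δ + δ ^ 2 + 9 * y ^ 2 * w ^ 2 := by ring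
      rw [this, hy']
      nlinarith [sq_nonneg (N - δ)]
    · obtain ⟨R, hR⟩ : ∃ R, R = e ^ 2 * (81 * r * (1 + r) * (2 - r) * (1 - 2 * r) * m ^ 3 +
          81 * r * (12 - 32 * r + 17 * r ^ 2 - 2 * r ^ 3) * e * m ^ 2 +
          9 * (8 + 98 * r - 339 * r ^ 2 + 248 * r ^ 3 - 52 * r ^ 4) * e ^ 2 * m +
          9 * (4 + 28 * r - 111 * r ^ 2 + 88 * r ^ 3 - 20 * r ^ 4) * e ^ 3) := ⟨_, rfl⟩
      have hRnn : 0 ≤ R := by
        have k1 : 0 ≤ 1 - 2 * r := by linarith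
        have k2 := coef_two hr0 hr1
        have k3 := coef_three hr0 hr1
        have k4 := coef_four hr0 hr1
        rw [hR]
        positivity
      have hN2 : N ^ 2 = (e + m + m) * (2 * (e + m) - m) ^ 2 / 2 := by rw [hN, hHe]
      have hU2 : U ^ 2 = e * (2 * (e + m) + m) ^ 2 / 2 := by 
        rw [hU, hHe]; ring
      have key : E1 * E2 * m * (9 * H ^ 3 - (((2 - r) * N + (1 + r) * δ) ^ 2 +
          9 * (r * U + y * w) ^ 2)) =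
          E2 * (E1 * δ - (2 - r) * (1 + r) * N * m) ^ 2 +
          E1 * (E2 * w - 9 * r * y * U * m) ^ 2 + m * R := by
        rw [hR, ← remainder_identity r m e Λ hΛ, hE1, hE2, hHe]
        exact square_identity r m (e + m) N U δ w y Λ _ _ hN2 hU2 hδ hy
      have h0 : 0 ≤ E1 * E2 * m * (9 * H ^ 3 - (((2 - r) * N + (1 + r) * δ) ^ 2 +
          9 * (r * U + y * w) ^ 2)) := by
        rw [key]
        positivity
      have h1 : 0 < E1 * E2 * m := by positivity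
      have h2 := nonneg_of_mul_nonneg_right h0 h1
      linarith

/-- The points of the boundary of the lens `{|z + 1/3| ≤ 2/3} ∩ {|z - 1/3| ≤ 2/3}`. -/
def OnArc (z : ℂ) : Prop :=
  |z.re| ≤ 1 / 3 ∧ z.im ^ 2 = (1 - 3 * |z.re|) * (1 + |z.re|) / 3

theorem two_point_aux (A B z : ℂ) (P Q : ℝ) (hP : 0 ≤ P) (hQ : 0 ≤ Q)
    (hP3 : P ^ 3 = ‖A + B‖ ^ 2) (hQ3 : Q ^ 3 = ‖A - B‖ ^ 2) (hr0 : 0 ≤ z.re)
    (hr1 : z.re ≤ 1 / 3) (hy : z.im ^ 2 = (1 - 3 * z.re) * (1 + z.re) / 3) :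
    (‖A + z * B‖ ^ 4 + ‖A - z * B‖ ^ 4) / 2 ≤ ((P ^ 2 + Q ^ 2) / 2) ^ 3 := by
  have hm : 0 ≤ P * Q := mul_nonneg hP hQ
  have hmH : P * Q ≤ (P ^ 2 + Q ^ 2) / 2 := by nlinarith [sq_nonneg (P - Q)]
  have sq1 : ∀ u : ℂ, ‖u‖ ^ 2 = u.re ^ 2 + u.im ^ 2 := fun u => by
    rw [Complex.sq_norm, Complex.normSq_apply]; ring
  have h4 : ∀ u : ℂ, ‖u‖ ^ 4 = (u.re ^ 2 + u.im ^ 2) ^ 2 := fun u => by
    rw [← sq1]; ring
  rw [sq1] at hP3 hQ3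
  simp only [Complex.add_re, Complex.add_im, Complex.sub_re, Complex.sub_im] at hP3 hQ3
  have hcore := core_ineq z.re (P * Q) ((P ^ 2 + Q ^ 2) / 2) ((P ^ 3 + Q ^ 3) / 2)
    ((P ^ 3 - Q ^ 3) / 2) ((A.re ^ 2 + A.im ^ 2) - (B.re ^ 2 + B.im ^ 2))
    (2 * (A.im * B.re - A.re * B.im)) z.im hr0 hr1 hm hmH (by ring) (by ring)
    (by
      have : (P * Q) ^ 3 = P ^ 3 * Q ^ 3 := by ring
      rw [this, hP3, hQ3]; ring) hy
  rw [hP3, hQ3] at hcore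
  rw [h4, h4]
  simp only [Complex.add_re, Complex.add_im, Complex.sub_re, Complex.sub_im, Complex.mul_re,
    Complex.mul_im]
  set r := z.re
  set y := z.im
  set a := A.re
  set a' := A.im
  set b := B.re
  set b' := B.im
  have e1 : ((a + (r * b - y * b')) ^ 2 + (a' + (r * b' + y * b)) ^ 2) ^ 2 +
      ((a - (r * b - y * b')) ^ 2 + (a' - (r * b' + y * b)) ^ 2) ^ 2 =
      2 * (a ^ 2 + a' ^ 2 + (r ^ 2 + y ^ 2) * (b ^ 2 + b' ^ 2)) ^ 2 +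
      8 * (r * (a * b + a' * b') + y * (a' * b - a * b')) ^ 2 := by ring
  rw [e1]
  have e2 : r ^ 2 + y ^ 2 = (1 - 2 * r) / 3 := by rw [hy]; ring
  rw [e2]
  have e3 : ((2 - r) * (((a + b) ^ 2 + (a' + b') ^ 2 + ((a - b) ^ 2 + (a' - b') ^ 2)) / 2) +
      (1 + r) * (a ^ 2 + a' ^ 2 - (b ^ 2 + b' ^ 2))) ^ 2 +
      9 * (r * (((a + b) ^ 2 + (a' + b') ^ 2 - ((a - b) ^ 2 + (a' - b') ^ 2)) / 2) +
        y * (2 * (a' * b - a * b'))) ^ 2 =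
      9 * ((2 * (a ^ 2 + a' ^ 2 + (1 - 2 * r) / 3 * (b ^ 2 + b' ^ 2)) ^ 2 +
      8 * (r * (a * b + a' * b') + y * (a' * b - a * b')) ^ 2) / 2) := by ring
  rw [e3] at hcore
  linarith

theorem two_point (A B z : ℂ) (P Q : ℝ) (hP : 0 ≤ P) (hQ : 0 ≤ Q)
    (hP3 : P ^ 3 = ‖A + B‖ ^ 2) (hQ3 : Q ^ 3 = ‖A - B‖ ^ 2) (hz : OnArc z) :
    (‖A + z * B‖ ^ 4 + ‖A - z * B‖ ^ 4) / 2 ≤ ((P ^ 2 + Q ^ 2) / 2) ^ 3 := by
  rcases le_total 0 z.re with h | h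
  · obtain ⟨h1, h2⟩ := hz
    rw [abs_of_nonneg h] at h1 h2
    exact two_point_aux A B z P Q hP hQ hP3 hQ3 h h1 h2
  · obtain ⟨h1, h2⟩ := hz
    rw [abs_of_nonpos h] at h1 h2
    have := two_point_aux A B (-z) P Q hP hQ hP3 hQ3 (by simpa using h) (by simpa using h1)
      (by simpa using h2)
    have e1 : A + -z * B = A - z * B := by ring
    have e2 : A - -z * B = A + z * B := by ring
    rw [e1, e2] at this
    linarith

end Pool.Agent.Lib_helper8.Cube
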