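import Pool.Agent.Lib_helper8.CubeBasic
import Pool.Agent.Lib_helper8.CubeTwoPoint

/-!
# Tensorization of the two-point inequality
-/

namespace Pool.Agent.Lib_helper8.Cube

variable {n : ℕ}

/-- The noise operator with a complex parameter. -/
noncomputable def T (z : ℂ) (f : Cube n → ℂ) (x : Cube n) : ℂ :=
  (∑ y, (∏ i, (1 + z * (((x i : ℤ) : ℂ) * ((y i : ℤ) : ℂ)))) * f y) / 2 ^ n

theorem sum_cube_succ {M : Type*} [AddCommMonoid M] (g : Cube (n + 1) → M) :
    ∑ x, g x = ∑ y : Cube n, (g (Fin.cons 1 y) + g (Fin.cons (-1) y)) := by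
  rw [← (Fin.consEquiv (fun _ : Fin (n + 1) => ℤˣ)).sum_comp g, Fintype.sum_prod_type_right]
  refine Finset.sum_congr rfl fun y _ => ?_
  rw [show (Finset.univ : Finset ℤˣ) = {1, -1} from rfl, Finset.sum_pair (by decide)]
  rfl

theorem T_cons_one (z : ℂ) (f : Cube (n + 1) → ℂ) (x : Cube n) :
    T z f (Fin.cons 1 x) = ((1 + z) * T z (fun y => f (Fin.cons 1 y)) x +
      (1 - z) * T z (fun y => f (Fin.cons (-1) y)) x) / 2 := by
  unfold T
  rw [sum_cube_succ, Finset.sum_add_distrib]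
  simp only [Fin.prod_univ_succ, Fin.cons_zero, Fin.cons_succ, Units.val_one, Units.val_neg,
    Int.cast_one, Int.cast_neg, mul_one, mul_neg, mul_assoc]
  rw [← Finset.mul_sum, ← Finset.mul_sum, pow_succ]
  field_simp
  ring

theorem T_cons_neg_one (z : ℂ) (f : Cube (n + 1) → ℂ) (x : Cube n) :
    T z f (Fin.cons (-1) x) = ((1 - z) * T z (fun y => f (Fin.cons 1 y)) x +
      (1 + z) * T z (fun y => f (Fin.cons (-1) y)) x) / 2 := by
  unfold T
  rw [sum_cube_succ, Finset.sum_add_distrib]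
  simp only [Fin.prod_univ_succ, Fin.cons_zero, Fin.cons_succ, Units.val_one, Units.val_neg,
    Int.cast_one, Int.cast_neg, mul_one, mul_neg, neg_neg, mul_assoc]
  rw [← Finset.mul_sum, ← Finset.mul_sum, pow_succ]
  field_simp
  ring

/-- Cube root of the modulus. -/
noncomputable def cr (u : ℂ) : ℝ := ‖u‖ ^ (1 / 3 : ℝ)

theorem cr_nonneg (u : ℂ) : 0 ≤ cr u := Real.rpow_nonneg (norm_nonneg _) _

theorem cr_cube (u : ℂ) : cr u ^ 3 = ‖u‖ := by
  unfold cr
  rw [← Real.rpow_natCast, ← Real.rpow_mul (norm_nonneg _)]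
  norm_num

theorem minkowski_three {ι : Type*} (s : Finset ι) (g h : ι → ℝ) (hg : ∀ i, 0 ≤ g i)
    (hh : ∀ i, 0 ≤ h i) (K a b : ℝ) (ha : 0 ≤ a) (hb : 0 ≤ b)
    (h1 : ∑ i ∈ s, g i ^ 3 ≤ K * a ^ 3) (h2 : ∑ i ∈ s, h i ^ 3 ≤ K * b ^ 3) :
    ∑ i ∈ s, ((g i + h i) / 2) ^ 3 ≤ K * ((a + b) / 2) ^ 3 := by
  rcases ha.eq_or_lt with ha0 | ha0
  · subst ha0
    have hz : ∀ i ∈ s, g i = 0 := by
      have h3 : ∑ i ∈ s, g i ^ 3 = 0 := by
        apply le_antisymm
        · refine h1.trans (by simp)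
        · exact Finset.sum_nonneg fun i _ => pow_nonneg (hg i) 3
      rw [Finset.sum_eq_zero_iff_of_nonneg (fun i _ => pow_nonneg (hg i) 3)] at h3
      intro i hi
      exact pow_eq_zero_iff (by norm_num) |>.1 (h3 i hi)
    have e : ∑ i ∈ s, ((g i + h i) / 2) ^ 3 = (∑ i ∈ s, h i ^ 3) / 8 := by
      rw [Finset.sum_div]
      refine Finset.sum_congr rfl fun i hi => ?_
      rw [hz i hi]; ring
    rw [e]
    have : K * ((0 + b) / 2) ^ 3 = K * b ^ 3 / 8 := by ring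
    rw [this]
    linarith
  rcases hb.eq_or_lt with hb0 | hb0
  · subst hb0
    have hz : ∀ i ∈ s, h i = 0 := by
      have h3 : ∑ i ∈ s, h i ^ 3 = 0 := by
        apply le_antisymm
        · refine h2.trans (by simp)
        · exact Finset.sum_nonneg fun i _ => pow_nonneg (hh i) 3
      rw [Finset.sum_eq_zero_iff_of_nonneg (fun i _ => pow_nonneg (hh i) 3)] at h3
      intro i hi
      exact pow_eq_zero_iff (by norm_num) |>.1 (h3 i hi)
    have e : ∑ i ∈ s, ((g i + h i) / 2) ^ 3 = (∑ i ∈ s, g i ^ 3) / 8 := by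
      rw [Finset.sum_div]
      refine Finset.sum_congr rfl fun i hi => ?_
      rw [hz i hi]; ring
    rw [e]
    have : K * ((a + 0) / 2) ^ 3 = K * a ^ 3 / 8 := by ring
    rw [this]
    linarith
  have key : ∀ i, ((g i + h i) / 2) ^ 3 ≤
      (a + b) ^ 2 * (g i ^ 3 / a ^ 2 + h i ^ 3 / b ^ 2) / 8 := by
    intro i
    obtain ⟨s', hs'⟩ : ∃ s', s' = g i / a := ⟨_, rfl⟩
    obtain ⟨t', ht'⟩ : ∃ t', t' = h i / b := ⟨_, rfl⟩
    have hs0 : 0 ≤ s' := hs' ▸ div_nonneg (hg i) ha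
    have ht0 : 0 ≤ t' := ht' ▸ div_nonneg (hh i) hb
    have e1 : g i = a * s' := by rw [hs']; field_simp
    have e2 : h i = b * t' := by rw [ht']; field_simp
    rw [e1, e2]
    have e3 : (a * s') ^ 3 / a ^ 2 = a * s' ^ 3 := by field_simp
    have e4 : (b * t') ^ 3 / b ^ 2 = b * t' ^ 3 := by field_simp
    rw [e3, e4]
    have e5 : (a + b) ^ 2 * (a * s' ^ 3 + b * t' ^ 3) - (a * s' + b * t') ^ 3 =
        a * b * (s' - t') ^ 2 * ((2 * a + b) * s' + (a + 2 * b) * t') := by ring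
    have e6 : 0 ≤ a * b * (s' - t') ^ 2 * ((2 * a + b) * s' + (a + 2 * b) * t') := by positivity
    have e7 : ((a * s' + b * t') / 2) ^ 3 = (a * s' + b * t') ^ 3 / 8 := by ring
    rw [e7]
    linarith
  calc ∑ i ∈ s, ((g i + h i) / 2) ^ 3
      ≤ ∑ i ∈ s, (a + b) ^ 2 * (g i ^ 3 / a ^ 2 + h i ^ 3 / b ^ 2) / 8 :=
        Finset.sum_le_sum fun i _ => key i
    _ = (a + b) ^ 2 * ((∑ i ∈ s, g i ^ 3) / a ^ 2 + (∑ i ∈ s, h i ^ 3) / b ^ 2) / 8 := by
        rw [← Finset.sum_div, ← Finset.mul_sum, Finset.sum_add_distrib, Finset.sum_div,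
          Finset.sum_div]
    _ ≤ (a + b) ^ 2 * (K * a ^ 3 / a ^ 2 + K * b ^ 3 / b ^ 2) / 8 := by gcongr
    _ = K * ((a + b) / 2) ^ 3 := by field_simp; ring

/-- Complex hypercontractivity `L^{4/3} → L^4` on the boundary of the lens. -/
theorem hyper (z : ℂ) (hz : OnArc z) : ∀ (n : ℕ) (f : Cube n → ℂ),
    ∑ x, ‖T z f x‖ ^ 4 ≤ 2 ^ n * ((∑ x, cr (f x) ^ 4) / 2 ^ n) ^ 3 := by
  intro n
  induction n with
  | zero =>
    intro f
    obtain ⟨x0⟩ : Nonempty (Cube 0) := ⟨fun i => i.elim0⟩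
    have h2 : ∀ g : Cube 0 → ℝ, ∑ x, g x = g x0 := fun g =>
      (Fintype.sum_unique g).trans (congrArg g (Subsingleton.elim _ _))
    have h2' : ∀ g : Cube 0 → ℂ, ∑ x, g x = g x0 := fun g =>
      (Fintype.sum_unique g).trans (congrArg g (Subsingleton.elim _ _))
    have h3 : T z f x0 = f x0 := by
      unfold T
      rw [h2']
      simp
    rw [h2, h2, h3, ← cr_cube]
    apply le_of_eq
    ring
  | succ n ih =>
    intro f
    set fp : Cube n → ℂ := fun y => f (Fin.cons 1 y) with hfp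
    set fm : Cube n → ℂ := fun y => f (Fin.cons (-1) y) with hfm
    have hp := ih fp
    have hm := ih fm
    have e12 : ∀ u : ℂ, (cr u ^ 4) ^ 3 = ‖u‖ ^ 4 := fun u => by rw [← cr_cube]; ring
    have hM := minkowski_three Finset.univ (fun y => cr (T z fp y) ^ 4)
      (fun y => cr (T z fm y) ^ 4) (fun y => by positivity [cr_nonneg (T z fp y)])
      (fun y => by positivity [cr_nonneg (T z fm y)]) (2 ^ n)
      ((∑ x, cr (fp x) ^ 4) / 2 ^ n) ((∑ x, cr (fm x) ^ 4) / 2 ^ n) (by positivity) (by positivity)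
      (by simpa only [e12] using hp) (by simpa only [e12] using hm)
    have h2 : ∀ y : Cube n, ‖T z f (Fin.cons 1 y)‖ ^ 4 + ‖T z f (Fin.cons (-1) y)‖ ^ 4 ≤
        2 * ((cr (T z fp y) ^ 4 + cr (T z fm y) ^ 4) / 2) ^ 3 := by
      intro y
      have := two_point ((T z fp y + T z fm y) / 2) ((T z fp y - T z fm y) / 2) z
        (cr (T z fp y) ^ 2) (cr (T z fm y) ^ 2) (by positivity) (by positivity)
        (by
          have e : (T z fp y + T z fm y) / 2 + (T z fp y - T z fm y) / 2 = T z fp y := by ring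
          rw [e, ← cr_cube]; ring)
        (by
          have e : (T z fp y + T z fm y) / 2 - (T z fp y - T z fm y) / 2 = T z fm y := by ring
          rw [e, ← cr_cube]; ring) hz
      have e1 : T z f (Fin.cons 1 y) =
          (T z fp y + T z fm y) / 2 + z * ((T z fp y - T z fm y) / 2) := by
        rw [T_cons_one]; ring
      have e2 : T z f (Fin.cons (-1) y) =
          (T z fp y + T z fm y) / 2 - z * ((T z fp y - T z fm y) / 2) := by
        rw [T_cons_neg_one]; ring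
      rw [e1, e2]
      have e3 : (cr (T z fp y) ^ 4 + cr (T z fm y) ^ 4) / 2 =
          ((cr (T z fp y) ^ 2) ^ 2 + (cr (T z fm y) ^ 2) ^ 2) / 2 := by ring
      rw [e3]
      linarith
    rw [sum_cube_succ, sum_cube_succ (fun x => cr (f x) ^ 4)]
    calc ∑ y : Cube n, (‖T z f (Fin.cons 1 y)‖ ^ 4 + ‖T z f (Fin.cons (-1) y)‖ ^ 4)
        ≤ ∑ y : Cube n, 2 * ((cr (T z fp y) ^ 4 + cr (T z fm y) ^ 4) / 2) ^ 3 :=
          Finset.sum_le_sum fun y _ => h2 y
      _ = 2 * ∑ y : Cube n, ((cr (T z fp y) ^ 4 + cr (T z fm y) ^ 4) / 2) ^ 3 := by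
          rw [Finset.mul_sum]
      _ ≤ 2 * (2 ^ n * (((∑ x, cr (fp x) ^ 4) / 2 ^ n + (∑ x, cr (fm x) ^ 4) / 2 ^ n) / 2) ^ 3) := by
          gcongr
      _ = _ := by
          rw [Finset.sum_add_distrib, pow_succ]
          have : ((∑ x, cr (fp x) ^ 4) / 2 ^ n + (∑ x, cr (fm x) ^ 4) / 2 ^ n) / 2 =
              (∑ x, cr (fp x) ^ 4 + ∑ x, cr (fm x) ^ 4) / (2 ^ n * 2) := by
            field_simp
          rw [this]
          ring

end Pool.Agent.Lib_helper8.Cube
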