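import Pool.Agent.Lib_helper8.QAAMoment

/-!
# The main induction
-/

set_option autoImplicit false
set_option linter.unusedSectionVars false

open Finset
open scoped InnerProductSpace

namespace Pool.Agent.Lib_helper8.QAA

variable {I A : Type} [Fintype I] [DecidableEq I] [Fintype A] {p : ℕ}

/-- Fixing the coordinates in `H` to `y`. -/
noncomputable def Algorithm.fix (Q : Algorithm I A p) (H : Finset I) (y : I → Bool) :
    Algorithm I A p where
  query a := Q.query a \ H
  phase a x := Q.phase a (fill H y x)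
  step := Q.step
  init := Q.init
  accept := Q.accept
  card_query_le a := (Finset.card_le_card Finset.sdiff_subset).trans (Q.card_query_le a)
  norm_phase_le a x := Q.norm_phase_le a _
  phase_congr a x x' h := Q.phase_congr a _ _ fun i hi => by
    unfold fill
    split_ifs with hH
    · rfl
    · exact h i (Finset.mem_sdiff.2 ⟨hi, hH⟩)
  norm_step_le := Q.norm_step_le
  norm_init_le := Q.norm_init_le

lemma fix_state (Q : Algorithm I A p) (H : Finset I) (y x : I → Bool) (s : ℕ) :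
    (Q.fix H y).state s x = Q.state s (fill H y x) := by
  induction s with
  | zero => rfl
  | succ s ih =>
    show Q.step s ((Q.fix H y).oracle x ((Q.fix H y).state s x)) =
      Q.step s (Q.oracle (fill H y x) (Q.state s (fill H y x)))
    rw [ih]
    rfl

lemma fix_prob (Q : Algorithm I A p) (H : Finset I) (y x : I → Bool) (r : ℕ) :
    (Q.fix H y).prob r x = Q.prob r (fill H y x) := by
  unfold Algorithm.prob
  rw [fix_state]
  rfl

lemma fix_M (Q : Algorithm I A p) (H : Finset I) (s n : ℕ) (hn : n ≠ 0) :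
    ex (fun y => (Q.fix H y).M s n) = ∑ i ∈ Hᶜ, ex (fun x => pm (Q.look i) (Q.state s x) ^ n) := by
  unfold Algorithm.M
  rw [ex_sum, ← Finset.sum_subset (Finset.subset_univ Hᶜ)]
  · refine Finset.sum_congr rfl fun i hi => ?_
    rw [← ex_fill H (fun x => pm (Q.look i) (Q.state s x) ^ n)]
    congr 1
    funext y
    congr 1
    funext x
    rw [fix_state]
    congr 2
    unfold Algorithm.look
    congr 1
    funext a
    have : i ∉ H := Finset.mem_compl.1 hi
    simp [Algorithm.fix, this]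
  · intro i _ hi
    have hiH : i ∈ H := by simpa using hi
    have h1 : ∀ y, (Q.fix H y).look i = ∅ := by
      intro y
      unfold Algorithm.look
      rw [Finset.filter_eq_empty_iff]
      intro a _
      simp [Algorithm.fix, hiH]
    have h2 : ∀ y x, pm ((Q.fix H y).look i) ((Q.fix H y).state s x) ^ n = 0 := by
      intro y x
      rw [h1, pm, Finset.sum_empty, zero_pow hn]
    simp_rw [h2]
    rw [ex_const, ex_const]

lemma fix_M_le (Q : Algorithm I A p) (H : Finset I) (s n : ℕ) (hn : n ≠ 0) :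
    ex (fun y => (Q.fix H y).M s n) ≤ Q.M s n := by
  rw [fix_M Q H s n hn]
  exact Finset.sum_le_sum_of_subset_of_nonneg (Finset.subset_univ _)
    fun _ _ _ => ex_nonneg fun _ => pow_nonneg (pm_nonneg _ _) _

/-- The variance of the acceptance probability. -/
lemma variance_prob (Q : Algorithm I A p) (R : ℕ) {l : ℝ} (hl : 0 < l) (hl1 : l ≤ 1) :
    ex (fun x => Q.prob (R + 1) x ^ 2) - ex (Q.prob (R + 1)) ^ 2 ≤
      8 * ((R : ℝ) + 1) ^ 2 * p * l +
      8 * ((R : ℝ) + 1) / l ^ (4 * R + 1) *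
        ∑ s ∈ Finset.range (R + 1), Q.M s (2 * (R + s) + 2) := by
  have h1 := variance_pow Q Q.accept (R + 1) 0
  simp only [zero_add, pow_one, Nat.cast_zero, mul_zero, pow_zero, one_mul, one_pow,
    mul_one] at h1
  have e1 : Q.prob (R + 1) = fun x => pm Q.accept (Q.state (R + 1) x) := rfl
  rw [e1]
  refine h1.trans ?_
  have h2 : ∀ x, ∑ i, Q.W Q.accept (R + 1) i x ≤ 4 * ((R : ℝ) + 1) ^ 2 * p * l +
      4 * ((R : ℝ) + 1) / l ^ (4 * R + 1) * ∑ s ∈ Finset.range (R + 1),
        ∑ i, pm (Q.look i) (Q.state s (flip i x)) ^ (2 * (R + s) + 2) := by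
    intro x
    obtain ⟨c, hc0, hc1, hc2, hc3⟩ := hybrid_sq Q Q.accept (R + 1) x
    have hle1 : pm Q.accept (Q.state (R + 1) x) ≤ 1 := pm_state_le_one _ _ _ _
    set y : ℕ → I → ℝ := fun s i => pm (Q.look i) (Q.state s (flip i x)) with hy
    have hy0 : ∀ s i, 0 ≤ y s i := fun s i => pm_nonneg _ _
    have h3 : ∑ i, Q.W Q.accept (R + 1) i x ≤
        4 * ((R + 1 : ℕ) : ℝ) * ∑ s ∈ Finset.range (R + 1), ∑ i, c s i * y s i := by
      rw [Finset.sum_comm, Finset.mul_sum]
      exact Finset.sum_le_sum fun i _ => hc3 i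
    have h4 : ∀ s ∈ Finset.range (R + 1), ∑ i, c s i * y s i ≤
        p * l + 1 / l ^ (4 * R + 1) * ∑ i, y s i ^ (2 * (R + s) + 2) := by
      intro s hs
      have hs' : s ≤ R := by
        have := Finset.mem_range.1 hs
        omega
      calc ∑ i, c s i * y s i
          ≤ ∑ i, (c s i * l + 1 / l ^ (4 * R + 1) * y s i ^ (2 * (R + s) + 2)) := by
            refine Finset.sum_le_sum fun i _ => ?_
            have h5 := mul_le_mul_of_nonneg_left (young' (hy0 s i) hl (2 * (R + s) + 1)) (hc0 s i)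
            have h6 : c s i * (y s i ^ (2 * (R + s) + 1 + 1) / l ^ (2 * (R + s) + 1)) ≤
                1 / l ^ (4 * R + 1) * y s i ^ (2 * (R + s) + 2) := by
              have h7 : c s i ≤ 1 := (hc1 s i).trans hle1
              have h8 : l ^ (4 * R + 1) ≤ l ^ (2 * (R + s) + 1) :=
                pow_le_pow_of_le_one hl.le hl1 (by omega)
              have h9 : 0 ≤ y s i ^ (2 * (R + s) + 1 + 1) := pow_nonneg (hy0 s i) _
              calc c s i * (y s i ^ (2 * (R + s) + 1 + 1) / l ^ (2 * (R + s) + 1))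
                  ≤ 1 * (y s i ^ (2 * (R + s) + 1 + 1) / l ^ (4 * R + 1)) := by gcongr
                _ = _ := by ring
            linarith
        _ = (∑ i, c s i) * l + 1 / l ^ (4 * R + 1) * ∑ i, y s i ^ (2 * (R + s) + 2) := by
            rw [Finset.sum_add_distrib, Finset.sum_mul, Finset.mul_sum]
        _ ≤ (p * 1) * l + 1 / l ^ (4 * R + 1) * ∑ i, y s i ^ (2 * (R + s) + 2) := by
            have h5 := hc2 s
            have h6 : (p : ℝ) * pm Q.accept (Q.state (R + 1) x) ≤ p * 1 := by gcongr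
            have h7 := h5.trans h6
            gcongr
        _ = _ := by ring
    refine h3.trans ?_
    calc 4 * ((R + 1 : ℕ) : ℝ) * ∑ s ∈ Finset.range (R + 1), ∑ i, c s i * y s i
        ≤ 4 * ((R + 1 : ℕ) : ℝ) * ∑ s ∈ Finset.range (R + 1),
          (p * l + 1 / l ^ (4 * R + 1) * ∑ i, y s i ^ (2 * (R + s) + 2)) := by
          gcongr with s hs
          exact h4 s hs
      _ = _ := by
          rw [Finset.sum_add_distrib, Finset.sum_const, Finset.card_range, nsmul_eq_mul,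
            ← Finset.mul_sum]
          push_cast
          ring
  have h5 := ex_mono h2
  rw [ex_add, ex_const, ex_const_mul, ex_sum (Finset.range (R + 1))
    (fun s x => ∑ i, pm (Q.look i) (Q.state s (flip i x)) ^ (2 * (R + s) + 2))] at h5
  have h6 : ∑ s ∈ Finset.range (R + 1), ex (fun x =>
      ∑ i, pm (Q.look i) (Q.state s (flip i x)) ^ (2 * (R + s) + 2)) =
      ∑ s ∈ Finset.range (R + 1), Q.M s (2 * (R + s) + 2) := by
    refine Finset.sum_congr rfl fun s _ => ?_
    rw [ex_sum]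
    unfold Algorithm.M
    refine Finset.sum_congr rfl fun i _ => ?_
    exact ex_flip (fun x => pm (Q.look i) (Q.state s x) ^ (2 * (R + s) + 2)) i
  rw [h6] at h5
  calc 2 * ex (fun x => ∑ i, Q.W Q.accept (R + 1) i x)
      ≤ 2 * (4 * ((R : ℝ) + 1) ^ 2 * p * l +
      4 * ((R : ℝ) + 1) / l ^ (4 * R + 1) *
        ∑ s ∈ Finset.range (R + 1), Q.M s (2 * (R + s) + 2)) := by gcongr
    _ = _ := by ring

lemma abs_prob_le (Q : Algorithm I A p) (r : ℕ) (x : I → Bool) : |Q.prob r x| ≤ 1 := by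
  have h0 : 0 ≤ Q.prob r x := pm_nonneg Q.accept (Q.state r x)
  have h1 : Q.prob r x ≤ 1 := pm_state_le_one Q Q.accept r x
  rwa [abs_of_nonneg h0]

/-- The amplification factor per round. -/
noncomputable def G (R p : ℕ) : ℝ := 128 * ((R : ℝ) + 1) ^ 4 * p

lemma light_sum (Q : Algorithm I A p) (hp : 1 ≤ p) (R t : ℕ) (ht : t ≤ R) {θ : ℝ} (hθ0 : 0 ≤ θ)
    (hθ1 : θ ≤ 1) (J : Finset I)
    (hθ : ∀ j ∈ J, ex (fun x => pm (Q.look j) (Q.state t x)) ≤ θ) :
    ∑ j ∈ J, ex (fun x => pm (Q.look j) (Q.state t x) ^ (2 * (R + t) + 2)) ≤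
      G R p ^ (4 * R + 1) * (θ ^ (2 * R + 1) +
        ∑ s ∈ Finset.range t, Q.M s (2 * (R + s) + 2)) := by
  have hp' : (1 : ℝ) ≤ p := by exact_mod_cast hp
  have hR' : (0 : ℝ) ≤ R := by positivity
  have ht' : (t : ℝ) ≤ R := by exact_mod_cast ht
  have hG1 : (128 : ℝ) ≤ G R p := by
    unfold G
    have h1 : (1 : ℝ) ≤ ((R : ℝ) + 1) ^ 4 := one_le_pow₀ (by linarith)
    nlinarith
  refine (moment_sum Q t (R + t) (R + 1) (by omega) (by omega) hp hθ0 J hθ).trans ?_
  push_cast
  have hk : ((R : ℝ) + t + 1) ≤ 2 * (R + 1) := by linarith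
  have hD : 32 * ((R : ℝ) + t + 1) ^ 2 * (R + 1) ^ 2 * p ≤ G R p := by
    unfold G
    calc 32 * ((R : ℝ) + t + 1) ^ 2 * (R + 1) ^ 2 * p
        ≤ 32 * (2 * ((R : ℝ) + 1)) ^ 2 * (R + 1) ^ 2 * p := by gcongr
      _ = _ := by ring
  have hC : 16 * ((R : ℝ) + t + 1) ^ 2 * t * p ≤ G R p := by
    unfold G
    calc 16 * ((R : ℝ) + t + 1) ^ 2 * t * p
        ≤ 16 * (2 * ((R : ℝ) + 1)) ^ 2 * (R + 1) * p := by
          gcongr
          linarith
      _ = 64 * ((R : ℝ) + 1) ^ 3 * p := by ring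
      _ ≤ 128 * ((R : ℝ) + 1) ^ 4 * p := by
          have h1 : ((R : ℝ) + 1) ^ 3 ≤ ((R : ℝ) + 1) ^ 4 :=
            pow_le_pow_right₀ (by linarith) (by omega)
          have h2 : 0 ≤ ((R : ℝ) + 1) ^ 3 := by positivity
          nlinarith
  have hGle : G R p ^ (2 * (R + t) + 1) ≤ G R p ^ (4 * R + 1) :=
    pow_le_pow_right₀ (by linarith) (by omega)
  have h1 : 2 * 4 ^ (2 * (R + t)) * (p : ℝ) ≤ G R p ^ (4 * R + 1) := by
    refine le_trans ?_ hGle
    rw [pow_succ (G R p) (2 * (R + t))]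
    have h2 : (4 : ℝ) ^ (2 * (R + t)) ≤ G R p ^ (2 * (R + t)) := by
      gcongr
      linarith
    have h3 : 2 * (p : ℝ) ≤ G R p := by
      unfold G
      have h1 : (1 : ℝ) ≤ ((R : ℝ) + 1) ^ 4 := one_le_pow₀ (by linarith)
      nlinarith
    calc 2 * 4 ^ (2 * (R + t)) * (p : ℝ) = 4 ^ (2 * (R + t)) * (2 * p) := by ring
      _ ≤ _ := by gcongr
  have h2 : 16 * ((R : ℝ) + t + 1) ^ 2 * t *
      (32 * ((R : ℝ) + t + 1) ^ 2 * (R + 1) ^ 2 * p) ^ (2 * (R + t)) * p ≤
      G R p ^ (4 * R + 1) := by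
    refine le_trans ?_ hGle
    rw [pow_succ (G R p) (2 * (R + t))]
    calc _ = (32 * ((R : ℝ) + t + 1) ^ 2 * (R + 1) ^ 2 * p) ^ (2 * (R + t)) *
          (16 * ((R : ℝ) + t + 1) ^ 2 * t * p) := by ring
      _ ≤ _ := by gcongr
  have h3 : θ ^ (2 * (R + t) + 1) ≤ θ ^ (2 * R + 1) :=
    pow_le_pow_of_le_one hθ0 hθ1 (by omega)
  have h4 : ∑ s ∈ Finset.range t, Q.M s (2 * (R + t) + 1) ≤
      ∑ s ∈ Finset.range t, Q.M s (2 * (R + s) + 2) := by
    refine Finset.sum_le_sum fun s hs => M_anti Q s ?_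
    have := Finset.mem_range.1 hs
    omega
  have h5 : 0 ≤ ∑ s ∈ Finset.range t, Q.M s (2 * (R + t) + 1) :=
    Finset.sum_nonneg fun _ _ => M_nonneg _ _ _
  calc _ = (2 * 4 ^ (2 * (R + t)) * (p : ℝ)) * θ ^ (2 * (R + t) + 1) +
        (16 * ((R : ℝ) + t + 1) ^ 2 * t *
          (32 * ((R : ℝ) + t + 1) ^ 2 * (R + 1) ^ 2 * p) ^ (2 * (R + t)) * p) *
        ∑ s ∈ Finset.range t, Q.M s (2 * (R + t) + 1) := by ring
    _ ≤ G R p ^ (4 * R + 1) * θ ^ (2 * R + 1) +
        G R p ^ (4 * R + 1) * ∑ s ∈ Finset.range t, Q.M s (2 * (R + s) + 2) := by gcongr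
    _ = _ := by ring

/-- **The main induction**: the acceptance probability is approximated by a decision tree which
queries, round by round, the coordinates of large expected query magnitude. -/
lemma main_approx (hp : 1 ≤ p) (R : ℕ) {θ l : ℝ} (hθ0 : 0 < θ) (hθ1 : θ ≤ 1) (hl : 0 < l)
    (hl1 : l ≤ 1) (d : ℕ) : ∀ t : ℕ, t + d = R + 1 → ∀ Q : Algorithm I A p,
    Approx (d * ⌊(p : ℝ) / θ⌋₊) (8 * ((R : ℝ) + 1) ^ 2 * p * l +
      8 * ((R : ℝ) + 1) / l ^ (4 * R + 1) * ((1 + G R p ^ (4 * R + 1)) ^ d *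
        (θ ^ (2 * R + 1) + ∑ s ∈ Finset.range t, Q.M s (2 * (R + s) + 2)))) (Q.prob (R + 1)) := by
  induction d with
  | zero =>
    intro t ht Q
    rw [zero_mul]
    refine approx_const (abs_prob_le Q _) ((variance_prob Q R hl hl1).trans ?_)
    rw [add_zero] at ht
    subst ht
    rw [pow_zero, one_mul]
    have : 0 ≤ θ ^ (2 * R + 1) := by positivity
    gcongr
    linarith
  | succ d ih =>
    intro t ht Q
    have htR : t ≤ R := by omega
    classical
    set H : Finset I := Finset.univ.filter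
      (fun j => θ < ex (fun x => pm (Q.look j) (Q.state t x))) with hH
    have hcard : H.card ≤ ⌊(p : ℝ) / θ⌋₊ := by
      apply Nat.le_floor
      rw [le_div_iff₀ hθ0]
      calc (H.card : ℝ) * θ = ∑ _j ∈ H, θ := by rw [Finset.sum_const, nsmul_eq_mul]
        _ ≤ ∑ j ∈ H, ex (fun x => pm (Q.look j) (Q.state t x)) :=
            Finset.sum_le_sum fun j hj => (Finset.mem_filter.1 hj).2.le
        _ ≤ p := sum_ex_pm_le Q H t
    have hlight : ∀ j ∈ Hᶜ, ex (fun x => pm (Q.look j) (Q.state t x)) ≤ θ := by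
      intro j hj
      rw [Finset.mem_compl, hH, Finset.mem_filter] at hj
      push Not at hj
      exact hj (Finset.mem_univ _)
    set Γ : ℝ := G R p ^ (4 * R + 1) with hΓ
    have hΓ0 : 0 ≤ Γ := by
      rw [hΓ]; unfold G; positivity
    set ε : (I → Bool) → ℝ := fun y => 8 * ((R : ℝ) + 1) ^ 2 * p * l +
      8 * ((R : ℝ) + 1) / l ^ (4 * R + 1) * ((1 + Γ) ^ d *
        (θ ^ (2 * R + 1) + ∑ s ∈ Finset.range (t + 1), (Q.fix H y).M s (2 * (R + s) + 2))) with hε
    have h1 : ∀ y, Approx (d * ⌊(p : ℝ) / θ⌋₊) (ε y) (fun x => Q.prob (R + 1) (fill H y x)) := by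
      intro y
      have h2 := ih (t + 1) (by omega) (Q.fix H y)
      have h3 : (Q.fix H y).prob (R + 1) = fun x => Q.prob (R + 1) (fill H y x) := by
        funext x
        exact fix_prob Q H y x _
      rw [h3] at h2
      exact h2
    have h2 := approx_fill H (Q.prob (R + 1)) ε h1
    refine approx_mono h2 ?_ ?_
    · rw [Nat.succ_mul]
      omega
    · have h3 : ex ε = 8 * ((R : ℝ) + 1) ^ 2 * p * l +
          8 * ((R : ℝ) + 1) / l ^ (4 * R + 1) * ((1 + Γ) ^ d *
          (θ ^ (2 * R + 1) + ∑ s ∈ Finset.range (t + 1),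
            ex (fun y => (Q.fix H y).M s (2 * (R + s) + 2)))) := by
        rw [hε, ex_add, ex_const, ex_const_mul, ex_const_mul, ex_add, ex_const, ex_sum]
      rw [h3]
      have h4 : ∑ s ∈ Finset.range (t + 1), ex (fun y => (Q.fix H y).M s (2 * (R + s) + 2)) ≤
          ∑ s ∈ Finset.range t, Q.M s (2 * (R + s) + 2) +
          Γ * (θ ^ (2 * R + 1) + ∑ s ∈ Finset.range t, Q.M s (2 * (R + s) + 2)) := by
        rw [Finset.sum_range_succ]
        apply add_le_add
        · exact Finset.sum_le_sum fun s _ => fix_M_le Q H s _ (by omega)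
        · rw [fix_M Q H t _ (by omega)]
          exact light_sum Q hp R t htR hθ0.le hθ1 Hᶜ hlight
      have h5 : (1 + Γ) ^ d * (θ ^ (2 * R + 1) + ∑ s ∈ Finset.range (t + 1),
            ex (fun y => (Q.fix H y).M s (2 * (R + s) + 2))) ≤
          (1 + Γ) ^ (d + 1) * (θ ^ (2 * R + 1) +
            ∑ s ∈ Finset.range t, Q.M s (2 * (R + s) + 2)) := by
        rw [pow_succ (1 + Γ) d, mul_assoc]
        apply mul_le_mul_of_nonneg_left _ (by positivity)
        linarith
      gcongr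

end Pool.Agent.Lib_helper8.QAA
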