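import Mathlib

/-!
# Value-oracle minimisation of submodular functions on products of modular semilattices: definitions
-/

open scoped Classical
open scoped ENNReal

namespace Pool.Agent.Lib_helper8.Oracle

/-! ### Modular semilattices -/

/-- `L` (a finite meet-semilattice with least element) is a modular semilattice: every principal
ideal is a modular lattice, and `x ⊔ y ⊔ z` exists whenever `x ⊔ y`, `y ⊔ z`, `z ⊔ x` exist.
(Joins need not exist in `L`; they are expressed by `IsLUB`.) -/
structure IsModularSemilattice (L : Type) [SemilatticeInf L] [OrderBot L] : Prop where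
  /-- every principal ideal is a lattice: any two of its elements have a join in it -/
  ideal_join : ∀ p : L, ∀ x y : Set.Iic p, ∃ j : Set.Iic p, IsLUB {x, y} j
  /-- in every principal ideal, `x ⊓ (y ⊔ z) = (x ⊓ y) ⊔ z` whenever `z ≤ x` -/
  ideal_modular : ∀ p : L, ∀ x y z j : Set.Iic p,
    z ≤ x → IsLUB {y, z} j → IsLUB {x ⊓ y, z} (x ⊓ j)
  /-- pairwise joins give a triple join -/
  triple_join : ∀ x y z : L, (∃ j, IsLUB {x, y} j) → (∃ j, IsLUB {y, z} j) →
    (∃ j, IsLUB {z, x} j) → ∃ j, IsLUB {x, y, z} j

/-- A finite modular semilattice. -/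
structure ModularSemilattice where
  /-- the elements -/
  carrier : Type
  [semilatticeInf : SemilatticeInf carrier]
  [orderBot : OrderBot carrier]
  [fintype : Fintype carrier]
  isModular : IsModularSemilattice carrier

instance : CoeSort ModularSemilattice Type := ⟨ModularSemilattice.carrier⟩

attribute [instance] ModularSemilattice.semilatticeInf ModularSemilattice.orderBot
  ModularSemilattice.fintype

/-! ### The fractional join and submodular functions -/

section FractionalJoin

variable {L : Type} [SemilatticeInf L] [Fintype L]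

/-- The rank of `p`: the length of a longest (equivalently, in a modular semilattice, of any
maximal) chain from the least element to `p`. -/
noncomputable def rank (p : L) : ℕ := (Order.height p).toNat

/-- `I(p,q)`: the elements `u = a ⊔ b` with `p ⊓ q ≤ a ≤ p` and `p ⊓ q ≤ b ≤ q`. -/
def joinSet (p q : L) : Set L :=
  {u | ∃ a b : L, p ⊓ q ≤ a ∧ a ≤ p ∧ p ⊓ q ≤ b ∧ b ≤ q ∧ IsLUB {a, b} u}

/-- `r(u;p,q) = (r(u ⊓ p) - r(p ⊓ q), r(u ⊓ q) - r(p ⊓ q))`. -/
noncomputable def rankPoint (p q u : L) : ℝ × ℝ :=
  ((rank (u ⊓ p) : ℝ) - rank (p ⊓ q), (rank (u ⊓ q) : ℝ) - rank (p ⊓ q))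

/-- `K`: the convex hull of the points `r(u;p,q)`, `u ∈ I(p,q)`. -/
noncomputable def hull (p q : L) : Set (ℝ × ℝ) := convexHull ℝ (rankPoint p q '' joinSet p q)

/-- `E(p,q)`: the `u ∈ I(p,q)` for which `r(u;p,q)` is a maximal (componentwise) extreme point
of `K`. -/
noncomputable def fracJoin (p q : L) : Set L :=
  {u | u ∈ joinSet p q ∧ Maximal (· ∈ (hull p q).extremePoints ℝ) (rankPoint p q u)}

/-- `C(u;p,q)`: the nonnegative `c` for which `r(u;p,q)` maximises `⟨c,·⟩` over `K`. -/
noncomputable def normalCone (p q u : L) : Set (ℝ × ℝ) :=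
  {c | 0 ≤ c.1 ∧ 0 ≤ c.2 ∧ ∀ w ∈ hull p q,
    c.1 * w.1 + c.2 * w.2 ≤ c.1 * (rankPoint p q u).1 + c.2 * (rankPoint p q u).2}

/-- The angles (with the first axis) in `[0, π/2]` of the vectors of `C`. -/
def angles (C : Set (ℝ × ℝ)) : Set ℝ :=
  {θ | 0 ≤ θ ∧ θ ≤ Real.pi / 2 ∧ (Real.cos θ, Real.sin θ) ∈ C}

/-- `[C]` for a cone `C` of nonnegative vectors: if `α` and `β` are the smallest and the largest
angle of the vectors of `C`, then
`[C] = sin β / (sin β + cos β) - sin α / (sin α + cos α)`. -/
noncomputable def bracket (C : Set (ℝ × ℝ)) : ℝ :=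
  Real.sin (sSup (angles C)) / (Real.sin (sSup (angles C)) + Real.cos (sSup (angles C))) -
    Real.sin (sInf (angles C)) / (Real.sin (sInf (angles C)) + Real.cos (sInf (angles C)))

/-- A function `f : L → ℝ ∪ {+∞}` is submodular if
`f p + f q ≥ f (p ⊓ q) + ∑_{u ∈ E(p,q)} [C(u;p,q)] f u` for all `p, q`. -/
def IsSubmodular (f : L → EReal) : Prop :=
  (∀ p, f p ≠ ⊥) ∧
  ∀ p q : L, f (p ⊓ q) + ∑ u : L with u ∈ fracJoin p q,
      ((bracket (normalCone p q u) : ℝ) : EReal) * f u
    ≤ f p + f q

end FractionalJoin

/-! ### Oracle algorithms -/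

/-- An element of `ℚ ∪ {+∞}` as an extended real. -/
noncomputable def toEReal : WithTop ℚ → EReal
  | none => ⊤
  | some q => ((q : ℝ) : EReal)

/-- A deterministic adaptive strategy on the set `X`: given the list of the oracle answers
received so far (most recent first), it either asks for the value of the oracle at a point
(`Sum.inl x`), or stops and outputs a point (`Sum.inr x`). -/
abbrev Strategy (X : Type) : Type := List (WithTop ℚ) → X ⊕ X

/-- The answers received by the strategy `s` in its first `k` steps with the oracle `f`
(each step is one oracle call, until the strategy stops). -/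
def Strategy.answers {X : Type} (s : Strategy X) (f : X → WithTop ℚ) : ℕ → List (WithTop ℚ)
  | 0 => []
  | k + 1 =>
    match s (s.answers f k) with
    | Sum.inl x => f x :: s.answers f k
    | Sum.inr _ => s.answers f k

/-- With the oracle `f`, the strategy `s` stops after at most `m` oracle calls and outputs a
minimiser of `f`. -/
def Strategy.FindsMinimizer {X : Type} (s : Strategy X) (f : X → WithTop ℚ) (m : ℕ) : Prop :=
  ∃ k ≤ m, ∃ x : X, s (s.answers f k) = Sum.inr x ∧ ∀ y, f x ≤ f y

/-- A (randomised) oracle algorithm: given as input a list `L 0, …, L (n-1)` of finite modular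
semilattices, it runs a randomly chosen adaptive strategy on their product. (Deterministic
algorithms are those for which the distribution is a point mass. There is no bound on the
computations made between the oracle calls, so this is more general than an algorithm.) -/
abbrev OracleAlgorithm : Type 1 :=
  ∀ (n : ℕ) (L : Fin n → ModularSemilattice), PMF (Strategy (∀ i, L i))

/-- `N = max_i |L_i|`. -/
def maxCard {n : ℕ} (L : Fin n → ModularSemilattice) : ℕ :=
  Finset.univ.sup fun i => Fintype.card (L i)

/-- The bit length of a rational number. -/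
def bitLength (q : ℚ) : ℕ := Nat.size q.num.natAbs + Nat.size q.den

/-- The maximum bit length of the finite values of `f`. -/
def maxBits {X : Type} [Fintype X] (f : X → WithTop ℚ) : ℕ :=
  Finset.univ.sup fun x =>
    match f x with
    | none => 0
    | some q => bitLength q

/-- The algorithm `A` minimises in polynomial time, with success probability at least `ε`, every
finite-valued submodular function on every product of modular semilattices: for some constant
`c`, with probability at least `ε` it outputs a minimiser after at most `c (n + N + B + 1)^c`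
oracle calls, where `N = max_i |L_i|` and `B` is the maximum bit length of the values of `f`. -/
def MinimizesInPolyTime (A : OracleAlgorithm) (ε : ℝ) : Prop :=
  ∃ c : ℕ, ∀ (n : ℕ) (L : Fin n → ModularSemilattice) (f : (∀ i, L i) → WithTop ℚ),
    IsSubmodular (fun p => toEReal (f p)) → (∀ p, f p ≠ ⊤) →
      ENNReal.ofReal ε ≤ (A n L).toOuterMeasure
        {s | s.FindsMinimizer f (c * (n + maxCard L + maxBits f + 1) ^ c)}

end Pool.Agent.Lib_helper8.Oracle
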