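import Pool.Agent.Lib_helper8.OracleDefs

/-!
# Value-oracle minimisation of submodular functions on products of modular semilattices: proof

Idea. Fix a hidden choice `τ` of one atom in each of `n = 2t+1` stars. For a point `p` let `a` be
the number of coordinates where `p` agrees with `τ` and `b` the number of nonzero coordinates where
it does not. The function `b + min (a, 2t - a)` is submodular, its only minimiser is `τ` (value
`-1`), and it equals `a + b`, which does not depend on `τ`, unless `a > t`. For fixed `p` the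
latter happens for at most `2 * 8^t` of the `3 * 9^t` choices of `τ`.
-/

open scoped Classical
open scoped ENNReal

namespace Pool.Agent.Lib_helper8.Oracle

/-! ### The star with three atoms -/

/-- The star: a least element and three atoms. -/
inductive Star : Type
  | zero : Star
  | atom : Fin 3 → Star
  deriving DecidableEq, Fintype

namespace Star

instance : LE Star := ⟨fun x y => x = zero ∨ x = y⟩

theorem le_iff {x y : Star} : x ≤ y ↔ x = zero ∨ x = y := Iff.rfl

instance : DecidableRel (α := Star) (· ≤ ·) := fun x y =>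
  inferInstanceAs (Decidable (x = zero ∨ x = y))

instance : PartialOrder Star where
  le := (· ≤ ·)
  le_refl x := Or.inr rfl
  le_trans x y z h1 h2 := by
    rcases h1 with h1 | h1
    · exact Or.inl h1
    · subst h1; exact h2
  le_antisymm x y h1 h2 := by
    rcases h1 with h1 | h1
    · rcases h2 with h2 | h2
      · rw [h1, h2]
      · exact h2.symm
    · exact h1

instance : SemilatticeInf Star where
  inf x y := if x = y then x else zero
  inf_le_left x y := by
    show (if x = y then x else zero) ≤ x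
    split_ifs with h
    · exact le_refl _
    · exact Or.inl rfl
  inf_le_right x y := by
    show (if x = y then x else zero) ≤ y
    split_ifs with h
    · exact Or.inr h
    · exact Or.inl rfl
  le_inf x y z h1 h2 := by
    show x ≤ (if y = z then y else zero)
    split_ifs with h
    · exact h1
    · rcases h1 with h1 | h1
      · exact Or.inl h1
      · rcases h2 with h2 | h2
        · exact Or.inl h2
        · exact absurd (h1.symm.trans h2) h

instance : OrderBot Star where
  bot := zero
  bot_le _ := Or.inl rfl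

theorem inf_def (x y : Star) : x ⊓ y = if x = y then x else zero := rfl

theorem bot_def : (⊥ : Star) = zero := rfl

theorem isLUB_pair {a b u : Star} :
    IsLUB {a, b} u ↔ (a = zero ∧ u = b) ∨ (b = zero ∧ u = a) ∨ (a = b ∧ u = a) := by
  constructor
  · intro h
    have ha : a ≤ u := h.1 (by simp)
    have hb : b ≤ u := h.1 (by simp)
    rcases ha with ha | ha
    · left
      refine ⟨ha, ?_⟩
      rcases hb with hb | hb
      · have : u ≤ zero := h.2 (by
          rintro x hx
          rcases hx with hx | hx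
          · rw [hx, ha]
          · rw [Set.mem_singleton_iff.1 hx, hb])
        rcases this with h' | h'
        · rw [h', hb]
        · rw [h', hb]
      · exact hb.symm
    · rcases hb with hb | hb
      · right; left; exact ⟨hb, ha.symm⟩
      · right; right; exact ⟨ha.trans hb.symm, ha.symm⟩
  · rintro (⟨h1, h2⟩ | ⟨h1, h2⟩ | ⟨h1, h2⟩)
    · subst h1 h2
      constructor
      · rintro x hx
        rcases hx with hx | hx
        · exact Or.inl hx
        · exact Or.inr hx
      · intro x hx
        exact hx (by simp)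
    · subst h1 h2
      constructor
      · rintro x hx
        rcases hx with hx | hx
        · exact Or.inr hx
        · exact Or.inl hx
      · intro x hx
        exact hx (by simp)
    · subst h1 h2
      constructor
      · rintro x hx
        rcases hx with hx | hx
        · exact Or.inr hx
        · exact Or.inr hx
      · intro x hx
        exact hx (by simp)

theorem isLUB_pair_bot {L : Type} [PartialOrder L] [OrderBot L] (b : L) :
    IsLUB {⊥, b} b := by
  constructor
  · rintro x hx
    rcases hx with hx | hx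
    · rw [hx]; exact bot_le
    · rw [Set.mem_singleton_iff.1 hx]
  · intro x hx
    exact hx (by simp)

theorem isModularSemilattice : IsModularSemilattice Star where
  ideal_join p x y := by
    rcases x with ⟨x, hx⟩
    rcases y with ⟨y, hy⟩
    rcases hx with hx | hx
    · refine ⟨⟨y, hy⟩, ?_, ?_⟩
      · rintro z hz
        rcases hz with hz | hz
        · rw [hz]; exact Or.inl hx
        · rw [Set.mem_singleton_iff.1 hz]
      · intro z hz
        exact hz (by simp)
    · refine ⟨⟨x, Or.inr hx⟩, ?_, ?_⟩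
      · rintro z hz
        rcases hz with hz | hz
        · rw [hz]
        · rw [Set.mem_singleton_iff.1 hz]
          show y ≤ x
          rw [hx]; exact hy
      · intro z hz
        exact hz (by simp)
  ideal_modular p x y z j hzx hj := by
    rcases x with ⟨x, hx⟩
    rcases hx with hx | hx
    · -- x = zero
      subst hx
      have hz : z = ⟨zero, Or.inl rfl⟩ := le_antisymm hzx (Or.inl rfl)
      have h1 : (⟨zero, Or.inl rfl⟩ : Set.Iic p) ⊓ y = ⟨zero, Or.inl rfl⟩ :=
        le_antisymm inf_le_left (Or.inl rfl)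
      have h2 : (⟨zero, Or.inl rfl⟩ : Set.Iic p) ⊓ j = ⟨zero, Or.inl rfl⟩ :=
        le_antisymm inf_le_left (Or.inl rfl)
      rw [h1, h2, hz]
      simp
    · subst hx
      have h1 : ∀ w : Set.Iic x, (⟨x, Or.inr rfl⟩ : Set.Iic x) ⊓ w = w := fun w =>
        inf_eq_right.2 w.2
      have h2 : (⟨x, Or.inr rfl⟩ : Set.Iic x) ⊓ y = y := h1 y
      have h3 : (⟨x, Or.inr rfl⟩ : Set.Iic x) ⊓ j = j := h1 j
      rw [h2, h3]
      exact hj
  triple_join x y z h1 h2 h3 := by
    obtain ⟨a, ha⟩ := h1
    obtain ⟨b, hb⟩ := h2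
    obtain ⟨c, hc⟩ := h3
    have key : ∀ u v w j : Star, u = zero → IsLUB {v, w} j → IsLUB {u, v, w} j := by
      intro u v w j hu hj
      constructor
      · rintro s hs
        rcases hs with hs | hs
        · rw [hs, hu]; exact Or.inl rfl
        · exact hj.1 hs
      · intro s hs
        exact hj.2 (fun t ht => hs (Or.inr ht))
    by_cases hx : x = zero
    · exact ⟨b, key x y z b hx hb⟩
    by_cases hy : y = zero
    · refine ⟨c, ?_⟩
      have := key y z x c hy hc
      have e : ({x, y, z} : Set Star) = {y, z, x} := by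
        ext s; simp only [Set.mem_insert_iff, Set.mem_singleton_iff]; tauto
      rw [e]; exact this
    by_cases hz : z = zero
    · refine ⟨a, ?_⟩
      have := key z x y a hz ha
      have e : ({x, y, z} : Set Star) = {z, x, y} := by
        ext s; simp only [Set.mem_insert_iff, Set.mem_singleton_iff]; tauto
      rw [e]; exact this
    · have hxy : x = y := by
        rcases isLUB_pair.1 ha with h | h | h
        · exact absurd h.1 hx
        · exact absurd h.1 hy
        · exact h.1
      have hyz : y = z := by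
        rcases isLUB_pair.1 hb with h | h | h
        · exact absurd h.1 hy
        · exact absurd h.1 hz
        · exact h.1
      subst hxy; subst hyz
      exact ⟨x, by simp⟩

/-- The star as a modular semilattice. -/
def semilattice : ModularSemilattice where
  carrier := Star
  isModular := isModularSemilattice

/-- weight of an element: its rank, 0 or 1 -/
def wt (x : Star) : ℕ := if x = zero then 0 else 1

theorem card_eq : Fintype.card Star = 4 := by decide

end Star

/-! ### Products of stars -/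

section Product

variable {n : ℕ}

/-- sum of the weights -/
def supp (p : Fin n → Star) : ℕ := ∑ i, (p i).wt

theorem wt_mono {x y : Star} (h : x ≤ y) : x.wt ≤ y.wt := by
  rcases h with h | h
  · subst h; simp [Star.wt]
  · subst h; exact le_rfl

theorem wt_lt {x y : Star} (h : x < y) : x.wt < y.wt := by
  have hx : x = Star.zero := by
    rcases h.le with h' | h'
    · exact h'
    · exact absurd h' h.ne
  have hy : y ≠ Star.zero := by
    rintro rfl
    exact h.ne hx
  simp [Star.wt, hx, hy]

theorem supp_strictMono : StrictMono (supp : (Fin n → Star) → ℕ) := by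
  intro p q hpq
  obtain ⟨hle, i, hi⟩ := Pi.lt_def.1 hpq
  exact Finset.sum_lt_sum (fun j _ => wt_mono (hle j)) ⟨i, Finset.mem_univ i, wt_lt hi⟩

theorem supp_update (p : Fin n → Star) (i : Fin n) (hi : p i ≠ Star.zero) :
    supp (Function.update p i Star.zero) + 1 = supp p := by
  unfold supp
  rw [← Finset.add_sum_erase Finset.univ _ (Finset.mem_univ i),
    ← Finset.add_sum_erase Finset.univ (fun j => (p j).wt) (Finset.mem_univ i)]
  have h1 : ∑ x ∈ Finset.univ.erase i, (Function.update p i Star.zero x).wt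
      = ∑ x ∈ Finset.univ.erase i, (p x).wt := by
    apply Finset.sum_congr rfl
    intro x hx
    rw [Function.update_of_ne (Finset.ne_of_mem_erase hx)]
  rw [h1]
  simp [Star.wt, hi]
  ring

theorem le_height : ∀ (k : ℕ) (p : Fin n → Star), supp p = k → (k : ℕ∞) ≤ Order.height p
  | 0, p, _ => by simp
  | k + 1, p, h => by
    have : ∃ i, p i ≠ Star.zero := by
      by_contra hcon
      push Not at hcon
      have : supp p = 0 := by
        unfold supp
        apply Finset.sum_eq_zero
        intro i _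
        simp [Star.wt, hcon i]
      omega
    obtain ⟨i, hi⟩ := this
    have h1 := supp_update p i hi
    have h2 : supp (Function.update p i Star.zero) = k := by omega
    have h3 := le_height k _ h2
    have h4 : Function.update p i Star.zero < p := by
      refine lt_of_le_of_ne ?_ ?_
      · rw [Pi.le_def]
        intro j
        by_cases hj : j = i
        · subst hj; simp; exact Or.inl rfl
        · rw [Function.update_of_ne hj]
      · intro h
        have := congrFun h i
        simp at this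
        exact hi this.symm
    calc ((k + 1 : ℕ) : ℕ∞) = (k : ℕ∞) + 1 := by push_cast; rfl
      _ ≤ Order.height (Function.update p i Star.zero) + 1 := by gcongr
      _ ≤ Order.height p := Order.height_add_one_le h4

theorem height_eq (p : Fin n → Star) : Order.height p = (supp p : ℕ∞) := by
  apply le_antisymm
  · have := Order.height_le_height_apply_of_strictMono _ supp_strictMono p
    rwa [Order.height_nat] at this
  · exact le_height _ p rfl

theorem rank_eq (p : Fin n → Star) : rank p = supp p := by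
  unfold rank
  rw [height_eq]
  rfl

end Product

section Product

variable {n : ℕ}

/-- pointwise join with priority to the first argument -/
def jn (p q : Fin n → Star) : Fin n → Star := fun i => if p i = Star.zero then q i else p i

/-- pointwise join, conflicts resolved to zero -/
def jz (p q : Fin n → Star) : Fin n → Star :=
  fun i => if p i = Star.zero then q i else if q i = Star.zero then p i else p i ⊓ q i

theorem star_fin_check1 : ∀ a b p q : Star, p ⊓ q ≤ a → a ≤ p → p ⊓ q ≤ b → b ≤ q →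
    ∀ u : Star, ((a = Star.zero ∧ u = b) ∨ (b = Star.zero ∧ u = a) ∨ (a = b ∧ u = a)) →
    (u = p ⊓ q ∨ u = p ∨ u = q) := by
  decide

theorem star_fin_check2 : ∀ p q u : Star, (u = p ⊓ q ∨ u = p ∨ u = q) →
    ((u ⊓ p = Star.zero ∧ u = u ⊓ q) ∨ (u ⊓ q = Star.zero ∧ u = u ⊓ p) ∨
      (u ⊓ p = u ⊓ q ∧ u = u ⊓ p)) ∧ p ⊓ q ≤ u := by
  decide

theorem mem_joinSet {p q u : Fin n → Star} :
    u ∈ joinSet p q ↔ ∀ i, (u i = p i ⊓ q i ∨ u i = p i ∨ u i = q i) := by
  constructor
  · rintro ⟨a, b, h1, h2, h3, h4, h5⟩ i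
    have h6 := (isLUB_pi.1 h5) i
    rw [Set.image_pair] at h6
    exact star_fin_check1 (a i) (b i) (p i) (q i) (h1 i) (h2 i) (h3 i) (h4 i) (u i)
      (Star.isLUB_pair.1 h6)
  · intro h
    refine ⟨u ⊓ p, u ⊓ q, ?_, inf_le_right, ?_, inf_le_right, ?_⟩
    · exact le_inf (fun i => (star_fin_check2 _ _ _ (h i)).2) inf_le_left
    · exact le_inf (fun i => (star_fin_check2 _ _ _ (h i)).2) inf_le_right
    · apply isLUB_pi.2
      intro i
      rw [Set.image_pair]
      exact Star.isLUB_pair.2 (star_fin_check2 _ _ _ (h i)).1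

theorem rankPoint_eq (p q u : Fin n → Star) : rankPoint p q u =
    ((supp (u ⊓ p) : ℝ) - supp (p ⊓ q), (supp (u ⊓ q) : ℝ) - supp (p ⊓ q)) := by
  unfold rankPoint
  simp only [rank_eq]

theorem jn_mem (p q : Fin n → Star) : jn p q ∈ joinSet p q := by
  rw [mem_joinSet]; intro i
  unfold jn
  split_ifs <;> simp

theorem jn_mem' (p q : Fin n → Star) : jn q p ∈ joinSet p q := by
  rw [mem_joinSet]; intro i
  unfold jn
  split_ifs <;> simp

theorem jz_mem (p q : Fin n → Star) : jz p q ∈ joinSet p q := by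
  rw [mem_joinSet]; intro i
  unfold jz
  split_ifs <;> simp

/-- pointwise inequalities between weights -/
theorem star_check3 : ∀ p q u : Star, (u = p ⊓ q ∨ u = p ∨ u = q) →
    (u ⊓ p).wt ≤ ((if p = Star.zero then q else p) ⊓ p).wt ∧
    (u ⊓ q).wt ≤ ((if q = Star.zero then p else q) ⊓ q).wt ∧
    (u ⊓ p).wt + (u ⊓ q).wt ≤
      ((if p = Star.zero then q else p) ⊓ p).wt + ((if p = Star.zero then q else p) ⊓ q).wt := by
  decide

theorem star_check4 : ∀ p q : Star,
    ((if p = Star.zero then q else p) ⊓ p).wt + ((if p = Star.zero then q else p) ⊓ q).wt =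
    ((if q = Star.zero then p else q) ⊓ p).wt + ((if q = Star.zero then p else q) ⊓ q).wt ∧
    ((if p = Star.zero then q else if q = Star.zero then p else p ⊓ q) ⊓ p).wt =
      ((if q = Star.zero then p else q) ⊓ p).wt ∧
    ((if p = Star.zero then q else if q = Star.zero then p else p ⊓ q) ⊓ q).wt =
      ((if p = Star.zero then q else p) ⊓ q).wt := by
  decide

theorem star_check5 : ∀ p q u : Star, (u = p ⊓ q ∨ u = p ∨ u = q) →
    (u ⊓ p).wt = ((if p = Star.zero then q else p) ⊓ p).wt →
    (u ⊓ p).wt + (u ⊓ q).wt =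
      ((if p = Star.zero then q else p) ⊓ p).wt + ((if p = Star.zero then q else p) ⊓ q).wt →
    u = (if p = Star.zero then q else p) := by
  decide

theorem supp_p_le {p q u : Fin n → Star} (h : u ∈ joinSet p q) :
    supp (u ⊓ p) ≤ supp (jn p q ⊓ p) :=
  Finset.sum_le_sum fun i _ => (star_check3 (p i) (q i) (u i) (mem_joinSet.1 h i)).1

theorem supp_q_le {p q u : Fin n → Star} (h : u ∈ joinSet p q) :
    supp (u ⊓ q) ≤ supp (jn q p ⊓ q) :=
  Finset.sum_le_sum fun i _ => (star_check3 (p i) (q i) (u i) (mem_joinSet.1 h i)).2.1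

theorem supp_add_le {p q u : Fin n → Star} (h : u ∈ joinSet p q) :
    supp (u ⊓ p) + supp (u ⊓ q) ≤ supp (jn p q ⊓ p) + supp (jn p q ⊓ q) := by
  unfold supp
  rw [← Finset.sum_add_distrib, ← Finset.sum_add_distrib]
  exact Finset.sum_le_sum fun i _ => (star_check3 (p i) (q i) (u i) (mem_joinSet.1 h i)).2.2

theorem supp_add_eq (p q : Fin n → Star) :
    supp (jn p q ⊓ p) + supp (jn p q ⊓ q) = supp (jn q p ⊓ p) + supp (jn q p ⊓ q) := by
  unfold supp
  rw [← Finset.sum_add_distrib, ← Finset.sum_add_distrib]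
  exact Finset.sum_congr rfl fun i _ => (star_check4 (p i) (q i)).1

theorem supp_jz_p (p q : Fin n → Star) : supp (jz p q ⊓ p) = supp (jn q p ⊓ p) := by
  unfold supp
  exact Finset.sum_congr rfl fun i _ => (star_check4 (p i) (q i)).2.1

theorem supp_jz_q (p q : Fin n → Star) : supp (jz p q ⊓ q) = supp (jn p q ⊓ q) := by
  unfold supp
  exact Finset.sum_congr rfl fun i _ => (star_check4 (p i) (q i)).2.2

/-- uniqueness -/
theorem eq_jn {p q u : Fin n → Star} (h : u ∈ joinSet p q)
    (h1 : supp (u ⊓ p) = supp (jn p q ⊓ p))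
    (h2 : supp (u ⊓ q) = supp (jn p q ⊓ q)) : u = jn p q := by
  have e1 : ∀ i, (u i ⊓ p i).wt = (jn p q i ⊓ p i).wt := by
    have := (Finset.sum_eq_sum_iff_of_le (s := Finset.univ)
      (f := fun i => (u i ⊓ p i).wt) (g := fun i => (jn p q i ⊓ p i).wt)
      (fun i _ => (star_check3 (p i) (q i) (u i) (mem_joinSet.1 h i)).1)).1 h1
    intro i; exact this i (Finset.mem_univ i)
  have e2 : ∀ i, (u i ⊓ p i).wt + (u i ⊓ q i).wt =
      (jn p q i ⊓ p i).wt + (jn p q i ⊓ q i).wt := by
    have h3 : ∑ i, ((u i ⊓ p i).wt + (u i ⊓ q i).wt) =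
        ∑ i, ((jn p q i ⊓ p i).wt + (jn p q i ⊓ q i).wt) := by
      rw [Finset.sum_add_distrib, Finset.sum_add_distrib]
      exact congrArg₂ (· + ·) h1 h2
    have := (Finset.sum_eq_sum_iff_of_le (s := Finset.univ)
      (f := fun i => (u i ⊓ p i).wt + (u i ⊓ q i).wt)
      (g := fun i => (jn p q i ⊓ p i).wt + (jn p q i ⊓ q i).wt)
      (fun i _ => (star_check3 (p i) (q i) (u i) (mem_joinSet.1 h i)).2.2)).1 h3
    intro i; exact this i (Finset.mem_univ i)
  funext i
  exact star_check5 (p i) (q i) (u i) (mem_joinSet.1 h i) (e1 i) (e2 i)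

theorem joinSet_comm (p q : Fin n → Star) : joinSet p q = joinSet q p := by
  ext u
  rw [mem_joinSet, mem_joinSet]
  constructor <;> intro h i <;> rcases h i with h | h | h
  · left; rw [h, inf_comm]
  · right; right; exact h
  · right; left; exact h
  · left; rw [h, inf_comm]
  · right; right; exact h
  · right; left; exact h

end Product

section Planar

variable {S : Set (ℝ × ℝ)} {P1 P2 Q : ℝ × ℝ}

/-- the data of the planar region arising for a product of stars -/
structure Region (S : Set (ℝ × ℝ)) (P1 P2 : ℝ × ℝ) : Prop where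
  conv : Convex ℝ S
  mem1 : P1 ∈ S
  mem2 : P2 ∈ S
  memQ : (P2.1, P1.2) ∈ S
  sum_eq : P1.1 + P1.2 = P2.1 + P2.2
  le1 : ∀ w ∈ S, w.1 ≤ P1.1
  le2 : ∀ w ∈ S, w.2 ≤ P2.2
  le3 : ∀ w ∈ S, w.1 + w.2 ≤ P1.1 + P1.2

theorem Region.extreme1 (h : Region S P1 P2) : P1 ∈ S.extremePoints ℝ := by
  rw [mem_extremePoints]
  refine ⟨h.mem1, ?_⟩
  have key : ∀ x ∈ S, ∀ y ∈ S, P1 ∈ openSegment ℝ x y → x = P1 := by
    rintro x hx y hy ⟨a, b, ha, hb, hab, rfl⟩
    have hx1 := h.le1 x hx
    have hy1 := h.le1 y hy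
    have hx3 := h.le3 x hx
    have hy3 := h.le3 y hy
    simp only [Prod.fst_add, Prod.smul_fst, Prod.snd_add, Prod.smul_snd, smul_eq_mul] at hx1 hy1 hx3 hy3
    have hb' : b = 1 - a := by linarith
    subst hb'
    have e1 : x.1 = y.1 := by nlinarith
    have e2 : x.1 + x.2 = y.1 + y.2 := by
      nlinarith
    have e3 : x.2 = y.2 := by linarith
    have : x = y := Prod.ext e1 e3
    subst this
    ext <;> simp
  intro x hx y hy hxy
  refine ⟨key x hx y hy hxy, key y hy x hx ?_⟩
  rwa [openSegment_symm]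

theorem Region.swap (h : Region S P1 P2) :
    Region (Prod.swap ⁻¹' S) P2.swap P1.swap where
  conv := by
    have : (Prod.swap ⁻¹' S : Set (ℝ × ℝ)) = (LinearMap.prod (LinearMap.snd ℝ ℝ ℝ)
        (LinearMap.fst ℝ ℝ ℝ)) ⁻¹' S := by
      ext x; rfl
    rw [this]
    exact h.conv.linear_preimage _
  mem1 := h.mem2
  mem2 := h.mem1
  memQ := h.memQ
  sum_eq := by
    simp only [Prod.fst_swap, Prod.snd_swap]
    linarith [h.sum_eq]
  le1 := fun w hw => h.le2 w.swap hw
  le2 := fun w hw => h.le1 w.swap hw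
  le3 := fun w hw => by
    have := h.le3 w.swap hw
    simp only [Prod.fst_swap, Prod.snd_swap] at this ⊢
    linarith [h.sum_eq]

theorem Region.extreme2 (h : Region S P1 P2) : P2 ∈ S.extremePoints ℝ := by
  rw [mem_extremePoints]
  refine ⟨h.mem2, ?_⟩
  have key : ∀ x ∈ S, ∀ y ∈ S, P2 ∈ openSegment ℝ x y → x = P2 := by
    rintro x hx y hy ⟨a, b, ha, hb, hab, rfl⟩
    have hx1 := h.le2 x hx
    have hy1 := h.le2 y hy
    have hx3 := h.le3 x hx
    have hy3 := h.le3 y hy
    rw [h.sum_eq] at hx3 hy3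
    simp only [Prod.fst_add, Prod.smul_fst, Prod.snd_add, Prod.smul_snd, smul_eq_mul] at hx1 hy1 hx3 hy3
    have hb' : b = 1 - a := by linarith
    subst hb'
    have e1 : x.2 = y.2 := by nlinarith
    have e2 : x.1 + x.2 = y.1 + y.2 := by
      nlinarith
    have e3 : x.1 = y.1 := by linarith
    have : x = y := Prod.ext e3 e1
    subst this
    ext <;> simp
  intro x hx y hy hxy
  refine ⟨key x hx y hy hxy, key y hy x hx ?_⟩
  rwa [openSegment_symm]

theorem Region.le_or_le (h : Region S P1 P2) {v : ℝ × ℝ} (hv : v ∈ S.extremePoints ℝ) :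
    v ≤ P1 ∨ v ≤ P2 := by
  by_contra hcon
  push Not at hcon
  obtain ⟨hc1, hc2⟩ := hcon
  obtain ⟨hvS, hext⟩ := mem_extremePoints.1 hv
  have h1 := h.le1 v hvS
  have h2 := h.le2 v hvS
  have h3 := h.le3 v hvS
  have h4 := h.sum_eq
  have g1 : P1.2 < v.2 := by
    by_contra hh
    exact hc1 (Prod.mk_le_mk.2 ⟨h1, not_lt.1 hh⟩)
  have g2 : P2.1 < v.1 := by
    by_contra hh
    exact hc2 (Prod.mk_le_mk.2 ⟨not_lt.1 hh, h2⟩)
  set z := P1.1 - P2.1 with hz
  have hzpos : 0 < z := by linarith
  have hz2 : P2.2 - P1.2 = z := by linarith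
  -- barycentric coordinates
  set s := (v.1 - P2.1) / z with hs
  set t := (v.2 - P1.2) / z with ht
  have hs0 : 0 < s := div_pos (by linarith) hzpos
  have ht0 : 0 < t := div_pos (by linarith) hzpos
  have hst : s + t ≤ 1 := by
    rw [hs, ht, ← add_div, div_le_one hzpos]
    linarith
  have hs1 : 0 < 1 - s := by linarith
  have hsz : s * z = v.1 - P2.1 := by rw [hs]; field_simp
  have htz : t * z = v.2 - P1.2 := by rw [ht]; field_simp
  -- R = ((1-s-t) Q + t P2)/(1-s)
  set R : ℝ × ℝ := ((1 - s - t) / (1 - s)) • ((P2.1, P1.2) : ℝ × ℝ) + (t / (1 - s)) • P2 with hR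
  have hRS : R ∈ S := by
    apply h.conv h.memQ h.mem2
    · exact div_nonneg (by linarith) hs1.le
    · exact div_nonneg ht0.le hs1.le
    · field_simp; ring
  have hseg : v ∈ openSegment ℝ P1 R := by
    refine ⟨s, 1 - s, hs0, hs1, by ring, ?_⟩
    have e1 : (1 - s) * ((1 - s - t) / (1 - s)) = 1 - s - t := by field_simp
    have e2 : (1 - s) * (t / (1 - s)) = t := by field_simp
    ext
    · simp only [hR, Prod.fst_add, Prod.smul_fst, smul_eq_mul, mul_add, ← mul_assoc, e1, e2]
      linear_combination hsz - s * hz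
    · simp only [hR, Prod.snd_add, Prod.smul_snd, smul_eq_mul, mul_add, ← mul_assoc, e1, e2]
      linear_combination htz + t * hz2
  have := (hext P1 h.mem1 R hRS hseg).1
  exact hc1 this.symm.le

theorem Region.maximal_iff (h : Region S P1 P2) {v : ℝ × ℝ} :
    Maximal (· ∈ S.extremePoints ℝ) v ↔ v = P1 ∨ v = P2 := by
  constructor
  · intro hv
    rcases h.le_or_le hv.1 with h1 | h1
    · left; exact le_antisymm h1 (hv.2 h.extreme1 h1)
    · right; exact le_antisymm h1 (hv.2 h.extreme2 h1)
  · rintro (rfl | rfl)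
    · refine ⟨h.extreme1, ?_⟩
      intro w hw hvw
      have hwS := (mem_extremePoints.1 hw).1
      have h1 := h.le1 w hwS
      have h3 := h.le3 w hwS
      have h5 : v.1 ≤ w.1 := (Prod.le_def.1 hvw).1
      exact Prod.le_def.2 ⟨h1, by linarith⟩
    · refine ⟨h.extreme2, ?_⟩
      intro w hw hvw
      have hwS := (mem_extremePoints.1 hw).1
      have h1 := h.le2 w hwS
      have h3 := h.le3 w hwS
      have h4 := h.sum_eq
      have h5 : v.2 ≤ w.2 := (Prod.le_def.1 hvw).2
      exact Prod.le_def.2 ⟨by linarith, h1⟩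

theorem Region.fst_le (h : Region S P1 P2) : P2.1 ≤ P1.1 := h.le1 _ h.mem2

theorem Region.cone1 (h : Region S P1 P2) (c : ℝ × ℝ) (h1 : 0 ≤ c.1) (h2 : 0 ≤ c.2) :
    (∀ w ∈ S, c.1 * w.1 + c.2 * w.2 ≤ c.1 * P1.1 + c.2 * P1.2) ↔ (P1 = P2 ∨ c.2 ≤ c.1) := by
  constructor
  · intro hw
    by_cases he : P1 = P2
    · exact Or.inl he
    · right
      have hlt : P2.1 < P1.1 := by
        refine lt_of_le_of_ne h.fst_le ?_
        intro h5
        apply he
        exact Prod.ext h5.symm (by linarith [h.sum_eq])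
      have h3 := hw P2 h.mem2
      have h4 := h.sum_eq
      have h5 : P2.2 - P1.2 = P1.1 - P2.1 := by linarith
      have h6 : c.2 * (P1.1 - P2.1) ≤ c.1 * (P1.1 - P2.1) := by
        rw [← h5]
        nlinarith
      exact le_of_mul_le_mul_right h6 (by linarith)
  · rintro (he | hc) w hw
    · have g1 := h.le1 w hw
      have g2 := h.le2 w hw
      rw [← he] at g2
      nlinarith
    · have g1 := h.le1 w hw
      have g3 := h.le3 w hw
      nlinarith

theorem Region.cone2 (h : Region S P1 P2) (c : ℝ × ℝ) (h1 : 0 ≤ c.1) (h2 : 0 ≤ c.2) :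
    (∀ w ∈ S, c.1 * w.1 + c.2 * w.2 ≤ c.1 * P2.1 + c.2 * P2.2) ↔ (P1 = P2 ∨ c.1 ≤ c.2) := by
  constructor
  · intro hw
    by_cases he : P1 = P2
    · exact Or.inl he
    · right
      have hlt : P2.1 < P1.1 := by
        refine lt_of_le_of_ne h.fst_le ?_
        intro h5
        apply he
        exact Prod.ext h5.symm (by linarith [h.sum_eq])
      have h3 := hw P1 h.mem1
      have h4 := h.sum_eq
      have h5 : P2.2 - P1.2 = P1.1 - P2.1 := by linarith
      have h6 : c.1 * (P1.1 - P2.1) ≤ c.2 * (P1.1 - P2.1) := by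
        rw [← h5]
        nlinarith
      exact le_of_mul_le_mul_right h6 (by linarith)
  · rintro (he | hc) w hw
    · have g1 := h.le1 w hw
      have g2 := h.le2 w hw
      rw [he] at g1
      nlinarith
    · have g1 := h.le2 w hw
      have g3 := h.le3 w hw
      have g4 := h.sum_eq
      nlinarith

end Planar

section Bracket

theorem quarter_le_half : Real.pi / 4 ≤ Real.pi / 2 := by linarith [Real.pi_pos]

theorem bracket_of_angles {C : Set (ℝ × ℝ)} {a b : ℝ} (hab : a ≤ b)
    (h : angles C = Set.Icc a b) :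
    bracket C = Real.sin b / (Real.sin b + Real.cos b) -
      Real.sin a / (Real.sin a + Real.cos a) := by
  unfold bracket
  rw [h, csSup_Icc hab, csInf_Icc hab]

theorem bracket_full {C : Set (ℝ × ℝ)} (h : ∀ c : ℝ × ℝ, 0 ≤ c.1 → 0 ≤ c.2 → c ∈ C) :
    bracket C = 1 := by
  rw [bracket_of_angles (a := 0) (b := Real.pi / 2) (by positivity)]
  · simp
  · ext θ
    simp only [angles, Set.mem_ofPred_eq, Set.mem_Icc]
    constructor
    · rintro ⟨h1, h2, -⟩; exact ⟨h1, h2⟩
    · rintro ⟨h1, h2⟩
      refine ⟨h1, h2, h _ ?_ ?_⟩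
      · exact Real.cos_nonneg_of_neg_pi_div_two_le_of_le (by linarith [Real.pi_pos]) h2
      · exact Real.sin_nonneg_of_nonneg_of_le_pi h1 (by linarith [Real.pi_pos])

theorem sin_le_cos_iff {θ : ℝ} (h1 : 0 ≤ θ) (h2 : θ ≤ Real.pi / 2) :
    Real.sin θ ≤ Real.cos θ ↔ θ ≤ Real.pi / 4 := by
  have hpi := Real.pi_pos
  have e : Real.sin (Real.pi / 4) = Real.cos (Real.pi / 4) := by
    rw [Real.sin_pi_div_four, Real.cos_pi_div_four]
  constructor
  · intro h
    by_contra hcon
    push Not at hcon
    have g1 : Real.sin (Real.pi / 4) < Real.sin θ :=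
      Real.sin_lt_sin_of_lt_of_le_pi_div_two (by linarith) h2 hcon
    have g2 : Real.cos θ < Real.cos (Real.pi / 4) :=
      Real.cos_lt_cos_of_nonneg_of_le_pi (by linarith) (by linarith) hcon
    linarith
  · intro h
    have g1 : Real.sin θ ≤ Real.sin (Real.pi / 4) :=
      Real.sin_le_sin_of_le_of_le_pi_div_two (by linarith) (by linarith) h
    have g2 : Real.cos (Real.pi / 4) ≤ Real.cos θ :=
      Real.cos_le_cos_of_nonneg_of_le_pi h1 (by linarith) h
    linarith

theorem cos_le_sin_iff {θ : ℝ} (h1 : 0 ≤ θ) (h2 : θ ≤ Real.pi / 2) :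
    Real.cos θ ≤ Real.sin θ ↔ Real.pi / 4 ≤ θ := by
  have := sin_le_cos_iff (θ := Real.pi / 2 - θ) (by linarith) (by linarith)
  rw [Real.sin_pi_div_two_sub, Real.cos_pi_div_two_sub] at this
  rw [this]
  constructor <;> intro h <;> linarith

theorem quarter_value : Real.sin (Real.pi / 4) / (Real.sin (Real.pi / 4) + Real.cos (Real.pi / 4))
    = 1 / 2 := by
  rw [Real.sin_pi_div_four, Real.cos_pi_div_four]
  have : (0 : ℝ) < √2 := by positivity
  field_simp
  norm_num

theorem bracket_low {C : Set (ℝ × ℝ)}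
    (h : ∀ c : ℝ × ℝ, 0 ≤ c.1 → 0 ≤ c.2 → (c ∈ C ↔ c.2 ≤ c.1)) :
    bracket C = 1 / 2 := by
  rw [bracket_of_angles (a := 0) (b := Real.pi / 4) (by positivity)]
  · rw [quarter_value]; simp
  · ext θ
    simp only [angles, Set.mem_ofPred_eq, Set.mem_Icc]
    constructor
    · rintro ⟨h1, h2, h3⟩
      rw [h _ (Real.cos_nonneg_of_neg_pi_div_two_le_of_le (by linarith [Real.pi_pos]) h2)
        (Real.sin_nonneg_of_nonneg_of_le_pi h1 (by linarith [Real.pi_pos]))] at h3
      exact ⟨h1, (sin_le_cos_iff h1 h2).1 h3⟩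
    · rintro ⟨h1, h2⟩
      have h2' : θ ≤ Real.pi / 2 := h2.trans quarter_le_half
      refine ⟨h1, h2', ?_⟩
      rw [h _ (Real.cos_nonneg_of_neg_pi_div_two_le_of_le (by linarith [Real.pi_pos]) h2')
        (Real.sin_nonneg_of_nonneg_of_le_pi h1 (by linarith [Real.pi_pos]))]
      exact (sin_le_cos_iff h1 h2').2 h2

theorem bracket_high {C : Set (ℝ × ℝ)}
    (h : ∀ c : ℝ × ℝ, 0 ≤ c.1 → 0 ≤ c.2 → (c ∈ C ↔ c.1 ≤ c.2)) :
    bracket C = 1 / 2 := by
  rw [bracket_of_angles (a := Real.pi / 4) (b := Real.pi / 2) quarter_le_half]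
  · rw [quarter_value]; simp; norm_num
  · ext θ
    simp only [angles, Set.mem_ofPred_eq, Set.mem_Icc]
    constructor
    · rintro ⟨h1, h2, h3⟩
      rw [h _ (Real.cos_nonneg_of_neg_pi_div_two_le_of_le (by linarith [Real.pi_pos]) h2)
        (Real.sin_nonneg_of_nonneg_of_le_pi h1 (by linarith [Real.pi_pos]))] at h3
      exact ⟨(cos_le_sin_iff h1 h2).1 h3, h2⟩
    · rintro ⟨h1, h2⟩
      have h1' : 0 ≤ θ := le_trans (by positivity) h1
      refine ⟨h1', h2, ?_⟩
      rw [h _ (Real.cos_nonneg_of_neg_pi_div_two_le_of_le (by linarith [Real.pi_pos]) h2)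
        (Real.sin_nonneg_of_nonneg_of_le_pi h1' (by linarith [Real.pi_pos]))]
      exact (cos_le_sin_iff h1' h2).2 h1

end Bracket

section Product

variable {n : ℕ}

theorem hull_region (p q : Fin n → Star) :
    Region (hull p q) (rankPoint p q (jn p q)) (rankPoint p q (jn q p)) where
  conv := convex_convexHull ℝ _
  mem1 := subset_convexHull ℝ _ ⟨_, jn_mem p q, rfl⟩
  mem2 := subset_convexHull ℝ _ ⟨_, jn_mem' p q, rfl⟩
  memQ := by
    apply subset_convexHull ℝ _
    refine ⟨jz p q, jz_mem p q, ?_⟩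
    rw [rankPoint_eq, rankPoint_eq, rankPoint_eq, supp_jz_p, supp_jz_q]
  sum_eq := by
    rw [rankPoint_eq, rankPoint_eq]
    have := supp_add_eq p q
    have h : (supp (jn p q ⊓ p) : ℝ) + supp (jn p q ⊓ q) =
      supp (jn q p ⊓ p) + supp (jn q p ⊓ q) := by exact_mod_cast this
    simp only
    linarith
  le1 := by
    have : hull p q ⊆ {w : ℝ × ℝ | w.1 ≤ (rankPoint p q (jn p q)).1} := by
      apply convexHull_min
      · rintro _ ⟨u, hu, rfl⟩
        rw [rankPoint_eq, rankPoint_eq]
        have := supp_p_le hu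
        have h : (supp (u ⊓ p) : ℝ) ≤ supp (jn p q ⊓ p) := by exact_mod_cast this
        simp only [Set.mem_ofPred_eq]
        linarith
      · exact (convex_halfSpace_le (f := fun w : ℝ × ℝ => w.1)
          (IsLinearMap.mk (fun _ _ => rfl) (fun _ _ => rfl)) _)
    exact this
  le2 := by
    have : hull p q ⊆ {w : ℝ × ℝ | w.2 ≤ (rankPoint p q (jn q p)).2} := by
      apply convexHull_min
      · rintro _ ⟨u, hu, rfl⟩
        rw [rankPoint_eq, rankPoint_eq]
        have := supp_q_le hu
        have h : (supp (u ⊓ q) : ℝ) ≤ supp (jn q p ⊓ q) := by exact_mod_cast this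
        simp only [Set.mem_ofPred_eq]
        linarith
      · exact (convex_halfSpace_le (f := fun w : ℝ × ℝ => w.2)
          (IsLinearMap.mk (fun _ _ => rfl) (fun _ _ => rfl)) _)
    exact this
  le3 := by
    have : hull p q ⊆ {w : ℝ × ℝ | w.1 + w.2 ≤
        (rankPoint p q (jn p q)).1 + (rankPoint p q (jn p q)).2} := by
      apply convexHull_min
      · rintro _ ⟨u, hu, rfl⟩
        rw [rankPoint_eq, rankPoint_eq]
        have := supp_add_le hu
        have h : (supp (u ⊓ p) : ℝ) + supp (u ⊓ q) ≤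
          supp (jn p q ⊓ p) + supp (jn p q ⊓ q) := by exact_mod_cast this
        simp only [Set.mem_ofPred_eq]
        linarith
      · exact (convex_halfSpace_le (f := fun w : ℝ × ℝ => w.1 + w.2)
          (IsLinearMap.mk (fun x y => by simp only [Prod.fst_add, Prod.snd_add]; ring)
            (fun c x => by simp only [Prod.smul_fst, Prod.smul_snd, smul_eq_mul]; ring)) _)
    exact this

theorem rankPoint_inj {p q u v : Fin n → Star} (h : rankPoint p q u = rankPoint p q v) :
    supp (u ⊓ p) = supp (v ⊓ p) ∧ supp (u ⊓ q) = supp (v ⊓ q) := by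
  rw [rankPoint_eq, rankPoint_eq, Prod.mk.injEq] at h
  constructor
  · have : (supp (u ⊓ p) : ℝ) = supp (v ⊓ p) := by linarith [h.1]
    exact_mod_cast this
  · have : (supp (u ⊓ q) : ℝ) = supp (v ⊓ q) := by linarith [h.2]
    exact_mod_cast this

theorem mem_fracJoin {p q u : Fin n → Star} :
    u ∈ fracJoin p q ↔ u = jn p q ∨ u = jn q p := by
  unfold fracJoin
  rw [Set.mem_ofPred_eq, (hull_region p q).maximal_iff]
  constructor
  · rintro ⟨hu, h | h⟩
    · left
      obtain ⟨h1, h2⟩ := rankPoint_inj h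
      exact eq_jn hu h1 h2
    · right
      obtain ⟨h1, h2⟩ := rankPoint_inj h
      exact eq_jn ((joinSet_comm p q) ▸ hu) h2 h1
  · rintro (rfl | rfl)
    · exact ⟨jn_mem p q, Or.inl rfl⟩
    · exact ⟨jn_mem' p q, Or.inr rfl⟩

theorem bracket_jn1 {p q : Fin n → Star} (h : jn p q ≠ jn q p) :
    bracket (normalCone p q (jn p q)) = 1 / 2 := by
  apply bracket_low
  intro c h1 h2
  unfold normalCone
  rw [Set.mem_ofPred_eq, (hull_region p q).cone1 c h1 h2]
  have hne : rankPoint p q (jn p q) ≠ rankPoint p q (jn q p) := by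
    intro he
    obtain ⟨g1, g2⟩ := rankPoint_inj he
    exact h (eq_jn (jn_mem' p q) g1.symm g2.symm).symm
  tauto

theorem bracket_jn2 {p q : Fin n → Star} (h : jn p q ≠ jn q p) :
    bracket (normalCone p q (jn q p)) = 1 / 2 := by
  apply bracket_high
  intro c h1 h2
  unfold normalCone
  rw [Set.mem_ofPred_eq, (hull_region p q).cone2 c h1 h2]
  have hne : rankPoint p q (jn p q) ≠ rankPoint p q (jn q p) := by
    intro he
    obtain ⟨g1, g2⟩ := rankPoint_inj he
    exact h (eq_jn (jn_mem' p q) g1.symm g2.symm).symm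
  tauto

theorem bracket_jn_eq {p q : Fin n → Star} (h : jn p q = jn q p) :
    bracket (normalCone p q (jn p q)) = 1 := by
  apply bracket_full
  intro c h1 h2
  unfold normalCone
  rw [Set.mem_ofPred_eq]
  refine ⟨h1, h2, ?_⟩
  rw [(hull_region p q).cone1 c h1 h2]
  left
  rw [h]

/-- On a product of stars, the submodular inequality for a real-valued function. -/
theorem isSubmodular_of_real {g : (Fin n → Star) → ℝ}
    (h : ∀ p q : Fin n → Star, g (p ⊓ q) + (1 / 2) * g (jn p q) + (1 / 2) * g (jn q p)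
      ≤ g p + g q) :
    IsSubmodular (fun p => (g p : EReal)) := by
  refine ⟨fun p => EReal.coe_ne_bot _, fun p q => ?_⟩
  have hsum : ∑ u : (Fin n → Star) with u ∈ fracJoin p q,
      ((bracket (normalCone p q u) : ℝ) : EReal) * ((g u : ℝ) : EReal) =
      (((1 / 2) * g (jn p q) + (1 / 2) * g (jn q p) : ℝ) : EReal) := by
    by_cases he : jn p q = jn q p
    · have hs : (Finset.univ.filter fun u : Fin n → Star => u ∈ fracJoin p q) = {jn p q} := by
        ext u
        simp only [Finset.mem_filter, Finset.mem_univ, true_and, Finset.mem_singleton,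
          mem_fracJoin, ← he, or_self]
      rw [hs, Finset.sum_singleton, bracket_jn_eq he, ← EReal.coe_mul, ← he]
      congr 1
      ring
    · have hs : (Finset.univ.filter fun u : Fin n → Star => u ∈ fracJoin p q) =
          {jn p q, jn q p} := by
        ext u
        simp only [Finset.mem_filter, Finset.mem_univ, true_and, Finset.mem_insert,
          Finset.mem_singleton, mem_fracJoin]
      rw [hs, Finset.sum_pair he, bracket_jn1 he, bracket_jn2 he, ← EReal.coe_mul,
        ← EReal.coe_mul, ← EReal.coe_add]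
  show ((g (p ⊓ q) : ℝ) : EReal) + _ ≤ _
  rw [hsum, ← EReal.coe_add, ← EReal.coe_add, EReal.coe_le_coe_iff]
  linarith [h p q]

end Product

section Hidden

variable {n : ℕ}

/-- number of coordinates where `p` equals the hidden atom -/
def agree (τ : Fin n → Fin 3) (p : Fin n → Star) : ℕ :=
  ∑ i, if p i = Star.atom (τ i) then 1 else 0

/-- number of nonzero coordinates of `p` different from the hidden atom -/
def wrong (τ : Fin n → Fin 3) (p : Fin n → Star) : ℕ :=
  ∑ i, if p i = Star.zero ∨ p i = Star.atom (τ i) then 0 else 1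

/-- the hidden-orthant function -/
def hid (t : ℕ) (τ : Fin n → Fin 3) (p : Fin n → Star) : ℤ :=
  wrong τ p + min (agree τ p : ℤ) (2 * t - agree τ p)

/-- indicator helpers -/
def cM (c : Fin 3) (p q : Star) : ℕ := if p = Star.atom c ∧ q = Star.atom c then 1 else 0
/-- indicator helpers -/
def cX (c : Fin 3) (p q : Star) : ℕ := if p = Star.atom c ∧ q = Star.zero then 1 else 0
/-- indicator helpers -/
def cZ (c : Fin 3) (p q : Star) : ℕ :=
  if p = Star.atom c ∧ q ≠ Star.zero ∧ q ≠ Star.atom c then 1 else 0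

theorem star_check6 : ∀ (c : Fin 3) (p q : Star),
    (if p = Star.atom c then 1 else 0) = cM c p q + cX c p q + cZ c p q ∧
    (if q = Star.atom c then 1 else 0) = cM c p q + cX c q p + cZ c q p ∧
    (if p ⊓ q = Star.atom c then 1 else 0) = cM c p q ∧
    (if (if p = Star.zero then q else p) = Star.atom c then 1 else 0) =
      cM c p q + cX c p q + cX c q p + cZ c p q ∧
    (if (if q = Star.zero then p else q) = Star.atom c then 1 else 0) =
      cM c p q + cX c p q + cX c q p + cZ c q p := by
  decide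

theorem star_check7 : ∀ (c : Fin 3) (p q : Star),
    2 * (if p ⊓ q = Star.zero ∨ p ⊓ q = Star.atom c then 0 else 1) +
      (if (if p = Star.zero then q else p) = Star.zero ∨
        (if p = Star.zero then q else p) = Star.atom c then 0 else 1) +
      (if (if q = Star.zero then p else q) = Star.zero ∨
        (if q = Star.zero then p else q) = Star.atom c then 0 else 1) +
      cZ c p q + cZ c q p ≤
    2 * (if p = Star.zero ∨ p = Star.atom c then 0 else 1) +
      2 * (if q = Star.zero ∨ q = Star.atom c then 0 else 1) := by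
  decide

theorem agree_decomp (τ : Fin n → Fin 3) (p q : Fin n → Star) :
    ∃ M X Y Z W : ℕ,
      agree τ p = M + X + Z ∧ agree τ q = M + Y + W ∧ agree τ (p ⊓ q) = M ∧
      agree τ (jn p q) = M + X + Y + Z ∧ agree τ (jn q p) = M + X + Y + W ∧
      2 * wrong τ (p ⊓ q) + wrong τ (jn p q) + wrong τ (jn q p) + Z + W ≤
        2 * wrong τ p + 2 * wrong τ q := by
  refine ⟨∑ i, cM (τ i) (p i) (q i), ∑ i, cX (τ i) (p i) (q i), ∑ i, cX (τ i) (q i) (p i),
    ∑ i, cZ (τ i) (p i) (q i), ∑ i, cZ (τ i) (q i) (p i), ?_, ?_, ?_, ?_, ?_, ?_⟩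
  · unfold agree
    rw [← Finset.sum_add_distrib, ← Finset.sum_add_distrib]
    exact Finset.sum_congr rfl fun i _ => (star_check6 (τ i) (p i) (q i)).1
  · unfold agree
    rw [← Finset.sum_add_distrib, ← Finset.sum_add_distrib]
    exact Finset.sum_congr rfl fun i _ => (star_check6 (τ i) (p i) (q i)).2.1
  · unfold agree
    exact Finset.sum_congr rfl fun i _ => (star_check6 (τ i) (p i) (q i)).2.2.1
  · unfold agree
    rw [← Finset.sum_add_distrib, ← Finset.sum_add_distrib, ← Finset.sum_add_distrib]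
    exact Finset.sum_congr rfl fun i _ => (star_check6 (τ i) (p i) (q i)).2.2.2.1
  · unfold agree
    rw [← Finset.sum_add_distrib, ← Finset.sum_add_distrib, ← Finset.sum_add_distrib]
    exact Finset.sum_congr rfl fun i _ => (star_check6 (τ i) (p i) (q i)).2.2.2.2
  · unfold wrong
    rw [Finset.mul_sum, Finset.mul_sum, Finset.mul_sum, ← Finset.sum_add_distrib,
      ← Finset.sum_add_distrib, ← Finset.sum_add_distrib, ← Finset.sum_add_distrib,
      ← Finset.sum_add_distrib]
    exact Finset.sum_le_sum fun i _ => star_check7 (τ i) (p i) (q i)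

theorem hid_ineq (t : ℕ) (τ : Fin n → Fin 3) (p q : Fin n → Star) :
    2 * hid t τ (p ⊓ q) + hid t τ (jn p q) + hid t τ (jn q p) ≤ 2 * hid t τ p + 2 * hid t τ q := by
  obtain ⟨M, X, Y, Z, W, h1, h2, h3, h4, h5, h6⟩ := agree_decomp τ p q
  unfold hid
  rw [h1, h2, h3, h4, h5]
  push_cast
  omega

theorem hid_submodular (t : ℕ) (τ : Fin n → Fin 3) :
    IsSubmodular (fun p => (((hid t τ p : ℤ) : ℝ) : EReal)) := by
  apply isSubmodular_of_real (g := fun p => ((hid t τ p : ℤ) : ℝ))
  intro p q
  have h := hid_ineq t τ p q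
  have h' : (2 : ℝ) * hid t τ (p ⊓ q) + hid t τ (jn p q) + hid t τ (jn q p) ≤
      2 * hid t τ p + 2 * hid t τ q := by exact_mod_cast h
  linarith

/-- the hidden point -/
def pt (τ : Fin n → Fin 3) : Fin n → Star := fun i => Star.atom (τ i)

theorem agree_le (τ : Fin n → Fin 3) (p : Fin n → Star) : agree τ p ≤ n := by
  unfold agree
  calc _ ≤ ∑ i : Fin n, 1 := Finset.sum_le_sum fun i _ => by split_ifs <;> simp
    _ = n := by simp

theorem agree_pt (τ : Fin n → Fin 3) : agree τ (pt τ) = n := by
  unfold agree pt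
  simp

theorem wrong_pt (τ : Fin n → Fin 3) : wrong τ (pt τ) = 0 := by
  unfold wrong pt
  simp

theorem eq_pt_of_agree (τ : Fin n → Fin 3) (p : Fin n → Star) (h : agree τ p = n) :
    p = pt τ := by
  have h1 : ∑ i, (if p i = Star.atom (τ i) then 1 else 0) = ∑ i : Fin n, 1 := by
    rw [show (∑ i, (if p i = Star.atom (τ i) then 1 else 0)) = agree τ p from rfl, h]; simp
  have h2 := (Finset.sum_eq_sum_iff_of_le (s := Finset.univ)
    (f := fun i => if p i = Star.atom (τ i) then 1 else 0) (g := fun _ => 1)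
    (fun i _ => by split_ifs <;> simp)).1 h1
  funext i
  have h3 := h2 i (Finset.mem_univ i)
  by_contra hne
  have : p i ≠ Star.atom (τ i) := hne
  simp [this] at h3

theorem agree_add_wrong (τ : Fin n → Fin 3) (p : Fin n → Star) :
    wrong τ p + agree τ p = supp p := by
  unfold agree wrong supp
  rw [← Finset.sum_add_distrib]
  apply Finset.sum_congr rfl
  intro i _
  unfold Star.wt
  by_cases h1 : p i = Star.zero
  · simp [h1]
  · by_cases h2 : p i = Star.atom (τ i)
    · simp [h2]
    · simp [h1, h2]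

theorem supp_le (p : Fin n → Star) : supp p ≤ n := by
  unfold supp
  calc _ ≤ ∑ i : Fin n, 1 := Finset.sum_le_sum fun i _ => by unfold Star.wt; split_ifs <;> simp
    _ = n := by simp

theorem hid_of_le (t : ℕ) (τ : Fin n → Fin 3) (p : Fin n → Star) (h : agree τ p ≤ t) :
    hid t τ p = supp p := by
  have := agree_add_wrong τ p
  unfold hid
  omega

theorem hid_abs (t : ℕ) (hn : n = 2 * t + 1) (τ : Fin n → Fin 3) (p : Fin n → Star) :
    (hid t τ p).natAbs ≤ n := by
  have h1 := agree_add_wrong τ p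
  have h2 := supp_le p
  have h3 := agree_le τ p
  unfold hid
  omega

theorem hid_pt (t : ℕ) (hn : n = 2 * t + 1) (τ : Fin n → Fin 3) : hid t τ (pt τ) = -1 := by
  unfold hid
  rw [agree_pt, wrong_pt]
  omega

theorem eq_pt_of_min (t : ℕ) (hn : n = 2 * t + 1) (τ : Fin n → Fin 3) (p : Fin n → Star)
    (h : ∀ q, hid t τ p ≤ hid t τ q) : p = pt τ := by
  apply eq_pt_of_agree
  have h1 := h (pt τ)
  rw [hid_pt t hn] at h1
  have h2 := agree_le τ p
  unfold hid at h1
  omega

/-- counting the hidden atoms that agree much with a fixed point -/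
theorem count_agree (t : ℕ) (hn : n = 2 * t + 1) (p : Fin n → Star) :
    (Finset.univ.filter fun τ : Fin n → Fin 3 => t + 1 ≤ agree τ p).card ≤ 2 * 8 ^ t := by
  have h1 : ∑ τ : Fin n → Fin 3, 2 ^ agree τ p ≤ 4 ^ n := by
    have e : ∀ τ : Fin n → Fin 3, 2 ^ agree τ p =
        ∏ i, (if p i = Star.atom (τ i) then 2 else 1 : ℕ) := by
      intro τ
      unfold agree
      rw [← Finset.prod_pow_eq_pow_sum]
      apply Finset.prod_congr rfl
      intro i _
      split_ifs <;> simp
    simp_rw [e]
    have := (Finset.prod_univ_sum (fun _ : Fin n => (Finset.univ : Finset (Fin 3)))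
      (fun i c => (if p i = Star.atom c then 2 else 1 : ℕ)))
    rw [Fintype.piFinset_univ] at this
    rw [← this]
    calc ∏ i : Fin n, ∑ c : Fin 3, (if p i = Star.atom c then 2 else 1 : ℕ)
        ≤ ∏ i : Fin n, 4 := by
          apply Finset.prod_le_prod'
          intro i _
          generalize p i = s
          revert s
          decide
      _ = 4 ^ n := by simp
  have h2 : (Finset.univ.filter fun τ : Fin n → Fin 3 => t + 1 ≤ agree τ p).card * 2 ^ (t + 1)
      ≤ ∑ τ : Fin n → Fin 3, 2 ^ agree τ p := by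
    calc _ = ∑ τ ∈ (Finset.univ.filter fun τ : Fin n → Fin 3 => t + 1 ≤ agree τ p),
          2 ^ (t + 1) := by rw [Finset.sum_const, smul_eq_mul]
      _ ≤ ∑ τ ∈ (Finset.univ.filter fun τ : Fin n → Fin 3 => t + 1 ≤ agree τ p),
          2 ^ agree τ p := by
          apply Finset.sum_le_sum
          intro τ hτ
          exact Nat.pow_le_pow_right (by norm_num) (Finset.mem_filter.1 hτ).2
      _ ≤ ∑ τ : Fin n → Fin 3, 2 ^ agree τ p :=
          Finset.sum_le_sum_of_subset (Finset.filter_subset _ _)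
  have h3 : (4 : ℕ) ^ n = (2 * 8 ^ t) * 2 ^ (t + 1) := by
    rw [hn, show (8 : ℕ) = 2 ^ 3 by norm_num, show (4 : ℕ) = 2 ^ 2 by norm_num, ← pow_mul,
      ← pow_mul, ← pow_succ', ← pow_add]
    congr 1
    ring
  have h4 := h2.trans h1
  rw [h3] at h4
  exact Nat.le_of_mul_le_mul_right h4 (by positivity)

end Hidden

section Strategies

variable {X : Type}

theorem answers_congr (s : Strategy X) (f g : X → WithTop ℚ) (m : ℕ)
    (h : ∀ j < m, ∀ x, s (s.answers g j) = Sum.inl x → f x = g x) :
    ∀ k ≤ m, s.answers f k = s.answers g k := by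
  intro k
  induction k with
  | zero => intro _; rfl
  | succ k ih =>
    intro hk
    have e := ih (by omega)
    unfold Strategy.answers
    rw [e]
    rcases hs : s (s.answers g k) with x | x
    · simp only
      rw [h k (by omega) x hs]
    · rfl

theorem answers_stable (s : Strategy X) (g : X → WithTop ℚ) (k : ℕ) (x : X)
    (h : s (s.answers g k) = Sum.inr x) : ∀ d, s.answers g (k + d) = s.answers g k := by
  intro d
  induction d with
  | zero => rfl
  | succ d ih =>
    rw [← add_assoc]
    conv_lhs => unfold Strategy.answers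
    rw [ih, h]

theorem output_unique (s : Strategy X) (g : X → WithTop ℚ) (k l : ℕ) (x y : X)
    (hk : s (s.answers g k) = Sum.inr x) (hl : s (s.answers g l) = Sum.inr y) : x = y := by
  rcases le_total k l with h | h
  · obtain ⟨d, rfl⟩ := Nat.exists_eq_add_of_le h
    rw [answers_stable s g k x hk d, hk] at hl
    exact Sum.inr_injective hl
  · obtain ⟨d, rfl⟩ := Nat.exists_eq_add_of_le h
    rw [answers_stable s g l y hl d, hl] at hk
    exact (Sum.inr_injective hk).symm

theorem FindsMinimizer_mono (s : Strategy X) (f : X → WithTop ℚ) {m m' : ℕ} (h : m ≤ m')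
    (hf : s.FindsMinimizer f m) : s.FindsMinimizer f m' := by
  obtain ⟨k, hk, x, hx⟩ := hf
  exact ⟨k, hk.trans h, x, hx⟩

end Strategies

section Counting

variable {n : ℕ}

/-- the oracle of the hidden function -/
def orc (t : ℕ) (τ : Fin n → Fin 3) (p : Fin n → Star) : WithTop ℚ := ((hid t τ p : ℤ) : ℚ)

/-- the uninformative oracle -/
def nullOrc (p : Fin n → Star) : WithTop ℚ := ((supp p : ℕ) : ℚ)

theorem orc_eq_null (t : ℕ) (τ : Fin n → Fin 3) (p : Fin n → Star) (h : agree τ p ≤ t) :
    orc t τ p = nullOrc p := by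
  unfold orc nullOrc
  rw [hid_of_le t τ p h]
  simp

theorem orc_le_iff (t : ℕ) (τ : Fin n → Fin 3) (p q : Fin n → Star) :
    orc t τ p ≤ orc t τ q ↔ hid t τ p ≤ hid t τ q := by
  unfold orc
  rw [WithTop.coe_le_coe]
  exact_mod_cast Iff.rfl

theorem pt_injective : Function.Injective (pt : (Fin n → Fin 3) → (Fin n → Star)) := by
  intro τ σ h
  funext i
  have := congrFun h i
  unfold pt at this
  exact Star.atom.inj this

theorem count_success (t : ℕ) (hn : n = 2 * t + 1) (s : Strategy (Fin n → Star)) (m : ℕ) :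
    (Finset.univ.filter fun τ : Fin n → Fin 3 => s.FindsMinimizer (orc t τ) m).card
      ≤ m * (2 * 8 ^ t) + 1 := by
  -- the bad set
  set bad : Finset (Fin n → Fin 3) := (Finset.range m).biUnion fun j =>
    Finset.univ.filter fun τ : Fin n → Fin 3 =>
      ∃ x, s (s.answers nullOrc j) = Sum.inl x ∧ t + 1 ≤ agree τ x with hbad
  have hbadcard : bad.card ≤ m * (2 * 8 ^ t) := by
    calc bad.card ≤ ∑ j ∈ Finset.range m, (Finset.univ.filter fun τ : Fin n → Fin 3 =>
            ∃ x, s (s.answers nullOrc j) = Sum.inl x ∧ t + 1 ≤ agree τ x).card :=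
          Finset.card_biUnion_le
      _ ≤ ∑ j ∈ Finset.range m, 2 * 8 ^ t := by
          apply Finset.sum_le_sum
          intro j _
          rcases hs : s (s.answers nullOrc j) with x | x
          · refine le_trans (Finset.card_le_card ?_) (count_agree t hn x)
            intro τ hτ
            rw [Finset.mem_filter] at hτ ⊢
            obtain ⟨-, y, hy, hag⟩ := hτ
            rw [Sum.inl_injective hy]
            exact ⟨Finset.mem_univ _, hag⟩
          · rw [Finset.card_eq_zero.2]
            · exact Nat.zero_le _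
            · rw [Finset.filter_eq_empty_iff]
              rintro τ - ⟨y, hy, -⟩
              exact absurd hy (by simp)
      _ = m * (2 * 8 ^ t) := by rw [Finset.sum_const, Finset.card_range, smul_eq_mul]
  have hgood : ((Finset.univ.filter fun τ : Fin n → Fin 3 =>
      s.FindsMinimizer (orc t τ) m) \ bad).card ≤ 1 := by
    rw [Finset.card_le_one]
    have key : ∀ τ : Fin n → Fin 3, τ ∈ ((Finset.univ.filter fun τ : Fin n → Fin 3 =>
        s.FindsMinimizer (orc t τ) m) \ bad) →
        ∃ k, s (s.answers nullOrc k) = Sum.inr (pt τ) := by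
      intro τ hτ
      rw [Finset.mem_sdiff, Finset.mem_filter] at hτ
      obtain ⟨⟨-, k, hk, x, hx, hmin⟩, hnb⟩ := hτ
      have hans : ∀ k ≤ m, s.answers (orc t τ) k = s.answers nullOrc k := by
        apply answers_congr
        intro j hj y hy
        apply orc_eq_null
        by_contra hcon
        apply hnb
        rw [hbad, Finset.mem_biUnion]
        exact ⟨j, Finset.mem_range.2 hj, Finset.mem_filter.2 ⟨Finset.mem_univ _, y, hy, by omega⟩⟩
      refine ⟨k, ?_⟩
      rw [← hans k hk, hx]
      congr 1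
      apply eq_pt_of_min t hn
      intro q
      exact (orc_le_iff t τ x q).1 (hmin q)
    intro τ hτ σ hσ
    obtain ⟨k, hk⟩ := key τ hτ
    obtain ⟨l, hl⟩ := key σ hσ
    exact pt_injective (output_unique s _ k l _ _ hk hl)
  calc _ ≤ (bad ∪ ((Finset.univ.filter fun τ : Fin n → Fin 3 =>
        s.FindsMinimizer (orc t τ) m) \ bad)).card := by
        apply Finset.card_le_card
        intro τ hτ
        by_cases hb : τ ∈ bad
        · exact Finset.mem_union_left _ hb
        · exact Finset.mem_union_right _ (Finset.mem_sdiff.2 ⟨hτ, hb⟩)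
    _ ≤ bad.card + ((Finset.univ.filter fun τ : Fin n → Fin 3 =>
        s.FindsMinimizer (orc t τ) m) \ bad).card := Finset.card_union_le _ _
    _ ≤ m * (2 * 8 ^ t) + 1 := by omega

theorem exists_bad (t : ℕ) (hn : n = 2 * t + 1) (μ : PMF (Strategy (Fin n → Star))) (m : ℕ)
    (ε : ℝ≥0∞) (hε : ((m * (2 * 8 ^ t) + 1 : ℕ) : ℝ≥0∞) < 3 ^ n * ε) :
    ∃ τ : Fin n → Fin 3, μ.toOuterMeasure {s | s.FindsMinimizer (orc t τ) m} < ε := by
  by_contra hcon
  push Not at hcon
  have h1 : (3 : ℝ≥0∞) ^ n * ε ≤
      ∑ τ : Fin n → Fin 3, μ.toOuterMeasure {s | s.FindsMinimizer (orc t τ) m} := by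
    calc (3 : ℝ≥0∞) ^ n * ε = ∑ τ : Fin n → Fin 3, ε := by
          rw [Finset.sum_const, Finset.card_univ, nsmul_eq_mul]
          simp
      _ ≤ _ := Finset.sum_le_sum fun τ _ => hcon τ
  have h2 : ∑ τ : Fin n → Fin 3, μ.toOuterMeasure {s | s.FindsMinimizer (orc t τ) m} ≤
      ((m * (2 * 8 ^ t) + 1 : ℕ) : ℝ≥0∞) := by
    calc ∑ τ : Fin n → Fin 3, μ.toOuterMeasure {s | s.FindsMinimizer (orc t τ) m}
        = ∑' τ : Fin n → Fin 3, ∑' s, Set.indicator {s | s.FindsMinimizer (orc t τ) m} μ s := by
          rw [tsum_fintype]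
          exact Finset.sum_congr rfl fun τ _ => PMF.toOuterMeasure_apply _ _
      _ = ∑' s, ∑' τ : Fin n → Fin 3,
            Set.indicator {s | s.FindsMinimizer (orc t τ) m} μ s := ENNReal.tsum_comm
      _ ≤ ∑' s, μ s * ((m * (2 * 8 ^ t) + 1 : ℕ) : ℝ≥0∞) := by
          apply ENNReal.tsum_le_tsum
          intro s
          rw [tsum_fintype]
          calc ∑ τ : Fin n → Fin 3, Set.indicator {s | s.FindsMinimizer (orc t τ) m} μ s
              = ∑ τ : Fin n → Fin 3, if s.FindsMinimizer (orc t τ) m then μ s else 0 := by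
                apply Finset.sum_congr rfl
                intro τ _
                rw [Set.indicator_apply]
                rfl
            _ = μ s * ((Finset.univ.filter fun τ : Fin n → Fin 3 =>
                  s.FindsMinimizer (orc t τ) m).card : ℝ≥0∞) := by
                rw [← Finset.sum_filter, Finset.sum_const, nsmul_eq_mul, mul_comm]
            _ ≤ _ := by
                gcongr
                exact_mod_cast count_success t hn s m
      _ = ((m * (2 * 8 ^ t) + 1 : ℕ) : ℝ≥0∞) := by
          rw [ENNReal.tsum_mul_right, μ.tsum_coe, one_mul]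
  exact absurd (h1.trans h2) (not_le.2 hε)

theorem growth (c : ℕ) (ε : ℝ) (hε : 0 < ε) :
    ∃ t : ℕ, ((c * (4 * t + 8) ^ c * (2 * 8 ^ t) + 1 : ℕ) : ℝ) < 3 ^ (2 * t + 1) * ε := by
  have h1 : Filter.Tendsto (fun k : ℕ => (k : ℝ) ^ c * (8 / 9 : ℝ) ^ k) Filter.atTop (nhds 0) :=
    tendsto_pow_const_mul_const_pow_of_lt_one c (by norm_num) (by norm_num)
  have h2 : Filter.Tendsto (fun k : ℕ => ((1 / 9 : ℝ)) ^ k) Filter.atTop (nhds 0) :=
    tendsto_pow_atTop_nhds_zero_of_lt_one (by norm_num) (by norm_num)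
  have h1' : Filter.Tendsto (fun t : ℕ => ((t + 2 : ℕ) : ℝ) ^ c * (8 / 9 : ℝ) ^ (t + 2))
      Filter.atTop (nhds 0) := h1.comp (Filter.tendsto_add_atTop_nat 2)
  have h3 : Filter.Tendsto (fun t : ℕ => (c : ℝ) * 4 ^ c * 2 * (9 / 8) ^ 2 *
      (((t + 2 : ℕ) : ℝ) ^ c * (8 / 9 : ℝ) ^ (t + 2)) + ((1 / 9 : ℝ)) ^ t)
      Filter.atTop (nhds ((c : ℝ) * 4 ^ c * 2 * (9 / 8) ^ 2 * 0 + 0)) :=
    (h1'.const_mul _).add h2
  rw [mul_zero, add_zero] at h3
  have h4 := (h3.eventually (gt_mem_nhds (show (0 : ℝ) < 3 * ε by positivity))).exists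
  obtain ⟨t, ht⟩ := h4
  refine ⟨t, ?_⟩
  have e1 : (3 : ℝ) ^ (2 * t + 1) * ε = 3 * ε * 9 ^ t := by
    rw [pow_succ, pow_mul]; norm_num; ring
  have e2 : ((c * (4 * t + 8) ^ c * (2 * 8 ^ t) + 1 : ℕ) : ℝ) =
      ((c : ℝ) * 4 ^ c * 2 * (9 / 8) ^ 2 *
      (((t + 2 : ℕ) : ℝ) ^ c * (8 / 9 : ℝ) ^ (t + 2)) + ((1 / 9 : ℝ)) ^ t) * 9 ^ t := by
    have e3 : (8 / 9 : ℝ) ^ t * 9 ^ t = 8 ^ t := by rw [← mul_pow]; norm_num
    have e4 : (1 / 9 : ℝ) ^ t * 9 ^ t = 1 := by rw [← mul_pow]; norm_num
    push_cast
    rw [show (4 * (t : ℝ) + 8) = 4 * (t + 2) by ring, mul_pow, pow_add (8 / 9 : ℝ)]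
    linear_combination (-(c : ℝ) * 4 ^ c * 2 * (t + 2) ^ c) * e3 - e4
  rw [e1, e2]
  exact mul_lt_mul_of_pos_right ht (by positivity)

end Counting

theorem toEReal_orc {n : ℕ} (t : ℕ) (τ : Fin n → Fin 3) (p : Fin n → Star) :
    toEReal (orc t τ p) = (((hid t τ p : ℤ) : ℝ) : EReal) := by
  show ((((hid t τ p : ℤ) : ℚ) : ℝ) : EReal) = _
  norm_cast

theorem size_le (x : ℕ) : Nat.size x ≤ x := Nat.size_le.2 Nat.lt_two_pow_self

theorem maxBits_orc {n : ℕ} (t : ℕ) (hn : n = 2 * t + 1) (τ : Fin n → Fin 3) :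
    maxBits (orc t τ) ≤ n + 1 := by
  unfold maxBits
  apply Finset.sup_le
  intro p _
  show bitLength ((hid t τ p : ℤ) : ℚ) ≤ n + 1
  unfold bitLength
  have h1 := hid_abs t hn τ p
  rw [Rat.num_intCast, Rat.den_intCast]
  have h2 := size_le (hid t τ p).natAbs
  have h3 : Nat.size 1 = 1 := by simp
  omega

theorem no_polyTime_algorithm : ∀ ε : ℝ, 0 < ε → ¬ ∃ A : OracleAlgorithm, MinimizesInPolyTime A ε := by
  rintro ε hε ⟨A, c, hA⟩
  obtain ⟨t, ht⟩ := growth c ε hε
  set n := 2 * t + 1 with hn
  set L : Fin n → ModularSemilattice := fun _ => Star.semilattice with hL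
  set m := c * (4 * t + 8) ^ c with hm
  have hcount : ((m * (2 * 8 ^ t) + 1 : ℕ) : ℝ≥0∞) < 3 ^ n * ENNReal.ofReal ε := by
    have e : (3 : ℝ≥0∞) ^ n * ENNReal.ofReal ε = ENNReal.ofReal (3 ^ n * ε) := by
      rw [ENNReal.ofReal_mul (by positivity), ENNReal.ofReal_pow (by norm_num)]
      norm_num
    rw [e, ← ENNReal.ofReal_natCast]
    exact (ENNReal.ofReal_lt_ofReal_iff (by positivity)).2 ht
  obtain ⟨τ, hτ⟩ := exists_bad t hn (A n L) m (ENNReal.ofReal ε) hcount
  have hsub : IsSubmodular (L := ∀ i, L i) (fun p => toEReal (orc t τ p)) := by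
    have := hid_submodular t τ
    have e : (fun p : (∀ i, L i) => toEReal (orc t τ p)) =
        fun p => (((hid t τ p : ℤ) : ℝ) : EReal) := by
      funext p; exact toEReal_orc t τ p
    rw [e]
    exact this
  have hfin : ∀ p : (∀ i, L i), orc t τ p ≠ ⊤ := fun p => WithTop.coe_ne_top
  have h := hA n L (orc t τ) hsub hfin
  refine absurd (lt_of_le_of_lt h ?_) (lt_irrefl _)
  refine lt_of_le_of_lt ?_ hτ
  apply MeasureTheory.OuterMeasure.mono
  intro s hs
  refine FindsMinimizer_mono s _ ?_ hs
  have h1 : maxCard L = 4 := by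
    unfold maxCard
    have : ∀ i : Fin n, Fintype.card (L i) = 4 := fun i => Star.card_eq
    rw [Finset.sup_congr rfl fun i _ => this i]
    have : Nonempty (Fin n) := ⟨⟨0, by omega⟩⟩
    exact Finset.sup_const Finset.univ_nonempty 4
  have h2 : maxBits (X := ∀ i, L i) (orc t τ) ≤ n + 1 := by
    exact maxBits_orc t hn τ
  rw [hm, h1]
  apply Nat.mul_le_mul_left
  apply Nat.pow_le_pow_left
  omega

end Pool.Agent.Lib_helper8.Oracle
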