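import Mathlib

/-!
# Fourier analysis on the cube, decision trees and the two-function OSSS inequality

(Adapted from the library files `Lib_helper30/AA/Fourier.lean` and `Lib_helper30/AA/Tree.lean`.)
-/

set_option autoImplicit false
set_option linter.unusedSectionVars false

open Finset

namespace Pool.Agent.Lib_helper8.QAA

variable {I : Type} [Fintype I] [DecidableEq I]

/-- The character `χ_S`. -/
noncomputable def chi (S : Finset I) (x : I → Bool) : ℝ := ∏ i ∈ S, (-1 : ℝ) ^ (x i).toNat

/-- The Fourier coefficient. -/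
noncomputable def coef (f : (I → Bool) → ℝ) (S : Finset I) : ℝ :=
  ((2 : ℝ) ^ (Fintype.card I))⁻¹ * ∑ x : I → Bool, f x * chi S x

lemma sign_mul_self (b : Bool) : (-1 : ℝ) ^ b.toNat * (-1 : ℝ) ^ b.toNat = 1 := by
  cases b <;> simp

lemma sign_mul_not (b : Bool) : (-1 : ℝ) ^ (!b).toNat = - (-1 : ℝ) ^ b.toNat := by
  cases b <;> simp

lemma chi_mul_self (S : Finset I) (x : I → Bool) : chi S x * chi S x = 1 := by
  unfold chi
  rw [← Finset.prod_mul_distrib]
  exact Finset.prod_eq_one fun i _ => sign_mul_self _

lemma abs_chi (S : Finset I) (x : I → Bool) : |chi S x| = 1 := by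
  have := chi_mul_self S x
  have h : |chi S x| * |chi S x| = 1 := by rw [← abs_mul, this, abs_one]
  nlinarith [abs_nonneg (chi S x)]

lemma sum_chi_mul_chi (x y : I → Bool) :
    ∑ S : Finset I, chi S x * chi S y = if x = y then (2 : ℝ) ^ (Fintype.card I) else 0 := by
  have h1 : ∀ S : Finset I, chi S x * chi S y =
      ∏ i ∈ S, ((-1 : ℝ) ^ (x i).toNat * (-1 : ℝ) ^ (y i).toNat) := by
    intro S; unfold chi; rw [Finset.prod_mul_distrib]
  simp_rw [h1]
  have h2 := Finset.prod_one_add (R := ℝ)
    (f := fun i : I => (-1 : ℝ) ^ (x i).toNat * (-1 : ℝ) ^ (y i).toNat) (Finset.univ : Finset I)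
  rw [Finset.powerset_univ] at h2
  rw [← h2]
  split_ifs with h
  · subst h
    simp only [sign_mul_self]
    norm_num
  · have : ∃ i, x i ≠ y i := by
      by_contra hcon
      push Not at hcon
      exact h (funext hcon)
    obtain ⟨i, hi⟩ := this
    apply Finset.prod_eq_zero (Finset.mem_univ i)
    cases hx : x i <;> cases hy : y i <;> simp_all

lemma inversion (f : (I → Bool) → ℝ) (x : I → Bool) :
    f x = ∑ S : Finset I, coef f S * chi S x := by
  unfold coef
  have h : ∀ S : Finset I, ((2 : ℝ) ^ (Fintype.card I))⁻¹ * (∑ y : I → Bool, f y * chi S y) *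
      chi S x = ∑ y : I → Bool, ((2 : ℝ) ^ (Fintype.card I))⁻¹ * f y * (chi S y * chi S x) := by
    intro S
    rw [mul_assoc, Finset.sum_mul, Finset.mul_sum]
    refine Finset.sum_congr rfl fun y _ => ?_
    ring
  simp_rw [h]
  rw [Finset.sum_comm]
  simp_rw [← Finset.mul_sum, sum_chi_mul_chi]
  simp only [mul_ite, mul_zero, Finset.sum_ite_eq', Finset.mem_univ, if_true]
  field_simp

lemma parseval (f g : (I → Bool) → ℝ) :
    ∑ S : Finset I, coef f S * coef g S =
      ((2 : ℝ) ^ (Fintype.card I))⁻¹ * ∑ x : I → Bool, f x * g x := by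
  have h : ∀ x, f x * g x = ∑ S : Finset I, coef f S * (g x * chi S x) := by
    intro x
    conv_lhs => rw [inversion f x]
    rw [Finset.sum_mul]
    refine Finset.sum_congr rfl fun S _ => ?_
    ring
  simp_rw [h]
  rw [Finset.sum_comm, Finset.mul_sum]
  refine Finset.sum_congr rfl fun S _ => ?_
  rw [← Finset.mul_sum]
  unfold coef
  ring

lemma parseval_sq (f : (I → Bool) → ℝ) :
    ∑ S : Finset I, coef f S ^ 2 =
      ((2 : ℝ) ^ (Fintype.card I))⁻¹ * ∑ x : I → Bool, f x ^ 2 := by
  simpa [sq] using parseval f f

/-- Flipping coordinate `j`. -/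
def flip (j : I) (x : I → Bool) : I → Bool := Function.update x j (!x j)

lemma flip_flip (j : I) (x : I → Bool) : flip j (flip j x) = x := by
  unfold flip
  ext i
  by_cases h : i = j
  · subst h; simp
  · simp [h]

lemma flip_apply_of_ne {i j : I} (h : i ≠ j) (x : I → Bool) : flip j x i = x i := by
  simp [flip, h]

lemma chi_flip_of_mem {S : Finset I} {j : I} (hj : j ∈ S) (x : I → Bool) :
    chi S (flip j x) = - chi S x := by
  unfold chi
  rw [← Finset.mul_prod_erase _ _ hj, ← Finset.mul_prod_erase _ _ hj]
  have h1 : (-1 : ℝ) ^ (flip j x j).toNat = - (-1 : ℝ) ^ (x j).toNat := by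
    simp only [flip, Function.update_self]
    exact sign_mul_not _
  have h2 : ∏ i ∈ S.erase j, (-1 : ℝ) ^ (flip j x i).toNat =
      ∏ i ∈ S.erase j, (-1 : ℝ) ^ (x i).toNat := by
    refine Finset.prod_congr rfl fun i hi => ?_
    rw [flip_apply_of_ne (Finset.ne_of_mem_erase hi)]
  rw [h1, h2]
  ring

lemma chi_flip_of_notMem {S : Finset I} {j : I} (hj : j ∉ S) (x : I → Bool) :
    chi S (flip j x) = chi S x := by
  unfold chi
  refine Finset.prod_congr rfl fun i hi => ?_
  rw [flip_apply_of_ne (by rintro rfl; exact hj hi)]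

/-- The flip as an equivalence. -/
def flipEquiv (j : I) : (I → Bool) ≃ (I → Bool) where
  toFun := flip j
  invFun := flip j
  left_inv := flip_flip j
  right_inv := flip_flip j

lemma coef_comp_flip (f : (I → Bool) → ℝ) (j : I) (S : Finset I) :
    coef (fun x => f (flip j x)) S = if j ∈ S then - coef f S else coef f S := by
  unfold coef
  have h : ∑ x : I → Bool, f (flip j x) * chi S x = ∑ x : I → Bool, f x * chi S (flip j x) := by
    rw [← Equiv.sum_comp (flipEquiv j) (fun x => f x * chi S (flip j x))]
    refine Finset.sum_congr rfl fun x _ => ?_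
    simp [flipEquiv, flip_flip]
  simp only [h]
  split_ifs with hj
  · simp_rw [chi_flip_of_mem hj]
    rw [← mul_neg, ← Finset.sum_neg_distrib]
    simp
  · simp_rw [chi_flip_of_notMem hj]

lemma coef_empty (f : (I → Bool) → ℝ) :
    coef f ∅ = ((2 : ℝ) ^ (Fintype.card I))⁻¹ * ∑ x : I → Bool, f x := by
  simp [coef, chi]

/-- Variance in Fourier terms. -/
lemma variance_eq (f : (I → Bool) → ℝ) :
    ((2 : ℝ) ^ (Fintype.card I))⁻¹ * ∑ x : I → Bool, f x ^ 2 -
      (((2 : ℝ) ^ (Fintype.card I))⁻¹ * ∑ x : I → Bool, f x) ^ 2 =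
      ∑ S ∈ (Finset.univ : Finset (Finset I)).filter (fun S => S.Nonempty), coef f S ^ 2 := by
  rw [← parseval_sq, ← coef_empty]
  have h := Finset.sum_filter_add_sum_filter_not (Finset.univ : Finset (Finset I))
    (fun S => S.Nonempty) (fun S => coef f S ^ 2)
  rw [← h]
  have h2 : ((Finset.univ : Finset (Finset I)).filter (fun S => ¬ S.Nonempty)) = {∅} := by
    ext S
    simp [Finset.not_nonempty_iff_eq_empty]
  rw [h2]
  simp

/-- Influence in Fourier terms. -/
lemma influence_eq (f : (I → Bool) → ℝ) (j : I) :
    ((2 : ℝ) ^ (Fintype.card I))⁻¹ * ∑ x : I → Bool,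
      ((f x - f (Function.update x j (!x j))) / 2) ^ 2 =
      ∑ S ∈ (Finset.univ : Finset (Finset I)).filter (fun S => j ∈ S), coef f S ^ 2 := by
  have h := parseval_sq (fun x => (f x - f (flip j x)) / 2)
  have h1 : ∀ S, coef (fun x => (f x - f (flip j x)) / 2) S =
      if j ∈ S then coef f S else 0 := by
    intro S
    have h2 : coef (fun x => (f x - f (flip j x)) / 2) S =
        (coef f S - coef (fun x => f (flip j x)) S) / 2 := by
      unfold coef
      rw [← mul_sub, ← Finset.sum_sub_distrib, mul_div_assoc, Finset.sum_div]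
      congr 1
      refine Finset.sum_congr rfl fun x _ => ?_
      ring
    rw [h2, coef_comp_flip]
    split_ifs <;> ring
  simp_rw [h1] at h
  simp only [flip] at h
  rw [← h, Finset.sum_filter]
  refine Finset.sum_congr rfl fun S _ => ?_
  split_ifs <;> simp

/-- Expectation on the cube. -/
noncomputable def ex (f : (I → Bool) → ℝ) : ℝ :=
  ((2 : ℝ) ^ (Fintype.card I))⁻¹ * ∑ x : I → Bool, f x

lemma ex_add (f g : (I → Bool) → ℝ) : ex (fun x => f x + g x) = ex f + ex g := by
  unfold ex; rw [Finset.sum_add_distrib, mul_add]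

lemma ex_sub (f g : (I → Bool) → ℝ) : ex (fun x => f x - g x) = ex f - ex g := by
  unfold ex; rw [Finset.sum_sub_distrib, mul_sub]

lemma ex_const_mul (c : ℝ) (f : (I → Bool) → ℝ) : ex (fun x => c * f x) = c * ex f := by
  unfold ex; rw [← Finset.mul_sum]; ring

lemma ex_mono {f g : (I → Bool) → ℝ} (h : ∀ x, f x ≤ g x) : ex f ≤ ex g := by
  unfold ex
  exact mul_le_mul_of_nonneg_left (Finset.sum_le_sum fun x _ => h x) (by positivity)

lemma ex_const (c : ℝ) : ex (fun _ : I → Bool => c) = c := by
  unfold ex
  rw [Finset.sum_const, Finset.card_univ, nsmul_eq_mul]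
  simp

lemma abs_ex_le (f : (I → Bool) → ℝ) : |ex f| ≤ ex (fun x => |f x|) := by
  unfold ex
  rw [abs_mul, abs_of_nonneg (by positivity : (0 : ℝ) ≤ ((2 : ℝ) ^ (Fintype.card I))⁻¹)]
  exact mul_le_mul_of_nonneg_left (Finset.abs_sum_le_sum_abs _ _) (by positivity)

lemma ex_flip (f : (I → Bool) → ℝ) (i : I) : ex (fun x => f (flip i x)) = ex f := by
  unfold ex
  rw [← Equiv.sum_comp (flipEquiv i) f]
  rfl

lemma flip_comm (i j : I) (x : I → Bool) : flip i (flip j x) = flip j (flip i x) := by
  funext k
  unfold flip
  by_cases hi : k = i <;> by_cases hj : k = j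
  · subst hi; subst hj; simp
  · subst hi; simp [hj]
  · subst hj; simp [hi]
  · simp [hi, hj]

lemma ex_ite {F G : (I → Bool) → ℝ} {i : I} (hF : ∀ x, F (flip i x) = F x)
    (hG : ∀ x, G (flip i x) = G x) :
    ex (fun x => if x i then G x else F x) = (ex F + ex G) / 2 := by
  have h1 := ex_flip (fun x => if x i then G x else F x) i
  have h2 : ∀ x : I → Bool, (if flip i x i then G (flip i x) else F (flip i x)) +
      (if x i then G x else F x) = F x + G x := by
    intro x
    have h3 : flip i x i = !x i := by simp [flip]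
    rw [h3, hF, hG]
    cases x i <;> simp [add_comm]
  have h4 : ex (fun x => (if flip i x i then G (flip i x) else F (flip i x)) +
      (if x i then G x else F x)) = ex F + ex G := by
    simp_rw [h2]
    exact ex_add F G
  rw [ex_add, h1] at h4
  linarith

/-- `Comp D g`: the function `g` is computed by a decision tree of depth at most `D`. -/
def Comp : ℕ → ((I → Bool) → ℝ) → Prop
  | 0, g => ∃ c, ∀ x, g x = c
  | D + 1, g => (∃ c, ∀ x, g x = c) ∨ ∃ (i : I) (g0 g1 : (I → Bool) → ℝ), Comp D g0 ∧ Comp D g1 ∧
      (∀ x, g0 (flip i x) = g0 x) ∧ (∀ x, g1 (flip i x) = g1 x) ∧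
      ∀ x, g x = if x i then g1 x else g0 x

lemma comp_const (D : ℕ) {g : (I → Bool) → ℝ} (h : ∃ c, ∀ x, g x = c) : Comp D g := by
  cases D with
  | zero => exact h
  | succ D => exact Or.inl h

lemma comp_mono {D D' : ℕ} (h : D ≤ D') {g : (I → Bool) → ℝ} (hg : Comp D g) : Comp D' g := by
  induction D generalizing D' g with
  | zero => exact comp_const D' hg
  | succ D ih =>
    cases D' with
    | zero => omega
    | succ D' =>
      rcases hg with hg | ⟨i, g0, g1, h0, h1, e0, e1, e⟩
      · exact Or.inl hg
      · exact Or.inr ⟨i, g0, g1, ih (by omega) h0, ih (by omega) h1, e0, e1, e⟩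

/-- **The two-function OSSS inequality.** -/
lemma osss {τ : ℝ} (hτ : 0 ≤ τ) (D : ℕ) : ∀ (f g : (I → Bool) → ℝ), Comp D g →
    (∀ x, |g x| ≤ 1) → (∀ i, ex (fun x => |f x - f (flip i x)|) ≤ τ) →
    |ex (fun x => f x * g x) - ex f * ex g| ≤ D * τ / 2 := by
  induction D with
  | zero =>
    intro f g hg hg1 hf
    obtain ⟨c, hc⟩ := hg
    have h1 : ex (fun x => f x * g x) = c * ex f := by
      rw [← ex_const_mul]
      congr 1
      funext x
      rw [hc x, mul_comm]
    have h2 : ex g = c := by
      have : g = fun _ => c := funext hc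
      rw [this, ex_const]
    rw [h1, h2]
    simp [mul_comm]
  | succ D ih =>
    intro f g hg hg1 hf
    rcases hg with ⟨c, hc⟩ | ⟨i, g0, g1, h0, h1, e0, e1, e⟩
    · have h1 : ex (fun x => f x * g x) = c * ex f := by
        rw [← ex_const_mul]
        congr 1
        funext x
        rw [hc x, mul_comm]
      have h2 : ex g = c := by
        have : g = fun _ => c := funext hc
        rw [this, ex_const]
      rw [h1, h2, mul_comm (ex f) c, sub_self, abs_zero]
      positivity
    set fb : (I → Bool) → ℝ := fun x => (f x + f (flip i x)) / 2 with hfb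
    have hfbflip : ∀ x, fb (flip i x) = fb x := by
      intro x
      simp only [hfb, flip_flip]
      ring
    have hexfb : ex fb = ex f := by
      have : fb = fun x => (1 / 2) * f x + (1 / 2) * f (flip i x) := by
        funext x; simp only [hfb]; ring
      rw [this, ex_add, ex_const_mul, ex_const_mul, ex_flip]
      ring
    have hfbinf : ∀ j, ex (fun x => |fb x - fb (flip j x)|) ≤ τ := by
      intro j
      have h2 : ex (fun x => |fb x - fb (flip j x)|) ≤
          ex (fun x => (1 / 2) * |f x - f (flip j x)| +
            (1 / 2) * |f (flip i x) - f (flip j (flip i x))|) := by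
        apply ex_mono
        intro x
        simp only [hfb]
        rw [flip_comm i j x]
        have h3 : (f x + f (flip i x)) / 2 - (f (flip j x) + f (flip j (flip i x))) / 2 =
            (1 / 2) * (f x - f (flip j x)) + (1 / 2) * (f (flip i x) - f (flip j (flip i x))) := by
          ring
        rw [h3]
        refine (abs_add_le _ _).trans ?_
        rw [abs_mul, abs_mul]
        norm_num
      refine h2.trans ?_
      rw [ex_add, ex_const_mul, ex_const_mul, ex_flip (fun x => |f x - f (flip j x)|) i]
      have := hf j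
      linarith
    have hg0 : ∀ x, |g0 x| ≤ 1 := by
      intro x
      cases hx : x i with
      | false =>
        have := hg1 x
        rw [e x, hx] at this
        simpa using this
      | true =>
        have := hg1 (flip i x)
        rw [e (flip i x), show flip i x i = false by simp [flip, hx], e0] at this
        simpa using this
    have hg1' : ∀ x, |g1 x| ≤ 1 := by
      intro x
      cases hx : x i with
      | true =>
        have := hg1 x
        rw [e x, hx] at this
        simpa using this
      | false =>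
        have := hg1 (flip i x)
        rw [e (flip i x), show flip i x i = true by simp [flip, hx], e1] at this
        simpa using this
    have c0 := ih fb g0 h0 hg0 hfbinf
    have c1 := ih fb g1 h1 hg1' hfbinf
    have hEg : ex g = (ex g0 + ex g1) / 2 := by
      have : g = fun x => if x i then g1 x else g0 x := funext e
      rw [this, ex_ite e0 e1]
    have hEfg : ex (fun x => fb x * g x) =
        (ex (fun x => fb x * g0 x) + ex (fun x => fb x * g1 x)) / 2 := by
      rw [← ex_ite (F := fun x => fb x * g0 x) (G := fun x => fb x * g1 x) (i := i)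
        (fun x => by rw [hfbflip, e0]) (fun x => by rw [hfbflip, e1])]
      congr 1
      funext x
      rw [e x]
      split_ifs <;> rfl
    have hdiff : ex (fun x => f x * g x) - ex f * ex g =
        ex (fun x => (f x - fb x) * g x) + ((ex (fun x => fb x * g0 x) - ex fb * ex g0) +
          (ex (fun x => fb x * g1 x) - ex fb * ex g1)) / 2 := by
      have h3 : ex (fun x => (f x - fb x) * g x) =
          ex (fun x => f x * g x) - ex (fun x => fb x * g x) := by
        rw [← ex_sub]
        congr 1
        funext x
        ring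
      rw [h3, hEfg, hEg, hexfb]
      ring
    have h4 : |ex (fun x => (f x - fb x) * g x)| ≤ τ / 2 := by
      refine (abs_ex_le _).trans ?_
      have h5 : ex (fun x => |(f x - fb x) * g x|) ≤
          ex (fun x => (1 / 2) * |f x - f (flip i x)|) := by
        apply ex_mono
        intro x
        rw [abs_mul]
        have h6 : f x - fb x = (1 / 2) * (f x - f (flip i x)) := by
          simp only [hfb]; ring
        rw [h6, abs_mul]
        calc |(1 / 2 : ℝ)| * |f x - f (flip i x)| * |g x|
            ≤ |(1 / 2 : ℝ)| * |f x - f (flip i x)| * 1 := by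
              gcongr
              exact hg1 x
          _ = (1 / 2) * |f x - f (flip i x)| := by norm_num
      refine h5.trans ?_
      rw [ex_const_mul]
      have := hf i
      linarith
    rw [hdiff]
    rw [abs_le] at c0 c1 h4 ⊢
    push_cast
    constructor <;> linarith [c0.1, c0.2, c1.1, c1.2, h4.1, h4.2]


end Pool.Agent.Lib_helper8.QAA
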