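import Mathlib

/-!
# Quantum query algorithms with bounded rounds of parallel queries (definitions)
-/

namespace Pool.Agent.Lib_helper8.QAA

/-- A quantum query algorithm on inputs `x : I → Bool` making `p` parallel queries per round.

* `A` labels the basis states of the workspace `ℂ^A`;
* in one round of queries the basis state `a` is multiplied by a number `phase a x` of modulus
  at most one which depends only on the at most `p` coordinates of `x` in the set `query a`
  (in particular this covers the phase oracle `|a⟩ ↦ ∏_{i ∈ query a} (-1)^{x_i} |a⟩`);
* between the rounds arbitrary input-independent linear contractions `step s` (in particular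
  arbitrary unitaries) are applied;
* the algorithm starts in the state `init` and accepts if the final measurement in the standard
  basis gives an element of `accept`. -/
structure Algorithm (I A : Type) [Fintype A] (p : ℕ) where
  /-- the coordinates looked at by a basis state -/
  query : A → Finset I
  /-- the factor by which the oracle multiplies a basis state -/
  phase : A → (I → Bool) → ℂ
  /-- the input-independent operations between the rounds -/
  step : ℕ → (EuclideanSpace ℂ A →L[ℂ] EuclideanSpace ℂ A)
  /-- the initial state -/
  init : EuclideanSpace ℂ A
  /-- the accepting basis states -/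
  accept : Finset A
  card_query_le : ∀ a, (query a).card ≤ p
  norm_phase_le : ∀ a x, ‖phase a x‖ ≤ 1
  phase_congr : ∀ a x y, (∀ i ∈ query a, x i = y i) → phase a x = phase a y
  norm_step_le : ∀ s φ, ‖step s φ‖ ≤ ‖φ‖
  norm_init_le : ‖init‖ ≤ 1

variable {I A : Type} [Fintype A] {p : ℕ}

/-- The oracle for the input `x`: the diagonal operator with entries `phase a x`. -/
noncomputable def Algorithm.oracle (Q : Algorithm I A p) (x : I → Bool)
    (φ : EuclideanSpace ℂ A) : EuclideanSpace ℂ A :=
  WithLp.toLp 2 fun a => Q.phase a x * φ a

/-- The state after `s` rounds on the input `x`. -/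
noncomputable def Algorithm.state (Q : Algorithm I A p) : ℕ → (I → Bool) → EuclideanSpace ℂ A
  | 0, _ => Q.init
  | s + 1, x => Q.step s (Q.oracle x (Q.state s x))

/-- The acceptance probability after `r` rounds on the input `x`. -/
noncomputable def Algorithm.prob (Q : Algorithm I A p) (r : ℕ) (x : I → Bool) : ℝ :=
  ∑ a ∈ Q.accept, ‖Q.state r x a‖ ^ 2

end Pool.Agent.Lib_helper8.QAA
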