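import Pool.Agent.Lib_helper8.QAAMain

/-!
# The Aaronson–Ambainis inequality for quantum algorithms with bounded rounds
-/

set_option autoImplicit false
set_option linter.unusedSectionVars false

open Finset

namespace Pool.Agent.Lib_helper8.QAA

variable {I A : Type} [Fintype I] [DecidableEq I] [Fintype A] {p : ℕ}

lemma aa_rounds (hp : 1 ≤ p) (R : ℕ) (Q : Algorithm I A p) {v : ℝ} (hv : 0 < v) (hv1 : v ≤ 1)
    (hvar : ex (fun x => Q.prob (R + 1) x ^ 2) - ex (Q.prob (R + 1)) ^ 2 = v) :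
    ∃ i, v ^ 6 / G R p ^ (8 * (R + 1)) ≤
      ex (fun x => ((Q.prob (R + 1) x - Q.prob (R + 1) (flip i x)) / 2) ^ 2) := by
  have hp' : (1 : ℝ) ≤ p := by exact_mod_cast hp
  set r : ℝ := (R : ℝ) + 1 with hr
  have hr1 : 1 ≤ r := by rw [hr]; linarith [(Nat.cast_nonneg R : (0 : ℝ) ≤ R)]
  have hr0 : 0 < r := by linarith
  have hp0 : (0 : ℝ) < p := by linarith
  have hGdef : G R p = 128 * r ^ 4 * p := rfl
  have hr4 : 1 ≤ r ^ 4 := one_le_pow₀ hr1
  have hG1 : 128 ≤ G R p := by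
    rw [hGdef]; nlinarith
  have hG0 : 0 < G R p := by linarith
  set Γ : ℝ := G R p ^ (4 * R + 1) with hΓ
  have hΓ1 : 1 ≤ Γ := one_le_pow₀ (by linarith)
  set l : ℝ := v / (64 * r ^ 2 * p) with hl
  have hr2 : 1 ≤ r ^ 2 := one_le_pow₀ hr1
  have hden : 1 ≤ 64 * r ^ 2 * p := by nlinarith
  have hl0 : 0 < l := by positivity
  have hl1 : l ≤ 1 := by
    rw [hl, div_le_one (by positivity)]
    linarith
  set θ : ℝ := l ^ 2 / (2 * Γ) with hθ
  have hΓ0 : 0 < Γ := by linarith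
  have hθ0 : 0 < θ := by positivity
  have hθ1 : θ ≤ 1 := by
    rw [hθ, div_le_one (by positivity)]
    have : l ^ 2 ≤ 1 := pow_le_one₀ hl0.le hl1
    linarith
  have h1 := main_approx hp R hθ0 hθ1 hl0 hl1 (R + 1) 0 (by omega) Q
  rw [Finset.range_zero, Finset.sum_empty, add_zero] at h1
  have h2 : 8 * ((R : ℝ) + 1) ^ 2 * p * l + 8 * ((R : ℝ) + 1) / l ^ (4 * R + 1) *
      ((1 + G R p ^ (4 * R + 1)) ^ (R + 1) * θ ^ (2 * R + 1)) ≤ v / 4 := by
    rw [← hr, ← hΓ]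
    have e1 : 8 * r ^ 2 * p * l = v / 8 := by
      rw [hl]; field_simp; norm_num
    have h3 : 8 * r / l ^ (4 * R + 1) * ((1 + Γ) ^ (R + 1) * θ ^ (2 * R + 1)) ≤ v / 8 := by
      have h4 : (1 + Γ) ^ (R + 1) ≤ (2 * Γ) ^ (2 * R + 1) := by
        calc (1 + Γ) ^ (R + 1) ≤ (2 * Γ) ^ (R + 1) := by
              gcongr; linarith
          _ ≤ (2 * Γ) ^ (2 * R + 1) := pow_le_pow_right₀ (by linarith) (by omega)
      calc 8 * r / l ^ (4 * R + 1) * ((1 + Γ) ^ (R + 1) * θ ^ (2 * R + 1))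
          ≤ 8 * r / l ^ (4 * R + 1) * ((2 * Γ) ^ (2 * R + 1) * θ ^ (2 * R + 1)) := by gcongr
        _ = 8 * r * l := by
            rw [← mul_pow, hθ, mul_div_cancel₀ _ (by positivity), ← pow_mul,
              show 2 * (2 * R + 1) = (4 * R + 1) + 1 by ring, pow_succ l (4 * R + 1)]
            field_simp
        _ ≤ v / 8 := by
            rw [hl, mul_div_assoc', div_le_div_iff₀ (by positivity) (by norm_num)]
            have h5 : r * 1 ≤ r * (r * p) := by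
              gcongr
              nlinarith
            nlinarith
    linarith
  have h3 := approx_mono h1 le_rfl h2
  set B : ℝ := v * θ / (2 * r * p) with hB
  have hB0 : 0 ≤ B := by positivity
  have hBK : B * (((R + 1) * ⌊(p : ℝ) / θ⌋₊ : ℕ) : ℝ) < v := by
    push_cast
    rw [← hr]
    have h4 : (⌊(p : ℝ) / θ⌋₊ : ℝ) ≤ p / θ := Nat.floor_le (by positivity)
    calc B * (r * (⌊(p : ℝ) / θ⌋₊ : ℝ)) ≤ B * (r * (p / θ)) := by gcongr
      _ = v / 2 := by rw [hB]; field_simp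
      _ < v := by linarith
  obtain ⟨i, hi⟩ := influence_of_approx hv hvar h3 hB0 hBK
  refine ⟨i, le_trans ?_ hi⟩
  have e2 : B ^ 2 / 4 = v ^ 6 / (2 ^ 30 * r ^ 10 * p ^ 6 * Γ ^ 2) := by
    rw [hB, hθ, hl]
    field_simp
    norm_num
  rw [e2]
  apply div_le_div_of_nonneg_left (by positivity) (by positivity)
  have e3 : G R p ^ (8 * (R + 1)) = G R p ^ 6 * Γ ^ 2 := by
    rw [hΓ, ← pow_mul, ← pow_add]
    congr 1
    ring
  rw [e3]
  gcongr
  rw [hGdef]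
  have h5 : r ^ 10 ≤ r ^ 24 := pow_le_pow_right₀ hr1 (by omega)
  calc 2 ^ 30 * r ^ 10 * (p : ℝ) ^ 6 ≤ 2 ^ 42 * r ^ 24 * (p : ℝ) ^ 6 := by
        gcongr <;> norm_num
    _ = (128 * r ^ 4 * p) ^ 6 := by ring

end Pool.Agent.Lib_helper8.QAA
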