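import Pool.Agent.Lib_helper8.QAACube

/-!
# Efron–Stein, restrictions and approximation by decision trees
-/

set_option autoImplicit false
set_option linter.unusedSectionVars false

open Finset

namespace Pool.Agent.Lib_helper8.QAA

variable {I : Type} [Fintype I] [DecidableEq I]

lemma ex_nonneg {f : (I → Bool) → ℝ} (h : ∀ x, 0 ≤ f x) : 0 ≤ ex f := by
  have := ex_mono (f := fun _ => 0) (g := f) h
  rwa [ex_const] at this

lemma ex_sum {α : Type} (s : Finset α) (f : α → (I → Bool) → ℝ) :
    ex (fun x => ∑ a ∈ s, f a x) = ∑ a ∈ s, ex (f a) := by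
  unfold ex
  rw [Finset.sum_comm, Finset.mul_sum]

/-- The Efron–Stein inequality. -/
lemma efron_stein (g : (I → Bool) → ℝ) :
    ex (fun x => g x ^ 2) - ex g ^ 2 ≤ ∑ i, ex (fun x => ((g x - g (flip i x)) / 2) ^ 2) := by
  have h1 := variance_eq g
  have h2 : ∀ i, ex (fun x => ((g x - g (flip i x)) / 2) ^ 2) =
      ∑ S ∈ (Finset.univ : Finset (Finset I)).filter (fun S => i ∈ S), coef g S ^ 2 :=
    fun i => influence_eq g i
  simp_rw [h2]
  unfold ex
  rw [h1]
  simp_rw [Finset.sum_filter]
  rw [Finset.sum_comm]
  refine Finset.sum_le_sum fun S _ => ?_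
  split_ifs with hS
  · obtain ⟨i, hi⟩ := hS
    have h3 : (if i ∈ S then coef g S ^ 2 else 0) ≤ ∑ j, if j ∈ S then coef g S ^ 2 else 0 := by
      apply Finset.single_le_sum (f := fun j => if j ∈ S then coef g S ^ 2 else 0)
      · intro j _
        positivity
      · exact Finset.mem_univ i
    rwa [if_pos hi] at h3
  · exact Finset.sum_nonneg fun j _ => by positivity

/-- `fill H y x` takes `y` on `H` and `x` off `H`. -/
def fill (H : Finset I) (y x : I → Bool) : I → Bool := fun i => if i ∈ H then y i else x i

lemma ex_fill (H : Finset I) (F : (I → Bool) → ℝ) :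
    ex (fun y => ex (fun x => F (fill H y x))) = ex F := by
  have e : (I → Bool) × (I → Bool) ≃ (I → Bool) × (I → Bool) :=
    Equiv.refl _
  let sw : (I → Bool) × (I → Bool) → (I → Bool) × (I → Bool) :=
    fun z => (fill H z.2 z.1, fill H z.1 z.2)
  have hsw : Function.Involutive sw := by
    rintro ⟨y, x⟩
    simp only [sw, Prod.mk.injEq]
    constructor <;> funext i <;> by_cases hi : i ∈ H <;> simp [fill, hi]
  have h1 : ∑ y : I → Bool, ∑ x : I → Bool, F (fill H y x) =
      ∑ _y : I → Bool, ∑ x : I → Bool, F x := by
    rw [← Fintype.sum_prod_type' (f := fun y x => F (fill H y x)),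
      ← Fintype.sum_prod_type' (f := fun (_ : I → Bool) x => F x)]
    exact Fintype.sum_bijective sw hsw.bijective _ _ (fun z => rfl)
  unfold ex
  rw [← Finset.mul_sum, h1, Finset.sum_const, Finset.card_univ, nsmul_eq_mul]
  have h2 : ((Fintype.card (I → Bool) : ℕ) : ℝ) = 2 ^ Fintype.card I := by simp
  rw [h2]
  field_simp

lemma fill_insert {H : Finset I} {i : I} (hi : i ∉ H) (y x : I → Bool) :
    fill (insert i H) y x = Function.update (fill H y x) i (y i) := by
  funext j
  by_cases hj : j = i
  · subst hj; simp [fill]
  · simp [fill, hj]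

lemma comp_update {K : ℕ} (i : I) (b : Bool) : ∀ {g : (I → Bool) → ℝ}, Comp K g →
    Comp K (fun x => g (Function.update x i b)) := by
  induction K with
  | zero =>
    intro g hg
    obtain ⟨c, hc⟩ := hg
    exact ⟨c, fun x => hc _⟩
  | succ K ih =>
    intro g hg
    rcases hg with ⟨c, hc⟩ | ⟨j, g0, g1, h0, h1, e0, e1, e⟩
    · exact Or.inl ⟨c, fun x => hc _⟩
    · by_cases hj : j = i
      · subst hj
        have : (fun x => g (Function.update x j b)) =
            if b then (fun x => g1 (Function.update x j b))
            else (fun x => g0 (Function.update x j b)) := by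
          cases b <;> funext x <;> simp [e]
        rw [this]
        cases b
        · simpa using comp_mono (Nat.le_succ K) (ih h0)
        · simpa using comp_mono (Nat.le_succ K) (ih h1)
      · refine Or.inr ⟨j, _, _, ih h0, ih h1, ?_, ?_, ?_⟩
        · intro x
          have : Function.update (flip j x) i b = flip j (Function.update x i b) := by
            funext k
            by_cases hk : k = i
            · subst hk; simp [flip, Ne.symm hj]
            · by_cases hk' : k = j
              · subst hk'; simp [flip, hj]
              · simp [flip, hk, hk']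
          rw [this, e0]
        · intro x
          have : Function.update (flip j x) i b = flip j (Function.update x i b) := by
            funext k
            by_cases hk : k = i
            · subst hk; simp [flip, Ne.symm hj]
            · by_cases hk' : k = j
              · subst hk'; simp [flip, hj]
              · simp [flip, hk, hk']
          rw [this, e1]
        · intro x
          show g (Function.update x i b) = _
          rw [e]
          simp [hj]

/-- `f` is approximated in mean square up to `ε` by a function with values in `[-1,1]`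
computed by a decision tree of depth at most `K`. -/
def Approx (K : ℕ) (ε : ℝ) (f : (I → Bool) → ℝ) : Prop :=
  ∃ g, Comp K g ∧ (∀ x, |g x| ≤ 1) ∧ ex (fun x => (f x - g x) ^ 2) ≤ ε

lemma approx_mono {K K' : ℕ} {ε ε' : ℝ} {f : (I → Bool) → ℝ} (h : Approx K ε f) (hK : K ≤ K')
    (hε : ε ≤ ε') : Approx K' ε' f := by
  obtain ⟨g, h1, h2, h3⟩ := h
  exact ⟨g, comp_mono hK h1, h2, h3.trans hε⟩

lemma approx_const {ε : ℝ} {f : (I → Bool) → ℝ} (hf : ∀ x, |f x| ≤ 1)
    (h : ex (fun x => f x ^ 2) - ex f ^ 2 ≤ ε) : Approx 0 ε f := by
  refine ⟨fun _ => ex f, ⟨ex f, fun _ => rfl⟩, fun _ => ?_, ?_⟩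
  · refine (abs_ex_le f).trans ?_
    have := ex_mono hf
    rwa [ex_const] at this
  · have h1 : ex (fun x => (f x - ex f) ^ 2) = ex (fun x => f x ^ 2) - ex f ^ 2 := by
      have h2 : (fun x => (f x - ex f) ^ 2) =
          fun x => (f x ^ 2 - (2 * ex f) * f x) + ex f ^ 2 := by
        funext x; ring
      rw [h2, ex_add, ex_sub, ex_const_mul, ex_const]
      ring
    rw [h1]
    exact h

/-- A function not depending on coordinate `i` is best approximated by such a function. -/
lemma approx_indep {K : ℕ} {ε : ℝ} {f : (I → Bool) → ℝ} (i : I) (hf : ∀ x, f (flip i x) = f x)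
    (h : Approx K ε f) : ∃ g, Comp K g ∧ (∀ x, |g x| ≤ 1) ∧ (∀ x, g (flip i x) = g x) ∧
      ex (fun x => (f x - g x) ^ 2) ≤ ε := by
  obtain ⟨g, h1, h2, h3⟩ := h
  have hu : ∀ (b : Bool) (x : I → Bool), Function.update (flip i x) i b = Function.update x i b := by
    intro b x
    simp [flip]
  have hfu : ∀ (b : Bool) (x : I → Bool), f (Function.update x i b) = f x := by
    intro b x
    by_cases hb : x i = b
    · subst hb; rw [Function.update_eq_self]
    · have : Function.update x i b = flip i x := by
        unfold flip
        congr 1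
        cases b <;> simpa using hb
      rw [this, hf]
  have key : ex (fun x => (f x - g x) ^ 2) =
      (ex (fun x => (f x - g (Function.update x i false)) ^ 2) +
        ex (fun x => (f x - g (Function.update x i true)) ^ 2)) / 2 := by
    rw [← ex_ite (i := i) (F := fun x => (f x - g (Function.update x i false)) ^ 2)
      (G := fun x => (f x - g (Function.update x i true)) ^ 2)
      (fun x => by rw [hu, hf]) (fun x => by rw [hu, hf])]
    congr 1
    funext x
    cases hx : x i with
    | true => rw [← hx, Function.update_eq_self]; simp [hx]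
    | false => rw [← hx, Function.update_eq_self]; simp [hx]
  rw [key] at h3
  rcases le_total (ex (fun x => (f x - g (Function.update x i false)) ^ 2))
    (ex (fun x => (f x - g (Function.update x i true)) ^ 2)) with hle | hle
  · refine ⟨_, comp_update i false h1, fun x => h2 _, fun x => by simp only [hu], ?_⟩
    linarith
  · refine ⟨_, comp_update i true h1, fun x => h2 _, fun x => by simp only [hu], ?_⟩
    linarith

lemma approx_node {K : ℕ} {ε0 ε1 : ℝ} {f : (I → Bool) → ℝ} (i : I)
    (h0 : Approx K ε0 (fun x => f (Function.update x i false)))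
    (h1 : Approx K ε1 (fun x => f (Function.update x i true))) :
    Approx (K + 1) ((ε0 + ε1) / 2) f := by
  have hu : ∀ (b : Bool) (x : I → Bool), Function.update (flip i x) i b = Function.update x i b := by
    intro b x
    simp [flip]
  obtain ⟨g0, a1, a2, a3, a4⟩ := approx_indep i (fun x => by simp only [hu]) h0
  obtain ⟨g1, b1, b2, b3, b4⟩ := approx_indep i (fun x => by simp only [hu]) h1
  refine ⟨fun x => if x i then g1 x else g0 x, Or.inr ⟨i, g0, g1, a1, b1, a3, b3, fun _ => rfl⟩,
    ?_, ?_⟩
  · intro x
    dsimp only
    split_ifs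
    · exact b2 x
    · exact a2 x
  · have key : ex (fun x => (f x - (if x i then g1 x else g0 x)) ^ 2) =
        (ex (fun x => (f (Function.update x i false) - g0 x) ^ 2) +
          ex (fun x => (f (Function.update x i true) - g1 x) ^ 2)) / 2 := by
      rw [← ex_ite (i := i) (F := fun x => (f (Function.update x i false) - g0 x) ^ 2)
        (G := fun x => (f (Function.update x i true) - g1 x) ^ 2)
        (fun x => by rw [hu, a3]) (fun x => by rw [hu, b3])]
      congr 1
      funext x
      cases hx : x i with
      | true => rw [← hx, Function.update_eq_self]; simp [hx]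
      | false => rw [← hx, Function.update_eq_self]; simp [hx]
    rw [key]
    linarith

lemma approx_fill {K : ℕ} (H : Finset I) : ∀ (f : (I → Bool) → ℝ) (ε : (I → Bool) → ℝ),
    (∀ y, Approx K (ε y) (fun x => f (fill H y x))) → Approx (K + H.card) (ex ε) f := by
  induction H using Finset.induction_on with
  | empty =>
    intro f ε h
    have h1 : ∀ y, (fun x => f (fill (∅ : Finset I) y x)) = f := by
      intro y
      funext x
      congr 1
    have h2 : ∀ y, Approx K (ε y) f := by
      intro y
      have := h y
      rwa [h1] at this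
    -- choose the best y
    obtain ⟨y, -, hy⟩ := Finset.exists_min_image (Finset.univ : Finset (I → Bool)) ε
      ⟨fun _ => false, Finset.mem_univ _⟩
    refine approx_mono (h2 y) (by simp) ?_
    have := ex_mono (f := fun _ => ε y) (g := ε) (fun x => hy x (Finset.mem_univ x))
    rwa [ex_const] at this
  | insert i H hi ih =>
    intro f ε h
    rw [Finset.card_insert_of_notMem hi, ← add_assoc]
    have hb : ∀ b : Bool, Approx (K + H.card) (ex (fun y => ε (Function.update y i b)))
        (fun x => f (Function.update x i b)) := by
      intro b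
      apply ih
      intro y
      have h1 := h (Function.update y i b)
      have h2 : (fun x => f (fill (insert i H) (Function.update y i b) x)) =
          fun x => f (Function.update (fill H y x) i b) := by
        funext x
        rw [fill_insert hi]
        simp only [Function.update_self]
        congr 1
        funext j
        by_cases hj : j = i
        · subst hj; simp
        · simp [hj, fill]
      rwa [h2] at h1
    have h3 := approx_node i (hb false) (hb true)
    have h4 : (ex (fun y => ε (Function.update y i false)) +
        ex (fun y => ε (Function.update y i true))) / 2 = ex ε := by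
      rw [← ex_ite (i := i) (F := fun y => ε (Function.update y i false))
        (G := fun y => ε (Function.update y i true)) (fun x => by simp [flip])
        (fun x => by simp [flip])]
      congr 1
      funext x
      cases hx : x i with
      | true => rw [← hx, Function.update_eq_self]; simp [hx]
      | false => rw [← hx, Function.update_eq_self]; simp [hx]
    rwa [h4] at h3

lemma ex_cauchy (f g : (I → Bool) → ℝ) :
    ex (fun x => f x * g x) ^ 2 ≤ ex (fun x => f x ^ 2) * ex (fun x => g x ^ 2) := by
  unfold ex
  rw [mul_pow, sq (((2 : ℝ) ^ Fintype.card I)⁻¹), mul_mul_mul_comm]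
  exact mul_le_mul_of_nonneg_left (Finset.sum_mul_sq_le_sq_mul_sq _ _ _) (by positivity)

/-- If `f` is well approximated by a shallow decision tree then it has an influential variable. -/
lemma influence_of_approx {K : ℕ} {f : (I → Bool) → ℝ} {v : ℝ} (hv : 0 < v)
    (hvar : ex (fun x => f x ^ 2) - ex f ^ 2 = v) (h : Approx K (v / 4) f) {B : ℝ}
    (hB0 : 0 ≤ B) (hB : B * K < v) :
    ∃ i, B ^ 2 / 4 ≤ ex (fun x => ((f x - f (flip i x)) / 2) ^ 2) := by
  obtain ⟨g, h1, h2, h3⟩ := h
  by_contra hcon
  push Not at hcon
  have hτ : ∀ i, ex (fun x => |f x - f (flip i x)|) ≤ B := by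
    intro i
    have h4 := ex_cauchy (fun x => |f x - f (flip i x)|) (fun _ => (1 : ℝ))
    simp only [mul_one, sq_abs, one_pow, ex_const] at h4
    have h5 : ex (fun x => ((f x - f (flip i x)) / 2) ^ 2) =
        (1 / 4) * ex (fun x => (f x - f (flip i x)) ^ 2) := by
      rw [← ex_const_mul]
      congr 1
      funext x
      ring
    have h6 := hcon i
    rw [h5] at h6
    have h7 : ex (fun x => |f x - f (flip i x)|) ^ 2 ≤ B ^ 2 := by linarith
    exact abs_le_of_sq_le_sq' h7 hB0 |>.2
  have h4 := osss hB0 K f g h1 h2 hτ
  -- covariance of f and f - g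
  set c := ex f with hc
  have h5 : ex (fun x => (f x - c) ^ 2) = v := by
    have h2 : (fun x => (f x - c) ^ 2) = fun x => (f x ^ 2 - (2 * c) * f x) + c ^ 2 := by
      funext x; ring
    rw [h2, ex_add, ex_sub, ex_const_mul, ex_const, ← hc]
    linarith
  have h6 := ex_cauchy (fun x => f x - c) (fun x => f x - g x)
  rw [h5] at h6
  have h7 : ex (fun x => (f x - c) * (f x - g x)) = v - (ex (fun x => f x * g x) - c * ex g) := by
    have h8 : (fun x => (f x - c) * (f x - g x)) =
        fun x => (f x ^ 2 - c * f x) - (f x * g x - c * g x) := by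
      funext x; ring
    rw [h8, ex_sub, ex_sub, ex_sub, ex_const_mul, ex_const_mul, ← hc]
    linarith
  rw [h7] at h6
  have h8 : (v - (ex (fun x => f x * g x) - c * ex g)) ^ 2 ≤ (v / 2) ^ 2 := by
    calc _ ≤ v * ex (fun x => (f x - g x) ^ 2) := h6
      _ ≤ v * (v / 4) := by gcongr
      _ = (v / 2) ^ 2 := by ring
  have h9 := abs_le_of_sq_le_sq' h8 (by linarith) |>.2
  have h10 := (abs_le.1 h4).2
  linarith [mul_comm (K : ℝ) B]

end Pool.Agent.Lib_helper8.QAA
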