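import Pool.Agent.Lib_helper8.QAADefs
import Pool.Agent.Lib_helper8.QAATree

/-!
# The hybrid argument
-/

set_option autoImplicit false
set_option linter.unusedSectionVars false

open Finset
open scoped InnerProductSpace

namespace Pool.Agent.Lib_helper8.QAA

variable {I A : Type} [Fintype I] [DecidableEq I] [Fintype A] {p : ℕ}

/-- The squared norm of the projection of `φ` to the basis states in `T`. -/
noncomputable def pm (T : Finset A) (φ : EuclideanSpace ℂ A) : ℝ := ∑ a ∈ T, ‖φ a‖ ^ 2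

/-- The basis states which look at coordinate `i`. -/
noncomputable def Algorithm.look (Q : Algorithm I A p) (i : I) : Finset A :=
  Finset.univ.filter fun a => i ∈ Q.query a

lemma pm_nonneg (T : Finset A) (φ : EuclideanSpace ℂ A) : 0 ≤ pm T φ :=
  Finset.sum_nonneg fun _ _ => by positivity

lemma norm_sq_eq (φ : EuclideanSpace ℂ A) : ‖φ‖ ^ 2 = ∑ a, ‖φ a‖ ^ 2 := by
  rw [EuclideanSpace.norm_eq, Real.sq_sqrt (Finset.sum_nonneg fun _ _ => by positivity)]

lemma pm_le (T : Finset A) (φ : EuclideanSpace ℂ A) : pm T φ ≤ ‖φ‖ ^ 2 := by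
  rw [norm_sq_eq]
  exact Finset.sum_le_sum_of_subset_of_nonneg (Finset.subset_univ _) fun _ _ _ => by positivity

lemma sum_pm_look (Q : Algorithm I A p) (φ : EuclideanSpace ℂ A) :
    ∑ i, pm (Q.look i) φ ≤ p * ‖φ‖ ^ 2 := by
  unfold pm Algorithm.look
  simp_rw [Finset.sum_filter]
  rw [Finset.sum_comm, norm_sq_eq, Finset.mul_sum]
  refine Finset.sum_le_sum fun a _ => ?_
  rw [← Finset.sum_filter, Finset.sum_const, nsmul_eq_mul]
  have h1 : (Finset.univ.filter fun i => i ∈ Q.query a) = Q.query a := by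
    ext i; simp
  rw [h1]
  have h2 : ((Q.query a).card : ℝ) ≤ p := by exact_mod_cast Q.card_query_le a
  exact mul_le_mul_of_nonneg_right h2 (by positivity)

/-- The projection to the basis states in `T`. -/
noncomputable def proj (T : Finset A) (φ : EuclideanSpace ℂ A) : EuclideanSpace ℂ A := by
  classical exact WithLp.toLp 2 fun a => if a ∈ T then φ a else 0

lemma norm_proj_sq (T : Finset A) (φ : EuclideanSpace ℂ A) : ‖proj T φ‖ ^ 2 = pm T φ := by
  classical
  rw [norm_sq_eq]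
  unfold proj pm
  rw [← Finset.sum_subset (Finset.subset_univ T)]
  · refine Finset.sum_congr rfl fun a ha => ?_
    simp [ha]
  · intro a _ ha
    simp [ha]

lemma inner_eq (u φ : EuclideanSpace ℂ A) :
    ⟪u, φ⟫_ℂ = ∑ a, (starRingEnd ℂ) (u a) * φ a := by
  rw [PiLp.inner_apply]
  refine Finset.sum_congr rfl fun a _ => ?_
  simp [mul_comm]

lemma pm_sub_le (T : Finset A) (φ φ' : EuclideanSpace ℂ A) :
    pm T φ - pm T φ' ≤ 2 * ‖⟪proj T φ, φ - φ'⟫_ℂ‖ := by
  classical
  have h1 : ⟪proj T φ, φ - φ'⟫_ℂ = ∑ a ∈ T, (starRingEnd ℂ) (φ a) * (φ a - φ' a) := by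
    rw [inner_eq, ← Finset.sum_subset (Finset.subset_univ T)]
    · refine Finset.sum_congr rfl fun a ha => ?_
      simp [proj, ha]
    · intro a _ ha
      simp [proj, ha]
  have h2 : pm T φ - pm T φ' ≤ 2 * (⟪proj T φ, φ - φ'⟫_ℂ).re := by
    rw [h1, Complex.re_sum, Finset.mul_sum]
    unfold pm
    rw [← Finset.sum_sub_distrib]
    refine Finset.sum_le_sum fun a _ => ?_
    rw [← Complex.normSq_eq_norm_sq, ← Complex.normSq_eq_norm_sq, Complex.normSq_apply,
      Complex.normSq_apply]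
    simp only [Complex.mul_re, Complex.conj_re, Complex.conj_im, Complex.sub_re, Complex.sub_im]
    nlinarith [sq_nonneg ((φ a).re - (φ' a).re), sq_nonneg ((φ a).im - (φ' a).im)]
  refine h2.trans ?_
  have := Complex.re_le_norm (⟪proj T φ, φ - φ'⟫_ℂ)
  linarith

/-- The adjoint of the oracle. -/
noncomputable def Algorithm.coracle (Q : Algorithm I A p) (x : I → Bool)
    (φ : EuclideanSpace ℂ A) : EuclideanSpace ℂ A :=
  WithLp.toLp 2 fun a => (starRingEnd ℂ) (Q.phase a x) * φ a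

lemma inner_oracle (Q : Algorithm I A p) (x : I → Bool) (u φ : EuclideanSpace ℂ A) :
    ⟪u, Q.oracle x φ⟫_ℂ = ⟪Q.coracle x u, φ⟫_ℂ := by
  rw [inner_eq, inner_eq]
  refine Finset.sum_congr rfl fun a _ => ?_
  simp only [Algorithm.oracle, Algorithm.coracle, map_mul, Complex.conj_conj]
  ring

lemma norm_oracle_le (Q : Algorithm I A p) (x : I → Bool) (φ : EuclideanSpace ℂ A) :
    ‖Q.oracle x φ‖ ≤ ‖φ‖ := by
  have h : ‖Q.oracle x φ‖ ^ 2 ≤ ‖φ‖ ^ 2 := by
    rw [norm_sq_eq, norm_sq_eq]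
    refine Finset.sum_le_sum fun a _ => ?_
    simp only [Algorithm.oracle, norm_mul]
    have := Q.norm_phase_le a x
    gcongr
    calc ‖Q.phase a x‖ * ‖φ a‖ ≤ 1 * ‖φ a‖ := by gcongr
      _ = ‖φ a‖ := one_mul _
  exact (abs_le_of_sq_le_sq' h (norm_nonneg _)).2

lemma norm_coracle_le (Q : Algorithm I A p) (x : I → Bool) (φ : EuclideanSpace ℂ A) :
    ‖Q.coracle x φ‖ ≤ ‖φ‖ := by
  have h : ‖Q.coracle x φ‖ ^ 2 ≤ ‖φ‖ ^ 2 := by
    rw [norm_sq_eq, norm_sq_eq]
    refine Finset.sum_le_sum fun a _ => ?_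
    simp only [Algorithm.coracle, norm_mul, RCLike.norm_conj]
    have := Q.norm_phase_le a x
    gcongr
    calc ‖Q.phase a x‖ * ‖φ a‖ ≤ 1 * ‖φ a‖ := by gcongr
      _ = ‖φ a‖ := one_mul _
  exact (abs_le_of_sq_le_sq' h (norm_nonneg _)).2

lemma norm_state_le (Q : Algorithm I A p) (s : ℕ) (x : I → Bool) : ‖Q.state s x‖ ≤ 1 := by
  induction s with
  | zero => exact Q.norm_init_le
  | succ s ih => exact (Q.norm_step_le _ _).trans ((norm_oracle_le Q x _).trans ih)

lemma norm_adjoint_step_le (Q : Algorithm I A p) (s : ℕ) (u : EuclideanSpace ℂ A) :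
    ‖ContinuousLinearMap.adjoint (Q.step s) u‖ ≤ ‖u‖ := by
  have h1 : ‖Q.step s‖ ≤ 1 :=
    ContinuousLinearMap.opNorm_le_bound _ zero_le_one fun φ => by
      simpa using Q.norm_step_le s φ
  calc ‖ContinuousLinearMap.adjoint (Q.step s) u‖
      ≤ ‖ContinuousLinearMap.adjoint (Q.step s)‖ * ‖u‖ := ContinuousLinearMap.le_opNorm _ _
    _ = ‖Q.step s‖ * ‖u‖ := by rw [LinearIsometryEquiv.norm_map]
    _ ≤ 1 * ‖u‖ := by gcongr
    _ = ‖u‖ := one_mul _

/-- The two oracles differ only on the basis states which look at the flipped coordinate. -/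
lemma inner_oracle_sub (Q : Algorithm I A p) (i : I) (x : I → Bool) (w φ : EuclideanSpace ℂ A) :
    ‖⟪w, Q.oracle x φ - Q.oracle (flip i x) φ⟫_ℂ‖ ≤
      2 * (√(pm (Q.look i) w) * √(pm (Q.look i) φ)) := by
  have h1 : ⟪w, Q.oracle x φ - Q.oracle (flip i x) φ⟫_ℂ =
      ∑ a ∈ Q.look i, (starRingEnd ℂ) (w a) * ((Q.phase a x - Q.phase a (flip i x)) * φ a) := by
    rw [inner_eq, ← Finset.sum_subset (Finset.subset_univ (Q.look i))]
    · refine Finset.sum_congr rfl fun a _ => ?_
      simp only [Algorithm.oracle, PiLp.sub_apply]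
      ring
    · intro a _ ha
      have h2 : Q.phase a x = Q.phase a (flip i x) := by
        apply Q.phase_congr
        intro j hj
        rw [flip_apply_of_ne]
        rintro rfl
        exact ha (by simp [Algorithm.look, hj])
      simp only [Algorithm.oracle, PiLp.sub_apply]
      rw [h2]
      ring
  rw [h1]
  calc ‖∑ a ∈ Q.look i, (starRingEnd ℂ) (w a) * ((Q.phase a x - Q.phase a (flip i x)) * φ a)‖
      ≤ ∑ a ∈ Q.look i, ‖w a‖ * (2 * ‖φ a‖) := by
        refine norm_sum_le_of_le _ fun a _ => ?_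
        rw [norm_mul, norm_mul, RCLike.norm_conj]
        gcongr
        refine (norm_sub_le _ _).trans ?_
        linarith [Q.norm_phase_le a x, Q.norm_phase_le a (flip i x)]
    _ = 2 * ∑ a ∈ Q.look i, ‖w a‖ * ‖φ a‖ := by
        rw [Finset.mul_sum]
        refine Finset.sum_congr rfl fun a _ => ?_
        ring
    _ ≤ 2 * (√(pm (Q.look i) w) * √(pm (Q.look i) φ)) := by
        gcongr
        exact Real.sum_mul_le_sqrt_mul_sqrt _ _ _

/-- **The hybrid argument.** -/
lemma hybrid (Q : Algorithm I A p) (x : I → Bool) (t : ℕ) : ∀ u : EuclideanSpace ℂ A,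
    ∃ v : ℕ → EuclideanSpace ℂ A, (∀ s, ‖v s‖ ≤ ‖u‖) ∧ ∀ i,
      ‖⟪u, Q.state t x - Q.state t (flip i x)⟫_ℂ‖ ≤ ∑ s ∈ Finset.range t,
        2 * (√(pm (Q.look i) (v s)) * √(pm (Q.look i) (Q.state s (flip i x)))) := by
  induction t with
  | zero =>
    intro u
    refine ⟨fun _ => u, fun _ => le_rfl, fun i => ?_⟩
    simp [Algorithm.state]
  | succ t ih =>
    intro u
    set w := ContinuousLinearMap.adjoint (Q.step t) u with hw
    have hwu : ‖w‖ ≤ ‖u‖ := norm_adjoint_step_le Q t u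
    obtain ⟨v, hv1, hv2⟩ := ih (Q.coracle x w)
    refine ⟨fun s => if s = t then w else v s, fun s => ?_, fun i => ?_⟩
    · dsimp only
      split_ifs
      · exact hwu
      · exact (hv1 s).trans ((norm_coracle_le Q x w).trans hwu)
    · dsimp only
      rw [Finset.sum_range_succ, if_pos rfl]
      have h1 : ∑ s ∈ Finset.range t,
          2 * (√(pm (Q.look i) (if s = t then w else v s)) *
            √(pm (Q.look i) (Q.state s (flip i x)))) =
          ∑ s ∈ Finset.range t,
          2 * (√(pm (Q.look i) (v s)) * √(pm (Q.look i) (Q.state s (flip i x)))) := by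
        refine Finset.sum_congr rfl fun s hs => ?_
        rw [if_neg (Finset.mem_range.1 hs).ne]
      rw [h1]
      have h2 : ⟪u, Q.state (t + 1) x - Q.state (t + 1) (flip i x)⟫_ℂ =
          ⟪Q.coracle x w, Q.state t x - Q.state t (flip i x)⟫_ℂ +
          ⟪w, Q.oracle x (Q.state t (flip i x)) - Q.oracle (flip i x) (Q.state t (flip i x))⟫_ℂ := by
        rw [← inner_oracle]
        simp only [Algorithm.state]
        rw [← map_sub, ← ContinuousLinearMap.adjoint_inner_left, ← hw, ← inner_add_right]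
        congr 1
        ext a
        simp only [Algorithm.oracle, PiLp.sub_apply, PiLp.add_apply]
        ring
      rw [h2]
      refine (norm_add_le _ _).trans (add_le_add (hv2 i) ?_)
      exact inner_oracle_sub Q i x w _

/-- The squared form of the hybrid argument for projections of the state. -/
lemma hybrid_sq (Q : Algorithm I A p) (T : Finset A) (t : ℕ) (x : I → Bool) :
    ∃ c : ℕ → I → ℝ, (∀ s i, 0 ≤ c s i) ∧ (∀ s i, c s i ≤ pm T (Q.state t x)) ∧
      (∀ s, ∑ i, c s i ≤ p * pm T (Q.state t x)) ∧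
      ∀ i, ‖⟪proj T (Q.state t x), Q.state t x - Q.state t (flip i x)⟫_ℂ‖ ^ 2 ≤
        4 * t * ∑ s ∈ Finset.range t, c s i * pm (Q.look i) (Q.state s (flip i x)) := by
  obtain ⟨v, hv1, hv2⟩ := hybrid Q x t (proj T (Q.state t x))
  have hv3 : ∀ s, ‖v s‖ ^ 2 ≤ pm T (Q.state t x) := by
    intro s
    rw [← norm_proj_sq]
    have := hv1 s
    gcongr
  refine ⟨fun s i => pm (Q.look i) (v s), fun s i => pm_nonneg _ _,
    fun s i => (pm_le _ _).trans (hv3 s),
    fun s => (sum_pm_look Q (v s)).trans (mul_le_mul_of_nonneg_left (hv3 s) (by positivity)),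
    fun i => ?_⟩
  calc ‖⟪proj T (Q.state t x), Q.state t x - Q.state t (flip i x)⟫_ℂ‖ ^ 2
      ≤ (∑ s ∈ Finset.range t,
          2 * (√(pm (Q.look i) (v s)) * √(pm (Q.look i) (Q.state s (flip i x))))) ^ 2 := by
        have := hv2 i
        gcongr
    _ ≤ ((Finset.range t).card : ℝ) * ∑ s ∈ Finset.range t,
          (2 * (√(pm (Q.look i) (v s)) * √(pm (Q.look i) (Q.state s (flip i x))))) ^ 2 :=
        sq_sum_le_card_mul_sum_sq
    _ = 4 * t * ∑ s ∈ Finset.range t,
          pm (Q.look i) (v s) * pm (Q.look i) (Q.state s (flip i x)) := by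
        rw [Finset.card_range, Finset.mul_sum, Finset.mul_sum]
        refine Finset.sum_congr rfl fun s _ => ?_
        rw [mul_pow, mul_pow, Real.sq_sqrt (pm_nonneg _ _), Real.sq_sqrt (pm_nonneg _ _)]
        ring

end Pool.Agent.Lib_helper8.QAA
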