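import Pool.Agent.Lib_helper8.QAAHybrid

/-!
# Moments of the query magnitudes
-/

set_option autoImplicit false
set_option linter.unusedSectionVars false

open Finset
open scoped InnerProductSpace

namespace Pool.Agent.Lib_helper8.QAA

variable {I A : Type} [Fintype I] [DecidableEq I] [Fintype A] {p : ℕ}

lemma pow_diff {h h' : ℝ} (h0 : 0 ≤ h') (hh : h' ≤ h) (k : ℕ) :
    h ^ (k + 1) - h' ^ (k + 1) ≤ (k + 1) * h ^ k * (h - h') := by
  induction k with
  | zero => simp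
  | succ k ih =>
    have h1 : h' ^ (k + 1) ≤ h ^ (k + 1) := by gcongr
    have h2 : 0 ≤ h := h0.trans hh
    have h3 := mul_le_mul_of_nonneg_left ih h2
    have h4 := mul_le_mul_of_nonneg_right h1 (sub_nonneg.2 hh)
    have e1 : h ^ (k + 1 + 1) - h' ^ (k + 1 + 1) =
      h * (h ^ (k + 1) - h' ^ (k + 1)) + h' ^ (k + 1) * (h - h') := by ring
    rw [e1]
    push_cast
    have e2 : ((k : ℝ) + 1 + 1) * h ^ (k + 1) * (h - h') =
      h * ((k + 1) * h ^ k * (h - h')) + h ^ (k + 1) * (h - h') := by ring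
    rw [e2]
    linarith

lemma pow_diff_sq {h h' w w' : ℝ} (h0 : 0 ≤ h) (h0' : 0 ≤ h') (_ : 0 ≤ w) (_ : 0 ≤ w')
    (h1 : h - h' ≤ 2 * w) (h2 : h' - h ≤ 2 * w') (k : ℕ) :
    (h ^ (k + 1) - h' ^ (k + 1)) ^ 2 ≤
      4 * ((k : ℝ) + 1) ^ 2 * (h ^ (2 * k) * w ^ 2 + h' ^ (2 * k) * w' ^ 2) := by
  rcases le_total h' h with hle | hle
  · have h3 : h ^ (k + 1) - h' ^ (k + 1) ≤ (k + 1) * h ^ k * (2 * w) :=
      (pow_diff h0' hle k).trans (mul_le_mul_of_nonneg_left h1 (by positivity))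
    have h4 : 0 ≤ h ^ (k + 1) - h' ^ (k + 1) := sub_nonneg.2 (by gcongr)
    have h5 : (h ^ (k + 1) - h' ^ (k + 1)) ^ 2 ≤ ((k + 1) * h ^ k * (2 * w)) ^ 2 := by gcongr
    have h6 : 0 ≤ 4 * ((k : ℝ) + 1) ^ 2 * (h' ^ (2 * k) * w' ^ 2) := by positivity
    have e : ((k + 1) * h ^ k * (2 * w)) ^ 2 = 4 * ((k : ℝ) + 1) ^ 2 * (h ^ (2 * k) * w ^ 2) := by
      rw [mul_comm 2 k, pow_mul]; ring
    rw [e] at h5
    linarith
  · have h3 : h' ^ (k + 1) - h ^ (k + 1) ≤ (k + 1) * h' ^ k * (2 * w') :=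
      (pow_diff h0 hle k).trans (mul_le_mul_of_nonneg_left h2 (by positivity))
    have h4 : 0 ≤ h' ^ (k + 1) - h ^ (k + 1) := sub_nonneg.2 (by gcongr)
    have h5 : (h' ^ (k + 1) - h ^ (k + 1)) ^ 2 ≤ ((k + 1) * h' ^ k * (2 * w')) ^ 2 := by gcongr
    have h6 : 0 ≤ 4 * ((k : ℝ) + 1) ^ 2 * (h ^ (2 * k) * w ^ 2) := by positivity
    have e : ((k + 1) * h' ^ k * (2 * w')) ^ 2 =
        4 * ((k : ℝ) + 1) ^ 2 * (h' ^ (2 * k) * w' ^ 2) := by
      rw [mul_comm 2 k, pow_mul]; ring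
    rw [e] at h5
    have e2 : (h ^ (k + 1) - h' ^ (k + 1)) ^ 2 = (h' ^ (k + 1) - h ^ (k + 1)) ^ 2 := by ring
    rw [e2]
    linarith

/-- The squared change of the amplitude in direction of the projected state. -/
noncomputable def Algorithm.W (Q : Algorithm I A p) (T : Finset A) (t : ℕ) (i : I)
    (x : I → Bool) : ℝ :=
  ‖⟪proj T (Q.state t x), Q.state t x - Q.state t (flip i x)⟫_ℂ‖ ^ 2

lemma variance_pow (Q : Algorithm I A p) (T : Finset A) (t k : ℕ) :
    ex (fun x => (pm T (Q.state t x) ^ (k + 1)) ^ 2) -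
      ex (fun x => pm T (Q.state t x) ^ (k + 1)) ^ 2 ≤
    2 * ((k : ℝ) + 1) ^ 2 * ex (fun x => pm T (Q.state t x) ^ (2 * k) * ∑ i, Q.W T t i x) := by
  refine (efron_stein _).trans ?_
  have h1 : ∀ i, ex (fun x => ((pm T (Q.state t x) ^ (k + 1) -
      pm T (Q.state t (flip i x)) ^ (k + 1)) / 2) ^ 2) ≤
      2 * ((k : ℝ) + 1) ^ 2 * ex (fun x => pm T (Q.state t x) ^ (2 * k) * Q.W T t i x) := by
    intro i
    have h2 : ex (fun x => ((pm T (Q.state t x) ^ (k + 1) -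
        pm T (Q.state t (flip i x)) ^ (k + 1)) / 2) ^ 2) ≤
        ex (fun x => ((k : ℝ) + 1) ^ 2 * (pm T (Q.state t x) ^ (2 * k) * Q.W T t i x) +
          ((k : ℝ) + 1) ^ 2 *
            (pm T (Q.state t (flip i x)) ^ (2 * k) * Q.W T t i (flip i x))) := by
      apply ex_mono
      intro x
      have h3 := pow_diff_sq (pm_nonneg T (Q.state t x)) (pm_nonneg T (Q.state t (flip i x)))
        (norm_nonneg _) (norm_nonneg _) (pm_sub_le T (Q.state t x) (Q.state t (flip i x)))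
        (pm_sub_le T (Q.state t (flip i x)) (Q.state t x)) k
      unfold Algorithm.W
      rw [flip_flip]
      rw [div_pow]
      linarith
    refine h2.trans ?_
    rw [ex_add, ex_const_mul, ex_const_mul,
      ex_flip (fun x => pm T (Q.state t x) ^ (2 * k) * Q.W T t i x) i]
    linarith
  refine (Finset.sum_le_sum fun i _ => h1 i).trans ?_
  rw [← Finset.mul_sum]
  apply mul_le_mul_of_nonneg_left _ (by positivity)
  simp_rw [Finset.mul_sum]
  rw [ex_sum]

lemma young {a y D : ℝ} (ha : 0 ≤ a) (hy : 0 ≤ y) (hD : 0 < D) (n : ℕ) :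
    a ^ n * y ≤ a ^ (n + 1) / D + D ^ n * y ^ (n + 1) := by
  rcases le_total (D * y) a with h | h
  · have h1 : a ^ n * y ≤ a ^ (n + 1) / D := by
      rw [le_div_iff₀ hD, pow_succ, mul_assoc]
      apply mul_le_mul_of_nonneg_left _ (by positivity)
      linarith
    have h2 : 0 ≤ D ^ n * y ^ (n + 1) := by positivity
    linarith
  · have h1 : a ^ n * y ≤ D ^ n * y ^ (n + 1) := by
      calc a ^ n * y ≤ (D * y) ^ n * y := by gcongr
        _ = D ^ n * y ^ (n + 1) := by ring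
    have h2 : 0 ≤ a ^ (n + 1) / D := by positivity
    linarith

lemma young' {y l : ℝ} (hy : 0 ≤ y) (hl : 0 < l) (n : ℕ) : y ≤ l + y ^ (n + 1) / l ^ n := by
  rcases le_total y l with h | h
  · have : 0 ≤ y ^ (n + 1) / l ^ n := by positivity
    linarith
  · have : y ≤ y ^ (n + 1) / l ^ n := by
      rw [le_div_iff₀ (by positivity), pow_succ, mul_comm]
      gcongr
    linarith

/-- The pointwise bound for the total change. -/
lemma pointwise_sum_W (Q : Algorithm I A p) (T : Finset A) (t k : ℕ) {D : ℝ} (hD : 0 < D)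
    (x : I → Bool) :
    pm T (Q.state t x) ^ (2 * k) * ∑ i, Q.W T t i x ≤
      4 * (t : ℝ) ^ 2 * p / D * pm T (Q.state t x) ^ (2 * k + 2) +
      4 * t * D ^ (2 * k) * (pm T (Q.state t x) * ∑ s ∈ Finset.range t, ∑ i,
        pm (Q.look i) (Q.state s (flip i x)) ^ (2 * k + 1)) := by
  obtain ⟨c, hc0, hc1, hc2, hc3⟩ := hybrid_sq Q T t x
  set h := pm T (Q.state t x) with hh
  have hh0 : 0 ≤ h := pm_nonneg _ _
  set y : ℕ → I → ℝ := fun s i => pm (Q.look i) (Q.state s (flip i x)) with hy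
  have hy0 : ∀ s i, 0 ≤ y s i := fun s i => pm_nonneg _ _
  have h1 : ∑ i, Q.W T t i x ≤ 4 * t * ∑ s ∈ Finset.range t, ∑ i, c s i * y s i := by
    rw [Finset.sum_comm, Finset.mul_sum]
    exact Finset.sum_le_sum fun i _ => hc3 i
  have h2 : ∀ s, h ^ (2 * k) * ∑ i, c s i * y s i ≤
      p / D * h ^ (2 * k + 2) + D ^ (2 * k) * (h * ∑ i, y s i ^ (2 * k + 1)) := by
    intro s
    calc h ^ (2 * k) * ∑ i, c s i * y s i = ∑ i, c s i * (h ^ (2 * k) * y s i) := by
          rw [Finset.mul_sum]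
          exact Finset.sum_congr rfl fun i _ => by ring
      _ ≤ ∑ i, (c s i * (h ^ (2 * k + 1) / D) + D ^ (2 * k) * (h * y s i ^ (2 * k + 1))) := by
          refine Finset.sum_le_sum fun i _ => ?_
          have h3 := mul_le_mul_of_nonneg_left (young hh0 (hy0 s i) hD (2 * k)) (hc0 s i)
          have h4 : c s i * (D ^ (2 * k) * y s i ^ (2 * k + 1)) ≤
              D ^ (2 * k) * (h * y s i ^ (2 * k + 1)) := by
            calc c s i * (D ^ (2 * k) * y s i ^ (2 * k + 1))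
                ≤ h * (D ^ (2 * k) * y s i ^ (2 * k + 1)) :=
                  mul_le_mul_of_nonneg_right (hc1 s i)
                    (mul_nonneg (by positivity) (pow_nonneg (hy0 s i) _))
              _ = _ := by ring
          linarith
      _ = (∑ i, c s i) * (h ^ (2 * k + 1) / D) +
          D ^ (2 * k) * (h * ∑ i, y s i ^ (2 * k + 1)) := by
          rw [Finset.sum_add_distrib, Finset.sum_mul, Finset.mul_sum, Finset.mul_sum]
      _ ≤ (p * h) * (h ^ (2 * k + 1) / D) +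
          D ^ (2 * k) * (h * ∑ i, y s i ^ (2 * k + 1)) := by
          have := hc2 s
          gcongr
      _ = _ := by ring
  calc h ^ (2 * k) * ∑ i, Q.W T t i x
      ≤ h ^ (2 * k) * (4 * t * ∑ s ∈ Finset.range t, ∑ i, c s i * y s i) := by gcongr
    _ = 4 * t * ∑ s ∈ Finset.range t, h ^ (2 * k) * ∑ i, c s i * y s i := by
        rw [← Finset.mul_sum]; ring
    _ ≤ 4 * t * ∑ s ∈ Finset.range t, (p / D * h ^ (2 * k + 2) +
          D ^ (2 * k) * (h * ∑ i, y s i ^ (2 * k + 1))) := by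
        gcongr with s _
        exact h2 s
    _ = _ := by
        rw [Finset.sum_add_distrib, Finset.sum_const, Finset.card_range, nsmul_eq_mul,
          ← Finset.mul_sum, ← Finset.mul_sum]
        ring

/-- The moment inequality for one projection. -/
lemma moment_one (Q : Algorithm I A p) (T : Finset A) (t k r : ℕ) (htr : t ≤ r) (hr : 1 ≤ r)
    (hp : 1 ≤ p) {θ : ℝ} (hθ : ex (fun x => pm T (Q.state t x)) ≤ θ) :
    ex (fun x => pm T (Q.state t x) ^ (2 * k + 2)) ≤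
      2 * 4 ^ (2 * k) * θ ^ (2 * k + 1) * ex (fun x => pm T (Q.state t x)) +
      16 * ((k : ℝ) + 1) ^ 2 * t * (32 * ((k : ℝ) + 1) ^ 2 * r ^ 2 * p) ^ (2 * k) *
        ex (fun x => pm T (Q.state t x) * ∑ s ∈ Finset.range t, ∑ i,
          pm (Q.look i) (Q.state s (flip i x)) ^ (2 * k + 1)) := by
  have hr' : (1 : ℝ) ≤ r := by exact_mod_cast hr
  have hp' : (1 : ℝ) ≤ p := by exact_mod_cast hp
  have htr' : (t : ℝ) ≤ r := by exact_mod_cast htr
  have hh0 : ∀ x, 0 ≤ pm T (Q.state t x) := fun x => pm_nonneg _ _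
  have hθ0 : 0 ≤ θ := (ex_nonneg hh0).trans hθ
  set D : ℝ := 32 * ((k : ℝ) + 1) ^ 2 * r ^ 2 * p with hD
  have hD0 : 0 < D := by positivity
  have hvar := variance_pow Q T t k
  have h1 : ex (fun x => pm T (Q.state t x) ^ (2 * k) * ∑ i, Q.W T t i x) ≤
      4 * (t : ℝ) ^ 2 * p / D * ex (fun x => pm T (Q.state t x) ^ (2 * k + 2)) +
      4 * t * D ^ (2 * k) * ex (fun x => pm T (Q.state t x) * ∑ s ∈ Finset.range t, ∑ i,
        pm (Q.look i) (Q.state s (flip i x)) ^ (2 * k + 1)) := by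
    refine (ex_mono fun x => pointwise_sum_W Q T t k hD0 x).trans ?_
    rw [ex_add, ex_const_mul, ex_const_mul]
  set X := ex (fun x => pm T (Q.state t x) ^ (2 * k + 2)) with hX
  have hX0 : 0 ≤ X := ex_nonneg fun x => pow_nonneg (hh0 x) _
  have hXsq : ex (fun x => (pm T (Q.state t x) ^ (k + 1)) ^ 2) = X := by
    rw [hX]
    congr 1
    funext x
    rw [← pow_mul]
    congr 1
    ring
  rw [hXsq] at hvar
  -- the square of the mean
  have h2 : ex (fun x => pm T (Q.state t x) ^ (k + 1)) ^ 2 ≤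
      ex (fun x => pm T (Q.state t x)) * ex (fun x => pm T (Q.state t x) ^ (2 * k + 1)) := by
    have h3 := ex_cauchy (fun x => √(pm T (Q.state t x)))
      (fun x => √(pm T (Q.state t x)) * pm T (Q.state t x) ^ k)
    have e1 : (fun x => √(pm T (Q.state t x)) *
        (√(pm T (Q.state t x)) * pm T (Q.state t x) ^ k)) =
        fun x => pm T (Q.state t x) ^ (k + 1) := by
      funext x
      rw [← mul_assoc, Real.mul_self_sqrt (hh0 x)]
      ring
    have e2 : (fun x => √(pm T (Q.state t x)) ^ 2) = fun x => pm T (Q.state t x) := by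
      funext x
      rw [Real.sq_sqrt (hh0 x)]
    have e3 : (fun x => (√(pm T (Q.state t x)) * pm T (Q.state t x) ^ k) ^ 2) =
        fun x => pm T (Q.state t x) ^ (2 * k + 1) := by
      funext x
      rw [mul_pow, Real.sq_sqrt (hh0 x)]
      ring
    rw [e1, e2, e3] at h3
    exact h3
  have h3 : ex (fun x => pm T (Q.state t x)) * ex (fun x => pm T (Q.state t x) ^ (2 * k + 1)) ≤
      X / 4 + 4 ^ (2 * k) * θ ^ (2 * k + 1) * ex (fun x => pm T (Q.state t x)) := by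
    calc _ ≤ θ * ex (fun x => pm T (Q.state t x) ^ (2 * k + 1)) := by
          apply mul_le_mul_of_nonneg_right hθ
          exact ex_nonneg fun x => pow_nonneg (hh0 x) _
      _ = ex (fun x => θ * pm T (Q.state t x) ^ (2 * k + 1)) := by rw [ex_const_mul]
      _ ≤ ex (fun x => (1 / 4) * pm T (Q.state t x) ^ (2 * k + 2) +
          (4 ^ (2 * k) * θ ^ (2 * k + 1)) * pm T (Q.state t x)) := by
          apply ex_mono
          intro x
          have h4 := mul_le_mul_of_nonneg_left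
            (young (hh0 x) hθ0 (by norm_num : (0 : ℝ) < 4) (2 * k)) (hh0 x)
          calc θ * pm T (Q.state t x) ^ (2 * k + 1)
              = pm T (Q.state t x) * (pm T (Q.state t x) ^ (2 * k) * θ) := by ring
            _ ≤ _ := h4
            _ = _ := by ring
      _ = _ := by
          rw [ex_add, ex_const_mul, ex_const_mul]
          ring
  have h4 : 2 * ((k : ℝ) + 1) ^ 2 * (4 * (t : ℝ) ^ 2 * p / D * X) ≤ X / 4 := by
    have h5 : 2 * ((k : ℝ) + 1) ^ 2 * (4 * (t : ℝ) ^ 2 * p / D) ≤ 1 / 4 := by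
      rw [mul_div_assoc', div_le_iff₀ hD0, hD]
      have : (t : ℝ) ^ 2 ≤ (r : ℝ) ^ 2 := by gcongr
      calc 2 * ((k : ℝ) + 1) ^ 2 * (4 * (t : ℝ) ^ 2 * p)
          ≤ 2 * ((k : ℝ) + 1) ^ 2 * (4 * (r : ℝ) ^ 2 * p) := by gcongr
        _ = 1 / 4 * (32 * ((k : ℝ) + 1) ^ 2 * r ^ 2 * p) := by ring
    calc 2 * ((k : ℝ) + 1) ^ 2 * (4 * (t : ℝ) ^ 2 * p / D * X)
        = (2 * ((k : ℝ) + 1) ^ 2 * (4 * (t : ℝ) ^ 2 * p / D)) * X := by ring
      _ ≤ 1 / 4 * X := by gcongr
      _ = X / 4 := by ring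
  set Y := ex (fun x => pm T (Q.state t x) * ∑ s ∈ Finset.range t, ∑ i,
        pm (Q.look i) (Q.state s (flip i x)) ^ (2 * k + 1)) with hY
  have h5 : 2 * ((k : ℝ) + 1) ^ 2 *
      ex (fun x => pm T (Q.state t x) ^ (2 * k) * ∑ i, Q.W T t i x) ≤
      2 * ((k : ℝ) + 1) ^ 2 * (4 * (t : ℝ) ^ 2 * p / D * X) +
      8 * ((k : ℝ) + 1) ^ 2 * t * D ^ (2 * k) * Y := by
    calc _ ≤ 2 * ((k : ℝ) + 1) ^ 2 * (4 * (t : ℝ) ^ 2 * p / D * X + 4 * t * D ^ (2 * k) * Y) := by
          gcongr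
      _ = _ := by ring
  have e6 : 16 * ((k : ℝ) + 1) ^ 2 * t * D ^ (2 * k) * Y =
      2 * (8 * ((k : ℝ) + 1) ^ 2 * t * D ^ (2 * k) * Y) := by ring
  have e7 : 2 * 4 ^ (2 * k) * θ ^ (2 * k + 1) * ex (fun x => pm T (Q.state t x)) =
      2 * (4 ^ (2 * k) * θ ^ (2 * k + 1) * ex (fun x => pm T (Q.state t x))) := by ring
  rw [e6, e7]
  linarith

/-- The moments of the query magnitudes. -/
noncomputable def Algorithm.M (Q : Algorithm I A p) (s n : ℕ) : ℝ :=
  ∑ i, ex (fun x => pm (Q.look i) (Q.state s x) ^ n)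

lemma M_nonneg (Q : Algorithm I A p) (s n : ℕ) : 0 ≤ Q.M s n :=
  Finset.sum_nonneg fun _ _ => ex_nonneg fun _ => pow_nonneg (pm_nonneg _ _) _

lemma pm_state_le_one (Q : Algorithm I A p) (T : Finset A) (s : ℕ) (x : I → Bool) :
    pm T (Q.state s x) ≤ 1 := by
  refine (pm_le _ _).trans ?_
  have := norm_state_le Q s x
  have h0 := norm_nonneg (Q.state s x)
  nlinarith

lemma M_anti (Q : Algorithm I A p) (s : ℕ) {n n' : ℕ} (h : n ≤ n') : Q.M s n' ≤ Q.M s n :=
  Finset.sum_le_sum fun _ _ => ex_mono fun _ =>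
    pow_le_pow_of_le_one (pm_nonneg _ _) (pm_state_le_one Q _ _ _) h

lemma sum_ex_pm_le (Q : Algorithm I A p) (J : Finset I) (t : ℕ) :
    ∑ j ∈ J, ex (fun x => pm (Q.look j) (Q.state t x)) ≤ p := by
  rw [← ex_sum]
  have h : ∀ x, ∑ j ∈ J, pm (Q.look j) (Q.state t x) ≤ p := by
    intro x
    calc ∑ j ∈ J, pm (Q.look j) (Q.state t x) ≤ ∑ j, pm (Q.look j) (Q.state t x) :=
          Finset.sum_le_sum_of_subset_of_nonneg (Finset.subset_univ _) fun _ _ _ => pm_nonneg _ _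
      _ ≤ p * ‖Q.state t x‖ ^ 2 := sum_pm_look Q _
      _ ≤ p * 1 := by
          have := norm_state_le Q t x
          have h0 := norm_nonneg (Q.state t x)
          have h1 : ‖Q.state t x‖ ^ 2 ≤ 1 := by nlinarith
          gcongr
      _ = p := mul_one _
  refine (ex_mono h).trans ?_
  rw [ex_const]

/-- The moment inequality summed over the light coordinates. -/
lemma moment_sum (Q : Algorithm I A p) (t k r : ℕ) (htr : t ≤ r) (hr : 1 ≤ r)
    (hp : 1 ≤ p) {θ : ℝ} (hθ0 : 0 ≤ θ) (J : Finset I)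
    (hθ : ∀ j ∈ J, ex (fun x => pm (Q.look j) (Q.state t x)) ≤ θ) :
    ∑ j ∈ J, ex (fun x => pm (Q.look j) (Q.state t x) ^ (2 * k + 2)) ≤
      2 * 4 ^ (2 * k) * θ ^ (2 * k + 1) * p +
      16 * ((k : ℝ) + 1) ^ 2 * t * (32 * ((k : ℝ) + 1) ^ 2 * r ^ 2 * p) ^ (2 * k) * p *
        ∑ s ∈ Finset.range t, Q.M s (2 * k + 1) := by
  have h1 := Finset.sum_le_sum fun j hj => moment_one Q (Q.look j) t k r htr hr hp (hθ j hj)
  refine h1.trans ?_
  rw [Finset.sum_add_distrib, ← Finset.mul_sum, ← Finset.mul_sum]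
  have h2 := sum_ex_pm_le Q J t
  have h3 : ∑ j ∈ J, ex (fun x => pm (Q.look j) (Q.state t x) * ∑ s ∈ Finset.range t, ∑ i,
      pm (Q.look i) (Q.state s (flip i x)) ^ (2 * k + 1)) ≤
      p * ∑ s ∈ Finset.range t, Q.M s (2 * k + 1) := by
    rw [← ex_sum]
    have h4 : ∀ x, ∑ j ∈ J, pm (Q.look j) (Q.state t x) * ∑ s ∈ Finset.range t, ∑ i,
        pm (Q.look i) (Q.state s (flip i x)) ^ (2 * k + 1) ≤
        p * ∑ s ∈ Finset.range t, ∑ i,
          pm (Q.look i) (Q.state s (flip i x)) ^ (2 * k + 1) := by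
      intro x
      rw [← Finset.sum_mul]
      apply mul_le_mul_of_nonneg_right
      · calc ∑ j ∈ J, pm (Q.look j) (Q.state t x) ≤ ∑ j, pm (Q.look j) (Q.state t x) :=
              Finset.sum_le_sum_of_subset_of_nonneg (Finset.subset_univ _)
                fun _ _ _ => pm_nonneg _ _
          _ ≤ p * ‖Q.state t x‖ ^ 2 := sum_pm_look Q _
          _ ≤ p * 1 := by
              have := norm_state_le Q t x
              have h0 := norm_nonneg (Q.state t x)
              have h1 : ‖Q.state t x‖ ^ 2 ≤ 1 := by nlinarith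
              gcongr
          _ = p := mul_one _
      · exact Finset.sum_nonneg fun _ _ => Finset.sum_nonneg fun _ _ =>
          pow_nonneg (pm_nonneg _ _) _
    refine (ex_mono h4).trans ?_
    rw [ex_const_mul, ex_sum]
    apply le_of_eq
    congr 1
    refine Finset.sum_congr rfl fun s _ => ?_
    rw [ex_sum]
    unfold Algorithm.M
    refine Finset.sum_congr rfl fun i _ => ?_
    exact ex_flip (fun x => pm (Q.look i) (Q.state s x) ^ (2 * k + 1)) i
  have hp0 : (0 : ℝ) ≤ p := by positivity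
  calc _ ≤ 2 * 4 ^ (2 * k) * θ ^ (2 * k + 1) * p +
      16 * ((k : ℝ) + 1) ^ 2 * t * (32 * ((k : ℝ) + 1) ^ 2 * r ^ 2 * p) ^ (2 * k) *
        (p * ∑ s ∈ Finset.range t, Q.M s (2 * k + 1)) := by
        gcongr
    _ = _ := by ring

end Pool.Agent.Lib_helper8.QAA
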