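import Pool.Agent.Lib_helper8.QAAFinal

set_option autoImplicit false

open Finset

namespace Pool.Agent.Lib_helper8.QAARounds

/-- **The Aaronson–Ambainis inequality for quantum query algorithms with few adaptive rounds.**

Let `f x` be the acceptance probability of a quantum query algorithm on inputs
`x ∈ {-1,1}^I` which makes `r` rounds of queries, each round consisting of `p` parallel queries.
Then some coordinate has influence at least `Var(f)^6 / (128 r^4 p)^(8 r)`.
In particular, for every fixed number of rounds this is the polynomial bound of the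
Aaronson–Ambainis conjecture in terms of the number of queries. -/
theorem result (I A : Type) [Fintype I] [DecidableEq I] [Nonempty I] [Fintype A]
    (p r : ℕ) (hp : 1 ≤ p) (hr : 1 ≤ r) (Q : Pool.Agent.Lib_helper8.QAA.Algorithm I A p) :
    ∃ j : I,
      (((2 : ℝ) ^ Fintype.card I)⁻¹ * ∑ x : I → Bool, Q.prob r x ^ 2
          - (((2 : ℝ) ^ Fintype.card I)⁻¹ * ∑ x : I → Bool, Q.prob r x) ^ 2) ^ 6 /
        (128 * (r : ℝ) ^ 4 * p) ^ (8 * r) ≤
      ((2 : ℝ) ^ Fintype.card I)⁻¹ * ∑ x : I → Bool,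
        ((Q.prob r x - Q.prob r (Function.update x j (!x j))) / 2) ^ 2 := by
  have hinfl : ∀ j : I, 0 ≤ ((2 : ℝ) ^ Fintype.card I)⁻¹ * ∑ x : I → Bool,
      ((Q.prob r x - Q.prob r (Function.update x j (!x j))) / 2) ^ 2 := fun j => by positivity
  set v : ℝ := ((2 : ℝ) ^ Fintype.card I)⁻¹ * ∑ x : I → Bool, Q.prob r x ^ 2
          - (((2 : ℝ) ^ Fintype.card I)⁻¹ * ∑ x : I → Bool, Q.prob r x) ^ 2 with hv
  have hv2 := Pool.Agent.Lib_helper8.QAA.variance_eq (Q.prob r)
  have hv0 : 0 ≤ v := by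
    rw [hv, hv2]
    exact Finset.sum_nonneg fun _ _ => sq_nonneg _
  rcases hv0.eq_or_lt with h0 | h0
  · obtain ⟨j⟩ := (inferInstance : Nonempty I)
    refine ⟨j, ?_⟩
    rw [← h0, zero_pow (by omega), zero_div]
    exact hinfl j
  obtain ⟨R, rfl⟩ : ∃ R, r = R + 1 := ⟨r - 1, by omega⟩
  have hv1 : v ≤ 1 := by
    have h1 : Pool.Agent.Lib_helper8.QAA.ex (fun x => Q.prob (R + 1) x ^ 2) ≤
        Pool.Agent.Lib_helper8.QAA.ex (fun _ : I → Bool => (1 : ℝ)) := by
      apply Pool.Agent.Lib_helper8.QAA.ex_mono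
      intro x
      have := Pool.Agent.Lib_helper8.QAA.abs_prob_le Q (R + 1) x
      rw [← sq_abs]
      exact pow_le_one₀ (abs_nonneg _) this
    rw [Pool.Agent.Lib_helper8.QAA.ex_const] at h1
    unfold Pool.Agent.Lib_helper8.QAA.ex at h1
    have h2 : 0 ≤ (((2 : ℝ) ^ Fintype.card I)⁻¹ * ∑ x : I → Bool, Q.prob (R + 1) x) ^ 2 :=
      sq_nonneg _
    linarith
  obtain ⟨j, hj⟩ := Pool.Agent.Lib_helper8.QAA.aa_rounds hp R Q h0 hv1 rfl
  refine ⟨j, ?_⟩
  push_cast
  exact hj

end Pool.Agent.Lib_helper8.QAARounds
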