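import Pool.Agent.Lib_helper8.QAATree

/-!
# Correlated pairs of points of the cube
-/

set_option autoImplicit false
set_option linter.unusedSectionVars false

open Finset

namespace Pool.Agent.Lib_helper8.QAA

variable {I : Type} [Fintype I] [DecidableEq I]

/-- The (unnormalized) weight of a pair with correlation `ρ`. -/
noncomputable def wt (ρ : ℝ) (x y : I → Bool) : ℝ := ∏ i, (if x i = y i then 1 + ρ else 1 - ρ)

/-- The weight with coordinate `i` left out. -/
noncomputable def wti (ρ : ℝ) (i : I) (x y : I → Bool) : ℝ :=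
  ∏ k ∈ Finset.univ.erase i, (if x k = y k then 1 + ρ else 1 - ρ)

/-- The sign `x_i y_i`. -/
noncomputable def sg (i : I) (x y : I → Bool) : ℝ := if x i = y i then 1 else -1

/-- Expectation over a pair `(x, y)` of uniform points with correlation `ρ` in each coordinate. -/
noncomputable def corr (ρ : ℝ) (F : (I → Bool) → (I → Bool) → ℝ) : ℝ :=
  ((4 : ℝ) ^ (Fintype.card I))⁻¹ * ∑ x, ∑ y, wt ρ x y * F x y

lemma wt_eq (ρ : ℝ) (i : I) (x y : I → Bool) :
    wt ρ x y = (if x i = y i then 1 + ρ else 1 - ρ) * wti ρ i x y := by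
  unfold wt wti
  exact (Finset.mul_prod_erase Finset.univ
    (fun k => if x k = y k then 1 + ρ else 1 - ρ) (Finset.mem_univ i)).symm

lemma wt_nonneg {ρ : ℝ} (h0 : 0 ≤ ρ) (h1 : ρ ≤ 1) (x y : I → Bool) : 0 ≤ wt ρ x y :=
  Finset.prod_nonneg fun i _ => by split_ifs <;> linarith

lemma wti_nonneg {ρ : ℝ} (h0 : 0 ≤ ρ) (h1 : ρ ≤ 1) (i : I) (x y : I → Bool) :
    0 ≤ wti ρ i x y :=
  Finset.prod_nonneg fun i _ => by split_ifs <;> linarith

lemma corr_nonneg {ρ : ℝ} (h0 : 0 ≤ ρ) (h1 : ρ ≤ 1) {F : (I → Bool) → (I → Bool) → ℝ}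
    (h : ∀ x y, 0 ≤ F x y) : 0 ≤ corr ρ F :=
  mul_nonneg (by positivity) (Finset.sum_nonneg fun x _ => Finset.sum_nonneg fun y _ =>
    mul_nonneg (wt_nonneg h0 h1 x y) (h x y))

lemma corr_mono {ρ : ℝ} (h0 : 0 ≤ ρ) (h1 : ρ ≤ 1) {F G : (I → Bool) → (I → Bool) → ℝ}
    (h : ∀ x y, F x y ≤ G x y) : corr ρ F ≤ corr ρ G :=
  mul_le_mul_of_nonneg_left (Finset.sum_le_sum fun x _ => Finset.sum_le_sum fun y _ =>
    mul_le_mul_of_nonneg_left (h x y) (wt_nonneg h0 h1 x y)) (by positivity)

lemma corr_sum {α : Type} (s : Finset α) (ρ : ℝ) (F : α → (I → Bool) → (I → Bool) → ℝ) :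
    corr ρ (fun x y => ∑ a ∈ s, F a x y) = ∑ a ∈ s, corr ρ (F a) := by
  unfold corr
  rw [← Finset.mul_sum]
  congr 1
  symm
  rw [Finset.sum_comm]
  refine Finset.sum_congr rfl fun x _ => ?_
  rw [Finset.sum_comm]
  refine Finset.sum_congr rfl fun y _ => ?_
  rw [Finset.mul_sum]

lemma corr_const_mul (ρ c : ℝ) (F : (I → Bool) → (I → Bool) → ℝ) :
    corr ρ (fun x y => c * F x y) = c * corr ρ F := by
  unfold corr
  rw [mul_left_comm c]
  congr 1
  rw [Finset.mul_sum]
  refine Finset.sum_congr rfl fun x _ => ?_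
  rw [Finset.mul_sum]
  refine Finset.sum_congr rfl fun y _ => ?_
  ring

lemma corr_zero (g h : (I → Bool) → ℝ) : corr 0 (fun x y => g x * h y) = ex g * ex h := by
  have h1 : ∀ x y : I → Bool, wt 0 x y = 1 := by
    intro x y
    unfold wt
    apply Finset.prod_eq_one
    intro i _
    split_ifs <;> norm_num
  unfold corr ex
  simp_rw [h1, one_mul]
  rw [← Finset.sum_mul_sum]
  have h2 : ((4 : ℝ) ^ Fintype.card I) = 2 ^ Fintype.card I * 2 ^ Fintype.card I := by
    rw [← mul_pow]; norm_num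
  rw [h2, mul_inv]
  ring

lemma corr_one (F : (I → Bool) → (I → Bool) → ℝ) : corr 1 F = ex (fun x => F x x) := by
  have h1 : ∀ x y : I → Bool, wt 1 x y = if x = y then (2 : ℝ) ^ Fintype.card I else 0 := by
    intro x y
    unfold wt
    split_ifs with h
    · subst h
      simp only [if_true]
      rw [Finset.prod_const, Finset.card_univ]
      norm_num
    · obtain ⟨i, hi⟩ := Function.ne_iff.1 h
      apply Finset.prod_eq_zero (Finset.mem_univ i)
      rw [if_neg hi]
      norm_num
  unfold corr ex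
  simp_rw [h1, ite_mul, zero_mul]
  simp only [Finset.sum_ite_eq, Finset.mem_univ, if_true]
  rw [← Finset.mul_sum, ← mul_assoc]
  congr 1
  have h2 : ((4 : ℝ) ^ Fintype.card I) = 2 ^ Fintype.card I * 2 ^ Fintype.card I := by
    rw [← mul_pow]; norm_num
  rw [h2]
  field_simp

lemma flip_apply_self (i : I) (x : I → Bool) : flip i x i = !x i := by simp [flip]

lemma wti_flip_left (ρ : ℝ) (i : I) (x y : I → Bool) : wti ρ i (flip i x) y = wti ρ i x y := by
  unfold wti
  refine Finset.prod_congr rfl fun k hk => ?_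
  rw [flip_apply_of_ne (Finset.ne_of_mem_erase hk)]

lemma wti_flip_right (ρ : ℝ) (i : I) (x y : I → Bool) : wti ρ i x (flip i y) = wti ρ i x y := by
  unfold wti
  refine Finset.prod_congr rfl fun k hk => ?_
  rw [flip_apply_of_ne (Finset.ne_of_mem_erase hk)]

lemma sg_flip_left (i : I) (x y : I → Bool) : sg i (flip i x) y = - sg i x y := by
  unfold sg
  rw [flip_apply_self]
  cases x i <;> cases y i <;> simp

lemma sg_flip_right (i : I) (x y : I → Bool) : sg i x (flip i y) = - sg i x y := by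
  unfold sg
  rw [flip_apply_self]
  cases x i <;> cases y i <;> simp

lemma wt_flip_both (ρ : ℝ) (i : I) (x y : I → Bool) :
    wt ρ (flip i x) (flip i y) = wt ρ x y := by
  rw [wt_eq ρ i, wt_eq ρ i x y, wti_flip_left, wti_flip_right, flip_apply_self, flip_apply_self]
  congr 1
  cases x i <;> cases y i <;> simp

lemma sum_flip_left (i : I) (F : (I → Bool) → (I → Bool) → ℝ) :
    ∑ x, ∑ y, F (flip i x) y = ∑ x, ∑ y, F x y :=
  Equiv.sum_comp (flipEquiv i) fun x => ∑ y, F x y

lemma sum_flip_right (i : I) (F : (I → Bool) → (I → Bool) → ℝ) :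
    ∑ x, ∑ y, F x (flip i y) = ∑ x, ∑ y, F x y :=
  Finset.sum_congr rfl fun x _ => Equiv.sum_comp (flipEquiv i) fun y => F x y

lemma corr_flip_both (ρ : ℝ) (i : I) (F : (I → Bool) → (I → Bool) → ℝ) :
    corr ρ (fun x y => F (flip i x) (flip i y)) = corr ρ F := by
  unfold corr
  congr 1
  rw [← sum_flip_left i, ← sum_flip_right i (fun x y => wt ρ (flip i x) y * _)]
  refine Finset.sum_congr rfl fun x _ => Finset.sum_congr rfl fun y _ => ?_
  show wt ρ (flip i x) (flip i y) * F (flip i (flip i x)) (flip i (flip i y)) = _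
  rw [wt_flip_both, flip_flip, flip_flip]

/-- Cauchy–Schwarz. -/
lemma corr_sqrt_mul_sqrt {ρ : ℝ} (h0 : 0 ≤ ρ) (h1 : ρ ≤ 1) {A B : (I → Bool) → (I → Bool) → ℝ}
    (hA : ∀ x y, 0 ≤ A x y) (hB : ∀ x y, 0 ≤ B x y) :
    corr ρ (fun x y => √(A x y) * √(B x y)) ≤ √(corr ρ A) * √(corr ρ B) := by
  unfold corr
  have h4 : (0 : ℝ) ≤ ((4 : ℝ) ^ Fintype.card I)⁻¹ := by positivity
  rw [Real.sqrt_mul h4, Real.sqrt_mul h4, mul_mul_mul_comm, Real.mul_self_sqrt h4]
  apply mul_le_mul_of_nonneg_left _ h4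
  rw [← Fintype.sum_prod_type' (f := fun x y => wt ρ x y * (√(A x y) * √(B x y))),
    ← Fintype.sum_prod_type' (f := fun x y => wt ρ x y * A x y),
    ← Fintype.sum_prod_type' (f := fun x y => wt ρ x y * B x y)]
  have h2 := Real.sum_sqrt_mul_sqrt_le (Finset.univ : Finset ((I → Bool) × (I → Bool)))
    (f := fun z => wt ρ z.1 z.2 * A z.1 z.2) (g := fun z => wt ρ z.1 z.2 * B z.1 z.2)
    (fun z => mul_nonneg (wt_nonneg h0 h1 _ _) (hA _ _))
    (fun z => mul_nonneg (wt_nonneg h0 h1 _ _) (hB _ _))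
  refine le_trans (le_of_eq ?_) h2
  refine Finset.sum_congr rfl fun z _ => ?_
  have hw := wt_nonneg h0 h1 z.1 z.2
  rw [Real.sqrt_mul hw, Real.sqrt_mul hw, mul_mul_mul_comm, Real.mul_self_sqrt hw]

/-- The derivative of the correlated expectation in direction `i`. -/
noncomputable def dcorr (i : I) (ρ : ℝ) (F : (I → Bool) → (I → Bool) → ℝ) : ℝ :=
  ((4 : ℝ) ^ (Fintype.card I))⁻¹ * ∑ x, ∑ y, sg i x y * wti ρ i x y * F x y

lemma hasDerivAt_wt (x y : I → Bool) (ρ : ℝ) :
    HasDerivAt (fun ρ => wt ρ x y) (∑ i, sg i x y * wti ρ i x y) ρ := by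
  unfold wt
  have h : ∀ i ∈ (Finset.univ : Finset I),
      HasDerivAt (fun ρ : ℝ => if x i = y i then 1 + ρ else 1 - ρ) (sg i x y) ρ := by
    intro i _
    unfold sg
    split_ifs
    · simpa using (hasDerivAt_id ρ).const_add 1
    · simpa using (hasDerivAt_id ρ).const_sub 1
  have h2 := HasDerivAt.fun_finsetProd h
  refine h2.congr_deriv ?_
  refine Finset.sum_congr rfl fun i _ => ?_
  unfold wti
  rw [smul_eq_mul, mul_comm]

lemma hasDerivAt_corr (F : (I → Bool) → (I → Bool) → ℝ) (ρ : ℝ) :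
    HasDerivAt (fun ρ => corr ρ F) (∑ i, dcorr i ρ F) ρ := by
  unfold corr
  have h1 : HasDerivAt (fun ρ => ∑ x, ∑ y, wt ρ x y * F x y)
      (∑ x, ∑ y, (∑ i, sg i x y * wti ρ i x y) * F x y) ρ := by
    apply HasDerivAt.fun_sum
    intro x _
    apply HasDerivAt.fun_sum
    intro y _
    exact (hasDerivAt_wt x y ρ).mul_const _
  refine (h1.const_mul _).congr_deriv ?_
  unfold dcorr
  rw [← Finset.mul_sum]
  congr 1
  symm
  rw [Finset.sum_comm]
  refine Finset.sum_congr rfl fun x _ => ?_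
  rw [Finset.sum_comm]
  refine Finset.sum_congr rfl fun y _ => ?_
  rw [Finset.sum_mul]

/-- **The sign trick.** If `g x - g x^i = a x - a x^i` with `a x + a x^i ≥ 0`, and similarly
for `h` and `b`, then the derivative of `E_ρ g(x) h(y)` in direction `i` is at most
`2 E_ρ |a(x)| |b(y)|`. -/
lemma dcorr_le {ρ : ℝ} (h0 : 0 ≤ ρ) (h1 : ρ ≤ 1) (i : I) (g h a b : (I → Bool) → ℝ)
    (hg : ∀ x, g x - g (flip i x) = a x - a (flip i x)) (ha : ∀ x, 0 ≤ a x + a (flip i x))
    (hh : ∀ x, h x - h (flip i x) = b x - b (flip i x)) (hb : ∀ x, 0 ≤ b x + b (flip i x)) :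
    dcorr i ρ (fun x y => g x * h y) ≤ 2 * corr ρ (fun x y => |a x| * |b y|) := by
  unfold dcorr corr
  rw [mul_left_comm]
  apply mul_le_mul_of_nonneg_left _ (by positivity)
  set S := ∑ x, ∑ y, sg i x y * wti ρ i x y * (g x * h y) with hS
  -- symmetrization
  have s1 : S = - ∑ x, ∑ y, sg i x y * wti ρ i x y * (g (flip i x) * h y) := by
    rw [hS, ← sum_flip_left i, ← Finset.sum_neg_distrib]
    refine Finset.sum_congr rfl fun x _ => ?_
    rw [← Finset.sum_neg_distrib]
    refine Finset.sum_congr rfl fun y _ => ?_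
    rw [sg_flip_left, wti_flip_left]
    ring
  have s2 : S = - ∑ x, ∑ y, sg i x y * wti ρ i x y * (g x * h (flip i y)) := by
    rw [hS, ← sum_flip_right i, ← Finset.sum_neg_distrib]
    refine Finset.sum_congr rfl fun x _ => ?_
    rw [← Finset.sum_neg_distrib]
    refine Finset.sum_congr rfl fun y _ => ?_
    rw [sg_flip_right, wti_flip_right]
    ring
  have s3 : S = ∑ x, ∑ y, sg i x y * wti ρ i x y * (g (flip i x) * h (flip i y)) := by
    rw [s1, ← sum_flip_right i, ← Finset.sum_neg_distrib]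
    refine Finset.sum_congr rfl fun x _ => ?_
    rw [← Finset.sum_neg_distrib]
    refine Finset.sum_congr rfl fun y _ => ?_
    rw [sg_flip_right, wti_flip_right]
    ring
  have s4 : 4 * S = ∑ x, ∑ y, sg i x y * wti ρ i x y *
      ((g x - g (flip i x)) * (h y - h (flip i y))) := by
    have : 4 * S = S + S + S + S := by ring
    rw [this]
    conv_lhs =>
      rw [show S + S + S + S = (∑ x, ∑ y, sg i x y * wti ρ i x y * (g x * h y)) +
        (- ∑ x, ∑ y, sg i x y * wti ρ i x y * (g (flip i x) * h y)) +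
        (- ∑ x, ∑ y, sg i x y * wti ρ i x y * (g x * h (flip i y))) +
        (∑ x, ∑ y, sg i x y * wti ρ i x y * (g (flip i x) * h (flip i y))) by
          rw [← s1, ← s2, ← s3]]
    rw [← Finset.sum_neg_distrib, ← Finset.sum_neg_distrib, ← Finset.sum_add_distrib,
      ← Finset.sum_add_distrib, ← Finset.sum_add_distrib]
    refine Finset.sum_congr rfl fun x _ => ?_
    rw [← Finset.sum_neg_distrib, ← Finset.sum_neg_distrib, ← Finset.sum_add_distrib,
      ← Finset.sum_add_distrib, ← Finset.sum_add_distrib]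
    refine Finset.sum_congr rfl fun y _ => ?_
    ring
  -- restriction to `x i = y i`
  have s5 : ∑ x, ∑ y, wti ρ i x y * ((g x - g (flip i x)) * (h y - h (flip i y))) = 0 := by
    have : ∑ x, ∑ y, wti ρ i x y * ((g x - g (flip i x)) * (h y - h (flip i y))) =
        - ∑ x, ∑ y, wti ρ i x y * ((g x - g (flip i x)) * (h y - h (flip i y))) := by
      conv_lhs => rw [← sum_flip_left i]
      rw [← Finset.sum_neg_distrib]
      refine Finset.sum_congr rfl fun x _ => ?_
      rw [← Finset.sum_neg_distrib]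
      refine Finset.sum_congr rfl fun y _ => ?_
      rw [wti_flip_left, flip_flip]
      ring
    linarith
  have s6 : 2 * S = ∑ x, ∑ y, (if x i = y i then 1 else 0) * wti ρ i x y *
      ((g x - g (flip i x)) * (h y - h (flip i y))) := by
    have h2 : (∑ x, ∑ y, sg i x y * wti ρ i x y *
        ((g x - g (flip i x)) * (h y - h (flip i y)))) +
        (∑ x, ∑ y, wti ρ i x y * ((g x - g (flip i x)) * (h y - h (flip i y)))) =
        2 * ∑ x, ∑ y, (if x i = y i then 1 else 0) * wti ρ i x y *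
        ((g x - g (flip i x)) * (h y - h (flip i y))) := by
      rw [← Finset.sum_add_distrib, Finset.mul_sum]
      refine Finset.sum_congr rfl fun x _ => ?_
      rw [← Finset.sum_add_distrib, Finset.mul_sum]
      refine Finset.sum_congr rfl fun y _ => ?_
      unfold sg
      split_ifs <;> ring
    rw [s5, ← s4] at h2
    linarith
  have s7 : 2 * S ≤ ∑ x, ∑ y, (if x i = y i then 1 else 0) * wti ρ i x y *
      (2 * (a x * b y + a (flip i x) * b (flip i y))) := by
    rw [s6]
    refine Finset.sum_le_sum fun x _ => Finset.sum_le_sum fun y _ => ?_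
    have hw := wti_nonneg h0 h1 i x y
    apply mul_le_mul_of_nonneg_left
    · rw [hg, hh]
      nlinarith [mul_nonneg (ha x) (hb y)]
    · split_ifs <;> simp [hw]
  have s8 : ∑ x, ∑ y, (if x i = y i then 1 else 0) * wti ρ i x y *
      (2 * (a x * b y + a (flip i x) * b (flip i y))) =
      4 * ∑ x, ∑ y, (if x i = y i then 1 else 0) * wti ρ i x y * (a x * b y) := by
    have e1 : ∑ x, ∑ y, (if x i = y i then 1 else 0) * wti ρ i x y * (a x * b y) =
        ∑ x, ∑ y, (if x i = y i then 1 else 0) * wti ρ i x y *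
          (a (flip i x) * b (flip i y)) := by
      conv_lhs => rw [← sum_flip_left i, ← sum_flip_right i]
      refine Finset.sum_congr rfl fun x _ => Finset.sum_congr rfl fun y _ => ?_
      rw [wti_flip_left, wti_flip_right, flip_apply_self, flip_apply_self]
      congr 2
      cases x i <;> cases y i <;> simp
    have e2 : 4 * ∑ x, ∑ y, (if x i = y i then 1 else 0) * wti ρ i x y * (a x * b y) =
        2 * (∑ x, ∑ y, (if x i = y i then 1 else 0) * wti ρ i x y * (a x * b y)) +
        2 * ∑ x, ∑ y, (if x i = y i then 1 else 0) * wti ρ i x y *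
          (a (flip i x) * b (flip i y)) := by
      rw [← e1]; ring
    rw [e2, Finset.mul_sum, Finset.mul_sum, ← Finset.sum_add_distrib]
    refine Finset.sum_congr rfl fun x _ => ?_
    rw [Finset.mul_sum, Finset.mul_sum, ← Finset.sum_add_distrib]
    refine Finset.sum_congr rfl fun y _ => ?_
    ring
  have s9 : ∑ x, ∑ y, (if x i = y i then 1 else 0) * wti ρ i x y * (a x * b y) ≤
      ∑ x, ∑ y, wt ρ x y * (|a x| * |b y|) := by
    refine Finset.sum_le_sum fun x _ => Finset.sum_le_sum fun y _ => ?_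
    have hw := wti_nonneg h0 h1 i x y
    have hab : a x * b y ≤ |a x| * |b y| := by
      rw [← abs_mul]
      exact le_abs_self _
    have hab0 : 0 ≤ |a x| * |b y| := by positivity
    rw [wt_eq ρ i]
    split_ifs
    · rw [one_mul]
      have h3 : wti ρ i x y * (a x * b y) ≤ wti ρ i x y * (|a x| * |b y|) :=
        mul_le_mul_of_nonneg_left hab hw
      have h4 : 0 ≤ ρ * (wti ρ i x y * (|a x| * |b y|)) := by positivity
      linarith
    · rw [zero_mul, zero_mul]
      have h5 : 0 ≤ 1 - ρ := by linarith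
      positivity
  linarith

end Pool.Agent.Lib_helper8.QAA
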