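import Pool.Agent.Lib_helper8.QAAHybrid
import Pool.Agent.Lib_helper8.QABCorr

/-!
# The two-copy hybrid argument
-/

set_option autoImplicit false
set_option linter.unusedSectionVars false

open Finset
open scoped InnerProductSpace

namespace Pool.Agent.Lib_helper8.QAA

variable {I A : Type} [Fintype I] [DecidableEq I] [Fintype A] {p : ℕ}

/-- The oracle as a continuous linear map. -/
noncomputable def Algorithm.oracleL (Q : Algorithm I A p) (x : I → Bool) :
    EuclideanSpace ℂ A →L[ℂ] EuclideanSpace ℂ A :=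
  LinearMap.mkContinuous
    { toFun := Q.oracle x
      map_add' := fun φ φ' => by
        ext a
        simp only [Algorithm.oracle, PiLp.add_apply]
        ring
      map_smul' := fun c φ => by
        ext a
        simp only [Algorithm.oracle, PiLp.smul_apply, smul_eq_mul, RingHom.id_apply]
        ring } 1 (fun φ => by
      rw [one_mul]
      exact norm_oracle_le Q x φ)

lemma oracleL_apply (Q : Algorithm I A p) (x : I → Bool) (φ : EuclideanSpace ℂ A) :
    Q.oracleL x φ = Q.oracle x φ := rfl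

/-- The change of the state caused by the query in round `s`. -/
noncomputable def Algorithm.w (Q : Algorithm I A p) (s : ℕ) (i : I) (x : I → Bool) :
    EuclideanSpace ℂ A :=
  Q.oracle x (Q.state s (flip i x)) - Q.oracle (flip i x) (Q.state s (flip i x))

lemma w_apply_eq_zero (Q : Algorithm I A p) (s : ℕ) (i : I) (x : I → Bool) {a : A}
    (ha : a ∉ Q.look i) : Q.w s i x a = 0 := by
  have h2 : Q.phase a x = Q.phase a (flip i x) := by
    apply Q.phase_congr
    intro j hj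
    rw [flip_apply_of_ne]
    rintro rfl
    exact ha (by simp [Algorithm.look, hj])
  simp only [Algorithm.w, Algorithm.oracle, PiLp.sub_apply]
  rw [h2]
  ring

lemma norm_w_sq (Q : Algorithm I A p) (s : ℕ) (i : I) (x : I → Bool) :
    ‖Q.w s i x‖ ^ 2 ≤ 4 * pm (Q.look i) (Q.state s (flip i x)) := by
  rw [norm_sq_eq, ← Finset.sum_subset (Finset.subset_univ (Q.look i))]
  · unfold pm
    rw [Finset.mul_sum]
    refine Finset.sum_le_sum fun a _ => ?_
    have h1 : Q.w s i x a = (Q.phase a x - Q.phase a (flip i x)) * Q.state s (flip i x) a := by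
      simp only [Algorithm.w, Algorithm.oracle, PiLp.sub_apply]
      ring
    rw [h1, norm_mul, mul_pow]
    have h2 : ‖Q.phase a x - Q.phase a (flip i x)‖ ≤ 2 := by
      refine (norm_sub_le _ _).trans ?_
      linarith [Q.norm_phase_le a x, Q.norm_phase_le a (flip i x)]
    have h3 : ‖Q.phase a x - Q.phase a (flip i x)‖ ^ 2 ≤ 4 := by
      have := norm_nonneg (Q.phase a x - Q.phase a (flip i x))
      nlinarith
    exact mul_le_mul_of_nonneg_right h3 (by positivity)
  · intro a _ ha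
    rw [w_apply_eq_zero Q s i x ha]
    simp

/-- Telescoping of the change of the state. -/
lemma state_sub (Q : Algorithm I A p) (x : I → Bool) (t : ℕ) :
    ∃ B : ℕ → (EuclideanSpace ℂ A →L[ℂ] EuclideanSpace ℂ A), (∀ s φ, ‖B s φ‖ ≤ ‖φ‖) ∧
      ∀ i, Q.state t x - Q.state t (flip i x) = ∑ s ∈ Finset.range t, B s (Q.w s i x) := by
  induction t with
  | zero =>
    refine ⟨fun _ => ContinuousLinearMap.id ℂ _, fun _ _ => le_rfl, fun i => ?_⟩
    simp [Algorithm.state]
  | succ t ih =>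
    obtain ⟨B, hB1, hB2⟩ := ih
    refine ⟨fun s => if s = t then Q.step t else (Q.step t).comp ((Q.oracleL x).comp (B s)),
      fun s φ => ?_, fun i => ?_⟩
    · dsimp only
      split_ifs
      · exact Q.norm_step_le t φ
      · exact (Q.norm_step_le t _).trans ((norm_oracle_le Q x _).trans (hB1 s φ))
    · dsimp only
      rw [Finset.sum_range_succ, if_pos rfl]
      have h1 : ∑ s ∈ Finset.range t,
          (if s = t then Q.step t else (Q.step t).comp ((Q.oracleL x).comp (B s))) (Q.w s i x) =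
          Q.step t (Q.oracleL x (∑ s ∈ Finset.range t, B s (Q.w s i x))) := by
        rw [map_sum, map_sum]
        refine Finset.sum_congr rfl fun s hs => ?_
        rw [if_neg (Finset.mem_range.1 hs).ne]
        rfl
      rw [h1, ← hB2 i, map_sub, oracleL_apply, oracleL_apply, ← map_add]
      simp only [Algorithm.state]
      rw [← map_sub]
      congr 1
      unfold Algorithm.w
      abel

lemma inner_supp {T : Finset A} {v w : EuclideanSpace ℂ A} (hw : ∀ a, a ∉ T → w a = 0) :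
    ‖⟪v, w⟫_ℂ‖ ≤ √(pm T v) * ‖w‖ := by
  have h1 : ⟪v, w⟫_ℂ = ∑ a ∈ T, (starRingEnd ℂ) (v a) * w a := by
    rw [inner_eq, ← Finset.sum_subset (Finset.subset_univ T)]
    intro a _ ha
    rw [hw a ha, mul_zero]
  rw [h1]
  calc ‖∑ a ∈ T, (starRingEnd ℂ) (v a) * w a‖ ≤ ∑ a ∈ T, ‖v a‖ * ‖w a‖ := by
        refine norm_sum_le_of_le _ fun a _ => ?_
        rw [norm_mul, RCLike.norm_conj]
    _ ≤ √(pm T v) * √(pm T w) := Real.sum_mul_le_sqrt_mul_sqrt _ _ _
    _ ≤ √(pm T v) * ‖w‖ := by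
        gcongr
        rw [show ‖w‖ = √(‖w‖ ^ 2) by rw [Real.sqrt_sq (norm_nonneg _)]]
        exact Real.sqrt_le_sqrt (pm_le T w)

lemma inner_proj_le (T : Finset A) (ψ z : EuclideanSpace ℂ A) :
    ‖⟪proj T ψ, z⟫_ℂ‖ ≤ √(pm T ψ) * √(pm T z) := by
  classical
  have h1 : ⟪proj T ψ, z⟫_ℂ = ∑ a ∈ T, (starRingEnd ℂ) (ψ a) * z a := by
    rw [inner_eq, ← Finset.sum_subset (Finset.subset_univ T)]
    · refine Finset.sum_congr rfl fun a ha => ?_
      simp [proj, ha]
    · intro a _ ha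
      simp [proj, ha]
  rw [h1]
  calc ‖∑ a ∈ T, (starRingEnd ℂ) (ψ a) * z a‖ ≤ ∑ a ∈ T, ‖ψ a‖ * ‖z a‖ := by
        refine norm_sum_le_of_le _ fun a _ => ?_
        rw [norm_mul, RCLike.norm_conj]
    _ ≤ √(pm T ψ) * √(pm T z) := Real.sum_mul_le_sqrt_mul_sqrt _ _ _

lemma norm_adjoint_le {B : EuclideanSpace ℂ A →L[ℂ] EuclideanSpace ℂ A}
    (hB : ∀ φ, ‖B φ‖ ≤ ‖φ‖) (u : EuclideanSpace ℂ A) :
    ‖ContinuousLinearMap.adjoint B u‖ ≤ ‖u‖ := by
  have h1 : ‖B‖ ≤ 1 :=
    ContinuousLinearMap.opNorm_le_bound _ zero_le_one fun φ => by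
      simpa using hB φ
  calc ‖ContinuousLinearMap.adjoint B u‖
      ≤ ‖ContinuousLinearMap.adjoint B‖ * ‖u‖ := ContinuousLinearMap.le_opNorm _ _
    _ = ‖B‖ * ‖u‖ := by rw [LinearIsometryEquiv.norm_map]
    _ ≤ 1 * ‖u‖ := by gcongr
    _ = ‖u‖ := one_mul _

/-- The row-column Cauchy–Schwarz inequality. -/
lemma row_column (Q : Algorithm I A p) {J : Type} [Fintype J] (T : J → Finset A) {m : ℝ}
    (hm : 0 ≤ m) (hT : ∀ φ, ∑ j, pm (T j) φ ≤ m * ‖φ‖ ^ 2) (ψ ψ' : EuclideanSpace ℂ A)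
    {B B' : EuclideanSpace ℂ A →L[ℂ] EuclideanSpace ℂ A}
    (hB : ∀ φ, ‖B φ‖ ≤ ‖φ‖) (hB' : ∀ φ, ‖B' φ‖ ≤ ‖φ‖) (w w' : I → EuclideanSpace ℂ A)
    (hw : ∀ i a, a ∉ Q.look i → w i a = 0) :
    ∑ j, ∑ i, ‖⟪proj (T j) ψ, B (w i)⟫_ℂ‖ * ‖⟪proj (T j) ψ', B' (w' i)⟫_ℂ‖ ≤
      √(p * m) * (√(∑ j, pm (T j) ψ * pm (T j) ψ') * √(∑ i, ‖w i‖ ^ 2 * ‖w' i‖ ^ 2)) := by
  set X : J × I → ℝ := fun z =>
    √(pm (Q.look z.2) (ContinuousLinearMap.adjoint B (proj (T z.1) ψ))) *
      √(pm (T z.1) ψ') with hX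
  set Y : J × I → ℝ := fun z => √(pm (T z.1) (B' (w' z.2))) * ‖w z.2‖ with hY
  have h1 : ∑ j, ∑ i, ‖⟪proj (T j) ψ, B (w i)⟫_ℂ‖ * ‖⟪proj (T j) ψ', B' (w' i)⟫_ℂ‖ ≤
      ∑ z : J × I, X z * Y z := by
    rw [Fintype.sum_prod_type]
    refine Finset.sum_le_sum fun j _ => Finset.sum_le_sum fun i _ => ?_
    have h2 : ‖⟪proj (T j) ψ, B (w i)⟫_ℂ‖ ≤
        √(pm (Q.look i) (ContinuousLinearMap.adjoint B (proj (T j) ψ))) * ‖w i‖ := by
      rw [← ContinuousLinearMap.adjoint_inner_left]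
      exact inner_supp (hw i)
    have h3 := inner_proj_le (T j) ψ' (B' (w' i))
    calc ‖⟪proj (T j) ψ, B (w i)⟫_ℂ‖ * ‖⟪proj (T j) ψ', B' (w' i)⟫_ℂ‖
        ≤ (√(pm (Q.look i) (ContinuousLinearMap.adjoint B (proj (T j) ψ))) * ‖w i‖) *
          (√(pm (T j) ψ') * √(pm (T j) (B' (w' i)))) := by gcongr
      _ = X (j, i) * Y (j, i) := by simp only [hX, hY]; ring
  refine h1.trans ((Real.sum_mul_le_sqrt_mul_sqrt _ X Y).trans ?_)
  have h2 : ∑ z : J × I, X z ^ 2 ≤ p * ∑ j, pm (T j) ψ * pm (T j) ψ' := by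
    rw [Fintype.sum_prod_type, Finset.mul_sum]
    refine Finset.sum_le_sum fun j _ => ?_
    calc ∑ i, X (j, i) ^ 2
        = (∑ i, pm (Q.look i) (ContinuousLinearMap.adjoint B (proj (T j) ψ))) *
          pm (T j) ψ' := by
          rw [Finset.sum_mul]
          refine Finset.sum_congr rfl fun i _ => ?_
          simp only [hX]
          rw [mul_pow, Real.sq_sqrt (pm_nonneg _ _), Real.sq_sqrt (pm_nonneg _ _)]
      _ ≤ (p * pm (T j) ψ) * pm (T j) ψ' := by
          apply mul_le_mul_of_nonneg_right _ (pm_nonneg _ _)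
          refine (sum_pm_look Q _).trans ?_
          rw [← norm_proj_sq (T j) ψ]
          have := norm_adjoint_le hB (proj (T j) ψ)
          gcongr
      _ = _ := by ring
  have h3 : ∑ z : J × I, Y z ^ 2 ≤ m * ∑ i, ‖w i‖ ^ 2 * ‖w' i‖ ^ 2 := by
    rw [Fintype.sum_prod_type_right, Finset.mul_sum]
    refine Finset.sum_le_sum fun i _ => ?_
    calc ∑ j, Y (j, i) ^ 2 = (∑ j, pm (T j) (B' (w' i))) * ‖w i‖ ^ 2 := by
          rw [Finset.sum_mul]
          refine Finset.sum_congr rfl fun j _ => ?_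
          simp only [hY]
          rw [mul_pow, Real.sq_sqrt (pm_nonneg _ _)]
      _ ≤ (m * ‖w' i‖ ^ 2) * ‖w i‖ ^ 2 := by
          apply mul_le_mul_of_nonneg_right _ (by positivity)
          refine (hT _).trans ?_
          have := hB' (w' i)
          gcongr
      _ = _ := by ring
  have hp0 : (0 : ℝ) ≤ p := by positivity
  calc √(∑ z : J × I, X z ^ 2) * √(∑ z : J × I, Y z ^ 2)
      ≤ √(p * ∑ j, pm (T j) ψ * pm (T j) ψ') * √(m * ∑ i, ‖w i‖ ^ 2 * ‖w' i‖ ^ 2) := by
        gcongr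
    _ = _ := by
        rw [Real.sqrt_mul hp0, Real.sqrt_mul hm, Real.sqrt_mul hp0]
        ring

/-- The collision function of a family of projections. -/
noncomputable def Algorithm.Fn (Q : Algorithm I A p) {J : Type} [Fintype J] (T : J → Finset A)
    (s s' : ℕ) (ρ : ℝ) : ℝ :=
  corr ρ (fun x y => ∑ j, pm (T j) (Q.state s x) * pm (T j) (Q.state s' y))

/-- The collision function of the queries. -/
noncomputable def Algorithm.Col (Q : Algorithm I A p) (s s' : ℕ) (ρ : ℝ) : ℝ :=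
  Q.Fn Q.look s s' ρ

lemma Fn_nonneg (Q : Algorithm I A p) {J : Type} [Fintype J] (T : J → Finset A) (s s' : ℕ)
    {ρ : ℝ} (h0 : 0 ≤ ρ) (h1 : ρ ≤ 1) : 0 ≤ Q.Fn T s s' ρ :=
  corr_nonneg h0 h1 fun _ _ => Finset.sum_nonneg fun _ _ =>
    mul_nonneg (pm_nonneg _ _) (pm_nonneg _ _)

/-- The amplitude change in direction of the projected state. -/
noncomputable def Algorithm.am (Q : Algorithm I A p) (T : Finset A) (s : ℕ) (i : I)
    (x : I → Bool) : ℝ :=
  (⟪proj T (Q.state s x), Q.state s x - Q.state s (flip i x)⟫_ℂ).re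

lemma inner_proj_re (T : Finset A) (φ φ' : EuclideanSpace ℂ A) :
    (⟪proj T φ, φ - φ'⟫_ℂ).re = ∑ a ∈ T, ((φ a).re * ((φ a).re - (φ' a).re) +
      (φ a).im * ((φ a).im - (φ' a).im)) := by
  classical
  have h1 : ⟪proj T φ, φ - φ'⟫_ℂ = ∑ a ∈ T, (starRingEnd ℂ) (φ a) * (φ a - φ' a) := by
    rw [inner_eq, ← Finset.sum_subset (Finset.subset_univ T)]
    · refine Finset.sum_congr rfl fun a ha => ?_
      simp [proj, ha]
    · intro a _ ha
      simp [proj, ha]
  rw [h1, Complex.re_sum]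
  refine Finset.sum_congr rfl fun a _ => ?_
  simp only [Complex.mul_re, Complex.conj_re, Complex.conj_im, Complex.sub_re, Complex.sub_im]
  ring

lemma pm_sub_eq (T : Finset A) (φ φ' : EuclideanSpace ℂ A) :
    pm T φ - pm T φ' = (⟪proj T φ, φ - φ'⟫_ℂ).re - (⟪proj T φ', φ' - φ⟫_ℂ).re := by
  rw [inner_proj_re, inner_proj_re]
  unfold pm
  rw [← Finset.sum_sub_distrib, ← Finset.sum_sub_distrib]
  refine Finset.sum_congr rfl fun a _ => ?_
  rw [← Complex.normSq_eq_norm_sq, ← Complex.normSq_eq_norm_sq, Complex.normSq_apply,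
    Complex.normSq_apply]
  ring

lemma re_add_re_nonneg (T : Finset A) (φ φ' : EuclideanSpace ℂ A) :
    0 ≤ (⟪proj T φ, φ - φ'⟫_ℂ).re + (⟪proj T φ', φ' - φ⟫_ℂ).re := by
  rw [inner_proj_re, inner_proj_re, ← Finset.sum_add_distrib]
  refine Finset.sum_nonneg fun a _ => ?_
  nlinarith [sq_nonneg ((φ a).re - (φ' a).re), sq_nonneg ((φ a).im - (φ' a).im)]

/-- The pointwise two-copy bound. -/
lemma pointwise_two (Q : Algorithm I A p) {J : Type} [Fintype J] (T : J → Finset A) {m : ℝ}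
    (hm : 0 ≤ m) (hT : ∀ φ, ∑ j, pm (T j) φ ≤ m * ‖φ‖ ^ 2) (s s' : ℕ) (x y : I → Bool) :
    ∑ j, ∑ i, |Q.am (T j) s i x| * |Q.am (T j) s' i y| ≤
      ∑ s1 ∈ Finset.range s, ∑ s2 ∈ Finset.range s', 4 * √(p * m) *
        (√(∑ j, pm (T j) (Q.state s x) * pm (T j) (Q.state s' y)) *
          √(∑ i, pm (Q.look i) (Q.state s1 (flip i x)) *
            pm (Q.look i) (Q.state s2 (flip i y)))) := by
  obtain ⟨B, hB1, hB2⟩ := state_sub Q x s
  obtain ⟨B', hB1', hB2'⟩ := state_sub Q y s'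
  have h1 : ∀ j i, |Q.am (T j) s i x| ≤ ∑ s1 ∈ Finset.range s,
      ‖⟪proj (T j) (Q.state s x), B s1 (Q.w s1 i x)⟫_ℂ‖ := by
    intro j i
    unfold Algorithm.am
    refine (Complex.abs_re_le_norm _).trans ?_
    rw [hB2 i, inner_sum]
    exact norm_sum_le _ _
  have h1' : ∀ j i, |Q.am (T j) s' i y| ≤ ∑ s2 ∈ Finset.range s',
      ‖⟪proj (T j) (Q.state s' y), B' s2 (Q.w s2 i y)⟫_ℂ‖ := by
    intro j i
    unfold Algorithm.am
    refine (Complex.abs_re_le_norm _).trans ?_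
    rw [hB2' i, inner_sum]
    exact norm_sum_le _ _
  calc ∑ j, ∑ i, |Q.am (T j) s i x| * |Q.am (T j) s' i y|
      ≤ ∑ j, ∑ i, (∑ s1 ∈ Finset.range s,
          ‖⟪proj (T j) (Q.state s x), B s1 (Q.w s1 i x)⟫_ℂ‖) *
          (∑ s2 ∈ Finset.range s',
            ‖⟪proj (T j) (Q.state s' y), B' s2 (Q.w s2 i y)⟫_ℂ‖) := by
        refine Finset.sum_le_sum fun j _ => Finset.sum_le_sum fun i _ => ?_
        exact mul_le_mul (h1 j i) (h1' j i) (abs_nonneg _)
          (Finset.sum_nonneg fun _ _ => norm_nonneg _)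
    _ = ∑ s1 ∈ Finset.range s, ∑ s2 ∈ Finset.range s', ∑ j, ∑ i,
          ‖⟪proj (T j) (Q.state s x), B s1 (Q.w s1 i x)⟫_ℂ‖ *
          ‖⟪proj (T j) (Q.state s' y), B' s2 (Q.w s2 i y)⟫_ℂ‖ := by
        simp_rw [Finset.sum_mul_sum]
        rw [Finset.sum_comm]
        have e1 : ∀ i : I, ∑ j : J, ∑ s1 ∈ Finset.range s, ∑ s2 ∈ Finset.range s',
            ‖⟪proj (T j) (Q.state s x), B s1 (Q.w s1 i x)⟫_ℂ‖ *
            ‖⟪proj (T j) (Q.state s' y), B' s2 (Q.w s2 i y)⟫_ℂ‖ =
            ∑ s1 ∈ Finset.range s, ∑ s2 ∈ Finset.range s', ∑ j : J,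
            ‖⟪proj (T j) (Q.state s x), B s1 (Q.w s1 i x)⟫_ℂ‖ *
            ‖⟪proj (T j) (Q.state s' y), B' s2 (Q.w s2 i y)⟫_ℂ‖ := by
          intro i
          rw [Finset.sum_comm]
          refine Finset.sum_congr rfl fun s1 _ => ?_
          rw [Finset.sum_comm]
        simp_rw [e1]
        rw [Finset.sum_comm]
        refine Finset.sum_congr rfl fun s1 _ => ?_
        rw [Finset.sum_comm]
        refine Finset.sum_congr rfl fun s2 _ => ?_
        rw [Finset.sum_comm]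
    _ ≤ _ := by
        refine Finset.sum_le_sum fun s1 _ => Finset.sum_le_sum fun s2 _ => ?_
        refine (row_column Q T hm hT (Q.state s x) (Q.state s' y) (hB1 s1) (hB1' s2)
          (fun i => Q.w s1 i x) (fun i => Q.w s2 i y)
          (fun i a ha => w_apply_eq_zero Q s1 i x ha)).trans ?_
        have h5 : √(∑ i, ‖Q.w s1 i x‖ ^ 2 * ‖Q.w s2 i y‖ ^ 2) ≤
            4 * √(∑ i, pm (Q.look i) (Q.state s1 (flip i x)) *
              pm (Q.look i) (Q.state s2 (flip i y))) := by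
          have h6 : ∑ i, ‖Q.w s1 i x‖ ^ 2 * ‖Q.w s2 i y‖ ^ 2 ≤
              4 ^ 2 * ∑ i, pm (Q.look i) (Q.state s1 (flip i x)) *
              pm (Q.look i) (Q.state s2 (flip i y)) := by
            rw [Finset.mul_sum]
            refine Finset.sum_le_sum fun i _ => ?_
            calc ‖Q.w s1 i x‖ ^ 2 * ‖Q.w s2 i y‖ ^ 2
                ≤ (4 * pm (Q.look i) (Q.state s1 (flip i x))) *
                  (4 * pm (Q.look i) (Q.state s2 (flip i y))) :=
                  mul_le_mul (norm_w_sq Q s1 i x) (norm_w_sq Q s2 i y) (by positivity)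
                    (mul_nonneg (by norm_num) (pm_nonneg _ _))
              _ = _ := by ring
          calc √(∑ i, ‖Q.w s1 i x‖ ^ 2 * ‖Q.w s2 i y‖ ^ 2)
              ≤ √(4 ^ 2 * ∑ i, pm (Q.look i) (Q.state s1 (flip i x)) *
              pm (Q.look i) (Q.state s2 (flip i y))) := Real.sqrt_le_sqrt h6
            _ = _ := by
                rw [Real.sqrt_mul (by norm_num), Real.sqrt_sq (by norm_num)]
        calc _ ≤ √(p * m) * (√(∑ j, pm (T j) (Q.state s x) * pm (T j) (Q.state s' y)) *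
              (4 * √(∑ i, pm (Q.look i) (Q.state s1 (flip i x)) *
              pm (Q.look i) (Q.state s2 (flip i y))))) := by gcongr
          _ = _ := by ring

/-- **The differential inequality** for the collision functions. -/
lemma deriv_Fn_le (Q : Algorithm I A p) {J : Type} [Fintype J] (T : J → Finset A) {m : ℝ}
    (hm : 0 ≤ m) (hT : ∀ φ, ∑ j, pm (T j) φ ≤ m * ‖φ‖ ^ 2) (s s' : ℕ) {ρ : ℝ}
    (h0 : 0 ≤ ρ) (h1 : ρ ≤ 1) :
    ∃ d, HasDerivAt (Q.Fn T s s') d ρ ∧ d ≤ 8 * √(p * m) * √(Q.Fn T s s' ρ) *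
      ∑ s1 ∈ Finset.range s, ∑ s2 ∈ Finset.range s', √(Q.Col s1 s2 ρ) := by
  refine ⟨_, hasDerivAt_corr _ ρ, ?_⟩
  -- split the sum over `j`
  have e1 : ∀ i, dcorr i ρ (fun x y => ∑ j, pm (T j) (Q.state s x) * pm (T j) (Q.state s' y)) =
      ∑ j, dcorr i ρ (fun x y => pm (T j) (Q.state s x) * pm (T j) (Q.state s' y)) := by
    intro i
    unfold dcorr
    rw [← Finset.mul_sum]
    congr 1
    symm
    rw [Finset.sum_comm]
    refine Finset.sum_congr rfl fun x _ => ?_
    rw [Finset.sum_comm]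
    refine Finset.sum_congr rfl fun y _ => ?_
    rw [Finset.mul_sum]
  simp_rw [e1]
  have h2 : ∀ i j, dcorr i ρ (fun x y => pm (T j) (Q.state s x) * pm (T j) (Q.state s' y)) ≤
      2 * corr ρ (fun x y => |Q.am (T j) s i x| * |Q.am (T j) s' i y|) := by
    intro i j
    apply dcorr_le h0 h1
    · intro x
      have := pm_sub_eq (T j) (Q.state s x) (Q.state s (flip i x))
      unfold Algorithm.am
      rw [flip_flip]
      exact this
    · intro x
      have := re_add_re_nonneg (T j) (Q.state s x) (Q.state s (flip i x))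
      unfold Algorithm.am
      rw [flip_flip]
      exact this
    · intro x
      have := pm_sub_eq (T j) (Q.state s' x) (Q.state s' (flip i x))
      unfold Algorithm.am
      rw [flip_flip]
      exact this
    · intro x
      have := re_add_re_nonneg (T j) (Q.state s' x) (Q.state s' (flip i x))
      unfold Algorithm.am
      rw [flip_flip]
      exact this
  calc ∑ i, ∑ j, dcorr i ρ (fun x y => pm (T j) (Q.state s x) * pm (T j) (Q.state s' y))
      ≤ ∑ i, ∑ j, 2 * corr ρ (fun x y => |Q.am (T j) s i x| * |Q.am (T j) s' i y|) :=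
        Finset.sum_le_sum fun i _ => Finset.sum_le_sum fun j _ => h2 i j
    _ = 2 * corr ρ (fun x y => ∑ j, ∑ i, |Q.am (T j) s i x| * |Q.am (T j) s' i y|) := by
        rw [corr_sum, Finset.mul_sum, Finset.sum_comm]
        refine Finset.sum_congr rfl fun j _ => ?_
        rw [corr_sum, Finset.mul_sum]
    _ ≤ 2 * corr ρ (fun x y => ∑ s1 ∈ Finset.range s, ∑ s2 ∈ Finset.range s', 4 * √(p * m) *
        (√(∑ j, pm (T j) (Q.state s x) * pm (T j) (Q.state s' y)) *
          √(∑ i, pm (Q.look i) (Q.state s1 (flip i x)) *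
            pm (Q.look i) (Q.state s2 (flip i y))))) := by
        apply mul_le_mul_of_nonneg_left _ (by norm_num)
        exact corr_mono h0 h1 fun x y => pointwise_two Q T hm hT s s' x y
    _ = 2 * ∑ s1 ∈ Finset.range s, ∑ s2 ∈ Finset.range s', 4 * √(p * m) *
        corr ρ (fun x y => √(∑ j, pm (T j) (Q.state s x) * pm (T j) (Q.state s' y)) *
          √(∑ i, pm (Q.look i) (Q.state s1 (flip i x)) *
            pm (Q.look i) (Q.state s2 (flip i y)))) := by
        rw [corr_sum]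
        congr 1
        refine Finset.sum_congr rfl fun s1 _ => ?_
        rw [corr_sum]
        refine Finset.sum_congr rfl fun s2 _ => ?_
        rw [corr_const_mul]
    _ ≤ 2 * ∑ s1 ∈ Finset.range s, ∑ s2 ∈ Finset.range s', 4 * √(p * m) *
        (√(Q.Fn T s s' ρ) * √(Q.Col s1 s2 ρ)) := by
        gcongr with s1 _ s2 _
        refine (corr_sqrt_mul_sqrt h0 h1
          (fun x y => Finset.sum_nonneg fun _ _ => mul_nonneg (pm_nonneg _ _) (pm_nonneg _ _))
          (fun x y => Finset.sum_nonneg fun _ _ =>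
            mul_nonneg (pm_nonneg _ _) (pm_nonneg _ _))).trans ?_
        apply le_of_eq
        congr 2
        unfold Algorithm.Col Algorithm.Fn
        rw [corr_sum, corr_sum]
        refine Finset.sum_congr rfl fun i _ => ?_
        exact corr_flip_both ρ i (fun x y => pm (Q.look i) (Q.state s1 x) *
          pm (Q.look i) (Q.state s2 y))
    _ = _ := by
        rw [Finset.mul_sum, Finset.mul_sum]
        refine Finset.sum_congr rfl fun s1 _ => ?_
        rw [Finset.mul_sum, Finset.mul_sum]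
        refine Finset.sum_congr rfl fun s2 _ => ?_
        ring

end Pool.Agent.Lib_helper8.QAA
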