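import Pool.Agent.Lib_helper8.QABMain

/-!
# Bounds for the growth factor
-/

set_option autoImplicit false
set_option linter.unusedSectionVars false

open Finset

namespace Pool.Agent.Lib_helper8.QAA

lemma Wf_le_pow {p : ℕ} (hp : 1 ≤ p) (r : ℕ) : Wf r p r r 1 ≤ (16 * (p : ℝ)) ^ r := by
  have hp' : (1 : ℝ) ≤ p := by exact_mod_cast hp
  unfold Wf
  calc ∑ k ∈ Finset.range (r + 1), (4 * (p : ℝ) * 1) ^ k / (k.factorial : ℝ) *
        ((r.choose k : ℝ) * (r.choose k : ℝ))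
      ≤ ∑ k ∈ Finset.range (r + 1), (4 * (p : ℝ)) ^ r *
        ((r.choose k : ℝ) * 2 ^ r) := by
        refine Finset.sum_le_sum fun k hk => ?_
        have hk' : k ≤ r := Nat.lt_succ_iff.1 (Finset.mem_range.1 hk)
        have h1 : (4 * (p : ℝ) * 1) ^ k / (k.factorial : ℝ) ≤ (4 * (p : ℝ)) ^ r := by
          rw [mul_one]
          have h2 : (1 : ℝ) ≤ (k.factorial : ℝ) := by
            exact_mod_cast Nat.succ_le_of_lt (Nat.factorial_pos k)
          calc (4 * (p : ℝ)) ^ k / (k.factorial : ℝ) ≤ (4 * (p : ℝ)) ^ k / 1 := by gcongr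
            _ = (4 * (p : ℝ)) ^ k := div_one _
            _ ≤ (4 * (p : ℝ)) ^ r := pow_le_pow_right₀ (by linarith) hk'
        have h3 : (r.choose k : ℝ) ≤ 2 ^ r := by exact_mod_cast Nat.choose_le_two_pow r k
        gcongr
    _ = (16 * (p : ℝ)) ^ r := by
        rw [← Finset.mul_sum, ← Finset.sum_mul]
        have h1 : ∑ k ∈ Finset.range (r + 1), (r.choose k : ℝ) = 2 ^ r := by
          exact_mod_cast Nat.sum_range_choose r
        rw [h1, ← mul_pow, ← mul_pow]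
        congr 1
        ring

lemma Wf_le_exp {p : ℕ} (r : ℕ) :
    Wf r p r r 1 ≤ Real.exp (5 * ((p : ℝ) * r ^ 2) ^ ((1 : ℝ) / 3)) := by
  set y : ℝ := ((p : ℝ) * r ^ 2) ^ ((1 : ℝ) / 3) with hy
  have hy0 : 0 ≤ y := by positivity
  have hy3 : y ^ 3 = (p : ℝ) * r ^ 2 := by
    rw [hy, ← Real.rpow_natCast, ← Real.rpow_mul (by positivity)]
    norm_num
  set z : ℝ := 5 / 3 * y with hz
  have hz0 : 0 ≤ z := by positivity
  have hz3 : 4 * (p : ℝ) * r ^ 2 ≤ z ^ 3 := by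
    rw [hz, mul_pow, hy3]
    have : (0 : ℝ) ≤ (p : ℝ) * r ^ 2 := by positivity
    nlinarith
  have h1 : ∀ k, (4 * (p : ℝ) * 1) ^ k / (k.factorial : ℝ) *
      ((r.choose k : ℝ) * (r.choose k : ℝ)) ≤ (z ^ k / (k.factorial : ℝ)) ^ 3 := by
    intro k
    have hk : (0 : ℝ) < (k.factorial : ℝ) := by exact_mod_cast Nat.factorial_pos k
    have h2 : (r.choose k : ℝ) ≤ (r : ℝ) ^ k / (k.factorial : ℝ) := Nat.choose_le_pow_div k r
    calc (4 * (p : ℝ) * 1) ^ k / (k.factorial : ℝ) * ((r.choose k : ℝ) * (r.choose k : ℝ))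
        ≤ (4 * (p : ℝ) * 1) ^ k / (k.factorial : ℝ) *
          ((r : ℝ) ^ k / (k.factorial : ℝ) * ((r : ℝ) ^ k / (k.factorial : ℝ))) := by
          gcongr
      _ = (4 * (p : ℝ) * r ^ 2) ^ k / (k.factorial : ℝ) ^ 3 := by
          rw [mul_one, mul_pow (4 * (p : ℝ)) ((r : ℝ) ^ 2) k, ← pow_mul, mul_comm 2 k, pow_mul]
          field_simp
      _ ≤ (z ^ 3) ^ k / (k.factorial : ℝ) ^ 3 := by gcongr
      _ = _ := by rw [div_pow, ← pow_mul, ← pow_mul, mul_comm 3 k]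
  have h2 : ∑ k ∈ Finset.range (r + 1), (z ^ k / (k.factorial : ℝ)) ^ 3 ≤
      (∑ k ∈ Finset.range (r + 1), z ^ k / (k.factorial : ℝ)) ^ 3 := by
    set S := ∑ k ∈ Finset.range (r + 1), z ^ k / (k.factorial : ℝ) with hS
    have hterm : ∀ k ∈ Finset.range (r + 1), z ^ k / (k.factorial : ℝ) ≤ S := fun k hk =>
      Finset.single_le_sum (f := fun k => z ^ k / (k.factorial : ℝ))
        (fun _ _ => by positivity) hk
    have hS0 : 0 ≤ S := Finset.sum_nonneg fun _ _ => by positivity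
    calc ∑ k ∈ Finset.range (r + 1), (z ^ k / (k.factorial : ℝ)) ^ 3
        ≤ ∑ k ∈ Finset.range (r + 1), S ^ 2 * (z ^ k / (k.factorial : ℝ)) := by
          refine Finset.sum_le_sum fun k hk => ?_
          have h0 : 0 ≤ z ^ k / (k.factorial : ℝ) := by positivity
          have h3 := hterm k hk
          calc (z ^ k / (k.factorial : ℝ)) ^ 3
              = (z ^ k / (k.factorial : ℝ)) ^ 2 * (z ^ k / (k.factorial : ℝ)) := by ring
            _ ≤ S ^ 2 * (z ^ k / (k.factorial : ℝ)) := by gcongr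
      _ = S ^ 3 := by rw [← Finset.mul_sum, ← hS]; ring
  calc Wf r p r r 1 ≤ ∑ k ∈ Finset.range (r + 1), (z ^ k / (k.factorial : ℝ)) ^ 3 :=
        Finset.sum_le_sum fun k _ => h1 k
    _ ≤ (∑ k ∈ Finset.range (r + 1), z ^ k / (k.factorial : ℝ)) ^ 3 := h2
    _ ≤ Real.exp z ^ 3 := by
        have := Real.sum_le_exp_of_nonneg hz0 (r + 1)
        have h0 : 0 ≤ ∑ k ∈ Finset.range (r + 1), z ^ k / (k.factorial : ℝ) :=
          Finset.sum_nonneg fun _ _ => by positivity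
        gcongr
    _ = Real.exp (5 * y) := by
        rw [← Real.exp_nat_mul]
        congr 1
        rw [hz]
        push_cast
        ring

variable {I A : Type} [Fintype I] [DecidableEq I] [Fintype A] {p : ℕ}

/-- **The Aaronson–Ambainis inequality for quantum query algorithms**, with explicit bound. -/
lemma aa_quantum' (hp : 1 ≤ p) {r : ℕ} (hr : 1 ≤ r) (Q : Algorithm I A p) {v : ℝ} (hv : 0 < v)
    (hvar : ex (fun x => Q.prob r x ^ 2) - ex (Q.prob r) ^ 2 = v) :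
    ∃ i, v ^ 6 / (2 ^ 16 * r ^ 2 * p ^ 2 *
      min ((16 * (p : ℝ)) ^ (4 * r)) (Real.exp (20 * ((p : ℝ) * r ^ 2) ^ ((1 : ℝ) / 3)))) ≤
      ex (fun x => ((Q.prob r x - Q.prob r (flip i x)) / 2) ^ 2) := by
  obtain ⟨i, hi⟩ := aa_quantum hp hr Q hv hvar
  refine ⟨i, le_trans ?_ hi⟩
  have hp0 : (0 : ℝ) < p := by exact_mod_cast hp
  have hr0 : (0 : ℝ) < r := by exact_mod_cast hr
  have hW0 : 0 < Wf r p r r 1 := by
    have h1 : Wf r p r r 0 ≤ Wf r p r r 1 := by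
      unfold Wf
      refine Finset.sum_le_sum fun k _ => ?_
      have : (4 * (p : ℝ) * 0) ^ k ≤ (4 * (p : ℝ) * 1) ^ k := by
        gcongr
        norm_num
      gcongr
    rw [Wf_zero] at h1
    linarith
  have h1 : Wf r p r r 1 ^ 4 ≤ (16 * (p : ℝ)) ^ (4 * r) := by
    calc Wf r p r r 1 ^ 4 ≤ ((16 * (p : ℝ)) ^ r) ^ 4 := by
          have := Wf_le_pow hp r
          gcongr
      _ = _ := by rw [← pow_mul, mul_comm r 4]
  have h2 : Wf r p r r 1 ^ 4 ≤ Real.exp (20 * ((p : ℝ) * r ^ 2) ^ ((1 : ℝ) / 3)) := by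
    calc Wf r p r r 1 ^ 4 ≤ Real.exp (5 * ((p : ℝ) * r ^ 2) ^ ((1 : ℝ) / 3)) ^ 4 := by
          have := Wf_le_exp (p := p) r
          gcongr
      _ = _ := by
          rw [← Real.exp_nat_mul]
          congr 1
          push_cast
          ring
  have h3 := le_min h1 h2
  gcongr

end Pool.Agent.Lib_helper8.QAA
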