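import Pool.Agent.Lib_helper8.QABOde
import Pool.Agent.Lib_helper8.QABTree

/-!
# The decision tree
-/

set_option autoImplicit false
set_option linter.unusedSectionVars false

open Finset

namespace Pool.Agent.Lib_helper8.QAA

variable {I A : Type} [Fintype I] [DecidableEq I] [Fintype A] {p : ℕ}

/-- Fixing the coordinate `i` to `b`. -/
noncomputable def Algorithm.set (Q : Algorithm I A p) (i : I) (b : Bool) :
    Algorithm I A p where
  query a := (Q.query a).erase i
  phase a x := Q.phase a (Function.update x i b)
  step := Q.step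
  init := Q.init
  accept := Q.accept
  card_query_le a := (Finset.card_le_card (Finset.erase_subset _ _)).trans (Q.card_query_le a)
  norm_phase_le a x := Q.norm_phase_le a _
  phase_congr a x x' h := Q.phase_congr a _ _ fun j hj => by
    by_cases hji : j = i
    · subst hji; simp
    · rw [Function.update_of_ne hji, Function.update_of_ne hji]
      exact h j (Finset.mem_erase.2 ⟨hji, hj⟩)
  norm_step_le := Q.norm_step_le
  norm_init_le := Q.norm_init_le

lemma set_state (Q : Algorithm I A p) (i : I) (b : Bool) (x : I → Bool) (s : ℕ) :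
    (Q.set i b).state s x = Q.state s (Function.update x i b) := by
  induction s with
  | zero => rfl
  | succ s ih =>
    show Q.step s ((Q.set i b).oracle x ((Q.set i b).state s x)) =
      Q.step s (Q.oracle (Function.update x i b) (Q.state s (Function.update x i b)))
    rw [ih]
    rfl

lemma set_prob (Q : Algorithm I A p) (i : I) (b : Bool) (x : I → Bool) (r : ℕ) :
    (Q.set i b).prob r x = Q.prob r (Function.update x i b) := by
  unfold Algorithm.prob
  rw [set_state]
  rfl

lemma ex_update (i : I) (F : (I → Bool) → ℝ) :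
    (ex (fun x => F (Function.update x i false)) + ex (fun x => F (Function.update x i true))) / 2 =
      ex F := by
  rw [← ex_ite (i := i) (F := fun y => F (Function.update y i false))
    (G := fun y => F (Function.update y i true)) (fun x => by simp [flip])
    (fun x => by simp [flip])]
  congr 1
  funext x
  cases hx : x i with
  | true => rw [← hx, Function.update_eq_self]; simp [hx]
  | false => rw [← hx, Function.update_eq_self]; simp [hx]

/-- The coordinates which may be queried. -/
noncomputable def Algorithm.act (Q : Algorithm I A p) : Finset I := Finset.univ.biUnion Q.query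

/-- The total query magnitude. -/
noncomputable def Algorithm.mag (Q : Algorithm I A p) (r : ℕ) : ℝ :=
  ∑ s ∈ Finset.range r, ∑ j, ex (fun x => pm (Q.look j) (Q.state s x))

lemma look_eq_empty (Q : Algorithm I A p) {i : I} (h : i ∉ Q.act) : Q.look i = ∅ := by
  unfold Algorithm.look
  rw [Finset.filter_eq_empty_iff]
  intro a _ ha
  exact h (Finset.mem_biUnion.2 ⟨a, Finset.mem_univ _, ha⟩)

lemma act_set (Q : Algorithm I A p) (i : I) (b : Bool) : (Q.set i b).act ⊆ Q.act.erase i := by
  intro j hj
  obtain ⟨a, -, ha⟩ := Finset.mem_biUnion.1 hj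
  obtain ⟨h1, h2⟩ := Finset.mem_erase.1 ha
  exact Finset.mem_erase.2 ⟨h1, Finset.mem_biUnion.2 ⟨a, Finset.mem_univ _, h2⟩⟩

lemma set_look_of_ne (Q : Algorithm I A p) {i j : I} (b : Bool) (h : j ≠ i) :
    (Q.set i b).look j = Q.look j := by
  unfold Algorithm.look
  congr 1
  funext a
  simp [Algorithm.set, h]

lemma set_look_self (Q : Algorithm I A p) (i : I) (b : Bool) : (Q.set i b).look i = ∅ :=
  look_eq_empty _ fun h => (Finset.mem_erase.1 (act_set Q i b h)).1 rfl

lemma mag_set (Q : Algorithm I A p) (i : I) (r : ℕ) :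
    ((Q.set i false).mag r + (Q.set i true).mag r) / 2 =
      Q.mag r - ∑ s ∈ Finset.range r, ex (fun x => pm (Q.look i) (Q.state s x)) := by
  unfold Algorithm.mag
  rw [← Finset.sum_add_distrib, Finset.sum_div, ← Finset.sum_sub_distrib]
  refine Finset.sum_congr rfl fun s _ => ?_
  rw [← Finset.sum_add_distrib, Finset.sum_div,
    ← Finset.add_sum_erase _ (fun j => ex (fun x => pm (Q.look j) (Q.state s x)))
      (Finset.mem_univ i), add_sub_cancel_left,
    ← Finset.add_sum_erase _ _ (Finset.mem_univ i)]
  have h0 : (ex (fun x => pm ((Q.set i false).look i) ((Q.set i false).state s x)) +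
      ex (fun x => pm ((Q.set i true).look i) ((Q.set i true).state s x))) / 2 = 0 := by
    rw [set_look_self, set_look_self]
    simp only [pm, Finset.sum_empty]
    rw [ex_const]
    norm_num
  rw [h0, zero_add]
  refine Finset.sum_congr rfl fun j hj => ?_
  have hji := Finset.ne_of_mem_erase hj
  rw [set_look_of_ne Q false hji, set_look_of_ne Q true hji]
  simp_rw [set_state]
  exact ex_update i (fun x => pm (Q.look j) (Q.state s x))

lemma pm_state_le_one' (Q : Algorithm I A p) (T : Finset A) (s : ℕ) (x : I → Bool) :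
    pm T (Q.state s x) ≤ 1 := by
  refine (pm_le _ _).trans ?_
  have := norm_state_le Q s x
  have h0 := norm_nonneg (Q.state s x)
  nlinarith

lemma sum_ex_pm_le' (Q : Algorithm I A p) (t : ℕ) :
    ∑ j, ex (fun x => pm (Q.look j) (Q.state t x)) ≤ p := by
  rw [← ex_sum]
  have h : ∀ x, ∑ j, pm (Q.look j) (Q.state t x) ≤ p := by
    intro x
    calc ∑ j, pm (Q.look j) (Q.state t x) ≤ p * ‖Q.state t x‖ ^ 2 := sum_pm_look Q _
      _ ≤ p * 1 := by
          have := norm_state_le Q t x
          have h0 := norm_nonneg (Q.state t x)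
          have h1 : ‖Q.state t x‖ ^ 2 ≤ 1 := by nlinarith
          gcongr
      _ = p := mul_one _
  refine (ex_mono h).trans ?_
  rw [ex_const]

lemma mag_nonneg (Q : Algorithm I A p) (r : ℕ) : 0 ≤ Q.mag r :=
  Finset.sum_nonneg fun _ _ => Finset.sum_nonneg fun _ _ => ex_nonneg fun _ => pm_nonneg _ _

lemma mag_le (Q : Algorithm I A p) (r : ℕ) : Q.mag r ≤ r * p := by
  unfold Algorithm.mag
  calc ∑ s ∈ Finset.range r, ∑ j, ex (fun x => pm (Q.look j) (Q.state s x))
      ≤ ∑ _s ∈ Finset.range r, (p : ℝ) := Finset.sum_le_sum fun s _ => sum_ex_pm_le' Q s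
    _ = r * p := by rw [Finset.sum_const, Finset.card_range, nsmul_eq_mul]

lemma abs_prob_le' (Q : Algorithm I A p) (r : ℕ) (x : I → Bool) : |Q.prob r x| ≤ 1 := by
  have h0 : 0 ≤ Q.prob r x := pm_nonneg Q.accept (Q.state r x)
  have h1 : Q.prob r x ≤ 1 := pm_state_le_one' Q Q.accept r x
  rwa [abs_of_nonneg h0]

/-- The acceptance probability is approximated by a decision tree of small expected depth. -/
lemma main_tree (hp : 1 ≤ p) (r : ℕ) {θ ε : ℝ} (hθ : 0 < θ) (hε : 2 * √θ * Wf r p r r 1 ≤ ε)
    (n : ℕ) : ∀ Q : Algorithm I A p, Q.act.card ≤ n →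
    ∃ g : (I → Bool) → ℝ, CompE (Q.mag r / θ) g ∧ (∀ x, |g x| ≤ 1) ∧
      ex (fun x => (Q.prob r x - g x) ^ 2) ≤ ε ∧ ∀ i ∉ Q.act, ∀ x, g (flip i x) = g x := by
  induction n with
  | zero =>
    intro Q hQ
    have hact : Q.act = ∅ := Finset.card_eq_zero.1 (Nat.le_zero.1 hQ)
    refine ⟨fun _ => ex (Q.prob r), CompE.leaf _ _ _ (div_nonneg (mag_nonneg Q r) hθ.le)
      (fun _ => rfl), fun _ => ?_, ?_, fun _ _ _ => rfl⟩
    · refine (abs_ex_le _).trans ?_
      have := ex_mono (abs_prob_le' Q r)
      rwa [ex_const] at this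
    · have h1 : ex (fun x => (Q.prob r x - ex (Q.prob r)) ^ 2) =
          ex (fun x => Q.prob r x ^ 2) - ex (Q.prob r) ^ 2 := by
        have h2 : (fun x => (Q.prob r x - ex (Q.prob r)) ^ 2) =
            fun x => (Q.prob r x ^ 2 - (2 * ex (Q.prob r)) * Q.prob r x) + ex (Q.prob r) ^ 2 := by
          funext x; ring
        rw [h2, ex_add, ex_sub, ex_const_mul, ex_const]
        ring
      rw [h1]
      refine (variance_light Q hp r hθ.le (fun s _ j => ?_) (fun s => sum_ex_pm_le' Q s)
        (fun x => pm_state_le_one' Q _ _ x)).trans hε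
      rw [look_eq_empty Q (by rw [hact]; simp)]
      simp only [pm, Finset.sum_empty]
      rw [ex_const]
      exact hθ.le
  | succ n ih =>
    intro Q hQ
    by_cases hlight : ∀ s < r, ∀ j, ex (fun x => pm (Q.look j) (Q.state s x)) ≤ θ
    · refine ⟨fun _ => ex (Q.prob r), CompE.leaf _ _ _ (div_nonneg (mag_nonneg Q r) hθ.le)
        (fun _ => rfl), fun _ => ?_, ?_, fun _ _ _ => rfl⟩
      · refine (abs_ex_le _).trans ?_
        have := ex_mono (abs_prob_le' Q r)
        rwa [ex_const] at this
      · have h1 : ex (fun x => (Q.prob r x - ex (Q.prob r)) ^ 2) =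
            ex (fun x => Q.prob r x ^ 2) - ex (Q.prob r) ^ 2 := by
          have h2 : (fun x => (Q.prob r x - ex (Q.prob r)) ^ 2) =
              fun x => (Q.prob r x ^ 2 - (2 * ex (Q.prob r)) * Q.prob r x) +
                ex (Q.prob r) ^ 2 := by
            funext x; ring
          rw [h2, ex_add, ex_sub, ex_const_mul, ex_const]
          ring
        rw [h1]
        exact (variance_light Q hp r hθ.le hlight (fun s => sum_ex_pm_le' Q s)
          (fun x => pm_state_le_one' Q _ _ x)).trans hε
    · push Not at hlight
      obtain ⟨s, hs, i, hi⟩ := hlight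
      have hact : i ∈ Q.act := by
        by_contra hcon
        rw [look_eq_empty Q hcon] at hi
        simp only [pm, Finset.sum_empty] at hi
        rw [ex_const] at hi
        linarith
      have hcard : ∀ b, (Q.set i b).act.card ≤ n := by
        intro b
        have h1 := Finset.card_le_card (act_set Q i b)
        rw [Finset.card_erase_of_mem hact] at h1
        omega
      obtain ⟨g0, a1, a2, a3, a4⟩ := ih (Q.set i false) (hcard false)
      obtain ⟨g1, b1, b2, b3, b4⟩ := ih (Q.set i true) (hcard true)
      have hi0 : ∀ b, i ∉ (Q.set i b).act := fun b h =>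
        (Finset.mem_erase.1 (act_set Q i b h)).1 rfl
      refine ⟨fun x => if x i then g1 x else g0 x, ?_, ?_, ?_, ?_⟩
      · refine CompE.node _ _ _ i _ g0 g1 ?_ a1 b1 (a4 i (hi0 false)) (b4 i (hi0 true))
          (fun _ => rfl)
        have h1 := mag_set Q i r
        have h2 : θ ≤ ∑ s ∈ Finset.range r, ex (fun x => pm (Q.look i) (Q.state s x)) := by
          refine hi.le.trans ?_
          exact Finset.single_le_sum
            (f := fun s => ex (fun x => pm (Q.look i) (Q.state s x)))
            (fun _ _ => ex_nonneg fun _ => pm_nonneg _ _) (Finset.mem_range.2 hs)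
        have h3 : 1 + ((Q.set i false).mag r / θ + (Q.set i true).mag r / θ) / 2 =
            (θ + ((Q.set i false).mag r + (Q.set i true).mag r) / 2) / θ := by
          field_simp
        rw [h3, h1]
        apply div_le_div_of_nonneg_right _ hθ.le
        linarith
      · intro x
        dsimp only
        split_ifs
        · exact b2 x
        · exact a2 x
      · have hu : ∀ (b : Bool) (x : I → Bool),
            Function.update (flip i x) i b = Function.update x i b := by
          intro b x
          simp [flip]
        have key : ex (fun x => (Q.prob r x - (if x i then g1 x else g0 x)) ^ 2) =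
            (ex (fun x => ((Q.set i false).prob r x - g0 x) ^ 2) +
              ex (fun x => ((Q.set i true).prob r x - g1 x) ^ 2)) / 2 := by
          simp_rw [set_prob]
          rw [← ex_ite (i := i)
            (F := fun x => (Q.prob r (Function.update x i false) - g0 x) ^ 2)
            (G := fun x => (Q.prob r (Function.update x i true) - g1 x) ^ 2)
            (fun x => by rw [hu, a4 i (hi0 false)]) (fun x => by rw [hu, b4 i (hi0 true)])]
          congr 1
          funext x
          cases hx : x i with
          | true => rw [← hx, Function.update_eq_self]; simp [hx]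
          | false => rw [← hx, Function.update_eq_self]; simp [hx]
        rw [key]
        linarith
      · intro j hj x
        have hji : j ≠ i := by
          rintro rfl
          exact hj hact
        have hj' : ∀ b, j ∉ (Q.set i b).act := fun b h =>
          hj (Finset.mem_erase.1 (act_set Q i b h)).2
        dsimp only
        rw [flip_apply_of_ne hji.symm, a4 j (hj' false), b4 j (hj' true)]

/-- **The Aaronson–Ambainis inequality for quantum query algorithms.** -/
lemma aa_quantum (hp : 1 ≤ p) {r : ℕ} (hr : 1 ≤ r) (Q : Algorithm I A p) {v : ℝ} (hv : 0 < v)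
    (hvar : ex (fun x => Q.prob r x ^ 2) - ex (Q.prob r) ^ 2 = v) :
    ∃ i, v ^ 6 / (2 ^ 16 * r ^ 2 * p ^ 2 * Wf r p r r 1 ^ 4) ≤
      ex (fun x => ((Q.prob r x - Q.prob r (flip i x)) / 2) ^ 2) := by
  have hp0 : (0 : ℝ) < p := by exact_mod_cast hp
  have hr0 : (0 : ℝ) < r := by exact_mod_cast hr
  set L : ℝ := Wf r p r r 1 with hL
  have hL0 : 0 < L := by
    have h1 : Wf r p r r 0 ≤ Wf r p r r 1 := by
      unfold Wf
      refine Finset.sum_le_sum fun k _ => ?_
      have : (4 * (p : ℝ) * 0) ^ k ≤ (4 * (p : ℝ) * 1) ^ k := by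
        gcongr
        norm_num
      gcongr
    rw [Wf_zero] at h1
    linarith
  set θ : ℝ := (v / (8 * L)) ^ 2 with hθ
  have hθ0 : 0 < θ := by positivity
  have hsq : √θ = v / (8 * L) := Real.sqrt_sq (by positivity)
  have hε : 2 * √θ * L ≤ v / 4 := by
    rw [hsq]
    apply le_of_eq
    field_simp
    norm_num
  obtain ⟨g, h1, h2, h3, -⟩ := main_tree hp r hθ0 hε Q.act.card Q le_rfl
  set B : ℝ := v * θ / (2 * r * p) with hB
  have hB0 : 0 ≤ B := by positivity
  have hBK : B * (Q.mag r / θ) < v := by
    calc B * (Q.mag r / θ) ≤ B * (r * p / θ) := by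
          have := mag_le Q r
          gcongr
      _ = v / 2 := by rw [hB]; field_simp
      _ < v := by linarith
  obtain ⟨i, hi⟩ := influence_of_compE hv hvar h1 h2 h3 hB0 hBK
  refine ⟨i, le_trans (le_of_eq ?_) hi⟩
  rw [hB, hθ]
  field_simp
  norm_num

end Pool.Agent.Lib_helper8.QAA
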