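import Pool.Agent.Lib_helper8.QABDyn

/-!
# Solving the differential inequality
-/

set_option autoImplicit false
set_option linter.unusedSectionVars false

open Finset

namespace Pool.Agent.Lib_helper8.QAA

variable {I A : Type} [Fintype I] [DecidableEq I] [Fintype A] {p : ℕ}

/-- The majorant. -/
noncomputable def Wf (N p s s' : ℕ) (ρ : ℝ) : ℝ :=
  ∑ k ∈ Finset.range (N + 1), (4 * p * ρ) ^ k / (k.factorial : ℝ) * (s.choose k * s'.choose k)

lemma sum_choose (s k : ℕ) : ∑ a ∈ Finset.range s, (a.choose k : ℝ) = s.choose (k + 1) := by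
  induction s with
  | zero => simp
  | succ s ih =>
    rw [Finset.sum_range_succ, ih, Nat.choose_succ_succ]
    push_cast
    ring

lemma Wf_zero (N p s s' : ℕ) : Wf N p s s' 0 = 1 := by
  unfold Wf
  rw [Finset.sum_range_succ']
  simp

lemma hasDerivAt_Wf (N p s s' : ℕ) (hs : s ≤ N) (ρ : ℝ) :
    HasDerivAt (Wf N p s s') (4 * p * ∑ s1 ∈ Finset.range s, ∑ s2 ∈ Finset.range s',
      Wf N p s1 s2 ρ) ρ := by
  have h1 : HasDerivAt (Wf N p s s') (∑ k ∈ Finset.range (N + 1),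
      ((k : ℝ) * (4 * p * ρ) ^ (k - 1) * (4 * p)) / (k.factorial : ℝ) *
        (s.choose k * s'.choose k)) ρ := by
    unfold Wf
    apply HasDerivAt.fun_sum
    intro k _
    have h2 : HasDerivAt (fun ρ : ℝ => 4 * (p : ℝ) * ρ) (4 * p) ρ := by
      simpa using (hasDerivAt_id ρ).const_mul (4 * (p : ℝ))
    exact ((h2.pow k).div_const _).mul_const _
  refine h1.congr_deriv ?_
  have h3 : ∑ s1 ∈ Finset.range s, ∑ s2 ∈ Finset.range s', Wf N p s1 s2 ρ =
      ∑ k ∈ Finset.range (N + 1), (4 * p * ρ) ^ k / (k.factorial : ℝ) *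
        (s.choose (k + 1) * s'.choose (k + 1)) := by
    unfold Wf
    have e1 : ∀ s1 : ℕ, ∑ s2 ∈ Finset.range s', ∑ k ∈ Finset.range (N + 1),
        (4 * p * ρ) ^ k / (k.factorial : ℝ) * ((s1.choose k : ℝ) * (s2.choose k : ℝ)) =
        ∑ k ∈ Finset.range (N + 1), (4 * p * ρ) ^ k / (k.factorial : ℝ) *
        ((s1.choose k : ℝ) * (s'.choose (k + 1) : ℝ)) := by
      intro s1
      rw [Finset.sum_comm]
      refine Finset.sum_congr rfl fun k _ => ?_
      rw [← Finset.mul_sum, ← Finset.mul_sum, sum_choose]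
    simp_rw [e1]
    rw [Finset.sum_comm]
    refine Finset.sum_congr rfl fun k _ => ?_
    rw [← Finset.mul_sum, ← Finset.sum_mul, sum_choose]
  rw [h3, Finset.sum_range_succ', Finset.sum_range_succ]
  have h4 : (s.choose (N + 1) : ℝ) = 0 := by
    exact_mod_cast Nat.choose_eq_zero_of_lt (by omega)
  rw [h4]
  simp only [Nat.cast_zero, zero_mul, mul_zero, zero_div, add_zero]
  rw [Finset.mul_sum]
  refine Finset.sum_congr rfl fun k _ => ?_
  rw [Nat.factorial_succ]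
  push_cast
  have : (k.factorial : ℝ) ≠ 0 := by exact_mod_cast Nat.factorial_ne_zero k
  have hk : ((k : ℝ) + 1) ≠ 0 := by positivity
  field_simp

lemma Wf_nonneg (N p s s' : ℕ) {ρ : ℝ} (h : 0 ≤ ρ) : 0 ≤ Wf N p s s' ρ :=
  Finset.sum_nonneg fun _ _ => by positivity

/-- A comparison lemma. -/
lemma sqrt_comparison {F F' w w' : ℝ → ℝ} (hF0 : ∀ ρ ∈ Set.Icc (0 : ℝ) 1, 0 ≤ F ρ)
    (hF : ∀ ρ ∈ Set.Icc (0 : ℝ) 1, HasDerivAt F (F' ρ) ρ)
    (hw : ∀ ρ ∈ Set.Icc (0 : ℝ) 1, HasDerivAt w (w' ρ) ρ)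
    (hw0 : ∀ ρ ∈ Set.Icc (0 : ℝ) 1, 0 ≤ w' ρ)
    (hle : ∀ ρ ∈ Set.Icc (0 : ℝ) 1, F' ρ ≤ 2 * √(F ρ) * w' ρ) (h0 : √(F 0) ≤ w 0) :
    ∀ ρ ∈ Set.Icc (0 : ℝ) 1, √(F ρ) ≤ w ρ := by
  intro ρ hρ
  apply le_of_forall_pos_le_add
  intro δ hδ
  set ε := δ ^ 2 with hε
  have hε0 : 0 < ε := by positivity
  have hd : ∀ ρ ∈ Set.Icc (0 : ℝ) 1, HasDerivAt (fun ρ => √(F ρ + ε) - w ρ)
      (F' ρ / (2 * √(F ρ + ε)) - w' ρ) ρ := by
    intro ρ hρ
    have h1 : F ρ + ε ≠ 0 := by have := hF0 ρ hρ; positivity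
    exact (((hF ρ hρ).add_const ε).sqrt h1).sub (hw ρ hρ)
  have hanti : AntitoneOn (fun ρ => √(F ρ + ε) - w ρ) (Set.Icc 0 1) := by
    apply antitoneOn_of_deriv_nonpos (convex_Icc 0 1)
    · intro ρ hρ
      exact (hd ρ hρ).continuousAt.continuousWithinAt
    · intro ρ hρ
      rw [interior_Icc] at hρ
      exact (hd ρ (Set.Ioo_subset_Icc_self hρ)).differentiableAt.differentiableWithinAt
    · intro ρ hρ
      rw [interior_Icc] at hρ
      have hρ' := Set.Ioo_subset_Icc_self hρ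
      rw [(hd ρ hρ').deriv]
      have hF1 := hF0 ρ hρ'
      have hpos : 0 < √(F ρ + ε) := Real.sqrt_pos.2 (by positivity)
      have hmono : √(F ρ) ≤ √(F ρ + ε) := Real.sqrt_le_sqrt (by linarith)
      rw [sub_nonpos, div_le_iff₀ (by positivity)]
      calc F' ρ ≤ 2 * √(F ρ) * w' ρ := hle ρ hρ'
        _ ≤ 2 * √(F ρ + ε) * w' ρ := by
            have := hw0 ρ hρ'
            gcongr
        _ = w' ρ * (2 * √(F ρ + ε)) := by ring
  have h1 := hanti (Set.left_mem_Icc.2 zero_le_one) hρ hρ.1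
  dsimp only at h1
  have h2 : √(F ρ) ≤ √(F ρ + ε) := Real.sqrt_le_sqrt (by linarith)
  have h3 : √(F 0 + ε) ≤ √(F 0) + δ := by
    have hF00 := hF0 0 (Set.left_mem_Icc.2 zero_le_one)
    rw [Real.sqrt_le_left (by positivity), add_sq, Real.sq_sqrt hF00, hε]
    have : 0 ≤ 2 * √(F 0) * δ := by positivity
    linarith
  linarith

lemma choose_deriv {P : ℝ → ℝ → Prop} {S : Set ℝ} (h : ∀ ρ ∈ S, ∃ d, P ρ d) :
    ∃ D : ℝ → ℝ, ∀ ρ ∈ S, P ρ (D ρ) := by
  classical
  refine ⟨fun ρ => if hρ : ρ ∈ S then (h ρ hρ).choose else 0, fun ρ hρ => ?_⟩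
  dsimp only
  rw [dif_pos hρ]
  exact (h ρ hρ).choose_spec

/-- The collision functions are bounded by the majorant. -/
lemma sqrt_Col_le (Q : Algorithm I A p) (N : ℕ) {u : ℝ} (hu : 0 ≤ u)
    (h0 : ∀ s < N, ∀ s' < N, √(Q.Col s s' 0) ≤ u) (s : ℕ) :
    s < N → ∀ s' < N, ∀ ρ ∈ Set.Icc (0 : ℝ) 1, √(Q.Col s s' ρ) ≤ u * Wf N p s s' ρ := by
  induction s using Nat.strong_induction_on with
  | _ s ih =>
    intro hs s' hs'
    have hT : ∀ φ : EuclideanSpace ℂ A, ∑ j, pm (Q.look j) φ ≤ (p : ℝ) * ‖φ‖ ^ 2 :=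
      fun φ => sum_pm_look Q φ
    obtain ⟨D, hD⟩ := choose_deriv (S := Set.Icc (0 : ℝ) 1) fun ρ hρ =>
      deriv_Fn_le Q Q.look (by positivity : (0 : ℝ) ≤ (p : ℝ)) hT s s' hρ.1 hρ.2
    apply sqrt_comparison (F := Q.Col s s') (F' := D) (w := fun ρ => u * Wf N p s s' ρ)
      (w' := fun ρ => u * (4 * p * ∑ s1 ∈ Finset.range s, ∑ s2 ∈ Finset.range s',
        Wf N p s1 s2 ρ))
    · intro ρ hρ
      exact Fn_nonneg Q Q.look s s' hρ.1 hρ.2
    · intro ρ hρ
      exact (hD ρ hρ).1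
    · intro ρ hρ
      exact (hasDerivAt_Wf N p s s' hs.le ρ).const_mul u
    · intro ρ hρ
      have : 0 ≤ ∑ s1 ∈ Finset.range s, ∑ s2 ∈ Finset.range s', Wf N p s1 s2 ρ :=
        Finset.sum_nonneg fun _ _ => Finset.sum_nonneg fun _ _ => Wf_nonneg _ _ _ _ hρ.1
      positivity
    · intro ρ hρ
      have h1 := (hD ρ hρ).2
      have hpp : √((p : ℝ) * p) = p := Real.sqrt_mul_self (by positivity)
      rw [hpp] at h1
      have h2 : ∑ s1 ∈ Finset.range s, ∑ s2 ∈ Finset.range s', √(Q.Col s1 s2 ρ) ≤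
          u * ∑ s1 ∈ Finset.range s, ∑ s2 ∈ Finset.range s', Wf N p s1 s2 ρ := by
        rw [Finset.mul_sum]
        refine Finset.sum_le_sum fun s1 h1 => ?_
        rw [Finset.mul_sum]
        refine Finset.sum_le_sum fun s2 h2 => ?_
        have h1' := Finset.mem_range.1 h1
        have h2' := Finset.mem_range.1 h2
        exact ih s1 h1' (by omega) s2 (by omega) ρ hρ
      have h3 : (0 : ℝ) ≤ 8 * p * √(Q.Fn Q.look s s' ρ) := by positivity
      calc D ρ ≤ 8 * p * √(Q.Fn Q.look s s' ρ) *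
            ∑ s1 ∈ Finset.range s, ∑ s2 ∈ Finset.range s', √(Q.Col s1 s2 ρ) := h1
        _ ≤ 8 * p * √(Q.Fn Q.look s s' ρ) *
            (u * ∑ s1 ∈ Finset.range s, ∑ s2 ∈ Finset.range s', Wf N p s1 s2 ρ) :=
            mul_le_mul_of_nonneg_left h2 h3
        _ = 2 * √(Q.Col s s' ρ) * (u * (4 * p * ∑ s1 ∈ Finset.range s,
            ∑ s2 ∈ Finset.range s', Wf N p s1 s2 ρ)) := by
            unfold Algorithm.Col
            ring
    · show √(Q.Col s s' 0) ≤ u * Wf N p s s' 0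
      rw [Wf_zero, mul_one]
      exact h0 s hs s' hs'

lemma corr_mass_le {ρ : ℝ} (hρ : ρ ∈ Set.Icc (0 : ℝ) 1) :
    corr ρ (fun _ _ : I → Bool => (1 : ℝ)) ≤ 1 := by
  have h5 : AntitoneOn (fun ρ => corr ρ (fun _ _ : I → Bool => (1 : ℝ)))
      (Set.Icc (0 : ℝ) 1) := by
    apply antitoneOn_of_deriv_nonpos (convex_Icc 0 1)
    · intro ρ _
      exact (hasDerivAt_corr _ ρ).continuousAt.continuousWithinAt
    · intro ρ _
      exact (hasDerivAt_corr _ ρ).differentiableAt.differentiableWithinAt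
    · intro ρ hρ
      rw [interior_Icc] at hρ
      have hρ' := Set.Ioo_subset_Icc_self hρ
      rw [(hasDerivAt_corr _ ρ).deriv]
      apply Finset.sum_nonpos
      intro i _
      have h6 := dcorr_le hρ'.1 hρ'.2 i (fun _ => (1 : ℝ)) (fun _ => (1 : ℝ))
        (fun _ => 0) (fun _ => 0) (by simp) (by simp) (by simp) (by simp)
      simp only [one_mul, abs_zero, mul_zero] at h6
      refine h6.trans (le_of_eq ?_)
      unfold corr
      simp
  have h6 := h5 (Set.left_mem_Icc.2 zero_le_one) hρ hρ.1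
  dsimp only at h6
  refine h6.trans ?_
  have h7 := corr_zero (I := I) (fun _ => (1 : ℝ)) (fun _ => (1 : ℝ))
  simp only [one_mul, ex_const] at h7
  rw [h7]

/-- The variance of the acceptance probability of an algorithm with small query magnitudes. -/
lemma variance_light (Q : Algorithm I A p) (hp : 1 ≤ p) (r : ℕ) {θ : ℝ} (hθ : 0 ≤ θ)
    (hlight : ∀ s < r, ∀ j, ex (fun x => pm (Q.look j) (Q.state s x)) ≤ θ)
    (hsum : ∀ s, ∑ j, ex (fun x => pm (Q.look j) (Q.state s x)) ≤ p)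
    (hle1 : ∀ x, pm Q.accept (Q.state r x) ≤ 1) :
    ex (fun x => Q.prob r x ^ 2) - ex (Q.prob r) ^ 2 ≤ 2 * √θ * Wf r p r r 1 := by
  have hp0 : (0 : ℝ) < p := by exact_mod_cast hp
  have hCol0 : ∀ s < r, ∀ s' < r, √(Q.Col s s' 0) ≤ √(p * θ) := by
    intro s hs s' _
    apply Real.sqrt_le_sqrt
    unfold Algorithm.Col Algorithm.Fn
    rw [corr_sum]
    simp_rw [corr_zero]
    calc ∑ j, ex (fun x => pm (Q.look j) (Q.state s x)) *
          ex (fun x => pm (Q.look j) (Q.state s' x))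
        ≤ ∑ j, θ * ex (fun x => pm (Q.look j) (Q.state s' x)) := by
          refine Finset.sum_le_sum fun j _ => ?_
          exact mul_le_mul_of_nonneg_right (hlight s hs j) (ex_nonneg fun x => pm_nonneg _ _)
      _ = θ * ∑ j, ex (fun x => pm (Q.look j) (Q.state s' x)) := by rw [Finset.mul_sum]
      _ ≤ θ * p := mul_le_mul_of_nonneg_left (hsum s') hθ
      _ = p * θ := mul_comm _ _
  have hCol := sqrt_Col_le Q r (Real.sqrt_nonneg _) hCol0
  set T : Unit → Finset A := fun _ => Q.accept with hTdef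
  have hT : ∀ φ : EuclideanSpace ℂ A, ∑ j, pm (T j) φ ≤ (1 : ℝ) * ‖φ‖ ^ 2 := by
    intro φ
    simp only [hTdef, Finset.univ_unique, Finset.sum_singleton, one_mul]
    exact pm_le _ _
  obtain ⟨D, hD⟩ := choose_deriv (S := Set.Icc (0 : ℝ) 1) fun ρ hρ =>
    deriv_Fn_le Q T zero_le_one hT r r hρ.1 hρ.2
  have hF1 : Q.Fn T r r 1 = ex (fun x => Q.prob r x ^ 2) := by
    unfold Algorithm.Fn
    rw [corr_one]
    congr 1
    funext x
    simp only [hTdef, Finset.univ_unique, Finset.sum_singleton]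
    rw [← sq]
    rfl
  have hF0 : Q.Fn T r r 0 = ex (Q.prob r) ^ 2 := by
    unfold Algorithm.Fn
    simp only [hTdef, Finset.univ_unique, Finset.sum_singleton]
    rw [corr_zero (fun x => pm Q.accept (Q.state r x)) (fun x => pm Q.accept (Q.state r x)), ← sq]
    rfl
  set c : ℝ := 2 * √(p * θ) / √p with hc
  have hsp : 0 < √(p : ℝ) := Real.sqrt_pos.2 hp0
  have hc0 : 0 ≤ c := by positivity
  have hd : ∀ ρ ∈ Set.Icc (0 : ℝ) 1, HasDerivAt (fun ρ => Q.Fn T r r ρ - c * Wf r p r r ρ)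
      (D ρ - c * (4 * p * ∑ s1 ∈ Finset.range r, ∑ s2 ∈ Finset.range r,
        Wf r p s1 s2 ρ)) ρ := fun ρ hρ =>
    (hD ρ hρ).1.sub ((hasDerivAt_Wf r p r r le_rfl ρ).const_mul c)
  have hanti : AntitoneOn (fun ρ => Q.Fn T r r ρ - c * Wf r p r r ρ) (Set.Icc 0 1) := by
    apply antitoneOn_of_deriv_nonpos (convex_Icc 0 1)
    · intro ρ hρ
      exact (hd ρ hρ).continuousAt.continuousWithinAt
    · intro ρ hρ
      rw [interior_Icc] at hρ
      exact (hd ρ (Set.Ioo_subset_Icc_self hρ)).differentiableAt.differentiableWithinAt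
    · intro ρ hρ
      rw [interior_Icc] at hρ
      have hρ' := Set.Ioo_subset_Icc_self hρ
      rw [(hd ρ hρ').deriv, sub_nonpos]
      have h1 := (hD ρ hρ').2
      rw [mul_one] at h1
      have h2 : ∑ s1 ∈ Finset.range r, ∑ s2 ∈ Finset.range r, √(Q.Col s1 s2 ρ) ≤
          √(p * θ) * ∑ s1 ∈ Finset.range r, ∑ s2 ∈ Finset.range r, Wf r p s1 s2 ρ := by
        rw [Finset.mul_sum]
        refine Finset.sum_le_sum fun s1 h1 => ?_
        rw [Finset.mul_sum]
        refine Finset.sum_le_sum fun s2 h2 => ?_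
        exact hCol s1 (Finset.mem_range.1 h1) s2 (Finset.mem_range.1 h2) ρ hρ'
      have h3 : √(Q.Fn T r r ρ) ≤ 1 := by
        rw [show (1 : ℝ) = √1 by simp]
        apply Real.sqrt_le_sqrt
        have h4 : Q.Fn T r r ρ ≤ corr ρ (fun _ _ : I → Bool => (1 : ℝ)) := by
          apply corr_mono hρ'.1 hρ'.2
          intro x y
          simp only [hTdef, Finset.univ_unique, Finset.sum_singleton]
          exact mul_le_one₀ (hle1 x) (pm_nonneg _ _) (hle1 y)
        exact h4.trans (corr_mass_le (I := I) hρ')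
      have h4 : 0 ≤ ∑ s1 ∈ Finset.range r, ∑ s2 ∈ Finset.range r, √(Q.Col s1 s2 ρ) :=
        Finset.sum_nonneg fun _ _ => Finset.sum_nonneg fun _ _ => Real.sqrt_nonneg _
      have h5 : 8 * √(p : ℝ) * √(Q.Fn T r r ρ) ≤ 8 * √(p : ℝ) * 1 :=
        mul_le_mul_of_nonneg_left h3 (by positivity)
      refine h1.trans ((mul_le_mul_of_nonneg_right h5 h4).trans
        ((mul_le_mul_of_nonneg_left h2 (by positivity)).trans (le_of_eq ?_)))
      have hpsq : √(p : ℝ) * √(p : ℝ) = p := Real.mul_self_sqrt hp0.le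
      have hc' : c * (4 * p) = 8 * √(p : ℝ) * √(p * θ) := by
        rw [hc, ← hpsq]
        rw [hpsq]
        rw [div_mul_eq_mul_div, div_eq_iff hsp.ne']
        calc 2 * √(p * θ) * (4 * (p : ℝ)) = 8 * √(p * θ) * (√(p : ℝ) * √(p : ℝ)) := by
              rw [hpsq]; ring
          _ = _ := by ring
      rw [← mul_assoc c, hc']
      ring
  have h1 := hanti (Set.left_mem_Icc.2 zero_le_one) (Set.right_mem_Icc.2 zero_le_one) zero_le_one
  dsimp only at h1
  rw [hF1, hF0, Wf_zero, mul_one] at h1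
  have h2 : c = 2 * √θ := by
    rw [hc, Real.sqrt_mul hp0.le]
    field_simp
  rw [h2] at h1
  have h3 : 0 ≤ 2 * √θ := by positivity
  linarith

end Pool.Agent.Lib_helper8.QAA
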